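import Mathlib

set_option linter.all false
set_option autoImplicit false

/-!
# Determinants of positive matrices (MP_2dd521_co)
-/

namespace Pool.Agent.helper97.PER

open Finset Function
open scoped Real Topology Matrix ComplexConjugate ComplexOrder

variable {ι : Type*} [Fintype ι] [DecidableEq ι]

theorem det_one_add_eq (D : Matrix ι ι ℂ) (hD : D.IsHermitian) :
    (1 + D).det = ((∏ i, (1 + hD.eigenvalues i) : ℝ) : ℂ) := by
  have h := hD.spectral_theorem
  rw [Unitary.conjStarAlgAut_apply] at h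
  set U : Matrix ι ι ℂ := (hD.eigenvectorUnitary : Matrix ι ι ℂ) with hU
  have hUU : U * star U = 1 := Unitary.mul_star_self_of_mem hD.eigenvectorUnitary.2
  have e : 1 + D = U * (1 + Matrix.diagonal (RCLike.ofReal ∘ hD.eigenvalues)) * star U := by
    rw [mul_add, mul_one, add_mul, hUU]
    conv_lhs => rw [h]
  rw [e, Matrix.det_mul, Matrix.det_mul, mul_right_comm, ← Matrix.det_mul, hUU, Matrix.det_one,
    one_mul]
  have e2 : (1 : Matrix ι ι ℂ) + Matrix.diagonal (RCLike.ofReal ∘ hD.eigenvalues) =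
      Matrix.diagonal (fun i => 1 + (hD.eigenvalues i : ℂ)) := by
    rw [← Matrix.diagonal_one, Matrix.diagonal_add]
    rfl
  rw [e2, Matrix.det_diagonal]
  push_cast
  rfl

theorem one_le_det (D : Matrix ι ι ℂ) (hD : D.PosSemidef) : 1 ≤ (1 + D).det := by
  rw [det_one_add_eq D hD.1]
  have h : (1 : ℝ) ≤ ∏ i, (1 + hD.1.eigenvalues i) := by
    have h1 := Finset.prod_le_prod (s := Finset.univ) (f := fun _ : ι => (1 : ℝ))
      (g := fun i => 1 + hD.1.eigenvalues i) (fun i _ => zero_le_one)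
      (fun i _ => by have := hD.eigenvalues_nonneg i; linarith)
    simpa using h1
  exact_mod_cast h

section factor
open scoped MatrixOrder Matrix.Norms.L2Operator

theorem exists_fac' {A : Matrix ι ι ℂ} (hA : A.PosSemidef) : ∃ C : Matrix ι ι ℂ, A = Cᴴ * C := by
  obtain ⟨a, rfl⟩ := CStarAlgebra.nonneg_iff_eq_star_mul_self.mp hA.nonneg
  exact ⟨a, rfl⟩

end factor

/-- factorization of a positive definite matrix, and conjugation to the identity -/
theorem exists_fac_inv {A : Matrix ι ι ℂ} (hA : A.PosDef) :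
    ∃ C Ci : Matrix ι ι ℂ, A = Cᴴ * C ∧ Ci * C = 1 ∧ C * Ci = 1 := by
  obtain ⟨C, hC⟩ := exists_fac' hA.posSemidef
  have h1 : A.det ≠ 0 := hA.det_pos.ne'
  have h2 : IsUnit C.det := by
    rw [isUnit_iff_ne_zero]
    intro h0
    apply h1
    rw [hC, Matrix.det_mul, h0, mul_zero]
  exact ⟨C, C⁻¹, hC, Matrix.nonsing_inv_mul C h2, Matrix.mul_nonsing_inv C h2⟩

/-- the determinant is monotone -/
theorem det_mono (P D : Matrix ι ι ℂ) (hP : P.PosDef) (hD : D.PosSemidef) :
    P.det ≤ (P + D).det := by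
  obtain ⟨C, Ci, hC, h1, h2⟩ := exists_fac_inv hP
  have h3 : (Ciᴴ * D * Ci).PosSemidef := hD.conjTranspose_mul_mul_same Ci
  have h4 : P + D = Cᴴ * (1 + Ciᴴ * D * Ci) * C := by
    have h5 : Cᴴ * Ciᴴ = 1 := by rw [← Matrix.conjTranspose_mul, h1, Matrix.conjTranspose_one]
    calc P + D = Cᴴ * C + (Cᴴ * Ciᴴ) * D * (Ci * C) := by
          rw [h5, h1, Matrix.one_mul, Matrix.mul_one, hC]
      _ = _ := by noncomm_ring
  have h5 : (P + D).det = P.det * (1 + Ciᴴ * D * Ci).det := by
    rw [h4, Matrix.det_mul, Matrix.det_mul, mul_right_comm, ← Matrix.det_mul, ← hC]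
  rw [h5]
  exact le_mul_of_one_le_right hP.det_pos.le (one_le_det _ h3)

/-- the determinant of a Hermitian matrix and of its real part -/
theorem det_le_re (V : Matrix ι ι ℂ) (hV : V.PosDef) :
    V.det ≤ (V.map (fun z => ((z.re : ℝ) : ℂ))).det := by
  obtain ⟨C, Ci, hC, h1, h2⟩ := exists_fac_inv hV
  have hVt : (Vᵀ).PosDef := hV.transpose
  have hL : (Ciᴴ * Vᵀ * Ci).PosDef := by
    refine hVt.conjTranspose_mul_mul_same ?_
    intro x y hxy
    have : C *ᵥ (Ci *ᵥ x) = C *ᵥ (Ci *ᵥ y) := by rw [hxy]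
    rw [Matrix.mulVec_mulVec, Matrix.mulVec_mulVec, h2, Matrix.one_mulVec, Matrix.one_mulVec] at this
    exact this
  set L := Ciᴴ * Vᵀ * Ci with hLdef
  have h5 : Cᴴ * Ciᴴ = 1 := by rw [← Matrix.conjTranspose_mul, h1, Matrix.conjTranspose_one]
  have h6 : V + Vᵀ = Cᴴ * (1 + L) * C := by
    calc V + Vᵀ = Cᴴ * C + (Cᴴ * Ciᴴ) * Vᵀ * (Ci * C) := by
          rw [h5, h1, Matrix.one_mul, Matrix.mul_one, ← hC]
      _ = _ := by rw [hLdef]; noncomm_ring
  have h7 : (2 : ℂ) • (V.map (fun z => ((z.re : ℝ) : ℂ))) = V + Vᵀ := by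
    ext i j
    simp only [Matrix.smul_apply, Matrix.map_apply, Matrix.add_apply, Matrix.transpose_apply,
      smul_eq_mul]
    have h8 : V j i = conj (V i j) := (hV.1.apply j i).symm
    rw [h8, Complex.add_conj]
    push_cast
    ring
  have h8 : (2 : ℂ) ^ Fintype.card ι * (V.map (fun z => ((z.re : ℝ) : ℂ))).det =
      V.det * (1 + L).det := by
    rw [← Matrix.det_smul, h7, h6, Matrix.det_mul, Matrix.det_mul, mul_right_comm,
      ← Matrix.det_mul, ← hC]
  have h9 : L.det = 1 := by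
    have h10 : Vᵀ = Cᴴ * L * C := by
      calc Vᵀ = (Cᴴ * Ciᴴ) * Vᵀ * (Ci * C) := by
            rw [h5, h1, Matrix.one_mul, Matrix.mul_one]
        _ = _ := by rw [hLdef]; noncomm_ring
    have h11 : V.det = V.det * L.det := by
      conv_lhs => rw [← Matrix.det_transpose, h10]
      rw [Matrix.det_mul, Matrix.det_mul, mul_right_comm, ← Matrix.det_mul, ← hC]
    have h12 : V.det ≠ 0 := hV.det_pos.ne'
    have h13 : V.det * (L.det - 1) = 0 := by linear_combination (-1 : ℂ) * h11
    have := (mul_eq_zero.1 h13).resolve_left h12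
    linear_combination this
  have h10 : (2 : ℝ) ^ Fintype.card ι ≤ ∏ i, (1 + hL.1.eigenvalues i) := by
    have hpos : ∀ i, 0 < hL.1.eigenvalues i := fun i => hL.eigenvalues_pos i
    have h11 : ∏ i, hL.1.eigenvalues i = 1 := by
      have h12 := hL.1.det_eq_prod_eigenvalues
      rw [h9] at h12
      have h13 : ((∏ i, hL.1.eigenvalues i : ℝ) : ℂ) = ((1 : ℝ) : ℂ) := by
        push_cast
        exact h12.symm
      exact_mod_cast h13
    have h12 : ∏ i, (2 * Real.sqrt (hL.1.eigenvalues i)) ≤ ∏ i, (1 + hL.1.eigenvalues i) := by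
      refine Finset.prod_le_prod (fun i _ => by positivity) (fun i _ => ?_)
      have h13 := Real.mul_self_sqrt (hpos i).le
      nlinarith [sq_nonneg (1 - Real.sqrt (hL.1.eigenvalues i))]
    rw [Finset.prod_mul_distrib, Finset.prod_const, Finset.card_univ] at h12
    have h13 : ∏ i, Real.sqrt (hL.1.eigenvalues i) = 1 := by
      rw [← Real.sqrt_prod _ (fun i _ => (hpos i).le), h11, Real.sqrt_one]
    rw [h13, mul_one] at h12
    exact h12
  have h11 : (2 : ℂ) ^ Fintype.card ι ≤ (1 + L).det := by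
    rw [det_one_add_eq L hL.1]
    exact_mod_cast h10
  have h12 : (2 : ℂ) ^ Fintype.card ι * V.det ≤
      (2 : ℂ) ^ Fintype.card ι * (V.map (fun z => ((z.re : ℝ) : ℂ))).det := by
    rw [h8, mul_comm]
    exact mul_le_mul_of_nonneg_left h11 hV.det_pos.le
  have h13 : (0 : ℂ) < (2 : ℂ) ^ Fintype.card ι := by
    have : (0 : ℝ) < (2 : ℝ) ^ Fintype.card ι := by positivity
    exact_mod_cast this
  exact le_of_mul_le_mul_left h12 h13

end Pool.Agent.helper97.PER
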