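import Pool.Agent.helper97.PER.D1

set_option linter.all false
set_option autoImplicit false

/-!
# The determinant bound (MP_2dd521_co)
-/

namespace Pool.Agent.helper97.PER

open Finset Function
open scoped Real Topology Matrix ComplexConjugate ComplexOrder

variable {ι : Type*} [Fintype ι] [DecidableEq ι]

/-- `|det (H + iB)|² ≤ det(H)² ∏ (1 + b_i²)` for `H = 1 + V`, `V ≥ 0` -/
theorem det_bound1 (V : Matrix ι ι ℂ) (hV : V.PosSemidef) (b : ι → ℝ) :
    ‖((1 + V) + Complex.I • Matrix.diagonal (fun i => (b i : ℂ))).det‖ ^ 2 ≤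
      (1 + V).det.re ^ 2 * ∏ i, (1 + b i ^ 2) := by
  set H : Matrix ι ι ℂ := 1 + V with hH
  have hHp : H.PosDef := Matrix.PosDef.one.add_posSemidef hV
  set B : Matrix ι ι ℂ := Matrix.diagonal (fun i => (b i : ℂ)) with hB
  have hBh : Bᴴ = B := by
    rw [hB, Matrix.diagonal_conjTranspose]
    congr 1
    funext i
    simp
  have hHh : Hᴴ = H := hHp.1
  have hdet : H.det ≠ 0 := hHp.det_pos.ne'
  have hu : IsUnit H.det := isUnit_iff_ne_zero.2 hdet
  have h1 : H * H⁻¹ = 1 := Matrix.mul_nonsing_inv H hu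
  have h2 : H⁻¹ * H = 1 := Matrix.nonsing_inv_mul H hu
  have hHi : (H⁻¹).PosDef := hHp.inv
  have hHih : (H⁻¹)ᴴ = H⁻¹ := hHi.1
  -- the defect
  have hD1 : (1 - H⁻¹).PosSemidef := by
    have h3 : (V + Vᴴ * V).PosSemidef := hV.add (Matrix.posSemidef_conjTranspose_mul_self V)
    have h4 := h3.conjTranspose_mul_mul_same H⁻¹
    have h5 : (H⁻¹)ᴴ * (V + Vᴴ * V) * H⁻¹ = 1 - H⁻¹ := by
      have hVh : Vᴴ = V := hV.1
      rw [hHih, hVh]
      have h6 : V + V * V = V * H := by rw [hH, mul_add, mul_one]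
      have h7 : V = H - 1 := by rw [hH, add_sub_cancel_left]
      rw [h6]
      calc H⁻¹ * (V * H) * H⁻¹ = H⁻¹ * V * (H * H⁻¹) := by noncomm_ring
        _ = H⁻¹ * (H - 1) := by rw [h1, mul_one, h7]
        _ = _ := by rw [mul_sub, h2, mul_one]
    rw [h5] at h4
    exact h4
  have hD : (B * (1 - H⁻¹) * B).PosSemidef := by
    have h3 := hD1.conjTranspose_mul_mul_same B
    rw [hBh] at h3
    exact h3
  have hBB : (B * H⁻¹ * B).PosSemidef := by
    have h3 := hHi.posSemidef.conjTranspose_mul_mul_same B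
    rw [hBh] at h3
    exact h3
  have hsum : B * H⁻¹ * B + B * (1 - H⁻¹) * B = B * B := by noncomm_ring
  -- the identity
  set X : Matrix ι ι ℂ := H + Complex.I • B with hX
  have hXh : Xᴴ = H - Complex.I • B := by
    rw [hX, Matrix.conjTranspose_add, Matrix.conjTranspose_smul, hHh, hBh]
    simp [sub_eq_add_neg]
  have h3 : X * H⁻¹ * Xᴴ = H + B * H⁻¹ * B := by
    rw [hXh, hX]
    have e1 : (H + Complex.I • B) * H⁻¹ = 1 + Complex.I • (B * H⁻¹) := by
      rw [add_mul, h1, smul_mul_assoc]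
    have e2 : B * H⁻¹ * H = B := by rw [mul_assoc, h2, mul_one]
    rw [e1, mul_sub, add_mul, add_mul, one_mul, one_mul, smul_mul_assoc, smul_mul_assoc,
      mul_smul_comm, e2, smul_smul, Complex.I_mul_I]
    module
  have h4 : X.det * conj X.det = H.det * (H + B * H⁻¹ * B).det := by
    rw [← h3, Matrix.det_mul, Matrix.det_mul, Matrix.det_conjTranspose]
    have e : H.det * (H⁻¹).det = 1 := by rw [← Matrix.det_mul, h1, Matrix.det_one]
    calc X.det * conj X.det = (H.det * (H⁻¹).det) * (X.det * conj X.det) := by rw [e, one_mul]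
      _ = _ := by rw [Complex.star_def]; ring
  have h5 : (H + B * H⁻¹ * B).det ≤ (H + B * B).det := by
    have := det_mono (H + B * H⁻¹ * B) (B * (1 - H⁻¹) * B) (hHp.add_posSemidef hBB) hD
    rwa [add_assoc H, hsum] at this
  have h6 : (H + B * B).det = H.det * (1 + B * (H⁻¹ * B)).det := by
    rw [← Matrix.det_one_add_mul_comm, ← Matrix.det_mul]
    congr 1
    rw [mul_add, mul_one, mul_assoc, ← mul_assoc H, h1, one_mul]
  have h7 : (1 + B * (H⁻¹ * B)).det ≤ (1 + B * B).det := by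
    have := det_mono (1 + B * H⁻¹ * B) (B * (1 - H⁻¹) * B)
      (Matrix.PosDef.one.add_posSemidef hBB) hD
    rw [add_assoc, hsum] at this
    rwa [mul_assoc] at this
  have h8 : (1 + B * B).det = ((∏ i, (1 + b i ^ 2) : ℝ) : ℂ) := by
    rw [hB, Matrix.diagonal_mul_diagonal, ← Matrix.diagonal_one, Matrix.diagonal_add,
      Matrix.det_diagonal]
    push_cast
    refine Finset.prod_congr rfl (fun i _ => ?_)
    ring
  have hHr : H.det = ((H.det.re : ℝ) : ℂ) ∧ 0 < H.det.re := by
    have h9 := Complex.lt_def.1 hHp.det_pos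
    simp only [Complex.zero_re, Complex.zero_im] at h9
    refine ⟨?_, h9.1⟩
    apply Complex.ext
    · simp
    · simp [← h9.2]
  have h9 : X.det * conj X.det ≤ ((H.det.re ^ 2 * ∏ i, (1 + b i ^ 2) : ℝ) : ℂ) := by
    rw [h4]
    calc H.det * (H + B * H⁻¹ * B).det ≤ H.det * (H.det * (1 + B * B).det) := by
          refine mul_le_mul_of_nonneg_left ?_ hHp.det_pos.le
          refine h5.trans ?_
          rw [h6]
          exact mul_le_mul_of_nonneg_left h7 hHp.det_pos.le
      _ = _ := by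
          rw [h8]
          conv_lhs => rw [hHr.1]
          push_cast
          ring
  rw [Complex.mul_conj, Complex.normSq_eq_norm_sq] at h9
  exact_mod_cast h9

/-- the bound used on the cycle -/
theorem det_bound (V : Matrix ι ι ℂ) (hV : V.PosSemidef) (b : ι → ℝ) :
    ‖((1 + V) + Complex.I • Matrix.diagonal (fun i => (b i : ℂ))).det‖ ≤
      ((1 + V).map (fun z => ((z.re : ℝ) : ℂ))).det.re * ∏ i, Real.sqrt (1 + b i ^ 2) := by
  have h1 := det_bound1 V hV b
  have hHp : (1 + V).PosDef := Matrix.PosDef.one.add_posSemidef hV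
  have h2 := (Complex.le_def.1 (det_le_re (1 + V) hHp)).1
  have h3 : 0 < (1 + V).det.re := by
    have h9 := Complex.lt_def.1 hHp.det_pos
    exact h9.1
  have h4 : (∏ i, Real.sqrt (1 + b i ^ 2)) ^ 2 = ∏ i, (1 + b i ^ 2) := by
    rw [← Finset.prod_pow]
    refine Finset.prod_congr rfl (fun i _ => ?_)
    rw [Real.sq_sqrt (by positivity)]
  have h5 : 0 ≤ ∏ i, Real.sqrt (1 + b i ^ 2) := Finset.prod_nonneg (fun i _ => Real.sqrt_nonneg _)
  have h6 : ‖((1 + V) + Complex.I • Matrix.diagonal (fun i => (b i : ℂ))).det‖ ≤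
      (1 + V).det.re * ∏ i, Real.sqrt (1 + b i ^ 2) := by
    refine abs_le_of_sq_le_sq' ?_ (by positivity) |>.2
    rw [mul_pow, h4]
    exact h1
  exact h6.trans (mul_le_mul_of_nonneg_right h2 h5)

end Pool.Agent.helper97.PER
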