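import Pool.Agent.helper97.PER.S9

set_option linter.all false
set_option autoImplicit false

/-!
# The gain from small rank (MP_2dd521_co)
-/

namespace Pool.Agent.helper97.PER

open MeasureTheory Finset Function
open scoped Real Topology Matrix ComplexConjugate ContDiff ComplexOrder
open Pool.Agent.helper80.LSZ (kron1 kron1_one xr yr RR W RR_eq W_zero W_cast xy_integrable gr_nonneg
  gr xr_nonneg yr_nonneg pf gram)

section

variable {ι κ : Type*} [Fintype ι] [DecidableEq ι] [Fintype κ] [DecidableEq κ]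

theorem xr_eq (L : ι → κ → ℂ) (z : κ → ℂ) : xr L z = ∏ i, ‖lf L z i‖ ^ 2 := by
  unfold xr pf lf
  rw [Complex.normSq_eq_norm_sq, norm_prod, Finset.prod_pow]

theorem yr_eq (z : κ → ℂ) : yr z = ns z := by
  unfold yr ns
  refine Finset.sum_congr rfl (fun i _ => ?_)
  rw [Complex.normSq_eq_norm_sq]

theorem W_one_eq (L : ι → κ → ℂ) : W L 1 = (gm L).permanent.re := by
  have h := W_cast L 1
  have h2 : (gram 1 L).permanent = (gm L).permanent := by
    have e : gram 1 L = kron1 1 (gm L) := by
      ext p q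
      simp [kron1, gram, gm, Matrix.kronecker, Matrix.kroneckerMap_apply]
    rw [e, kron1_one]
  rw [h2] at h
  rw [← h, Complex.ofReal_re]

theorem W_eq_re (L : ι → κ → ℂ) (k : ℕ) : W L k = (kron1 k (gm L)).permanent.re := by
  have h := W_cast L k
  have e : gram k L = kron1 k (gm L) := by
    ext p q
    simp [kron1, gram, gm, Matrix.kronecker, Matrix.kroneckerMap_apply]
  rw [e] at h
  rw [← h, Complex.ofReal_re]

/-- averaging over the sphere -/
theorem perm_le_rank (L : ι → κ → ℂ) (R : ℝ) (hL : PB L R) :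
    (gm L).permanent.re * (Fintype.card ι : ℝ) ^ Fintype.card ι ≤
      R * (((Fintype.card κ).ascFactorial (Fintype.card ι) : ℕ) : ℝ) := by
  set n := Fintype.card ι with hn
  have h1 : RR L 1 0 = (gm L).permanent.re := by
    rw [RR_eq, W_one_eq]; simp
  have h2 : RR L 0 n = (((Fintype.card κ).ascFactorial n : ℕ) : ℝ) := by
    rw [RR_eq, W_zero]; simp
  rw [← h1, ← h2]
  unfold RR
  rw [← integral_mul_const, ← integral_const_mul]
  refine integral_mono ?_ ?_ ?_
  · exact (xy_integrable L 1 0).mul_const _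
  · exact (xy_integrable L 0 n).const_mul _
  · intro z
    show xr L z ^ 1 * yr z ^ 0 * gr z * (n : ℝ) ^ n ≤ R * (xr L z ^ 0 * yr z ^ n * gr z)
    have h3 := hL z
    rw [← hn] at h3
    rw [xr_eq, yr_eq]
    have h4 := mul_le_mul_of_nonneg_right h3 (gr_nonneg z)
    calc _ = (∏ i, ‖lf L z i‖ ^ 2) * (n : ℝ) ^ n * gr z := by ring
      _ ≤ _ := h4
      _ = _ := by ring

/-- the two bounds together -/
theorem perm_le_min (L : ι → κ → ℂ) (R : ℝ) (hR : 0 ≤ R) (hL : PB L R) :
    (gm L).permanent.re * (Fintype.card ι : ℝ) ^ Fintype.card ι ≤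
      R * ((min (Fintype.card ι ^ Fintype.card ι)
        ((Fintype.card κ).ascFactorial (Fintype.card ι)) : ℕ) : ℝ) := by
  rcases le_total (Fintype.card ι ^ Fintype.card ι)
    ((Fintype.card κ).ascFactorial (Fintype.card ι)) with h | h
  · rw [min_eq_left h]
    have h1 := perm_le L R hR hL 1
    rw [kron1_one, perm_norm _ (gm_psd L)] at h1
    simp only [pow_one, Nat.factorial_one, Nat.cast_one, one_pow, one_mul] at h1
    push_cast
    exact mul_le_mul_of_nonneg_right h1 (by positivity)
  · rw [min_eq_right h]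
    exact perm_le_rank L R hL

/-- the same for `p`-th powers -/
theorem root_min (L : ι → κ → ℂ) (c D : ℝ) (hc : 0 ≤ c) (hD : 0 ≤ D) (p : ℕ) (hp : 0 < p)
    (h : ∀ z : κ → ℂ, c * (∏ i, ‖lf L z i‖ ^ 2) ^ p ≤ D * (ns z ^ Fintype.card ι) ^ p) :
    c * (gm L).permanent.re ^ p ≤ ((min (Fintype.card ι ^ Fintype.card ι)
        ((Fintype.card κ).ascFactorial (Fintype.card ι)) : ℕ) : ℝ) ^ p * D := by
  set n := Fintype.card ι with hn
  set om : ℕ := min (n ^ n) ((Fintype.card κ).ascFactorial n) with hom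
  have hper := (gm_perm_nonneg L).1
  rcases eq_or_lt_of_le hc with hc0 | hc0
  · rw [← hc0, zero_mul]
    positivity
  · set q : ℝ := (D / c) ^ ((p : ℝ)⁻¹) with hq
    have hDc : 0 ≤ D / c := by positivity
    have hq0 : 0 ≤ q := Real.rpow_nonneg hDc _
    have hqp : q ^ p = D / c := Real.rpow_inv_natCast_pow hDc hp.ne'
    have hPB : PB L ((n : ℝ) ^ n * q) := by
      intro z
      have h1 := h z
      have h2 : (∏ i, ‖lf L z i‖ ^ 2) ^ p ≤ (q * ns z ^ n) ^ p := by
        rw [mul_pow, hqp, div_mul_eq_mul_div, le_div_iff₀ hc0]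
        linarith
      have h3 : ∏ i, ‖lf L z i‖ ^ 2 ≤ q * ns z ^ n :=
        le_of_pow_le_pow_left₀ hp.ne' (mul_nonneg hq0 (pow_nonneg (ns_nonneg z) _)) h2
      calc _ ≤ (q * ns z ^ n) * (n : ℝ) ^ n := mul_le_mul_of_nonneg_right h3 (by positivity)
        _ = _ := by ring
    have h1 := perm_le_min L _ (by positivity) hPB
    rw [← hn, ← hom] at h1
    have hnn : (0 : ℝ) < (n : ℝ) ^ n := by
      rcases Nat.eq_zero_or_pos n with h | h
      · rw [h]; simp
      · have : (0 : ℝ) < n := by exact_mod_cast h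
        positivity
    have h2 : (gm L).permanent.re ≤ q * (om : ℝ) := by
      refine le_of_mul_le_mul_right ?_ hnn
      linarith
    have h3 := pow_le_pow_left₀ hper h2 p
    rw [mul_pow, hqp] at h3
    calc c * (gm L).permanent.re ^ p ≤ c * (D / c * (om : ℝ) ^ p) :=
          mul_le_mul_of_nonneg_left h3 hc
      _ = _ := by field_simp

end

/-- the general inequality for Gram matrices -/
theorem gen_gram {ι κ κ₁ κ₂ : Type*} [Fintype ι] [DecidableEq ι] [Fintype κ] [DecidableEq κ]
    [Fintype κ₁] [DecidableEq κ₁] [Fintype κ₂] [DecidableEq κ₂]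
    (k : ℕ) (hk : 0 < k) (L : ι → κ₁ → ℂ) (L' : κ → κ₂ → ℂ)
    (hn : 0 < Fintype.card ι) (hm : 0 < Fintype.card κ) :
    ((k * (Fintype.card ι * Fintype.card κ)).factorial : ℝ) *
      ((gm L).permanent.re ^ (k * Fintype.card κ) * (gm L').permanent.re ^ (k * Fintype.card ι)) ≤
      ((min (Fintype.card ι ^ Fintype.card ι)
        ((Fintype.card κ₁).ascFactorial (Fintype.card ι)) : ℕ) : ℝ) ^ (k * Fintype.card κ) *
      ((min (Fintype.card κ ^ Fintype.card κ)
        ((Fintype.card κ₂).ascFactorial (Fintype.card κ)) : ℕ) : ℝ) ^ (k * Fintype.card ι) *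
        (kron1 k (Matrix.kronecker (gm L) (gm L'))).permanent.re := by
  set n := Fintype.card ι with hn'
  set m := Fintype.card κ with hm'
  set P := (kron1 k (Matrix.kronecker (gm L) (gm L'))).permanent.re with hPdef
  have hP : 0 ≤ P := by
    rw [hPdef, ← gm_LC]
    exact (gm_perm_nonneg _).1
  have hfac : (0 : ℝ) ≤ ((k * (n * m)).factorial : ℝ) := Nat.cast_nonneg _
  have h1 : ∀ w : κ₂ → ℂ, (((k * (n * m)).factorial : ℝ) * (gm L).permanent.re ^ (k * m)) *
      (∏ j, ‖lf L' w j‖ ^ 2) ^ (k * n) ≤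
      (((min (n ^ n) ((Fintype.card κ₁).ascFactorial n) : ℕ) : ℝ) ^ (k * m) * P) *
        (ns w ^ m) ^ (k * n) := by
    intro w
    have h := root_min L (((k * (n * m)).factorial : ℝ) * (∏ j, ‖lf L' w j‖ ^ 2) ^ (k * n))
      (P * (ns w ^ m) ^ (k * n))
      (mul_nonneg hfac (pow_nonneg (Finset.prod_nonneg (fun j _ => by positivity)) _))
      (mul_nonneg hP (pow_nonneg (pow_nonneg (ns_nonneg w) _) _)) (k * m) (Nat.mul_pos hk hm) (by
        intro z
        have h1 := lower_tensor k L L' z w
        calc _ = ((k * (n * m)).factorial : ℝ) *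
          ((∏ i, ‖lf L z i‖ ^ 2) ^ (k * m) * (∏ j, ‖lf L' w j‖ ^ 2) ^ (k * n)) := by ring
          _ ≤ _ := h1
          _ = _ := by ring)
    calc _ = ((k * (n * m)).factorial : ℝ) * (∏ j, ‖lf L' w j‖ ^ 2) ^ (k * n) *
          (gm L).permanent.re ^ (k * m) := by ring
      _ ≤ _ := h
      _ = _ := by ring
  have h2 := root_min L' (((k * (n * m)).factorial : ℝ) * (gm L).permanent.re ^ (k * m))
    (((min (n ^ n) ((Fintype.card κ₁).ascFactorial n) : ℕ) : ℝ) ^ (k * m) * P) (by
      have := (gm_perm_nonneg L).1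
      positivity) (by positivity) (k * n) (Nat.mul_pos hk hn) h1
  calc _ = ((k * (n * m)).factorial : ℝ) * (gm L).permanent.re ^ (k * m) *
        (gm L').permanent.re ^ (k * n) := by ring
    _ ≤ _ := h2
    _ = _ := by ring

/-- the general inequality -/
theorem gen (n m k : ℕ) (A : Matrix (Fin n) (Fin n) ℂ) (hA : A.PosSemidef)
    (B : Matrix (Fin m) (Fin m) ℂ) (hB : B.PosSemidef) :
    (((n * m * k).factorial : ℕ) : ℂ) * (A.permanent ^ (m * k) * B.permanent ^ (n * k)) ≤
      ((min (n ^ n) (A.rank.ascFactorial n) : ℕ) : ℂ) ^ (m * k) *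
      ((min (m ^ m) (B.rank.ascFactorial m) : ℕ) : ℂ) ^ (n * k) *
        (kron1 k (Matrix.kronecker A B)).permanent := by
  obtain ⟨ha, ha0⟩ := Pool.Agent.helper16.LSZ.perm_real A hA
  obtain ⟨hb, hb0⟩ := Pool.Agent.helper16.LSZ.perm_real B hB
  obtain ⟨hp, hp0⟩ := Pool.Agent.helper16.LSZ.perm_real (kron1 k (Matrix.kronecker A B))
    (kron1_psd k _ (kron_psd A hA B hB))
  rcases Nat.eq_zero_or_pos (n * m * k) with h0 | h0
  · have hempty : IsEmpty (Fin k × (Fin n × Fin m)) := by
      rw [← Fintype.card_eq_zero_iff]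
      simp only [Fintype.card_prod, Fintype.card_fin]
      rw [← h0]; ring
    have e0 : (kron1 k (Matrix.kronecker A B)).permanent = 1 := Matrix.permanent_isEmpty
    have e3 : n = 0 ∨ m * k = 0 := by
      rw [mul_assoc] at h0
      exact Nat.mul_eq_zero.1 h0
    have e4 : m = 0 ∨ n * k = 0 := by
      have h1 : m * (n * k) = 0 := by rw [← h0]; ring
      exact Nat.mul_eq_zero.1 h1
    have e1 : A.permanent ^ (m * k) = 1 := by
      rcases e3 with hn | hn
      · rw [perm_zero n hn, one_pow]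
      · rw [hn, pow_zero]
    have e2 : B.permanent ^ (n * k) = 1 := by
      rcases e4 with hn | hn
      · rw [perm_zero m hn, one_pow]
      · rw [hn, pow_zero]
    have e5 : ((min (n ^ n) (A.rank.ascFactorial n) : ℕ) : ℂ) ^ (m * k) = 1 := by
      rcases e3 with hn | hn
      · have : min (n ^ n) (A.rank.ascFactorial n) = 1 := by
          have h1 : n ^ n = 1 := by rw [hn]; rfl
          have h2 : A.rank.ascFactorial n = 1 := by
            generalize A.rank = r
            rw [hn, Nat.ascFactorial_zero]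
          rw [h1, h2]; rfl
        rw [this]; simp
      · rw [hn, pow_zero]
    have e6 : ((min (m ^ m) (B.rank.ascFactorial m) : ℕ) : ℂ) ^ (n * k) = 1 := by
      rcases e4 with hn | hn
      · have : min (m ^ m) (B.rank.ascFactorial m) = 1 := by
          have h1 : m ^ m = 1 := by rw [hn]; rfl
          have h2 : B.rank.ascFactorial m = 1 := by
            generalize B.rank = r
            rw [hn, Nat.ascFactorial_zero]
          rw [h1, h2]; rfl
        rw [this]; simp
      · rw [hn, pow_zero]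
    rw [h0, e0, e1, e2, e5, e6]
    simp
  · have hk : 0 < k := Nat.pos_of_ne_zero (fun h => by rw [h] at h0; simp at h0)
    have hn : 0 < n := Nat.pos_of_ne_zero (fun h => by rw [h] at h0; simp at h0)
    have hm : 0 < m := Nat.pos_of_ne_zero (fun h => by rw [h] at h0; simp at h0)
    obtain ⟨L, hL⟩ := Pool.Agent.helper80.LSZ.exists_fac A hA A.rank le_rfl
    obtain ⟨L', hL'⟩ := Pool.Agent.helper80.LSZ.exists_fac B hB B.rank le_rfl
    have eA : gm L = A := by ext s t; rw [hL]; rfl
    have eB : gm L' = B := by ext s t; rw [hL']; rfl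
    have h := gen_gram k hk L L' (by rwa [Fintype.card_fin]) (by rwa [Fintype.card_fin])
    rw [eA, eB] at h
    simp only [Fintype.card_fin] at h
    have e1 : k * (n * m) = n * m * k := by ring
    have e2 : k * m = m * k := by ring
    have e3 : k * n = n * k := by ring
    rw [e1, e2, e3] at h
    rw [ha, hb, hp]
    generalize min (n ^ n) (A.rank.ascFactorial n) = u at h ⊢
    generalize min (m ^ m) (B.rank.ascFactorial m) = v at h ⊢
    have h2 := Complex.real_le_real.2 h
    push_cast at h2 ⊢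
    exact h2

end Pool.Agent.helper97.PER
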