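import Pool.Agent.helper97.PER.R1

set_option linter.all false
set_option autoImplicit false

/-!
# The comparison inequality (MP_2dd521_co)
-/

namespace Pool.Agent.helper97.PER

open MeasureTheory Finset Function
open scoped Real Topology Matrix ComplexConjugate ContDiff ComplexOrder
open Pool.Agent.helper80.LSZ (kron1 kron1_one)

section

variable {S κ₁ κ₂ : Type*} [Fintype S] [DecidableEq S] [Fintype κ₁] [DecidableEq κ₁]
  [Fintype κ₂] [DecidableEq κ₂]

/-- products of the coefficients -/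
def LT (L1 : S → κ₁ → ℂ) (L2 : S → κ₂ → ℂ) : S → κ₁ × κ₂ → ℂ := fun s p => L1 s p.1 * L2 s p.2

theorem Tc_norm_re (L : S → κ₁ → ℂ) :
    ∑ f : S → κ₁, ‖Tc L f‖ ^ 2 = ((Fintype.card S).factorial : ℝ) * (gm L).permanent.re := by
  have h4 := Tc_norm L
  have h5 : ∀ f : S → κ₁, Tc L f * conj (Tc L f) = ((‖Tc L f‖ ^ 2 : ℝ) : ℂ) := by
    intro f
    rw [Complex.mul_conj, Complex.normSq_eq_norm_sq]
  simp_rw [h5] at h4
  rw [(gm_perm_nonneg L).2] at h4
  have h6 : ((∑ f : S → κ₁, ‖Tc L f‖ ^ 2 : ℝ) : ℂ) =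
      ((((Fintype.card S).factorial : ℝ) * (gm L).permanent.re : ℝ) : ℂ) := by
    push_cast at h4 ⊢
    exact h4
  exact_mod_cast h6

/-- restriction to `z ⊗ ℂ^κ₂` -/
theorem lower2 (L1 : S → κ₁ → ℂ) (L2 : S → κ₂ → ℂ) (z : κ₁ → ℂ) :
    (∏ s, ‖lf L1 z s‖ ^ 2) * (gm L2).permanent.re ≤
      (gm (LT L1 L2)).permanent.re * ns z ^ Fintype.card S := by
  set N := Fintype.card S with hN
  have hf : (0 : ℝ) < (N.factorial : ℝ) := by exact_mod_cast Nat.factorial_pos N
  -- the contraction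
  have h1 : ∀ f₂ : S → κ₂, ∑ f₁ : S → κ₁, Tc (LT L1 L2) (fun s => (f₁ s, f₂ s)) * ∏ s, z (f₁ s) =
      (∏ s, lf L1 z s) * Tc L2 f₂ := by
    intro f₂
    unfold Tc
    simp_rw [Finset.sum_mul, ← Finset.prod_mul_distrib]
    rw [Finset.sum_comm, Finset.mul_sum]
    refine Finset.sum_congr rfl (fun σ _ => ?_)
    have h2 := sum_prod_maps (fun (s : S) (i : κ₁) => LT L1 L2 (σ s) (i, f₂ s) * z i)
    rw [h2]
    have h3 : ∀ s, ∑ i, LT L1 L2 (σ s) (i, f₂ s) * z i = lf L1 z (σ s) * L2 (σ s) (f₂ s) := by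
      intro s
      unfold LT lf
      rw [Finset.sum_mul]
      refine Finset.sum_congr rfl (fun i _ => ?_)
      ring
    simp_rw [h3]
    rw [Finset.prod_mul_distrib]
    congr 1
    exact Equiv.prod_comp σ (fun s => lf L1 z s)
  have hz : ∑ f : S → κ₁, ‖∏ s, z (f s)‖ ^ 2 = ns z ^ N := by
    have : ∀ f : S → κ₁, ‖∏ s, z (f s)‖ ^ 2 = ∏ s, ‖z (f s)‖ ^ 2 := by
      intro f
      rw [norm_prod, Finset.prod_pow]
    simp_rw [this]
    unfold ns
    rw [sum_prod_maps (fun (_ : S) (i : κ₁) => ‖z i‖ ^ 2)]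
    simp [hN]
  have h2 : ∀ f₂ : S → κ₂, (∏ s, ‖lf L1 z s‖ ^ 2) * ‖Tc L2 f₂‖ ^ 2 ≤
      (∑ f₁ : S → κ₁, ‖Tc (LT L1 L2) (fun s => (f₁ s, f₂ s))‖ ^ 2) * ns z ^ N := by
    intro f₂
    have h3 : (∏ s, ‖lf L1 z s‖ ^ 2) * ‖Tc L2 f₂‖ ^ 2 = ‖(∏ s, lf L1 z s) * Tc L2 f₂‖ ^ 2 := by
      rw [norm_mul, mul_pow, norm_prod, Finset.prod_pow]
    rw [h3, ← h1, ← hz]
    have h4 : ‖∑ f₁ : S → κ₁, Tc (LT L1 L2) (fun s => (f₁ s, f₂ s)) * ∏ s, z (f₁ s)‖ ≤
        ∑ f₁ : S → κ₁, ‖Tc (LT L1 L2) (fun s => (f₁ s, f₂ s))‖ * ‖∏ s, z (f₁ s)‖ := by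
      refine (norm_sum_le _ _).trans ?_
      simp_rw [norm_mul]
      exact le_rfl
    exact (pow_le_pow_left₀ (norm_nonneg _) h4 2).trans (Finset.sum_mul_sq_le_sq_mul_sq _ _ _)
  have h3 := Finset.sum_le_sum (s := Finset.univ) (fun f₂ _ => h2 f₂)
  rw [← Finset.mul_sum, ← Finset.sum_mul, Tc_norm_re, ← hN] at h3
  have h4 : ∑ f₂ : S → κ₂, ∑ f₁ : S → κ₁, ‖Tc (LT L1 L2) (fun s => (f₁ s, f₂ s))‖ ^ 2 =
      ∑ f : S → κ₁ × κ₂, ‖Tc (LT L1 L2) f‖ ^ 2 := by
    rw [Finset.sum_comm, ← Fintype.sum_prod_type']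
    exact Fintype.sum_equiv (Equiv.arrowProdEquivProdArrow S (fun _ => κ₁) (fun _ => κ₂)).symm _ _
      (fun p => rfl)
  rw [h4, Tc_norm_re, ← hN] at h3
  have h5 : (N.factorial : ℝ) * ((∏ s, ‖lf L1 z s‖ ^ 2) * (gm L2).permanent.re) ≤
      (N.factorial : ℝ) * ((gm (LT L1 L2)).permanent.re * ns z ^ N) := by
    calc _ = (∏ s, ‖lf L1 z s‖ ^ 2) * ((N.factorial : ℝ) * (gm L2).permanent.re) := by ring
      _ ≤ _ := h3
      _ = _ := by ring
  exact le_of_mul_le_mul_left h5 hf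

end

section

variable {ι κ κ₁ κ₂ : Type*} [Fintype ι] [DecidableEq ι] [Fintype κ] [DecidableEq κ]
  [Fintype κ₁] [DecidableEq κ₁] [Fintype κ₂] [DecidableEq κ₂]

/-- the comparison inequality for Gram matrices -/
theorem comp_gram (n k : ℕ) (hk : 0 < k) (L : Fin n → κ₁ → ℂ) (L' : κ → κ₂ → ℂ)
    (hm : 0 < Fintype.card κ) :
    (kron1 (k * n) (gm L')).permanent.re * (gm L).permanent.re ^ (k * Fintype.card κ) ≤
      ((min (n ^ n) ((Fintype.card κ₁).ascFactorial n) : ℕ) : ℝ) ^ (k * Fintype.card κ) *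
        (kron1 k (Matrix.kronecker (gm L) (gm L'))).permanent.re := by
  set m := Fintype.card κ with hm'
  have hP : 0 ≤ (kron1 k (Matrix.kronecker (gm L) (gm L'))).permanent.re := by
    rw [← gm_LC]
    exact (gm_perm_nonneg _).1
  have hQ : 0 ≤ (kron1 (k * n) (gm L')).permanent.re :=
    (Pool.Agent.helper16.LSZ.perm_real _ (kron1_psd _ _ (gm_psd L'))).2
  have h := root_min L ((kron1 (k * n) (gm L')).permanent.re)
    (kron1 k (Matrix.kronecker (gm L) (gm L'))).permanent.re hQ hP (k * m) (Nat.mul_pos hk hm) (by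
      intro z
      have h1 := lower2 (fun s : Fin k × (Fin n × κ) => L s.2.1)
        (fun s : Fin k × (Fin n × κ) => L' s.2.2) z
      have e1 : gm (LT (fun s : Fin k × (Fin n × κ) => L s.2.1)
        (fun s : Fin k × (Fin n × κ) => L' s.2.2)) =
          kron1 k (Matrix.kronecker (gm L) (gm L')) := gm_LC k L L'
      have e2 : (gm (fun s : Fin k × (Fin n × κ) => L' s.2.2)).permanent =
          (kron1 (k * n) (gm L')).permanent := by
        have h2 := Pool.Agent.helper16.LSZ.permanent_submatrix_equiv (kron1 (k * n) (gm L'))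
          (((Equiv.prodAssoc (Fin k) (Fin n) κ).symm).trans
            (Equiv.prodCongr finProdFinEquiv (Equiv.refl κ)))
        rw [← h2]
        congr 1
        ext s t
        simp [kron1, gm, Matrix.kronecker, Matrix.kroneckerMap_apply]
      have e3 : ∏ s : Fin k × (Fin n × κ), ‖lf (fun s : Fin k × (Fin n × κ) => L s.2.1) z s‖ ^ 2 =
          (∏ i, ‖lf L z i‖ ^ 2) ^ (k * m) := by
        have : ∀ s : Fin k × (Fin n × κ), lf (fun s : Fin k × (Fin n × κ) => L s.2.1) z s =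
            lf L z s.2.1 := fun s => rfl
        simp_rw [this]
        rw [Fintype.prod_prod_type]
        simp only [Finset.prod_const, Finset.card_univ, Fintype.card_fin]
        rw [Fintype.prod_prod_type]
        simp_rw [Finset.prod_const, Finset.card_univ]
        rw [Finset.prod_pow, ← pow_mul, mul_comm k]
      have e4 : Fintype.card (Fin k × (Fin n × κ)) = n * (k * m) := by
        simp [Fintype.card_prod]; ring
      rw [e1, e2, e3, e4, pow_mul (ns z) n (k * m)] at h1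
      rw [Fintype.card_fin]
      calc _ = (∏ i, ‖lf L z i‖ ^ 2) ^ (k * m) * (kron1 (k * n) (gm L')).permanent.re := by ring
        _ ≤ _ := h1)
  rw [Fintype.card_fin] at h
  exact h

end

/-- the comparison inequality -/
theorem comp (n m k : ℕ) (A : Matrix (Fin n) (Fin n) ℂ) (hA : A.PosSemidef)
    (B : Matrix (Fin m) (Fin m) ℂ) (hB : B.PosSemidef) :
    A.permanent ^ (k * m) * (kron1 (k * n) B).permanent ≤
      ((min (n ^ n) (A.rank.ascFactorial n) : ℕ) : ℂ) ^ (k * m) *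
        (kron1 k (Matrix.kronecker A B)).permanent := by
  obtain ⟨ha, ha0⟩ := Pool.Agent.helper16.LSZ.perm_real A hA
  obtain ⟨hb, hb0⟩ := Pool.Agent.helper16.LSZ.perm_real (kron1 (k * n) B) (kron1_psd _ B hB)
  obtain ⟨hp, hp0⟩ := Pool.Agent.helper16.LSZ.perm_real (kron1 k (Matrix.kronecker A B))
    (kron1_psd k _ (kron_psd A hA B hB))
  rcases Nat.eq_zero_or_pos (k * m) with h0 | h0
  · have hempty : IsEmpty (Fin k × (Fin n × Fin m)) := by
      rw [← Fintype.card_eq_zero_iff]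
      simp only [Fintype.card_prod, Fintype.card_fin]
      have : k * (n * m) = n * (k * m) := by ring
      rw [this, h0, mul_zero]
    have hempty2 : IsEmpty (Fin (k * n) × Fin m) := by
      rw [← Fintype.card_eq_zero_iff]
      simp only [Fintype.card_prod, Fintype.card_fin]
      have : k * n * m = n * (k * m) := by ring
      rw [this, h0, mul_zero]
    have e0 : (kron1 k (Matrix.kronecker A B)).permanent = 1 := Matrix.permanent_isEmpty
    have e1 : (kron1 (k * n) B).permanent = 1 := Matrix.permanent_isEmpty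
    rw [h0, e0, e1]
    simp
  · have hk : 0 < k := Nat.pos_of_ne_zero (fun h => by rw [h] at h0; simp at h0)
    have hm : 0 < m := Nat.pos_of_ne_zero (fun h => by rw [h] at h0; simp at h0)
    obtain ⟨L, hL⟩ := Pool.Agent.helper80.LSZ.exists_fac A hA A.rank le_rfl
    obtain ⟨L', hL'⟩ := Pool.Agent.helper80.LSZ.exists_fac B hB B.rank le_rfl
    have eA : gm L = A := by ext s t; rw [hL]; rfl
    have eB : gm L' = B := by ext s t; rw [hL']; rfl
    have h := comp_gram n k hk L L' (by rwa [Fintype.card_fin])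
    rw [eA, eB] at h
    simp only [Fintype.card_fin] at h
    rw [ha, hb, hp]
    generalize min (n ^ n) (A.rank.ascFactorial n) = u at h ⊢
    have h2 := Complex.real_le_real.2 h
    push_cast at h2 ⊢
    rw [mul_comm ((A.permanent.re : ℂ) ^ (k * m))]
    exact h2

end Pool.Agent.helper97.PER
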