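import Pool.Agent.helper97.PER.R2
import Pool.Agent.helper80.LSZ.Loss

set_option linter.all false
set_option autoImplicit false

/-!
# Corollaries (MP_2dd521_co)
-/

namespace Pool.Agent.helper97.PER

open Finset Function
open scoped Real Topology Matrix ComplexConjugate ContDiff ComplexOrder
open Pool.Agent.helper80.LSZ (kron1 kron1_one)

/-- `min (n^n, r (r+1) ... (r+n-1))` with `r` the rank -/
noncomputable def om {n : ℕ} (A : Matrix (Fin n) (Fin n) ℂ) : ℕ :=
  min (n ^ n) (A.rank.ascFactorial n)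

theorem perm_ones (N : ℕ) {S : Type*} [Fintype S] [DecidableEq S] (hS : Fintype.card S = N) :
    (Matrix.of (fun (_ _ : S) => (1 : ℂ))).permanent = ((N.factorial : ℕ) : ℂ) := by
  simp [Matrix.permanent, Fintype.card_perm, hS]

/-- Pate's inequality up to a factor polynomial in `k` -/
theorem pate_poly (m k : ℕ) (B : Matrix (Fin m) (Fin m) ℂ) (hB : B.PosSemidef) :
    (((k * m).factorial : ℕ) : ℂ) * B.permanent ^ k ≤ (om B : ℂ) ^ k * (kron1 k B).permanent := by
  have h := comp m 1 k B hB (1 : Matrix (Fin 1) (Fin 1) ℂ) Matrix.PosSemidef.one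
  have e1 : (kron1 (k * m) (1 : Matrix (Fin 1) (Fin 1) ℂ)).permanent =
      (((k * m).factorial : ℕ) : ℂ) := by
    have : kron1 (k * m) (1 : Matrix (Fin 1) (Fin 1) ℂ) =
        Matrix.of (fun (_ _ : Fin (k * m) × Fin 1) => (1 : ℂ)) := by
      ext s t
      simp [kron1, Matrix.kronecker, Matrix.kroneckerMap_apply, Matrix.one_apply,
        Subsingleton.elim s.2 t.2]
    rw [this]
    exact perm_ones _ (by simp)
  have e2 : (kron1 k (Matrix.kronecker B (1 : Matrix (Fin 1) (Fin 1) ℂ))).permanent =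
      (kron1 k B).permanent := by
    have h2 := Pool.Agent.helper16.LSZ.permanent_submatrix_equiv (kron1 k B)
      (Equiv.prodCongr (Equiv.refl (Fin k)) (Equiv.prodUnique (Fin m) (Fin 1)))
    rw [← h2]
    congr 1
    ext s t
    simp [kron1, Matrix.kronecker, Matrix.kroneckerMap_apply, Matrix.one_apply,
      Subsingleton.elim s.2.2 t.2.2]
  rw [e1, e2, mul_one, mul_comm] at h
  exact h

/-- the inequality with `k = 1` -/
theorem lsz_fac (n m : ℕ) (A : Matrix (Fin n) (Fin n) ℂ) (hA : A.PosSemidef)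
    (B : Matrix (Fin m) (Fin m) ℂ) (hB : B.PosSemidef) :
    (((n * m).factorial : ℕ) : ℂ) * (A.permanent ^ m * B.permanent ^ n) ≤
      (om A : ℂ) ^ m * (om B : ℂ) ^ n * (Matrix.kronecker A B).permanent := by
  have h := gen n m 1 A hA B hB
  rw [kron1_one] at h
  simp only [mul_one] at h
  exact h

theorem kron1_congr {S : Type*} [Fintype S] [DecidableEq S] (a b : ℕ) (h : a = b)
    (B : Matrix S S ℂ) : (kron1 a B).permanent = (kron1 b B).permanent := by
  subst h; rfl

theorem real_of (x : ℂ) (h : 0 ≤ x) : x = ((x.re : ℝ) : ℂ) ∧ 0 ≤ x.re := by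
  have h1 := Complex.le_def.1 h
  refine ⟨?_, h1.1⟩
  apply Complex.ext
  · simp
  · simpa using h1.2.symm

/-- the inequality with the factor of `CopiesOfOneMatrix` -/
theorem lsz_copies (n m : ℕ) (A : Matrix (Fin n) (Fin n) ℂ) (hA : A.PosSemidef)
    (B : Matrix (Fin m) (Fin m) ℂ) (hB : B.PosSemidef) :
    ((n.factorial : ℕ) : ℂ) ^ m * 4 ^ (m * (n - 2)) * (A.permanent ^ m * B.permanent ^ n) ≤
      (om A : ℂ) ^ m * 5 ^ (m * (n - 2)) * (Matrix.kronecker A B).permanent := by
  have h1 := comp n m 1 A hA B hB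
  rw [kron1_one, kron1_congr (1 * n) n (one_mul n)] at h1
  simp only [one_mul] at h1
  have h2 := Pool.Agent.helper80.LSZ.pate_all B hB n
  have hA0 : 0 ≤ A.permanent := Pool.Agent.helper16.LSZ.perm_nonneg A hA
  have h3 : A.permanent ^ m * (((n.factorial : ℕ) : ℂ) ^ m * 4 ^ (m * (n - 2)) * B.permanent ^ n) ≤
      A.permanent ^ m * (5 ^ (m * (n - 2)) * (kron1 n B).permanent) :=
    mul_le_mul_of_nonneg_left h2 (pow_nonneg hA0 m)
  have h5 : (0 : ℂ) ≤ 5 ^ (m * (n - 2)) := by
    have : (0 : ℝ) ≤ 5 ^ (m * (n - 2)) := by positivity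
    exact_mod_cast this
  have h4 := mul_le_mul_of_nonneg_left h1 h5
  calc _ = A.permanent ^ m * (((n.factorial : ℕ) : ℂ) ^ m * 4 ^ (m * (n - 2)) *
        B.permanent ^ n) := by ring
    _ ≤ _ := h3
    _ = 5 ^ (m * (n - 2)) * (A.permanent ^ m * (kron1 n B).permanent) := by ring
    _ ≤ _ := h4
    _ = _ := by unfold om; ring

end Pool.Agent.helper97.PER
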