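import Mathlib

set_option linter.all false
set_option autoImplicit false

/-!
# Scaling a positive definite matrix (MP_2dd521_co)
-/

namespace Pool.Agent.helper97.PER

open Finset Function
open scoped Real Topology Matrix

variable {ι : Type*} [Fintype ι] [DecidableEq ι]

theorem dot_S_add (S : Matrix ι ι ℝ) (hS : S.IsHermitian) (t : ι → ℝ) (i : ι) (s : ℝ) :
    (t + s • Pi.single i 1) ⬝ᵥ (S *ᵥ (t + s • Pi.single i 1)) =
      t ⬝ᵥ (S *ᵥ t) + 2 * s * (S *ᵥ t) i + s ^ 2 * S i i := by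
  have hsym : Sᵀ = S := by
    have := hS
    rwa [Matrix.IsHermitian, Matrix.conjTranspose_eq_transpose_of_trivial] at this
  have h1 : t ⬝ᵥ (S *ᵥ Pi.single i 1) = (S *ᵥ t) i := by
    rw [Matrix.dotProduct_mulVec, ← Matrix.mulVec_transpose, hsym]
    simp
  have h2 : (Pi.single i 1 : ι → ℝ) ⬝ᵥ (S *ᵥ t) = (S *ᵥ t) i := by simp
  have h3 : (Pi.single i 1 : ι → ℝ) ⬝ᵥ (S *ᵥ Pi.single i 1) = S i i := by
    simp [Matrix.mulVec_single]
  rw [Matrix.mulVec_add, Matrix.mulVec_smul, add_dotProduct, dotProduct_add, dotProduct_add,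
    smul_dotProduct, smul_dotProduct, dotProduct_smul, dotProduct_smul, h1, h2, h3]
  simp only [smul_eq_mul]
  ring

/-- existence -/
theorem exist_t (S : Matrix ι ι ℝ) (hS : S.PosDef) :
    ∃ t : ι → ℝ, (∀ i, 0 < t i) ∧ ∀ i, t i * (S *ᵥ t) i = 1 := by
  rcases isEmpty_or_nonempty ι with he | he
  · exact ⟨fun _ => 1, fun i => he.elim i, fun i => he.elim i⟩
  set m : ℕ := Fintype.card ι with hm
  have hm0 : 0 < m := Fintype.card_pos
  -- positivity
  have hq : ∀ t : ι → ℝ, t ≠ 0 → 0 < t ⬝ᵥ (S *ᵥ t) := by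
    intro t ht
    have := hS.dotProduct_mulVec_pos ht
    simpa using this
  set H : (ι → ℝ) → ℝ := fun t => (∏ i, t i) ^ 2 / (t ⬝ᵥ (S *ᵥ t)) ^ m with hH
  have hne : ∀ t ∈ stdSimplex ℝ ι, t ≠ 0 := by
    intro t ht h0
    have := ht.2
    rw [h0] at this
    simp at this
  have hcont : ContinuousOn H (stdSimplex ℝ ι) := by
    refine ContinuousOn.div ?_ ?_ ?_
    · fun_prop
    · refine Continuous.continuousOn ?_
      simp only [dotProduct, Matrix.mulVec]
      fun_prop
    · intro t ht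
      exact (pow_pos (hq t (hne t ht)) _).ne'
  obtain ⟨t, htS, htmax⟩ := (isCompact_stdSimplex ℝ ι).exists_isMaxOn
    (⟨_, stdSimplex.barycenter.2⟩ : (stdSimplex ℝ ι).Nonempty) hcont
  -- global maximality
  have hmax : ∀ u : ι → ℝ, (∀ i, 0 < u i) → H u ≤ H t := by
    intro u hu
    have hsum : 0 < ∑ i, u i := Finset.sum_pos (fun i _ => hu i) univ_nonempty
    set c : ℝ := (∑ i, u i)⁻¹ with hc
    have hc0 : 0 < c := inv_pos.2 hsum
    have hmem : c • u ∈ stdSimplex ℝ ι := by
      refine ⟨fun i => by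
        show 0 ≤ c * u i
        exact (mul_pos hc0 (hu i)).le, ?_⟩
      show ∑ i, c * u i = 1
      rw [← Finset.mul_sum, hc, inv_mul_cancel₀ hsum.ne']
    have h1 : H (c • u) = H u := by
      show (∏ i, c * u i) ^ 2 / ((c • u) ⬝ᵥ (S *ᵥ (c • u))) ^ m = (∏ i, u i) ^ 2 / _ ^ m
      rw [Finset.prod_mul_distrib, Finset.prod_const, Finset.card_univ, ← hm,
        Matrix.mulVec_smul, smul_dotProduct, dotProduct_smul, smul_eq_mul, smul_eq_mul]
      have hu0 : u ≠ 0 := by
        intro h0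
        have := hu (Classical.arbitrary ι)
        rw [h0] at this
        simp at this
      have hq0 := hq u hu0
      have e : (c * (c * (u ⬝ᵥ (S *ᵥ u)))) ^ m = (c ^ m) ^ 2 * (u ⬝ᵥ (S *ᵥ u)) ^ m := by
        rw [← mul_assoc, mul_pow, ← pow_mul, mul_comm m 2, pow_mul, sq]
      rw [e, mul_pow, mul_div_mul_left _ _ (by positivity)]
    rw [← h1]
    exact htmax hmem
  -- positivity of the coordinates
  have hpos : ∀ i, 0 < t i := by
    have h1 := hmax (fun _ => 1) (fun _ => one_pos)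
    have h2 : 0 < H (fun _ => 1) := by
      have : (fun _ : ι => (1 : ℝ)) ≠ 0 := by
        intro h0
        have := congrFun h0 (Classical.arbitrary ι)
        simp at this
      have h3 := hq _ this
      show 0 < (∏ i : ι, (1 : ℝ)) ^ 2 / _
      simp only [Finset.prod_const_one, one_pow]
      positivity
    have h3 : 0 < H t := lt_of_lt_of_le h2 h1
    intro i
    refine lt_of_le_of_ne (htS.1 i) (fun h0 => ?_)
    have h4 : ∏ i, t i = 0 := Finset.prod_eq_zero (mem_univ i) h0.symm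
    have h5 : H t = 0 := by
      show (∏ i, t i) ^ 2 / _ = 0
      rw [h4]; simp
    linarith
  set Q : ℝ := t ⬝ᵥ (S *ᵥ t) with hQ
  have hQ0 : 0 < Q := hq t (hne t htS)
  -- first order conditions
  have hfoc : ∀ i, t i * (S *ᵥ t) i = Q / m := by
    intro i
    set c : ℝ := (S *ᵥ t) i with hc
    set d : ℝ := S i i with hd
    set D : ℝ → ℝ := fun s => t i ^ 2 * (Q + 2 * s * c + s ^ 2 * d) ^ m - (t i + s) ^ 2 * Q ^ m
      with hD
    have hloc : IsLocalMin D 0 := by
      have hnear : ∀ᶠ s in 𝓝 (0 : ℝ), 0 < t i + s := by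
        have : Filter.Tendsto (fun s : ℝ => t i + s) (𝓝 0) (𝓝 (t i + 0)) := by
          exact (continuous_const.add continuous_id).tendsto 0
        rw [add_zero] at this
        exact this.eventually (lt_mem_nhds (hpos i))
      filter_upwards [hnear] with s hs
      have h0 : D 0 = 0 := by simp [hD]
      rw [h0]
      set u : ι → ℝ := t + s • Pi.single i 1 with hu
      have hui : u i = t i + s := by simp [hu]
      have huj : ∀ j, j ≠ i → u j = t j := by
        intro j hj
        simp [hu, Pi.single_eq_of_ne hj]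
      have hupos : ∀ j, 0 < u j := by
        intro j
        by_cases hj : j = i
        · rw [hj, hui]; exact hs
        · rw [huj j hj]; exact hpos j
      have h1 := hmax u hupos
      have hu0 : u ≠ 0 := by
        intro h0
        have := hupos i
        rw [h0] at this
        simp at this
      have hqu := hq u hu0
      have h2 : u ⬝ᵥ (S *ᵥ u) = Q + 2 * s * c + s ^ 2 * d := dot_S_add S hS.1 t i s
      have h3 : ∏ j, u j = (t i + s) * ∏ j ∈ univ.erase i, t j := by
        rw [← Finset.mul_prod_erase _ _ (mem_univ i), hui]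
        congr 1
        exact Finset.prod_congr rfl (fun j hj => huj j (Finset.ne_of_mem_erase hj))
      have h4 : ∏ j, t j = t i * ∏ j ∈ univ.erase i, t j :=
        (Finset.mul_prod_erase _ _ (mem_univ i)).symm
      set P : ℝ := ∏ j ∈ univ.erase i, t j with hP
      have hP0 : 0 < P := Finset.prod_pos (fun j _ => hpos j)
      have h5 : ((t i + s) * P) ^ 2 / (Q + 2 * s * c + s ^ 2 * d) ^ m ≤ (t i * P) ^ 2 / Q ^ m := by
        have h6 : H u = ((t i + s) * P) ^ 2 / (Q + 2 * s * c + s ^ 2 * d) ^ m := by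
          show (∏ j, u j) ^ 2 / (u ⬝ᵥ (S *ᵥ u)) ^ m = _
          rw [h2, h3]
        have h7 : H t = (t i * P) ^ 2 / Q ^ m := by
          show (∏ j, t j) ^ 2 / (t ⬝ᵥ (S *ᵥ t)) ^ m = _
          rw [h4]
        rw [← h6, ← h7]
        exact h1
      rw [h2] at hqu
      rw [div_le_div_iff₀ (by positivity) (by positivity)] at h5
      have h8 : P ^ 2 * ((t i + s) ^ 2 * Q ^ m) ≤
          P ^ 2 * (t i ^ 2 * (Q + 2 * s * c + s ^ 2 * d) ^ m) := by
        nlinarith [h5]
      have h9 := le_of_mul_le_mul_left h8 (by positivity)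
      show 0 ≤ t i ^ 2 * (Q + 2 * s * c + s ^ 2 * d) ^ m - (t i + s) ^ 2 * Q ^ m
      linarith
    have hderiv : HasDerivAt D (t i ^ 2 * (m * Q ^ (m - 1) * (2 * c)) - 2 * t i * Q ^ m) 0 := by
      have h1 : HasDerivAt (fun s : ℝ => Q + 2 * s * c + s ^ 2 * d) (2 * c) 0 := by
        have h0 : HasDerivAt (fun s : ℝ => Q + 2 * s * c + s ^ 2 * d)
            (2 * 1 * c + (2 * (0 : ℝ) ^ (2 - 1) * 1) * d) 0 := by
          have h2 := (((hasDerivAt_id (0 : ℝ)).const_mul 2).mul_const c).const_add Q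
          have h3 := ((hasDerivAt_id (0 : ℝ)).pow 2).mul_const d
          exact h2.add h3
        have e : 2 * 1 * c + (2 * (0 : ℝ) ^ (2 - 1) * 1) * d = 2 * c := by norm_num
        rwa [e] at h0
      have h2 : HasDerivAt (fun s : ℝ => t i ^ 2 * (Q + 2 * s * c + s ^ 2 * d) ^ m)
          (t i ^ 2 * (m * Q ^ (m - 1) * (2 * c))) 0 := by
        have h0 := (h1.pow m).const_mul (t i ^ 2)
        have e : (Q + 2 * (0 : ℝ) * c + (0 : ℝ) ^ 2 * d) = Q := by ring
        rw [e] at h0
        exact h0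
      have h3 : HasDerivAt (fun s : ℝ => (t i + s) ^ 2) (2 * t i) 0 := by
        have h0 := ((hasDerivAt_id (0 : ℝ)).const_add (t i)).pow 2
        have e : ((2 : ℕ) : ℝ) * (t i + id (0 : ℝ)) ^ (2 - 1) * 1 = 2 * t i := by
          simp
        rw [e] at h0
        exact h0
      exact h2.sub (h3.mul_const (Q ^ m))
    have h1 := hloc.hasDerivAt_eq_zero hderiv
    have hm1 : (0 : ℝ) < m := by exact_mod_cast hm0
    have h2 : Q ^ m = Q * Q ^ (m - 1) := by
      rw [← pow_succ', Nat.sub_add_cancel hm0]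
    rw [h2] at h1
    have hti := hpos i
    have hQm : 0 < Q ^ (m - 1) := pow_pos hQ0 _
    have h3 : (2 * t i * Q ^ (m - 1)) * (t i * c * m - Q) = 0 := by linarith [h1]
    have h4 : t i * c * m - Q = 0 := by
      rcases mul_eq_zero.1 h3 with h | h
      · exfalso
        have : 0 < 2 * t i * Q ^ (m - 1) := by positivity
        linarith
      · exact h
    rw [eq_div_iff hm1.ne']
    linarith
  -- scaling
  have hm1 : (0 : ℝ) < m := by exact_mod_cast hm0
  set a : ℝ := Real.sqrt (m / Q) with ha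
  have ha0 : 0 < a := Real.sqrt_pos.2 (by positivity)
  have ha2 : a * a = m / Q := Real.mul_self_sqrt (by positivity)
  refine ⟨a • t, fun i => mul_pos ha0 (hpos i), fun i => ?_⟩
  rw [Matrix.mulVec_smul]
  show a * t i * (a * (S *ᵥ t) i) = 1
  calc a * t i * (a * (S *ᵥ t) i) = a * a * (t i * (S *ᵥ t) i) := by ring
    _ = m / Q * (Q / m) := by rw [ha2, hfoc]
    _ = 1 := by field_simp

/-- uniqueness -/
theorem unique_t (S : Matrix ι ι ℝ) (hS : S.PosSemidef) (t u : ι → ℝ) (ht : ∀ i, 0 < t i)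
    (hu : ∀ i, 0 < u i) (h1 : ∀ i, t i * (S *ᵥ t) i = 1) (h2 : ∀ i, u i * (S *ᵥ u) i = 1) :
    t = u := by
  have h3 : 0 ≤ (t - u) ⬝ᵥ (S *ᵥ (t - u)) := by
    have := hS.dotProduct_mulVec_nonneg (t - u)
    simpa using this
  have h4 : (t - u) ⬝ᵥ (S *ᵥ (t - u)) = ∑ i, (t i - u i) * ((t i)⁻¹ - (u i)⁻¹) := by
    rw [Matrix.mulVec_sub]
    unfold dotProduct
    refine Finset.sum_congr rfl (fun i _ => ?_)
    rw [Pi.sub_apply, Pi.sub_apply, eq_inv_of_mul_eq_one_right (h1 i),
      eq_inv_of_mul_eq_one_right (h2 i)]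
  have h5 : ∀ i, (t i - u i) * ((t i)⁻¹ - (u i)⁻¹) = -((t i - u i) ^ 2 / (t i * u i)) := by
    intro i
    have := ht i
    have := hu i
    field_simp
    ring
  have h6 : ∀ i, 0 ≤ (t i - u i) ^ 2 / (t i * u i) := by
    intro i
    have := ht i
    have := hu i
    positivity
  rw [h4] at h3
  simp_rw [h5] at h3
  rw [Finset.sum_neg_distrib] at h3
  have h7 : ∑ i, (t i - u i) ^ 2 / (t i * u i) = 0 :=
    le_antisymm (by linarith) (Finset.sum_nonneg (fun i _ => h6 i))
  funext i
  have h8 := (Finset.sum_eq_zero_iff_of_nonneg (fun i _ => h6 i)).1 h7 i (mem_univ i)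
  have hti := ht i
  have hui := hu i
  rw [div_eq_zero_iff] at h8
  rcases h8 with h | h
  · have := pow_eq_zero_iff (two_ne_zero) |>.1 h
    linarith
  · exfalso
    have : 0 < t i * u i := by positivity
    linarith

end Pool.Agent.helper97.PER
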