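import Pool.Agent.helper97.PER.T3

set_option linter.all false
set_option autoImplicit false

/-!
# The complex shift of the torus, conclusion (MP_2dd521_co)
-/

namespace Pool.Agent.helper97.PER

open MeasureTheory Finset Function
open scoped Real Topology NNReal

variable {ι : Type*} [Fintype ι] [DecidableEq ι]

theorem Jac_apply (r : (ι → ℝ) → (ι → ℝ)) (y : ι → ℝ) (i j : ι) :
    Jac r y i j = fderiv ℝ r y (Pi.single j 1) i := by
  unfold Jac
  rw [LinearMap.toMatrix'_apply]
  rfl

theorem Jac_per (r : (ι → ℝ) → (ι → ℝ)) (hper : ∀ y (n : ι → ℤ), r (tr n + y) = r y)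
    (y : ι → ℝ) (n : ι → ℤ) : Jac r (tr n + y) = Jac r y := by
  unfold Jac
  rw [fderiv_per r hper]

theorem Jac_cont (r : (ι → ℝ) → (ι → ℝ)) (hr : ContDiff ℝ 1 r) (i j : ι) :
    Continuous (fun y => Jac r y i j) := by
  simp_rw [Jac_apply]
  have h := hr.continuous_fderiv (by norm_num)
  exact (continuous_apply i).comp (h.clm_apply continuous_const)

/-- the function to be continued analytically -/
noncomputable def FF (r : (ι → ℝ) → (ι → ℝ)) (n : ι → ℤ) (y : ι → ℝ) (s : ℂ) : ℂ :=
  ch n y * Complex.exp (2 * π * Complex.I * (s * ∑ i, (n i : ℂ) * (r y i : ℂ))) *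
    (1 + s • (Jac r y).map (Complex.ofReal)).det

theorem FF_cont (r : (ι → ℝ) → (ι → ℝ)) (hr : ContDiff ℝ 1 r) (n : ι → ℤ) :
    Continuous (uncurry (FF r n)) := by
  have hrc := hr.continuous
  have hJ := Jac_cont r hr
  unfold FF uncurry ch
  simp only [Matrix.det_apply, Matrix.add_apply, Matrix.smul_apply, Matrix.map_apply, smul_eq_mul]
  refine Continuous.mul (Continuous.mul ?_ ?_) ?_
  · fun_prop
  · fun_prop
  · refine continuous_finset_sum _ (fun σ _ => ?_)
    refine Continuous.const_smul ?_ _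
    refine continuous_finset_prod _ (fun i _ => ?_)
    refine Continuous.add continuous_const ?_
    refine Continuous.mul continuous_snd ?_
    exact Complex.continuous_ofReal.comp ((hJ _ _).comp continuous_fst)

theorem FF_diff (r : (ι → ℝ) → (ι → ℝ)) (n : ι → ℤ) (y : ι → ℝ) :
    Differentiable ℂ (FF r n y) := by
  unfold FF
  simp only [Matrix.det_apply, Matrix.add_apply, Matrix.smul_apply, Matrix.map_apply, smul_eq_mul]
  refine Differentiable.mul (by fun_prop) ?_
  refine Differentiable.fun_sum (fun σ _ => ?_)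
  refine Differentiable.const_smul ?_ _
  refine Differentiable.fun_finset_prod (fun i _ => ?_)
  fun_prop

theorem FF_per (r : (ι → ℝ) → (ι → ℝ)) (hper : ∀ y (n : ι → ℤ), r (tr n + y) = r y)
    (n k : ι → ℤ) (y : ι → ℝ) (s : ℂ) : FF r n (tr k + y) s = FF r n y s := by
  unfold FF
  rw [ch_add, hper, Jac_per r hper]

theorem FF_bdd (r : (ι → ℝ) → (ι → ℝ)) (hr : ContDiff ℝ 1 r)
    (hper : ∀ y (n : ι → ℤ), r (tr n + y) = r y) (n : ι → ℤ) (R : ℝ) :
    ∃ C : ℝ, ∀ y s, ‖s‖ ≤ R → ‖FF r n y s‖ ≤ C := by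
  have hK : IsCompact ((Set.univ.pi (fun _ : ι => Set.Icc (0 : ℝ) 1)) ×ˢ
      (Metric.closedBall (0 : ℂ) R)) :=
    (isCompact_univ_pi (fun _ => isCompact_Icc)).prod (isCompact_closedBall 0 R)
  obtain ⟨C, hC⟩ := (hK.image (FF_cont r hr n).norm).bddAbove
  refine ⟨C, fun y s hs => ?_⟩
  have h1 := (exists_unique_box y (fun i => -⌊y i⌋)).2 rfl
  rw [← FF_per r hper n (fun i => -⌊y i⌋)]
  refine hC ⟨(_, s), ⟨?_, ?_⟩, rfl⟩
  · intro i hi
    have := h1 i hi
    exact ⟨this.1, this.2.le⟩
  · simpa using hs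

instance : IsFiniteMeasure ((volume : Measure (ι → ℝ)).restrict (box ι)) := by
  refine ⟨?_⟩
  rw [Measure.restrict_apply_univ]
  refine lt_of_le_of_lt (measure_mono (t := Set.univ.pi (fun _ : ι => Set.Icc (0 : ℝ) 1)) ?_) ?_
  · intro y hy i hi
    exact ⟨(hy i hi).1, (hy i hi).2.le⟩
  · exact (isCompact_univ_pi (fun _ => isCompact_Icc)).measure_lt_top

/-- the complex shift -/
theorem shift_complex (r : (ι → ℝ) → (ι → ℝ)) (hr : ContDiff ℝ 1 r)
    (hper : ∀ y (n : ι → ℤ), r (tr n + y) = r y) (n : ι → ℤ) (s : ℂ) :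
    ∫ y in box ι, FF r n y s = if n = 0 then 1 else 0 := by
  obtain ⟨ε, hε, h⟩ := shift_real r hr hper
  have hA : AnalyticOnNhd ℂ (fun s => ∫ y in box ι, FF r n y s) Set.univ := by
    have hd := diff_int ((volume : Measure (ι → ℝ)).restrict (box ι)) (FF r n) (FF_cont r hr n)
      (FF_diff r n) (FF_bdd r hr hper n)
    exact fun z _ => hd.analyticAt z
  have hB : AnalyticOnNhd ℂ (fun _ : ℂ => if n = 0 then (1 : ℂ) else 0) Set.univ :=
    fun z _ => analyticAt_const
  have key := hA.eq_of_frequently_eq hB (z₀ := 0) ?_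
  · exact congrFun key s
  · -- real points near zero
    have hseq : Filter.Tendsto (fun k : ℕ => ((ε / (k + 2) : ℝ) : ℂ)) Filter.atTop (𝓝[≠] 0) := by
      rw [tendsto_nhdsWithin_iff]
      constructor
      · have h1 : Filter.Tendsto (fun k : ℕ => ε / ((k : ℝ) + 2)) Filter.atTop (𝓝 0) := by
          refine Filter.Tendsto.div_atTop tendsto_const_nhds ?_
          exact Filter.tendsto_atTop_add_const_right _ _ tendsto_natCast_atTop_atTop
        have h2 := (Complex.continuous_ofReal.tendsto 0).comp h1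
        rw [Complex.ofReal_zero] at h2
        exact h2
      · refine Filter.Eventually.of_forall (fun k => ?_)
        have : ε / ((k : ℝ) + 2) ≠ 0 := by positivity
        simp only [Set.mem_compl_iff, Set.mem_singleton_iff]
        exact_mod_cast this
    refine hseq.frequently (Filter.Frequently.of_forall (fun k => ?_))
    have hk0 : (0 : ℝ) < (k : ℝ) + 2 := by positivity
    have h1 : 0 < ε / ((k : ℝ) + 2) := by positivity
    have h2 : ε / ((k : ℝ) + 2) < ε := by
      rw [div_lt_iff₀ hk0]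
      have : (0 : ℝ) ≤ k := Nat.cast_nonneg k
      nlinarith
    rw [← h _ h1 h2 n]
    refine setIntegral_congr_fun box_meas (fun y _ => ?_)
    set t : ℝ := ε / ((k : ℝ) + 2) with ht
    show FF r n y (t : ℂ) = _
    unfold FF
    congr 1
    · unfold ch
      rw [← Complex.exp_add]
      congr 1
      simp only [Pi.add_apply, Pi.smul_apply, smul_eq_mul]
      push_cast
      simp only [mul_add, Finset.sum_add_distrib]
      congr 2
      rw [Finset.mul_sum]
      refine Finset.sum_congr rfl (fun i _ => ?_)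
      ring
    · have e : (1 + (t : ℂ) • (Jac r y).map Complex.ofReal) =
          ((1 + t • Jac r y).map Complex.ofReal) := by
        ext i j
        simp [Matrix.one_apply]
        split_ifs <;> simp
      rw [e]
      exact (RingHom.map_det Complex.ofRealHom _).symm

end Pool.Agent.helper97.PER
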