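import Pool.Agent.helper97.PER.S1
import Pool.Agent.helper97.PER.T4

set_option linter.all false
set_option autoImplicit false

/-!
# The cycle: smooth dependence (MP_2dd521_co)
-/

namespace Pool.Agent.helper97.PER

open Finset Function
open scoped Real Topology Matrix ComplexConjugate ContDiff ComplexOrder

variable {ι : Type*} [Fintype ι] [DecidableEq ι]

/-- phases -/
noncomputable def ev (y : ι → ℝ) (i : ι) : ℂ := Complex.exp (2 * π * (y i : ℂ) * Complex.I)

/-- the twisted real part -/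
noncomputable def SM (M : Matrix ι ι ℂ) (y : ι → ℝ) : Matrix ι ι ℝ :=
  Matrix.of fun i j => (conj (ev y i) * M i j * ev y j).re

theorem ev_norm (y : ι → ℝ) (i : ι) : ‖ev y i‖ = 1 := by
  unfold ev
  have : (2 * π * (y i : ℂ) * Complex.I) = ((2 * π * y i : ℝ) : ℂ) * Complex.I := by
    push_cast; ring
  rw [this, Complex.norm_exp_ofReal_mul_I]

theorem ev_ne (y : ι → ℝ) (i : ι) : ev y i ≠ 0 := by
  unfold ev; exact Complex.exp_ne_zero _

theorem ev_per (y : ι → ℝ) (n : ι → ℤ) (i : ι) : ev (tr n + y) i = ev y i := by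
  unfold ev tr
  have : (2 * π * (((fun i => (n i : ℝ)) + y) i : ℝ) * Complex.I : ℂ) =
      2 * π * (y i : ℂ) * Complex.I + (n i : ℂ) * (2 * π * Complex.I) := by
    simp only [Pi.add_apply]
    push_cast
    ring
  rw [this, Complex.exp_add, Complex.exp_int_mul_two_pi_mul_I, mul_one]

theorem SM_per (M : Matrix ι ι ℂ) (y : ι → ℝ) (n : ι → ℤ) : SM M (tr n + y) = SM M y := by
  ext i j
  simp only [SM, Matrix.of_apply, ev_per]

theorem SM_quad (M : Matrix ι ι ℂ) (y t : ι → ℝ) :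
    t ⬝ᵥ (SM M y *ᵥ t) = (star (fun i => ev y i * (t i : ℂ)) ⬝ᵥ
      (M *ᵥ (fun i => ev y i * (t i : ℂ)))).re := by
  simp only [dotProduct, Matrix.mulVec, Complex.re_sum, Finset.mul_sum, SM, Matrix.of_apply,
    Pi.star_apply, Complex.star_def, map_mul, Complex.conj_ofReal]
  refine Finset.sum_congr rfl (fun i _ => Finset.sum_congr rfl (fun j _ => ?_))
  have : conj (ev y i) * (t i : ℂ) * (M i j * (ev y j * (t j : ℂ))) =
      ((t i * t j : ℝ) : ℂ) * (conj (ev y i) * M i j * ev y j) := by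
    push_cast; ring
  rw [this, Complex.re_ofReal_mul]
  ring

theorem SM_herm (M : Matrix ι ι ℂ) (hM : M.IsHermitian) (y : ι → ℝ) : (SM M y).IsHermitian := by
  ext i j
  simp only [Matrix.conjTranspose_apply, SM, Matrix.of_apply, star_trivial]
  have h : M j i = conj (M i j) := (hM.apply j i).symm
  rw [h]
  have : conj (ev y j) * conj (M i j) * ev y i = conj (conj (ev y i) * M i j * ev y j) := by
    simp only [map_mul, Complex.conj_conj]; ring
  rw [this, Complex.conj_re]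

theorem SM_posDef (M : Matrix ι ι ℂ) (hM : M.PosDef) (y : ι → ℝ) : (SM M y).PosDef := by
  refine Matrix.PosDef.of_dotProduct_mulVec_pos (SM_herm M hM.1 y) (fun t ht => ?_)
  rw [star_trivial, SM_quad]
  refine hM.re_dotProduct_pos ?_
  intro h0
  apply ht
  funext i
  have h1 := congrFun h0 i
  simp only [Pi.zero_apply, mul_eq_zero] at h1
  rcases h1 with h | h
  · exact absurd h (ev_ne y i)
  · exact_mod_cast h

/-- the equation of the cycle -/
noncomputable def eqn (M : Matrix ι ι ℂ) (p : (ι → ℝ) × (ι → ℝ)) : ι → ℝ :=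
  fun i => p.2 i * (SM M p.1 *ᵥ p.2) i

theorem eqn_smooth (M : Matrix ι ι ℂ) : ContDiff ℝ 1 (eqn M) := by
  unfold eqn
  rw [contDiff_pi]
  intro i
  simp only [Matrix.mulVec, dotProduct, SM, Matrix.of_apply]
  refine ContDiff.mul (by fun_prop) ?_
  refine ContDiff.sum (fun j _ => ?_)
  refine ContDiff.mul ?_ (by fun_prop)
  have hev : ∀ k : ι, ContDiff ℝ 1 (fun p : (ι → ℝ) × (ι → ℝ) => ev p.1 k) := by
    intro k
    unfold ev
    have : ContDiff ℝ 1 (fun p : (ι → ℝ) × (ι → ℝ) => ((p.1 k : ℝ) : ℂ)) :=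
      Complex.ofRealCLM.contDiff.comp (by fun_prop)
    fun_prop
  have h1 := hev i
  have h2 := hev j
  have h3 : ContDiff ℝ 1 (fun p : (ι → ℝ) × (ι → ℝ) => conj (ev p.1 i)) :=
    Complex.conjCLE.contDiff.comp h1
  exact Complex.reCLM.contDiff.comp ((h3.mul contDiff_const).mul h2)

theorem eqn_inj (M : Matrix ι ι ℂ) (hM : M.PosDef) (y t : ι → ℝ) (ht : ∀ i, 0 < t i)
    (h : ∀ i, t i * (SM M y *ᵥ t) i = 1) :
    (fderiv ℝ (eqn M) (y, t) ∘L ContinuousLinearMap.inr ℝ (ι → ℝ) (ι → ℝ)).IsInvertible := by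
  set A := fderiv ℝ (eqn M) (y, t) ∘L ContinuousLinearMap.inr ℝ (ι → ℝ) (ι → ℝ) with hA
  have hval : ∀ v i, A v i = v i * (SM M y *ᵥ t) i + t i * (SM M y *ᵥ v) i := by
    intro v i
    have h1 : HasDerivAt (fun s : ℝ => ((y, t + s • v) : (ι → ℝ) × (ι → ℝ))) (0, v) 0 := by
      have h2 : HasDerivAt (fun s : ℝ => t + s • v) v 0 := by
        have := ((hasDerivAt_id (0 : ℝ)).smul_const v).const_add t
        rw [one_smul] at this
        exact this
      exact (hasDerivAt_const (0 : ℝ) y).prodMk h2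
    have h3 := ((eqn_smooth M).differentiable (by norm_num) (y, t)).hasFDerivAt
    have h4 : HasFDerivAt (eqn M) (fderiv ℝ (eqn M) (y, t)) ((y, t + (0 : ℝ) • v)) := by
      rw [zero_smul, add_zero]; exact h3
    have h5 := h4.comp_hasDerivAt (0 : ℝ) h1
    have h6 := (hasDerivAt_pi.1 h5) i
    have h7 : HasDerivAt (fun s : ℝ => (t i + s * v i) * ((SM M y *ᵥ t) i + s * (SM M y *ᵥ v) i))
        (v i * (SM M y *ᵥ t) i + t i * (SM M y *ᵥ v) i) 0 := by
      have h8 : HasDerivAt (fun s : ℝ => t i + s * v i) (v i) 0 := by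
        have := ((hasDerivAt_id (0 : ℝ)).mul_const (v i)).const_add (t i)
        rw [one_mul] at this
        exact this
      have h9 : HasDerivAt (fun s : ℝ => (SM M y *ᵥ t) i + s * (SM M y *ᵥ v) i)
          ((SM M y *ᵥ v) i) 0 := by
        have := ((hasDerivAt_id (0 : ℝ)).mul_const ((SM M y *ᵥ v) i)).const_add ((SM M y *ᵥ t) i)
        rw [one_mul] at this
        exact this
      have := h8.mul h9
      simp only [zero_mul, add_zero] at this
      exact this
    have h10 : (fun s : ℝ => (eqn M ∘ fun s : ℝ => ((y, t + s • v) : (ι → ℝ) × (ι → ℝ))) s i) =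
        (fun s : ℝ => (t i + s * v i) * ((SM M y *ᵥ t) i + s * (SM M y *ᵥ v) i)) := by
      funext s
      show (t + s • v) i * (SM M y *ᵥ (t + s • v)) i = _
      rw [Matrix.mulVec_add, Matrix.mulVec_smul]
      rfl
    rw [h10] at h6
    exact h6.unique h7
  have hinj : Function.Injective (A : (ι → ℝ) →ₗ[ℝ] (ι → ℝ)) := by
    rw [← LinearMap.ker_eq_bot, LinearMap.ker_eq_bot']
    intro v hv
    by_contra hne
    have h1 : ∀ i, v i * (SM M y *ᵥ t) i + t i * (SM M y *ᵥ v) i = 0 := by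
      intro i
      rw [← hval]
      exact congrFun hv i
    have h2 : 0 < v ⬝ᵥ (SM M y *ᵥ v) := by
      have := (SM_posDef M hM y).dotProduct_mulVec_pos hne
      simpa using this
    have h3 : v ⬝ᵥ (SM M y *ᵥ v) = - ∑ i, v i ^ 2 / t i ^ 2 := by
      unfold dotProduct
      rw [← Finset.sum_neg_distrib]
      refine Finset.sum_congr rfl (fun i _ => ?_)
      have hti := ht i
      have h4 : (SM M y *ᵥ t) i = (t i)⁻¹ := eq_inv_of_mul_eq_one_right (h i)
      have h5 := h1 i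
      rw [h4] at h5
      have h6 : (SM M y *ᵥ v) i = - (v i * (t i)⁻¹) / t i := by
        rw [eq_div_iff hti.ne']
        linarith
      rw [h6]
      field_simp
    have h4 : 0 ≤ ∑ i, v i ^ 2 / t i ^ 2 := Finset.sum_nonneg (fun i _ => by positivity)
    linarith
  refine ⟨(LinearEquiv.ofInjectiveEndo (A : (ι → ℝ) →ₗ[ℝ] (ι → ℝ)) hinj).toContinuousLinearEquiv,
    ?_⟩
  ext v i
  rfl

/-- the positive solution -/
noncomputable def tt (M : Matrix ι ι ℂ) (hM : M.PosDef) (y : ι → ℝ) : ι → ℝ :=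
  (exist_t (SM M y) (SM_posDef M hM y)).choose

theorem tt_pos (M : Matrix ι ι ℂ) (hM : M.PosDef) (y : ι → ℝ) (i : ι) : 0 < tt M hM y i :=
  (exist_t (SM M y) (SM_posDef M hM y)).choose_spec.1 i

theorem tt_eq (M : Matrix ι ι ℂ) (hM : M.PosDef) (y : ι → ℝ) (i : ι) :
    tt M hM y i * (SM M y *ᵥ tt M hM y) i = 1 :=
  (exist_t (SM M y) (SM_posDef M hM y)).choose_spec.2 i

theorem tt_unique (M : Matrix ι ι ℂ) (hM : M.PosDef) (y t : ι → ℝ) (ht : ∀ i, 0 < t i)
    (h : ∀ i, t i * (SM M y *ᵥ t) i = 1) : tt M hM y = t :=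
  unique_t (SM M y) (SM_posDef M hM y).posSemidef _ _ (tt_pos M hM y) ht (tt_eq M hM y) h

theorem tt_per (M : Matrix ι ι ℂ) (hM : M.PosDef) (y : ι → ℝ) (n : ι → ℤ) :
    tt M hM (tr n + y) = tt M hM y := by
  refine tt_unique M hM _ _ (tt_pos M hM y) ?_
  rw [SM_per]
  exact tt_eq M hM y

theorem tt_smooth (M : Matrix ι ι ℂ) (hM : M.PosDef) : ContDiff ℝ 1 (tt M hM) := by
  rw [contDiff_iff_contDiffAt]
  intro y
  have hinv := eqn_inj M hM y (tt M hM y) (tt_pos M hM y) (tt_eq M hM y)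
  have hcd : ContDiffAt ℝ 1 (eqn M) (y, tt M hM y) := (eqn_smooth M).contDiffAt
  set ψ := hcd.implicitFunction (by norm_num) hinv with hψ
  have h1 : ψ y = tt M hM y := hcd.implicitFunction_apply_self (by norm_num) hinv
  have h2 : ContDiffAt ℝ 1 ψ y := hcd.contDiffAt_implicitFunction (by norm_num) hinv
  have h3 : ∀ᶠ x in 𝓝 y, eqn M (x, ψ x) = eqn M (y, tt M hM y) :=
    hcd.eventually_apply_implicitFunction (by norm_num) hinv
  have h4 : ∀ᶠ x in 𝓝 y, ∀ i, 0 < ψ x i := by
    rw [Filter.eventually_all]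
    intro i
    have h5 : Filter.Tendsto (fun x => ψ x i) (𝓝 y) (𝓝 (ψ y i)) :=
      ((continuous_apply i).continuousAt.comp h2.continuousAt)
    refine h5.eventually (lt_mem_nhds ?_)
    rw [h1]
    exact tt_pos M hM y i
  refine h2.congr_of_eventuallyEq ?_
  filter_upwards [h3, h4] with x hx3 hx4
  refine tt_unique M hM x (ψ x) hx4 (fun i => ?_)
  have h5 := congrFun hx3 i
  have h6 : eqn M (y, tt M hM y) i = 1 := tt_eq M hM y i
  rw [h6] at h5
  exact h5

end Pool.Agent.helper97.PER
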