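import Pool.Agent.helper97.PER.S2

set_option linter.all false
set_option autoImplicit false

/-!
# The cycle: the Jacobian (MP_2dd521_co)
-/

namespace Pool.Agent.helper97.PER

open Finset Function
open scoped Real Topology Matrix ComplexConjugate ContDiff ComplexOrder

variable {ι : Type*} [Fintype ι] [DecidableEq ι]

/-- the shift -/
noncomputable def rr (M : Matrix ι ι ℂ) (hM : M.PosDef) (y : ι → ℝ) : ι → ℝ :=
  fun i => Real.log (tt M hM y i) / (2 * π)

theorem rr_smooth (M : Matrix ι ι ℂ) (hM : M.PosDef) : ContDiff ℝ 1 (rr M hM) := by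
  rw [contDiff_pi]
  intro i
  unfold rr
  refine ContDiff.div_const ?_ _
  exact ((contDiff_pi.1 (tt_smooth M hM)) i).log (fun y => (tt_pos M hM y i).ne')

theorem rr_per (M : Matrix ι ι ℂ) (hM : M.PosDef) (y : ι → ℝ) (n : ι → ℤ) :
    rr M hM (tr n + y) = rr M hM y := by
  unfold rr
  rw [tt_per]

/-- the points of the cycle -/
noncomputable def xx (M : Matrix ι ι ℂ) (hM : M.PosDef) (y : ι → ℝ) (i : ι) : ℂ :=
  Complex.exp (2 * π * ((rr M hM y i : ℂ) + Complex.I * (y i : ℂ)))

theorem xx_eq (M : Matrix ι ι ℂ) (hM : M.PosDef) (y : ι → ℝ) (i : ι) :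
    xx M hM y i = (tt M hM y i : ℂ) * ev y i := by
  unfold xx ev rr
  have h1 : (2 * π * (((Real.log (tt M hM y i) / (2 * π) : ℝ) : ℂ) + Complex.I * (y i : ℂ))) =
      ((Real.log (tt M hM y i) : ℝ) : ℂ) + 2 * π * (y i : ℂ) * Complex.I := by
    have hpi : (π : ℂ) ≠ 0 := by exact_mod_cast Real.pi_ne_zero
    push_cast
    field_simp
  rw [h1, Complex.exp_add, ← Complex.ofReal_exp, Real.exp_log (tt_pos M hM y i)]

/-- the matrix `W` -/
noncomputable def WW (M : Matrix ι ι ℂ) (hM : M.PosDef) (y : ι → ℝ) : Matrix ι ι ℂ :=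
  Matrix.of fun i j => conj (xx M hM y i) * M i j * xx M hM y j

theorem WW_re (M : Matrix ι ι ℂ) (hM : M.PosDef) (y : ι → ℝ) (i j : ι) :
    (WW M hM y i j).re = tt M hM y i * tt M hM y j * SM M y i j := by
  simp only [WW, SM, Matrix.of_apply, xx_eq, map_mul, Complex.conj_ofReal]
  have : (tt M hM y i : ℂ) * conj (ev y i) * M i j * ((tt M hM y j : ℂ) * ev y j) =
      ((tt M hM y i * tt M hM y j : ℝ) : ℂ) * (conj (ev y i) * M i j * ev y j) := by
    push_cast; ring
  rw [this, Complex.re_ofReal_mul]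

theorem WW_row (M : Matrix ι ι ℂ) (hM : M.PosDef) (y : ι → ℝ) (i : ι) :
    ∑ j, (WW M hM y i j).re = 1 := by
  rw [← tt_eq M hM y i]
  simp_rw [WW_re]
  unfold Matrix.mulVec dotProduct
  rw [Finset.mul_sum]
  refine Finset.sum_congr rfl (fun j _ => ?_)
  ring

theorem WW_exp (M : Matrix ι ι ℂ) (hM : M.PosDef) (y : ι → ℝ) (i j : ι) :
    WW M hM y i j = M i j * Complex.exp (2 * π * (((rr M hM y i + rr M hM y j : ℝ) : ℂ) +
      Complex.I * ((y j - y i : ℝ) : ℂ))) := by
  simp only [WW, Matrix.of_apply, xx]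
  rw [← Complex.exp_conj, mul_comm (Complex.exp _) (M i j), mul_assoc, ← Complex.exp_add]
  congr 2
  simp only [map_mul, map_add, Complex.conj_ofReal, Complex.conj_I, map_ofNat]
  push_cast
  ring

/-- the differentiated equation -/
theorem jac_rel (M : Matrix ι ι ℂ) (hM : M.PosDef) (y : ι → ℝ) (i k : ι) :
    Jac (rr M hM) y i k + ∑ j, (WW M hM y i j).re * Jac (rr M hM) y j k =
      (WW M hM y i k).im - if i = k then ∑ j, (WW M hM y i j).im else 0 := by
  set e : ι → ℝ := Pi.single k 1 with he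
  have hr : ∀ j, HasDerivAt (fun s : ℝ => rr M hM (y + s • e) j) (Jac (rr M hM) y j k) 0 := by
    intro j
    have h1 : HasDerivAt (fun s : ℝ => y + s • e) e 0 := by
      have := ((hasDerivAt_id (0 : ℝ)).smul_const e).const_add y
      rw [one_smul] at this
      exact this
    have h2 := ((rr_smooth M hM).differentiable (by norm_num) y).hasFDerivAt
    have h3 : HasFDerivAt (rr M hM) (fderiv ℝ (rr M hM) y) (y + (0 : ℝ) • e) := by
      rw [zero_smul, add_zero]; exact h2
    have h4 := h3.comp_hasDerivAt (0 : ℝ) h1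
    have h5 := (hasDerivAt_pi.1 h4) j
    rw [Jac_apply]
    exact h5
  have hy : ∀ j, HasDerivAt (fun s : ℝ => (y + s • e) j) (e j) 0 := by
    intro j
    have := ((hasDerivAt_id (0 : ℝ)).mul_const (e j)).const_add (y j)
    rw [one_mul] at this
    exact this
  have hW : ∀ j, HasDerivAt (fun s : ℝ => (WW M hM (y + s • e) i j).re)
      ((WW M hM y i j * (2 * π * (((Jac (rr M hM) y i k + Jac (rr M hM) y j k : ℝ) : ℂ) +
        Complex.I * ((e j - e i : ℝ) : ℂ)))).re) 0 := by
    intro j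
    have h1 := ((hr i).add (hr j)).ofReal_comp
    have h2 := (((hy j).sub (hy i)).ofReal_comp).const_mul Complex.I
    have h3 := ((h1.add h2).const_mul (2 * π : ℂ)).cexp.const_mul (M i j)
    have h4 : HasDerivAt (fun s : ℝ => WW M hM (y + s • e) i j)
        (WW M hM y i j * (2 * π * (((Jac (rr M hM) y i k + Jac (rr M hM) y j k : ℝ) : ℂ) +
        Complex.I * ((e j - e i : ℝ) : ℂ)))) 0 := by
      have h5 : (fun s : ℝ => WW M hM (y + s • e) i j) = fun s : ℝ => M i j *
          Complex.exp (2 * π * (((rr M hM (y + s • e) i + rr M hM (y + s • e) j : ℝ) : ℂ) +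
            Complex.I * (((y + s • e) j - (y + s • e) i : ℝ) : ℂ))) := by
        funext s
        exact WW_exp M hM _ i j
      rw [h5]
      have e0 : y + (0 : ℝ) • e = y := by rw [zero_smul, add_zero]
      refine HasDerivAt.congr_deriv h3 ?_
      rw [WW_exp M hM y i j]
      simp only [Pi.add_apply, Pi.sub_apply]
      have e1 : ∀ l, y l + ((0 : ℝ) • e) l = y l := fun l => congrFun e0 l
      rw [e0, e1, e1]
      ring
    have h6 := Complex.reCLM.hasFDerivAt.comp_hasDerivAt (0 : ℝ) h4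
    exact h6
  have hsum := HasDerivAt.fun_sum (u := Finset.univ) (fun j _ => hW j)
  have hconst : HasDerivAt (fun s : ℝ => ∑ j, (WW M hM (y + s • e) i j).re) 0 0 := by
    have : (fun s : ℝ => ∑ j, (WW M hM (y + s • e) i j).re) = fun _ => 1 := by
      funext s
      exact WW_row M hM _ i
    rw [this]
    exact hasDerivAt_const 0 1
  have hz := hsum.unique hconst
  have h1 : ∀ j, ((WW M hM y i j * (2 * π * (((Jac (rr M hM) y i k + Jac (rr M hM) y j k : ℝ) : ℂ) +
        Complex.I * ((e j - e i : ℝ) : ℂ)))).re) = 2 * π * ((WW M hM y i j).re *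
        (Jac (rr M hM) y i k + Jac (rr M hM) y j k) - (WW M hM y i j).im * (e j - e i)) := by
    intro j
    have h2 : (WW M hM y i j * (2 * π * (((Jac (rr M hM) y i k + Jac (rr M hM) y j k : ℝ) : ℂ) +
        Complex.I * ((e j - e i : ℝ) : ℂ)))) = ((2 * π : ℝ) : ℂ) * (WW M hM y i j *
        (((Jac (rr M hM) y i k + Jac (rr M hM) y j k : ℝ) : ℂ) +
        Complex.I * ((e j - e i : ℝ) : ℂ))) := by
      push_cast; ring
    rw [h2, Complex.re_ofReal_mul, Complex.mul_re]
    simp
  simp_rw [h1] at hz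
  rw [← Finset.mul_sum] at hz
  have hpi : (2 * π : ℝ) ≠ 0 := by positivity
  have hz2 := (mul_eq_zero.1 hz).resolve_left hpi
  rw [Finset.sum_sub_distrib] at hz2
  simp_rw [mul_add, mul_sub] at hz2
  rw [Finset.sum_add_distrib, Finset.sum_sub_distrib, ← Finset.sum_mul, WW_row, one_mul,
    ← Finset.sum_mul] at hz2
  have h3 : ∑ j, (WW M hM y i j).im * e j = (WW M hM y i k).im := by
    simp [he, Pi.single_apply]
  have h4 : (∑ j, (WW M hM y i j).im) * e i = if i = k then ∑ j, (WW M hM y i j).im else 0 := by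
    simp [he, Pi.single_apply]
  rw [h3, h4] at hz2
  linarith

end Pool.Agent.helper97.PER
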