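import Pool.Agent.helper97.PER.S3
import Pool.Agent.helper97.PER.D2

set_option linter.all false
set_option autoImplicit false

/-!
# The cycle: the bound for the integrand (MP_2dd521_co)
-/

namespace Pool.Agent.helper97.PER

open Finset Function
open scoped Real Topology Matrix ComplexConjugate ContDiff ComplexOrder

variable {ι : Type*} [Fintype ι] [DecidableEq ι]

/-- imaginary parts of the row sums -/
noncomputable def bb (M : Matrix ι ι ℂ) (hM : M.PosDef) (y : ι → ℝ) (i : ι) : ℝ :=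
  ∑ j, (WW M hM y i j).im

theorem WW_psd (M : Matrix ι ι ℂ) (hM : M.PosDef) (y : ι → ℝ) : (WW M hM y).PosSemidef := by
  have h := hM.posSemidef.conjTranspose_mul_mul_same (Matrix.diagonal (xx M hM y))
  have e : (Matrix.diagonal (xx M hM y))ᴴ * M * Matrix.diagonal (xx M hM y) = WW M hM y := by
    ext i j
    rw [Matrix.diagonal_conjTranspose, Matrix.mul_diagonal, Matrix.diagonal_mul]
    rfl
  rwa [e] at h

/-- the complex Jacobian -/
noncomputable def JC (M : Matrix ι ι ℂ) (hM : M.PosDef) (y : ι → ℝ) : Matrix ι ι ℂ :=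
  1 + (-Complex.I) • (Jac (rr M hM) y).map Complex.ofReal

theorem mat_rel (M : Matrix ι ι ℂ) (hM : M.PosDef) (y : ι → ℝ) :
    ((1 + (WW M hM y)ᵀ).map (fun z => ((z.re : ℝ) : ℂ))) * JC M hM y =
      (1 + (WW M hM y)ᵀ) + Complex.I • Matrix.diagonal (fun i => (bb M hM y i : ℂ)) := by
  ext i k
  have hherm : ∀ i j, WW M hM y j i = conj (WW M hM y i j) := fun i j =>
    ((WW_psd M hM y).1.apply j i).symm
  have h := jac_rel M hM y i k
  rw [Matrix.mul_apply]
  have h1 : ∀ j, ((1 + (WW M hM y)ᵀ).map (fun z => ((z.re : ℝ) : ℂ))) i j * JC M hM y j k =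
      (if i = j then (1 : ℂ) else 0) * ((if j = k then (1 : ℂ) else 0) -
        Complex.I * (Jac (rr M hM) y j k : ℂ)) +
      (((WW M hM y i j).re : ℝ) : ℂ) * (if j = k then (1 : ℂ) else 0) -
      Complex.I * ((((WW M hM y i j).re * Jac (rr M hM) y j k : ℝ)) : ℂ) := by
    intro j
    unfold JC
    simp only [Matrix.map_apply, Matrix.add_apply, Matrix.smul_apply, Matrix.transpose_apply,
      Matrix.one_apply, smul_eq_mul]
    rw [hherm i j]
    have e : (((((if i = j then (1 : ℂ) else 0) + conj (WW M hM y i j)).re : ℝ)) : ℂ) =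
        (if i = j then (1 : ℂ) else 0) + (((WW M hM y i j).re : ℝ) : ℂ) := by
      split_ifs <;> simp
    rw [e]
    push_cast
    ring
  simp_rw [h1]
  rw [Finset.sum_sub_distrib, Finset.sum_add_distrib]
  have h2 : ∑ j, (if i = j then (1 : ℂ) else 0) * ((if j = k then (1 : ℂ) else 0) -
        Complex.I * (Jac (rr M hM) y j k : ℂ)) = (if i = k then (1 : ℂ) else 0) -
        Complex.I * (Jac (rr M hM) y i k : ℂ) := by
    simp [Finset.sum_ite_eq]
  have h3 : ∑ j, (((WW M hM y i j).re : ℝ) : ℂ) * (if j = k then (1 : ℂ) else 0) =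
      (((WW M hM y i k).re : ℝ) : ℂ) := by
    simp
  have h4 : ∑ j, Complex.I * ((((WW M hM y i j).re * Jac (rr M hM) y j k : ℝ)) : ℂ) =
      Complex.I * ((∑ j, (WW M hM y i j).re * Jac (rr M hM) y j k : ℝ) : ℂ) := by
    rw [← Finset.mul_sum]
    push_cast
    rfl
  rw [h2, h3, h4]
  simp only [Matrix.add_apply, Matrix.smul_apply, Matrix.transpose_apply, Matrix.one_apply,
    smul_eq_mul, Matrix.diagonal_apply]
  rw [hherm i k]
  have h5 : (∑ j, (WW M hM y i j).re * Jac (rr M hM) y j k : ℝ) =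
      (WW M hM y i k).im - (if i = k then bb M hM y i else 0) - Jac (rr M hM) y i k := by
    unfold bb
    linarith
  rw [h5]
  have h6 : conj (WW M hM y i k) = (((WW M hM y i k).re : ℝ) : ℂ) -
      Complex.I * (((WW M hM y i k).im : ℝ) : ℂ) := by
    apply Complex.ext <;> simp
  rw [h6]
  push_cast
  split_ifs <;> (push_cast; ring)

theorem JC_bound (M : Matrix ι ι ℂ) (hM : M.PosDef) (y : ι → ℝ) :
    ‖(JC M hM y).det‖ ≤ ∏ i, Real.sqrt (1 + bb M hM y i ^ 2) := by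
  have hV : ((WW M hM y)ᵀ).PosSemidef := (WW_psd M hM y).transpose
  have h1 := det_bound ((WW M hM y)ᵀ) hV (bb M hM y)
  rw [← mat_rel, Matrix.det_mul, norm_mul] at h1
  have hHp : (1 + (WW M hM y)ᵀ).PosDef := Matrix.PosDef.one.add_posSemidef hV
  have h2 := det_le_re _ hHp
  have h3 : 0 < ((1 + (WW M hM y)ᵀ).map (fun z => ((z.re : ℝ) : ℂ))).det :=
    lt_of_lt_of_le hHp.det_pos h2
  have h4 := Complex.lt_def.1 h3
  simp only [Complex.zero_re, Complex.zero_im] at h4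
  set D := ((1 + (WW M hM y)ᵀ).map (fun z => ((z.re : ℝ) : ℂ))).det with hD
  have h5 : ‖D‖ = D.re := by
    have : D = ((D.re : ℝ) : ℂ) := by
      apply Complex.ext
      · simp
      · simp [← h4.2]
    rw [this, Complex.norm_real, Complex.ofReal_re, Real.norm_of_nonneg h4.1.le]
  rw [h5] at h1
  exact le_of_mul_le_mul_left h1 h4.1

/-- the product of linear forms over the variables -/
noncomputable def Fx (M : Matrix ι ι ℂ) (hM : M.PosDef) (y : ι → ℝ) : ℂ :=
  ∏ i, ((M *ᵥ xx M hM y) i / xx M hM y i)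

theorem xx_ne (M : Matrix ι ι ℂ) (hM : M.PosDef) (y : ι → ℝ) (i : ι) : xx M hM y i ≠ 0 :=
  Complex.exp_ne_zero _

theorem row_sum (M : Matrix ι ι ℂ) (hM : M.PosDef) (y : ι → ℝ) (i : ι) :
    conj (xx M hM y i) * (M *ᵥ xx M hM y) i = 1 + Complex.I * (bb M hM y i : ℂ) := by
  have h1 : conj (xx M hM y i) * (M *ᵥ xx M hM y) i = ∑ j, WW M hM y i j := by
    unfold Matrix.mulVec dotProduct WW
    rw [Finset.mul_sum]
    refine Finset.sum_congr rfl (fun j _ => ?_)
    simp only [Matrix.of_apply]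
    ring
  rw [h1]
  apply Complex.ext
  · rw [Complex.re_sum, WW_row]
    simp
  · rw [Complex.im_sum]
    simp [bb]

theorem row_norm (M : Matrix ι ι ℂ) (hM : M.PosDef) (y : ι → ℝ) (i : ι) :
    ‖xx M hM y i‖ * ‖(M *ᵥ xx M hM y) i‖ = Real.sqrt (1 + bb M hM y i ^ 2) := by
  have h1 := congrArg norm (row_sum M hM y i)
  rw [norm_mul, Complex.norm_conj] at h1
  rw [h1, Complex.norm_def, Complex.normSq_apply]
  congr 1
  simp
  ring

theorem quad_xx (M : Matrix ι ι ℂ) (hM : M.PosDef) (y : ι → ℝ) :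
    (star (xx M hM y) ⬝ᵥ (M *ᵥ xx M hM y)).re = Fintype.card ι := by
  unfold dotProduct
  have : ∀ i, star (xx M hM y) i * (M *ᵥ xx M hM y) i = 1 + Complex.I * (bb M hM y i : ℂ) :=
    fun i => row_sum M hM y i
  simp_rw [this]
  rw [Complex.re_sum]
  simp

/-- the bound of the product -/
theorem Fx_bound (M : Matrix ι ι ℂ) (hM : M.PosDef) (R : ℝ)
    (hR : ∀ z : ι → ℂ, (∏ i, ‖(M *ᵥ z) i‖ ^ 2) * (Fintype.card ι : ℝ) ^ Fintype.card ι ≤
      R * (star z ⬝ᵥ (M *ᵥ z)).re ^ Fintype.card ι) (y : ι → ℝ) :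
    ‖Fx M hM y‖ * ∏ i, Real.sqrt (1 + bb M hM y i ^ 2) ≤ R := by
  have h1 : ‖Fx M hM y‖ * ∏ i, Real.sqrt (1 + bb M hM y i ^ 2) =
      ∏ i, ‖(M *ᵥ xx M hM y) i‖ ^ 2 := by
    unfold Fx
    rw [norm_prod, ← Finset.prod_mul_distrib]
    refine Finset.prod_congr rfl (fun i _ => ?_)
    rw [← row_norm, norm_div]
    have : ‖xx M hM y i‖ ≠ 0 := norm_ne_zero_iff.2 (xx_ne M hM y i)
    field_simp
  rw [h1]
  have h2 := hR (xx M hM y)
  rw [quad_xx] at h2
  have h3 : (0 : ℝ) < (Fintype.card ι : ℝ) ^ Fintype.card ι := by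
    rcases Nat.eq_zero_or_pos (Fintype.card ι) with h | h
    · rw [h]; simp
    · have : (0 : ℝ) < Fintype.card ι := by exact_mod_cast h
      positivity
  exact le_of_mul_le_mul_right h2 h3

/-- the bound of the integrand -/
theorem integrand_bound (M : Matrix ι ι ℂ) (hM : M.PosDef) (R : ℝ)
    (hR : ∀ z : ι → ℂ, (∏ i, ‖(M *ᵥ z) i‖ ^ 2) * (Fintype.card ι : ℝ) ^ Fintype.card ι ≤
      R * (star z ⬝ᵥ (M *ᵥ z)).re ^ Fintype.card ι) (y : ι → ℝ) (k : ℕ) (hk : 1 ≤ k) :
    ‖Fx M hM y ^ k * (JC M hM y).det‖ ≤ R ^ k := by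
  set P := ∏ i, Real.sqrt (1 + bb M hM y i ^ 2) with hP
  have hP1 : 1 ≤ P := by
    have h1 := Finset.prod_le_prod (s := Finset.univ) (f := fun _ : ι => (1 : ℝ))
      (g := fun i => Real.sqrt (1 + bb M hM y i ^ 2)) (fun i _ => zero_le_one)
      (fun i _ => by
        rw [Real.one_le_sqrt]
        nlinarith [sq_nonneg (bb M hM y i)])
    simpa using h1
  have h1 := Fx_bound M hM R hR y
  have h2 := JC_bound M hM y
  rw [← hP] at h1 h2
  have h0 : 0 ≤ ‖Fx M hM y‖ := norm_nonneg _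
  have h3 : ‖Fx M hM y‖ ≤ R := by nlinarith
  obtain ⟨j, rfl⟩ : ∃ j, k = j + 1 := ⟨k - 1, by omega⟩
  rw [norm_mul, norm_pow, pow_succ, pow_succ, mul_assoc]
  have h4 : ‖Fx M hM y‖ * ‖(JC M hM y).det‖ ≤ R :=
    (mul_le_mul_of_nonneg_left h2 h0).trans h1
  exact mul_le_mul (pow_le_pow_left₀ h0 h3 j) h4 (by positivity) (by
    have : 0 ≤ R := h0.trans h3
    positivity)

end Pool.Agent.helper97.PER
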