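import Pool.Agent.helper97.PER.S4
import Pool.Agent.helper80.LSZ.Pate

set_option linter.all false
set_option autoImplicit false

/-!
# The constant term formula (MP_2dd521_co)
-/

namespace Pool.Agent.helper97.PER

open MeasureTheory Finset Function
open scoped Real Topology Matrix ComplexConjugate ContDiff ComplexOrder
open Pool.Agent.helper80.LSZ (kron1 cnt card_perm)

variable {ι : Type*} [Fintype ι] [DecidableEq ι]

theorem cnt_snd (k : ℕ) (i : ι) : cnt (Prod.snd : Fin k × ι → ι) i = k := by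
  unfold cnt
  have : (Finset.univ.filter (fun s : Fin k × ι => s.2 = i)) =
      (Finset.univ : Finset (Fin k)) ×ˢ {i} := by
    ext ⟨a, j⟩
    simp [eq_comm]
  rw [this, Finset.card_product]
  simp

/-- the permanent as a sum over maps -/
theorem perm_maps (M : Matrix ι ι ℂ) (k : ℕ) :
    (kron1 k M).permanent = ((k.factorial : ℕ) : ℂ) ^ Fintype.card ι *
      ∑ φ : Fin k × ι → ι, if cnt φ = cnt (Prod.snd : Fin k × ι → ι) then
        ∏ s, M s.2 (φ s) else 0 := by
  classical
  rw [Pool.Agent.helper16.LSZ.permanent_eq]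
  have h1 : ∀ σ : (Fin k × ι) ≃ (Fin k × ι), ∏ s, kron1 k M s (σ s) =
      ∑ φ : Fin k × ι → ι, if Prod.snd ∘ σ = φ then ∏ s, M s.2 (φ s) else 0 := by
    intro σ
    rw [Finset.sum_ite_eq, if_pos (Finset.mem_univ _)]
    refine Finset.prod_congr rfl (fun s _ => ?_)
    simp [kron1, Matrix.kronecker, Matrix.kroneckerMap_apply]
  simp_rw [h1]
  rw [Finset.sum_comm, Finset.mul_sum]
  refine Finset.sum_congr rfl (fun φ _ => ?_)
  rw [← Finset.sum_filter, Finset.sum_const, nsmul_eq_mul]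
  have h2 := card_perm φ (Prod.snd : Fin k × ι → ι)
  have h3 : (Finset.univ.filter (fun σ : (Fin k × ι) ≃ (Fin k × ι) => Prod.snd ∘ σ = φ)).card =
      if cnt φ = cnt (Prod.snd : Fin k × ι → ι) then ∏ i, (cnt φ i).factorial else 0 := h2
  rw [h3]
  split_ifs with h
  · rw [h]
    simp_rw [cnt_snd]
    rw [Finset.prod_const, Finset.card_univ]
    push_cast
    ring
  · simp

theorem prod_xx (M : Matrix ι ι ℂ) (hM : M.PosDef) (y : ι → ℝ) {S : Type*} [Fintype S]
    [DecidableEq S] (φ : S → ι) :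
    ∏ s, xx M hM y (φ s) = Complex.exp (2 * π * ∑ i, (cnt φ i : ℂ) *
      ((rr M hM y i : ℂ) + Complex.I * (y i : ℂ))) := by
  rw [Pool.Agent.helper80.LSZ.prod_cnt φ (xx M hM y)]
  rw [Finset.mul_sum, Complex.exp_sum]
  refine Finset.prod_congr rfl (fun i _ => ?_)
  unfold xx
  rw [← Complex.exp_nat_mul]
  congr 1
  ring

/-- the integrand as a sum of characters -/
theorem integrand_sum (M : Matrix ι ι ℂ) (hM : M.PosDef) (y : ι → ℝ) (k : ℕ) :
    Fx M hM y ^ k * (JC M hM y).det = ∑ φ : Fin k × ι → ι, (∏ s, M s.2 (φ s)) *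
      FF (rr M hM) (fun i => (cnt φ i : ℤ) - (cnt (Prod.snd : Fin k × ι → ι) i : ℤ)) y
        (-Complex.I) := by
  classical
  have h1 : Fx M hM y ^ k = ∏ s : Fin k × ι, ((M *ᵥ xx M hM y) s.2 / xx M hM y s.2) := by
    rw [Fintype.prod_prod_type]
    simp [Fx, div_pow]
  have h2 : ∏ s : Fin k × ι, ((M *ᵥ xx M hM y) s.2 / xx M hM y s.2) =
      (∑ φ : Fin k × ι → ι, ∏ s, (M s.2 (φ s) * xx M hM y (φ s))) *
        (∏ s : Fin k × ι, xx M hM y s.2)⁻¹ := by
    rw [Finset.prod_div_distrib, div_eq_mul_inv]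
    congr 1
    unfold Matrix.mulVec dotProduct
    rw [Finset.prod_univ_sum, Fintype.piFinset_univ]
  rw [h1, h2, Finset.sum_mul, Finset.sum_mul]
  refine Finset.sum_congr rfl (fun φ _ => ?_)
  rw [Finset.prod_mul_distrib, prod_xx M hM y φ,
    prod_xx M hM y (Prod.snd : Fin k × ι → ι), ← Complex.exp_neg]
  unfold FF
  have h3 : (1 + (-Complex.I) • (Jac (rr M hM) y).map Complex.ofReal) = JC M hM y := rfl
  rw [h3]
  have h4 : ch (fun i => (cnt φ i : ℤ) - (cnt (Prod.snd : Fin k × ι → ι) i : ℤ)) y *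
      Complex.exp (2 * π * Complex.I * (-Complex.I * ∑ i, (((cnt φ i : ℤ) -
        (cnt (Prod.snd : Fin k × ι → ι) i : ℤ) : ℤ) : ℂ) * (rr M hM y i : ℂ))) =
      Complex.exp (2 * π * ∑ i, (cnt φ i : ℂ) * ((rr M hM y i : ℂ) + Complex.I * (y i : ℂ))) *
      Complex.exp (-(2 * π * ∑ i, (cnt (Prod.snd : Fin k × ι → ι) i : ℂ) *
        ((rr M hM y i : ℂ) + Complex.I * (y i : ℂ)))) := by
    unfold ch
    rw [← Complex.exp_add, ← Complex.exp_add]
    congr 1
    have h5 : Complex.I * (-Complex.I * ∑ i, (((cnt φ i : ℤ) -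
        (cnt (Prod.snd : Fin k × ι → ι) i : ℤ) : ℤ) : ℂ) * (rr M hM y i : ℂ)) =
        ∑ i, (((cnt φ i : ℤ) - (cnt (Prod.snd : Fin k × ι → ι) i : ℤ) : ℤ) : ℂ) *
          (rr M hM y i : ℂ) := by
      rw [← mul_assoc, mul_neg, Complex.I_mul_I, neg_neg, one_mul]
    have h6 : ∀ a : ℂ, 2 * π * Complex.I * a = 2 * π * (Complex.I * a) := fun a => by ring
    rw [h6 (-Complex.I * _), h5, h6, ← mul_add, ← sub_eq_add_neg, ← mul_sub]
    congr 1
    rw [Finset.mul_sum, ← Finset.sum_add_distrib, ← Finset.sum_sub_distrib]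
    refine Finset.sum_congr rfl (fun i _ => ?_)
    push_cast
    ring
  rw [h4]
  ring

theorem FF_int (M : Matrix ι ι ℂ) (hM : M.PosDef) (n : ι → ℤ) (s : ℂ) :
    Integrable (fun y => FF (rr M hM) n y s) ((volume : Measure (ι → ℝ)).restrict (box ι)) := by
  obtain ⟨C, hC⟩ := FF_bdd (rr M hM) (rr_smooth M hM) (rr_per M hM) n ‖s‖
  refine (integrable_const C).mono' ?_ ?_
  · refine Continuous.aestronglyMeasurable ?_
    have h1 := FF_cont (rr M hM) (rr_smooth M hM) n
    have h2 : Continuous (fun y : ι → ℝ => ((y, s) : (ι → ℝ) × ℂ)) :=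
      continuous_id.prodMk continuous_const
    have h3 := h1.comp h2
    exact h3
  · exact Filter.Eventually.of_forall (fun y => hC y s le_rfl)

theorem integral_eq (M : Matrix ι ι ℂ) (hM : M.PosDef) (k : ℕ) :
    (kron1 k M).permanent = ((k.factorial : ℕ) : ℂ) ^ Fintype.card ι *
      ∫ y in box ι, Fx M hM y ^ k * (JC M hM y).det := by
  classical
  rw [perm_maps]
  congr 1
  simp_rw [integrand_sum]
  rw [integral_finset_sum]
  · refine Finset.sum_congr rfl (fun φ _ => ?_)
    rw [integral_const_mul, shift_complex (rr M hM) (rr_smooth M hM) (rr_per M hM)]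
    have : ((fun i => (cnt φ i : ℤ) - (cnt (Prod.snd : Fin k × ι → ι) i : ℤ)) = 0) ↔
        cnt φ = cnt (Prod.snd : Fin k × ι → ι) := by
      constructor
      · intro h
        funext i
        have := congrFun h i
        simp only [Pi.zero_apply] at this
        omega
      · intro h
        funext i
        simp only [Pi.zero_apply]
        rw [h]
        omega
    simp only [this]
    split_ifs <;> simp
  · intro φ _
    exact (FF_int M hM _ _).const_mul _

theorem vol_box : (volume : Measure (ι → ℝ)).real (box ι) = 1 := by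
  unfold box Measure.real
  rw [Real.volume_pi_Ico]
  simp

/-- Theorem A for positive definite matrices -/
theorem perm_le_pd (M : Matrix ι ι ℂ) (hM : M.PosDef) (R : ℝ)
    (hR : ∀ z : ι → ℂ, (∏ i, ‖(M *ᵥ z) i‖ ^ 2) * (Fintype.card ι : ℝ) ^ Fintype.card ι ≤
      R * (star z ⬝ᵥ (M *ᵥ z)).re ^ Fintype.card ι) (k : ℕ) :
    ‖(kron1 k M).permanent‖ ≤ (k.factorial : ℝ) ^ Fintype.card ι * R ^ k := by
  rcases Nat.eq_zero_or_pos k with hk | hk
  · subst hk
    haveI : IsEmpty (Fin 0 × ι) := ⟨fun p => p.1.elim0⟩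
    rw [Matrix.permanent_isEmpty]
    simp
  · rw [integral_eq M hM k, norm_mul]
    have h1 : ‖∫ y in box ι, Fx M hM y ^ k * (JC M hM y).det‖ ≤ R ^ k * 1 := by
      rw [← vol_box (ι := ι)]
      refine norm_setIntegral_le_of_norm_le_const ?_ (fun y _ => integrand_bound M hM R hR y k hk)
      have h := (inferInstance : IsFiniteMeasure ((volume : Measure (ι → ℝ)).restrict (box ι)))
      have h2 := h.measure_univ_lt_top
      rwa [Measure.restrict_apply_univ] at h2
    rw [mul_one] at h1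
    have h2 : ‖((k.factorial : ℕ) : ℂ) ^ Fintype.card ι‖ = (k.factorial : ℝ) ^ Fintype.card ι := by
      rw [norm_pow, Complex.norm_natCast]
    rw [h2]
    exact mul_le_mul_of_nonneg_left h1 (by positivity)

end Pool.Agent.helper97.PER
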