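import Pool.Agent.helper97.PER.S5

set_option linter.all false
set_option autoImplicit false

/-!
# Theorem A for positive semidefinite matrices (MP_2dd521_co)
-/

namespace Pool.Agent.helper97.PER

open MeasureTheory Finset Function
open scoped Real Topology Matrix ComplexConjugate ContDiff ComplexOrder
open Pool.Agent.helper80.LSZ (kron1 cnt card_perm)

theorem prod_diff {ι : Type*} (s : Finset ι) (a : ι → ℝ) (A δ : ℝ) (hδ : 0 ≤ δ)
    (h0 : ∀ i ∈ s, 0 ≤ a i) (h1 : ∀ i ∈ s, a i ≤ A) :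
    ∏ i ∈ s, (a i + δ) - ∏ i ∈ s, a i ≤ (A + δ) ^ s.card - A ^ s.card := by
  classical
  induction s using Finset.induction_on with
  | empty => simp
  | insert j s hj ih =>
    have h0' : ∀ i ∈ s, 0 ≤ a i := fun i hi => h0 i (Finset.mem_insert_of_mem hi)
    have h1' : ∀ i ∈ s, a i ≤ A := fun i hi => h1 i (Finset.mem_insert_of_mem hi)
    have ih' := ih h0' h1'
    rw [Finset.prod_insert hj, Finset.prod_insert hj, Finset.card_insert_of_notMem hj]
    have ha0 := h0 j (Finset.mem_insert_self j s)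
    have ha1 := h1 j (Finset.mem_insert_self j s)
    have hP : 0 ≤ ∏ i ∈ s, (a i + δ) - ∏ i ∈ s, a i := by
      have := Finset.prod_le_prod (s := s) (f := a) (g := fun i => a i + δ) h0'
        (fun i _ => by linarith)
      linarith
    have hP1 : ∏ i ∈ s, (a i + δ) ≤ (A + δ) ^ s.card := by
      have := Finset.prod_le_prod (s := s) (f := fun i => a i + δ) (g := fun _ => A + δ)
        (fun i hi => by have := h0' i hi; linarith) (fun i hi => by have := h1' i hi; linarith)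
      simpa using this
    have e1 : (a j + δ) * ∏ i ∈ s, (a i + δ) - a j * ∏ i ∈ s, a i =
        a j * (∏ i ∈ s, (a i + δ) - ∏ i ∈ s, a i) + δ * ∏ i ∈ s, (a i + δ) := by ring
    have e2 : (A + δ) ^ (s.card + 1) - A ^ (s.card + 1) =
        A * ((A + δ) ^ s.card - A ^ s.card) + δ * (A + δ) ^ s.card := by ring
    rw [e1, e2]
    have h2 := mul_le_mul ha1 ih' hP (ha0.trans ha1)
    have h3 := mul_le_mul_of_nonneg_left hP1 hδ
    linarith

theorem prod_diff_sq {ι : Type*} (s : Finset ι) (a : ι → ℝ) (A δ : ℝ) (hδ : 0 ≤ δ) (hA : 0 ≤ A)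
    (h0 : ∀ i ∈ s, 0 ≤ a i) (h1 : ∀ i ∈ s, a i ≤ A) :
    ∏ i ∈ s, (a i + δ) ^ 2 ≤ ∏ i ∈ s, a i ^ 2 + (((A + δ) ^ s.card) ^ 2 - (A ^ s.card) ^ 2) := by
  rw [Finset.prod_pow, Finset.prod_pow]
  have h2 := prod_diff s a A δ hδ h0 h1
  have h3 : ∏ i ∈ s, a i ≤ A ^ s.card := by
    have := Finset.prod_le_prod (s := s) (f := a) (g := fun _ => A) h0 h1
    simpa using this
  have h4 : 0 ≤ ∏ i ∈ s, a i := Finset.prod_nonneg h0
  have h5 : ∏ i ∈ s, a i ≤ ∏ i ∈ s, (a i + δ) :=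
    Finset.prod_le_prod h0 (fun i _ => by linarith)
  have h6 : (∏ i ∈ s, (a i + δ) - ∏ i ∈ s, a i) * (∏ i ∈ s, (a i + δ) + ∏ i ∈ s, a i) ≤
      ((A + δ) ^ s.card - A ^ s.card) * ((A + δ) ^ s.card + A ^ s.card) := by
    refine mul_le_mul h2 (by linarith) (by linarith) ?_
    have : A ^ s.card ≤ (A + δ) ^ s.card := pow_le_pow_left₀ hA (by linarith) _
    linarith
  nlinarith [h6]

variable {ι κ : Type*} [Fintype ι] [DecidableEq ι] [Fintype κ] [DecidableEq κ]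

/-- linear forms -/
def lf (L : ι → κ → ℂ) (z : κ → ℂ) (s : ι) : ℂ := ∑ i, L s i * z i

/-- Gram matrix -/
noncomputable def gm (L : ι → κ → ℂ) : Matrix ι ι ℂ :=
  Matrix.of fun s t => ∑ i, L s i * conj (L t i)

/-- squared norm -/
noncomputable def ns (z : κ → ℂ) : ℝ := ∑ i, ‖z i‖ ^ 2

theorem ns_nonneg (z : κ → ℂ) : 0 ≤ ns z := Finset.sum_nonneg (fun i _ => by positivity)

theorem gm_psd (L : ι → κ → ℂ) : (gm L).PosSemidef := by
  have h := Matrix.posSemidef_self_mul_conjTranspose (Matrix.of L)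
  have e : (Matrix.of L) * (Matrix.of L)ᴴ = gm L := by
    ext s t
    simp [Matrix.mul_apply, gm]
  rwa [e] at h

theorem gm_mulVec (L : ι → κ → ℂ) (y : ι → ℂ) (s : ι) :
    (gm L *ᵥ y) s = lf L (fun i => ∑ t, conj (L t i) * y t) s := by
  unfold gm lf Matrix.mulVec dotProduct
  simp only [Matrix.of_apply, Finset.sum_mul, Finset.mul_sum]
  rw [Finset.sum_comm]
  refine Finset.sum_congr rfl (fun i _ => Finset.sum_congr rfl (fun t _ => ?_))
  ring

theorem gm_quad (L : ι → κ → ℂ) (y : ι → ℂ) :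
    (star y ⬝ᵥ (gm L *ᵥ y)).re = ns (fun i => ∑ t, conj (L t i) * y t) := by
  have h : star y ⬝ᵥ (gm L *ᵥ y) = ((ns (fun i => ∑ t, conj (L t i) * y t) : ℝ) : ℂ) := by
    have h1 : ∀ i, ((‖∑ t, conj (L t i) * y t‖ ^ 2 : ℝ) : ℂ) =
        (∑ t, L t i * conj (y t)) * ∑ t, conj (L t i) * y t := by
      intro i
      rw [← Complex.normSq_eq_norm_sq, Complex.normSq_eq_conj_mul_self, map_sum]
      congr 1
      refine Finset.sum_congr rfl (fun t _ => ?_)
      simp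
    unfold ns
    push_cast
    have h1' : ∀ i, ((‖∑ t, conj (L t i) * y t‖ : ℝ) : ℂ) ^ 2 =
        (∑ t, L t i * conj (y t)) * ∑ t, conj (L t i) * y t := by
      intro i
      rw [← h1]
      push_cast
      rfl
    simp_rw [h1']
    unfold dotProduct
    simp_rw [gm_mulVec, lf]
    simp only [Finset.mul_sum, Finset.sum_mul, Pi.star_apply, Complex.star_def]
    rw [Finset.sum_comm]
    refine Finset.sum_congr rfl (fun i _ => ?_)
    rw [Finset.sum_comm]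
    refine Finset.sum_congr rfl (fun t _ => Finset.sum_congr rfl (fun s _ => ?_))
    ring
  rw [h, Complex.ofReal_re]

/-- the perturbed forms -/
noncomputable def Lp (L : ι → κ → ℂ) (ε : ℝ) : ι → κ ⊕ ι → ℂ :=
  fun s => Sum.elim (L s) (fun t => if s = t then (ε : ℂ) else 0)

theorem gm_Lp (L : ι → κ → ℂ) (ε : ℝ) :
    gm (Lp L ε) = gm L + ((ε ^ 2 : ℝ) : ℂ) • (1 : Matrix ι ι ℂ) := by
  ext s t
  simp only [gm, Matrix.of_apply, Matrix.add_apply, Matrix.smul_apply, Matrix.one_apply, Lp,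
    Fintype.sum_sum_type, Sum.elim_inl, Sum.elim_inr, smul_eq_mul]
  congr 1
  rw [Finset.sum_eq_single s]
  · by_cases h : s = t
    · subst h
      simp [sq]
    · have h' : ¬ t = s := fun h2 => h h2.symm
      simp [h, h']
  · intro u _ hu
    rw [if_neg (fun h => hu h.symm)]
    simp
  · intro h
    exact absurd (Finset.mem_univ s) h

theorem gm_Lp_pd (L : ι → κ → ℂ) (ε : ℝ) (hε : ε ≠ 0) : (gm (Lp L ε)).PosDef := by
  rw [gm_Lp]
  refine Matrix.PosDef.posSemidef_add (gm_psd L) ?_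
  refine Matrix.PosDef.one.smul ?_
  have : (0 : ℝ) < ε ^ 2 := by positivity
  exact_mod_cast this

theorem lf_Lp (L : ι → κ → ℂ) (ε : ℝ) (z : κ ⊕ ι → ℂ) (s : ι) :
    lf (Lp L ε) z s = lf L (fun i => z (Sum.inl i)) s + ε * z (Sum.inr s) := by
  unfold lf Lp
  rw [Fintype.sum_sum_type]
  simp

/-- the supremum of the product of linear forms on the sphere is at most `R` -/
def PB (L : ι → κ → ℂ) (R : ℝ) : Prop :=
  ∀ z : κ → ℂ, (∏ i, ‖lf L z i‖ ^ 2) * (Fintype.card ι : ℝ) ^ Fintype.card ι ≤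
      R * ns z ^ Fintype.card ι

theorem lf_norm_le (L : ι → κ → ℂ) (z : κ → ℂ) (s : ι) :
    ‖lf L z s‖ ≤ (∑ s, ∑ i, ‖L s i‖) * Real.sqrt (ns z) := by
  unfold lf
  refine (norm_sum_le _ _).trans ?_
  have h1 : ∀ i, ‖z i‖ ≤ Real.sqrt (ns z) := by
    intro i
    refine Real.le_sqrt_of_sq_le ?_
    unfold ns
    exact Finset.single_le_sum (f := fun i => ‖z i‖ ^ 2) (fun i _ => by positivity)
      (Finset.mem_univ i)
  calc ∑ i, ‖L s i * z i‖ ≤ ∑ i, ‖L s i‖ * Real.sqrt (ns z) := by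
        refine Finset.sum_le_sum (fun i _ => ?_)
        rw [norm_mul]
        exact mul_le_mul_of_nonneg_left (h1 i) (norm_nonneg _)
    _ = (∑ i, ‖L s i‖) * Real.sqrt (ns z) := by rw [Finset.sum_mul]
    _ ≤ _ := by
        refine mul_le_mul_of_nonneg_right ?_ (Real.sqrt_nonneg _)
        exact Finset.single_le_sum (f := fun s => ∑ i, ‖L s i‖)
          (fun s _ => Finset.sum_nonneg (fun i _ => norm_nonneg _)) (Finset.mem_univ s)

/-- the bound for the perturbed forms -/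
theorem PB_Lp (L : ι → κ → ℂ) (R : ℝ) (hR : 0 ≤ R) (hL : PB L R) (ε : ℝ) (hε : 0 ≤ ε) :
    PB (Lp L ε) (R + ((((∑ s, ∑ i, ‖L s i‖) + ε) ^ Fintype.card ι) ^ 2 -
      ((∑ s, ∑ i, ‖L s i‖) ^ Fintype.card ι) ^ 2) *
        (Fintype.card ι : ℝ) ^ Fintype.card ι) := by
  intro z
  set Λ : ℝ := ∑ s, ∑ i, ‖L s i‖ with hΛ
  have hΛ0 : 0 ≤ Λ := Finset.sum_nonneg (fun s _ => Finset.sum_nonneg (fun i _ => norm_nonneg _))
  set m := Fintype.card ι with hm
  set ρ : ℝ := Real.sqrt (ns z) with hρ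
  have hρ0 : 0 ≤ ρ := Real.sqrt_nonneg _
  have hρ2 : ρ ^ 2 = ns z := Real.sq_sqrt (ns_nonneg z)
  have hns : ns z = ns (fun i => z (Sum.inl i)) + ns (fun i => z (Sum.inr i)) := by
    unfold ns
    rw [Fintype.sum_sum_type]
  have h1 : ns (fun i => z (Sum.inl i)) ≤ ns z := by
    rw [hns]
    have := ns_nonneg (fun i => z (Sum.inr i))
    linarith
  have hz : ∀ s, ‖z (Sum.inr s)‖ ≤ ρ := by
    intro s
    refine Real.le_sqrt_of_sq_le ?_
    unfold ns
    exact Finset.single_le_sum (f := fun i => ‖z i‖ ^ 2) (fun i _ => by positivity)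
      (Finset.mem_univ _)
  set a : ι → ℝ := fun s => ‖lf L (fun i => z (Sum.inl i)) s‖ with ha
  have ha0 : ∀ s ∈ (Finset.univ : Finset ι), 0 ≤ a s := fun s _ => norm_nonneg _
  have ha1 : ∀ s ∈ (Finset.univ : Finset ι), a s ≤ Λ * ρ := by
    intro s _
    refine (lf_norm_le L _ s).trans ?_
    exact mul_le_mul_of_nonneg_left (Real.sqrt_le_sqrt h1) hΛ0
  have h2 : ∏ s, ‖lf (Lp L ε) z s‖ ^ 2 ≤ ∏ s, (a s + ε * ρ) ^ 2 := by
    refine Finset.prod_le_prod (fun s _ => by positivity) (fun s _ => ?_)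
    refine pow_le_pow_left₀ (norm_nonneg _) ?_ 2
    rw [lf_Lp]
    refine (norm_add_le _ _).trans ?_
    rw [norm_mul, Complex.norm_real, Real.norm_of_nonneg hε]
    have := mul_le_mul_of_nonneg_left (hz s) hε
    show _ ≤ a s + ε * ρ
    linarith
  have h3 := prod_diff_sq Finset.univ a (Λ * ρ) (ε * ρ) (by positivity) (by positivity) ha0 ha1
  rw [Finset.card_univ, ← hm] at h3
  have h4 : ((Λ * ρ + ε * ρ) ^ m) ^ 2 - ((Λ * ρ) ^ m) ^ 2 =
      (((Λ + ε) ^ m) ^ 2 - (Λ ^ m) ^ 2) * ns z ^ m := by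
    rw [← add_mul, mul_pow, mul_pow, mul_pow, mul_pow, ← hρ2]
    ring
  rw [h4] at h3
  have h5 := hL (fun i => z (Sum.inl i))
  rw [← hm] at h5
  have h6 : R * ns (fun i => z (Sum.inl i)) ^ m ≤ R * ns z ^ m :=
    mul_le_mul_of_nonneg_left (pow_le_pow_left₀ (ns_nonneg _) h1 m) hR
  have hm0 : (0 : ℝ) ≤ (m : ℝ) ^ m := by positivity
  calc (∏ s, ‖lf (Lp L ε) z s‖ ^ 2) * (m : ℝ) ^ m
      ≤ (∏ s, a s ^ 2 + (((Λ + ε) ^ m) ^ 2 - (Λ ^ m) ^ 2) * ns z ^ m) * (m : ℝ) ^ m :=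
        mul_le_mul_of_nonneg_right (h2.trans h3) hm0
    _ = (∏ s, a s ^ 2) * (m : ℝ) ^ m +
        ((((Λ + ε) ^ m) ^ 2 - (Λ ^ m) ^ 2) * (m : ℝ) ^ m) * ns z ^ m := by ring
    _ ≤ R * ns z ^ m + ((((Λ + ε) ^ m) ^ 2 - (Λ ^ m) ^ 2) * (m : ℝ) ^ m) * ns z ^ m := by
        have := h5.trans h6
        linarith
    _ = _ := by ring

/-- Theorem A for Gram matrices -/
theorem perm_le (L : ι → κ → ℂ) (R : ℝ) (hR : 0 ≤ R) (hL : PB L R) (k : ℕ) :
    ‖(kron1 k (gm L)).permanent‖ ≤ (k.factorial : ℝ) ^ Fintype.card ι * R ^ k := by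
  set Λ : ℝ := ∑ s, ∑ i, ‖L s i‖ with hΛ
  set m := Fintype.card ι with hm
  -- the inequality for small `ε`
  have h1 : ∀ ε : ℝ, 0 < ε → ‖(kron1 k (gm L + ((ε ^ 2 : ℝ) : ℂ) • (1 : Matrix ι ι ℂ))).permanent‖ ≤
      (k.factorial : ℝ) ^ m * (R + (((Λ + ε) ^ m) ^ 2 - (Λ ^ m) ^ 2) * (m : ℝ) ^ m) ^ k := by
    intro ε hε
    rw [← gm_Lp]
    refine perm_le_pd (gm (Lp L ε)) (gm_Lp_pd L ε hε.ne') _ ?_ k
    intro z
    have h2 := PB_Lp L R hR hL ε hε.le (fun i => ∑ t, conj (Lp L ε t i) * z t)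
    rw [gm_quad]
    simp_rw [gm_mulVec]
    exact h2
  -- the limit
  have h2 : Filter.Tendsto (fun ε : ℝ =>
      ‖(kron1 k (gm L + ((ε ^ 2 : ℝ) : ℂ) • (1 : Matrix ι ι ℂ))).permanent‖) (𝓝[>] 0)
      (𝓝 ‖(kron1 k (gm L)).permanent‖) := by
    have h3 : Continuous (fun ε : ℝ =>
        ‖(kron1 k (gm L + ((ε ^ 2 : ℝ) : ℂ) • (1 : Matrix ι ι ℂ))).permanent‖) := by
      refine Continuous.norm ?_
      unfold Matrix.permanent
      refine continuous_finset_sum _ (fun σ _ => continuous_finset_prod _ (fun s _ => ?_))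
      simp only [kron1, Matrix.kronecker, Matrix.kroneckerMap_apply, Matrix.of_apply,
        Matrix.add_apply, Matrix.smul_apply, one_mul, smul_eq_mul]
      refine continuous_const.add (Continuous.mul ?_ continuous_const)
      exact Complex.continuous_ofReal.comp (continuous_pow 2)
    have h4 := (h3.tendsto 0).mono_left (nhdsWithin_le_nhds (s := Set.Ioi 0))
    simpa using h4
  have h3 : Filter.Tendsto (fun ε : ℝ => (k.factorial : ℝ) ^ m *
      (R + (((Λ + ε) ^ m) ^ 2 - (Λ ^ m) ^ 2) * (m : ℝ) ^ m) ^ k) (𝓝[>] 0)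
      (𝓝 ((k.factorial : ℝ) ^ m * R ^ k)) := by
    have h4 : Continuous (fun ε : ℝ => (k.factorial : ℝ) ^ m *
      (R + (((Λ + ε) ^ m) ^ 2 - (Λ ^ m) ^ 2) * (m : ℝ) ^ m) ^ k) := by fun_prop
    have h5 := (h4.tendsto 0).mono_left (nhdsWithin_le_nhds (s := Set.Ioi 0))
    simpa using h5
  refine le_of_tendsto_of_tendsto h2 h3 ?_
  filter_upwards [self_mem_nhdsWithin] with ε hε
  exact h1 ε hε

end Pool.Agent.helper97.PER
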