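import Pool.Agent.helper97.PER.S6

set_option linter.all false
set_option autoImplicit false

/-!
# The lower bound and the tensor products (MP_2dd521_co)
-/

namespace Pool.Agent.helper97.PER

open MeasureTheory Finset Function
open scoped Real Topology Matrix ComplexConjugate ContDiff ComplexOrder
open Pool.Agent.helper80.LSZ (kron1 cnt card_perm)

section lower

variable {S κ : Type*} [Fintype S] [DecidableEq S] [Fintype κ] [DecidableEq κ]

omit [DecidableEq κ] in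
theorem sum_prod_maps {R : Type*} [CommSemiring R] (g : S → κ → R) :
    ∑ f : S → κ, ∏ s, g s (f s) = ∏ s, ∑ i, g s i := by
  rw [Finset.prod_univ_sum, Fintype.piFinset_univ]

/-- symmetrized coefficients -/
noncomputable def Tc (L : S → κ → ℂ) (f : S → κ) : ℂ :=
  ∑ σ : Equiv.Perm S, ∏ s, L (σ s) (f s)

theorem Tc_pair (L : S → κ → ℂ) (z : κ → ℂ) :
    ∑ f : S → κ, Tc L f * ∏ s, z (f s) = ((Fintype.card S).factorial : ℂ) * ∏ s, lf L z s := by
  unfold Tc
  simp_rw [Finset.sum_mul, ← Finset.prod_mul_distrib]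
  rw [Finset.sum_comm]
  have h1 : ∀ σ : Equiv.Perm S, ∑ f : S → κ, ∏ s, (L (σ s) (f s) * z (f s)) =
      ∏ s, lf L z s := by
    intro σ
    rw [sum_prod_maps (fun s i => L (σ s) i * z i)]
    exact Equiv.prod_comp σ (fun s => lf L z s)
  simp_rw [h1]
  rw [Finset.sum_const, Finset.card_univ, Fintype.card_perm, nsmul_eq_mul]

theorem Tc_norm (L : S → κ → ℂ) :
    ∑ f : S → κ, Tc L f * conj (Tc L f) = ((Fintype.card S).factorial : ℂ) * (gm L).permanent := by
  unfold Tc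
  simp_rw [map_sum, map_prod, Finset.sum_mul_sum, ← Finset.prod_mul_distrib]
  rw [Finset.sum_comm]
  have h1 : ∀ σ : Equiv.Perm S, ∑ f : S → κ, ∑ τ : Equiv.Perm S,
      ∏ s, (L (σ s) (f s) * conj (L (τ s) (f s))) = (gm L).permanent := by
    intro σ
    rw [Finset.sum_comm]
    have h2 : ∀ τ : Equiv.Perm S, ∑ f : S → κ, ∏ s, (L (σ s) (f s) * conj (L (τ s) (f s))) =
        ∏ s, gm L (σ s) (τ s) := by
      intro τ
      exact sum_prod_maps (fun s i => L (σ s) i * conj (L (τ s) i))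
    simp_rw [h2]
    unfold Matrix.permanent
    refine Fintype.sum_equiv (Equiv.inv _ |>.trans (Equiv.mulLeft σ)) _ _ (fun τ => ?_)
    show _ = ∏ s, gm L ((σ * τ⁻¹) s) s
    rw [← Equiv.prod_comp τ (fun s => gm L ((σ * τ⁻¹) s) s)]
    refine Finset.prod_congr rfl (fun s _ => ?_)
    simp
  simp_rw [h1]
  rw [Finset.sum_const, Finset.card_univ, Fintype.card_perm, nsmul_eq_mul]

theorem gm_perm_nonneg (L : S → κ → ℂ) : 0 ≤ (gm L).permanent.re ∧
    (gm L).permanent = (((gm L).permanent.re : ℝ) : ℂ) :=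
  ⟨(Pool.Agent.helper16.LSZ.perm_real _ (gm_psd L)).2,
    (Pool.Agent.helper16.LSZ.perm_real _ (gm_psd L)).1⟩

/-- the coherent lower bound -/
theorem lower (L : S → κ → ℂ) (z : κ → ℂ) :
    ((Fintype.card S).factorial : ℝ) * ∏ s, ‖lf L z s‖ ^ 2 ≤
      (gm L).permanent.re * ns z ^ Fintype.card S := by
  set N := Fintype.card S with hN
  have h1 : ‖∑ f : S → κ, Tc L f * ∏ s, z (f s)‖ ^ 2 ≤
      (∑ f : S → κ, ‖Tc L f‖ ^ 2) * ∑ f : S → κ, ‖∏ s, z (f s)‖ ^ 2 := by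
    have h2 : ‖∑ f : S → κ, Tc L f * ∏ s, z (f s)‖ ≤ ∑ f : S → κ, ‖Tc L f‖ * ‖∏ s, z (f s)‖ := by
      refine (norm_sum_le _ _).trans ?_
      simp_rw [norm_mul]
      exact le_rfl
    exact (pow_le_pow_left₀ (norm_nonneg _) h2 2).trans (Finset.sum_mul_sq_le_sq_mul_sq _ _ _)
  have h2 : ∑ f : S → κ, ‖∏ s, z (f s)‖ ^ 2 = ns z ^ N := by
    have : ∀ f : S → κ, ‖∏ s, z (f s)‖ ^ 2 = ∏ s, ‖z (f s)‖ ^ 2 := by
      intro f
      rw [norm_prod, Finset.prod_pow]
    simp_rw [this]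
    unfold ns
    rw [sum_prod_maps (fun (_ : S) (i : κ) => ‖z i‖ ^ 2)]
    simp [hN]
  have h3 : ∑ f : S → κ, ‖Tc L f‖ ^ 2 = (N.factorial : ℝ) * (gm L).permanent.re := by
    have h4 := Tc_norm L
    have h5 : ∀ f : S → κ, Tc L f * conj (Tc L f) = ((‖Tc L f‖ ^ 2 : ℝ) : ℂ) := by
      intro f
      rw [Complex.mul_conj, Complex.normSq_eq_norm_sq]
    simp_rw [h5] at h4
    rw [(gm_perm_nonneg L).2, ← hN] at h4
    have h6 : ((∑ f : S → κ, ‖Tc L f‖ ^ 2 : ℝ) : ℂ) =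
        (((N.factorial : ℝ) * (gm L).permanent.re : ℝ) : ℂ) := by
      push_cast at h4 ⊢
      exact h4
    exact_mod_cast h6
  rw [Tc_pair, h2, h3, norm_mul, mul_pow, Complex.norm_natCast, norm_prod, ← hN,
    ← Finset.prod_pow] at h1
  have hf : (0 : ℝ) < (N.factorial : ℝ) := by exact_mod_cast Nat.factorial_pos N
  have h4 : (N.factorial : ℝ) * ((N.factorial : ℝ) * ∏ s, ‖lf L z s‖ ^ 2) ≤
      (N.factorial : ℝ) * ((gm L).permanent.re * ns z ^ N) := by
    calc _ = (N.factorial : ℝ) ^ 2 * ∏ s, ‖lf L z s‖ ^ 2 := by ring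
      _ ≤ _ := h1
      _ = _ := by ring
  exact le_of_mul_le_mul_left h4 hf

end lower

section root

variable {ι κ : Type*} [Fintype ι] [DecidableEq ι] [Fintype κ] [DecidableEq κ]

/-- Theorem A in the form used below -/
theorem root_form (L : ι → κ → ℂ) (c D : ℝ) (hc : 0 ≤ c) (hD : 0 ≤ D) (p k : ℕ) (hp : 0 < p)
    (h : ∀ z : κ → ℂ, c * (∏ i, ‖lf L z i‖ ^ 2) ^ p ≤ D * (ns z ^ Fintype.card ι) ^ p) :
    c ^ k * ‖(kron1 k (gm L)).permanent‖ ^ p ≤
      ((k.factorial : ℝ) ^ Fintype.card ι) ^ p *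
        ((((Fintype.card ι : ℝ) ^ Fintype.card ι) ^ p) * D) ^ k := by
  set n := Fintype.card ι with hn
  rcases eq_or_lt_of_le hc with hc0 | hc0
  · rcases Nat.eq_zero_or_pos k with hk | hk
    · subst hk
      haveI : IsEmpty (Fin 0 × ι) := ⟨fun p => p.1.elim0⟩
      rw [Matrix.permanent_isEmpty]
      simp
    · rw [← hc0, zero_pow hk.ne', zero_mul]
      positivity
  · set q : ℝ := (D / c) ^ ((p : ℝ)⁻¹) with hq
    have hDc : 0 ≤ D / c := by positivity
    have hq0 : 0 ≤ q := Real.rpow_nonneg hDc _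
    have hqp : q ^ p = D / c := Real.rpow_inv_natCast_pow hDc hp.ne'
    have hPB : PB L ((n : ℝ) ^ n * q) := by
      intro z
      have h1 := h z
      have h2 : (∏ i, ‖lf L z i‖ ^ 2) ^ p ≤ (q * ns z ^ n) ^ p := by
        rw [mul_pow, hqp, div_mul_eq_mul_div, le_div_iff₀ hc0]
        linarith
      have h3 : ∏ i, ‖lf L z i‖ ^ 2 ≤ q * ns z ^ n :=
        le_of_pow_le_pow_left₀ hp.ne' (mul_nonneg hq0 (pow_nonneg (ns_nonneg z) _)) h2
      calc _ ≤ (q * ns z ^ n) * (n : ℝ) ^ n := mul_le_mul_of_nonneg_right h3 (by positivity)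
        _ = _ := by ring
    have h1 := perm_le L _ (by positivity) hPB k
    rw [← hn] at h1
    have h2 := pow_le_pow_left₀ (norm_nonneg _) h1 p
    have h3 : ((k.factorial : ℝ) ^ n * ((n : ℝ) ^ n * q) ^ k) ^ p =
        ((k.factorial : ℝ) ^ n) ^ p * ((((n : ℝ) ^ n) ^ p) * (D / c)) ^ k := by
      rw [← hqp, mul_pow, ← mul_pow _ q, ← pow_mul (_ * q) k p, mul_comm k p, pow_mul]
    rw [h3] at h2
    calc c ^ k * ‖(kron1 k (gm L)).permanent‖ ^ p
        ≤ c ^ k * (((k.factorial : ℝ) ^ n) ^ p * ((((n : ℝ) ^ n) ^ p) * (D / c)) ^ k) :=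
          mul_le_mul_of_nonneg_left h2 (by positivity)
      _ = ((k.factorial : ℝ) ^ n) ^ p * (c * ((((n : ℝ) ^ n) ^ p) * (D / c))) ^ k := by
          rw [mul_pow c]; ring
      _ = _ := by
          congr 2
          field_simp

end root

end Pool.Agent.helper97.PER
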