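import Pool.Agent.helper97.PER.S7

set_option linter.all false
set_option autoImplicit false

/-!
# Tensor products (MP_2dd521_co)
-/

namespace Pool.Agent.helper97.PER

open MeasureTheory Finset Function
open scoped Real Topology Matrix ComplexConjugate ContDiff ComplexOrder
open Pool.Agent.helper80.LSZ (kron1 kron1_one)

variable {ι κ : Type*} [Fintype ι] [DecidableEq ι] [Fintype κ] [DecidableEq κ]

theorem exists_gm (A : Matrix ι ι ℂ) (hA : A.PosSemidef) : ∃ L : ι → ι → ℂ, gm L = A := by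
  obtain ⟨C, hC⟩ := exists_fac' hA
  refine ⟨fun s i => conj (C i s), ?_⟩
  rw [hC]
  ext s t
  simp [gm, Matrix.mul_apply]

/-- the forms of `J_k ⊗ A ⊗ B` -/
def LC {ι₁ κ₁ ι₂ κ₂ : Type*} (k : ℕ) (L : ι₁ → κ₁ → ℂ) (L' : ι₂ → κ₂ → ℂ) :
    Fin k × (ι₁ × ι₂) → κ₁ × κ₂ → ℂ := fun s p => L s.2.1 p.1 * L' s.2.2 p.2

variable {κ₁ κ₂ : Type*} [Fintype κ₁] [DecidableEq κ₁] [Fintype κ₂] [DecidableEq κ₂]

theorem gm_LC (k : ℕ) (L : ι → κ₁ → ℂ) (L' : κ → κ₂ → ℂ) :
    gm (LC k L L') = kron1 k (Matrix.kronecker (gm L) (gm L')) := by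
  ext ⟨a, i, j⟩ ⟨b, i', j'⟩
  simp only [gm, LC, kron1, Matrix.kronecker, Matrix.kroneckerMap_apply, Matrix.of_apply, one_mul,
    map_mul]
  rw [Finset.sum_mul_sum, Fintype.sum_prod_type]
  refine Finset.sum_congr rfl (fun p _ => Finset.sum_congr rfl (fun q _ => ?_))
  ring

theorem lf_LC (k : ℕ) (L : ι → κ₁ → ℂ) (L' : κ → κ₂ → ℂ) (z : κ₁ → ℂ) (w : κ₂ → ℂ)
    (s : Fin k × (ι × κ)) :
    lf (LC k L L') (fun p => z p.1 * w p.2) s = lf L z s.2.1 * lf L' w s.2.2 := by
  unfold lf LC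
  rw [Finset.sum_mul_sum, Fintype.sum_prod_type]
  refine Finset.sum_congr rfl (fun p _ => Finset.sum_congr rfl (fun q _ => ?_))
  ring

theorem ns_tensor (z : κ₁ → ℂ) (w : κ₂ → ℂ) :
    ns (fun p : κ₁ × κ₂ => z p.1 * w p.2) = ns z * ns w := by
  unfold ns
  rw [Finset.sum_mul_sum, Fintype.sum_prod_type]
  refine Finset.sum_congr rfl (fun p _ => Finset.sum_congr rfl (fun q _ => ?_))
  rw [norm_mul, mul_pow]

/-- the lower bound for tensor products -/
theorem lower_tensor (k : ℕ) (L : ι → κ₁ → ℂ) (L' : κ → κ₂ → ℂ) (z : κ₁ → ℂ) (w : κ₂ → ℂ) :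
    ((k * (Fintype.card ι * Fintype.card κ)).factorial : ℝ) *
      ((∏ i, ‖lf L z i‖ ^ 2) ^ (k * Fintype.card κ) *
        (∏ j, ‖lf L' w j‖ ^ 2) ^ (k * Fintype.card ι)) ≤
      (kron1 k (Matrix.kronecker (gm L) (gm L'))).permanent.re *
        ((ns z ^ Fintype.card ι) ^ (k * Fintype.card κ) *
          (ns w ^ Fintype.card κ) ^ (k * Fintype.card ι)) := by
  have h := lower (LC k L L') (fun p => z p.1 * w p.2)
  have hcard : Fintype.card (Fin k × (ι × κ)) = k * (Fintype.card ι * Fintype.card κ) := by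
    simp [Fintype.card_prod]
  rw [hcard, gm_LC, ns_tensor] at h
  have h1 : ∏ s : Fin k × (ι × κ), ‖lf (LC k L L') (fun p => z p.1 * w p.2) s‖ ^ 2 =
      (∏ i, ‖lf L z i‖ ^ 2) ^ (k * Fintype.card κ) *
        (∏ j, ‖lf L' w j‖ ^ 2) ^ (k * Fintype.card ι) := by
    simp_rw [lf_LC, norm_mul, mul_pow]
    rw [Fintype.prod_prod_type]
    simp only [Finset.prod_const, Finset.card_univ, Fintype.card_fin]
    rw [Fintype.prod_prod_type]
    simp_rw [Finset.prod_mul_distrib, Finset.prod_const, Finset.card_univ]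
    rw [Finset.prod_pow, mul_pow, ← pow_mul, ← pow_mul, mul_comm k, mul_comm k]
  rw [h1] at h
  refine h.trans (le_of_eq ?_)
  rw [mul_pow, ← pow_mul, ← pow_mul]
  congr 3 <;> ring

theorem perm_norm (A : Matrix ι ι ℂ) (hA : A.PosSemidef) : ‖A.permanent‖ = A.permanent.re := by
  obtain ⟨h1, h2⟩ := Pool.Agent.helper16.LSZ.perm_real A hA
  conv_lhs => rw [h1]
  rw [Complex.norm_real, Real.norm_of_nonneg h2]

theorem kron1_psd (k : ℕ) (A : Matrix ι ι ℂ) (hA : A.PosSemidef) : (kron1 k A).PosSemidef := by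
  obtain ⟨L, rfl⟩ := exists_gm A hA
  have h : kron1 k (gm L) = gm (fun s : Fin k × ι => L s.2) := by
    ext s t
    simp [kron1, gm, Matrix.kronecker, Matrix.kroneckerMap_apply]
  rw [h]
  exact gm_psd _

/-- the bound with the norm squared of a fixed vector on the second side -/
theorem half (k h : ℕ) (hk : 0 < k) (L : ι → κ₁ → ℂ) (L' : κ → κ₂ → ℂ)
    (hm : 0 < Fintype.card κ) (w : κ₂ → ℂ) :
    (((k * (Fintype.card ι * Fintype.card κ)).factorial : ℝ) *
        (∏ j, ‖lf L' w j‖ ^ 2) ^ (k * Fintype.card ι)) ^ h *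
      ‖(kron1 h (gm L)).permanent‖ ^ (k * Fintype.card κ) ≤
      ((h.factorial : ℝ) ^ Fintype.card ι) ^ (k * Fintype.card κ) *
        ((((Fintype.card ι : ℝ) ^ Fintype.card ι) ^ (k * Fintype.card κ)) *
          ((kron1 k (Matrix.kronecker (gm L) (gm L'))).permanent.re *
            (ns w ^ Fintype.card κ) ^ (k * Fintype.card ι))) ^ h := by
  have hP : 0 ≤ (kron1 k (Matrix.kronecker (gm L) (gm L'))).permanent.re := by
    rw [← gm_LC]
    exact (gm_perm_nonneg _).1
  refine root_form L _ _ ?_ ?_ (k * Fintype.card κ) h (Nat.mul_pos hk hm) ?_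
  · exact mul_nonneg (Nat.cast_nonneg _) (pow_nonneg (Finset.prod_nonneg
      (fun j _ => by positivity)) _)
  · exact mul_nonneg hP (pow_nonneg (pow_nonneg (ns_nonneg w) _) _)
  · intro z
    have h1 := lower_tensor k L L' z w
    calc _ = ((k * (Fintype.card ι * Fintype.card κ)).factorial : ℝ) *
      ((∏ i, ‖lf L z i‖ ^ 2) ^ (k * Fintype.card κ) *
        (∏ j, ‖lf L' w j‖ ^ 2) ^ (k * Fintype.card ι)) := by ring
      _ ≤ _ := h1
      _ = _ := by ring

/-- the inequality with the factor `(nmk)! / (nm)^(nmk)`, real form -/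
theorem main_real (k : ℕ) (hk : 0 < k) (A : Matrix ι ι ℂ) (hA : A.PosSemidef) (B : Matrix κ κ ℂ)
    (hB : B.PosSemidef) (hn : 0 < Fintype.card ι) (hm : 0 < Fintype.card κ) :
    ((k * (Fintype.card ι * Fintype.card κ)).factorial : ℝ) *
      (A.permanent.re ^ (k * Fintype.card κ) * B.permanent.re ^ (k * Fintype.card ι)) ≤
      ((Fintype.card ι : ℝ) * Fintype.card κ) ^ (k * (Fintype.card ι * Fintype.card κ)) *
        (kron1 k (Matrix.kronecker A B)).permanent.re := by
  obtain ⟨L, rfl⟩ := exists_gm A hA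
  obtain ⟨L', rfl⟩ := exists_gm B hB
  set n := Fintype.card ι with hn'
  set m := Fintype.card κ with hm'
  set P := (kron1 k (Matrix.kronecker (gm L) (gm L'))).permanent.re with hPdef
  have hP : 0 ≤ P := by
    rw [hPdef, ← gm_LC]
    exact (gm_perm_nonneg _).1
  have hfac : (0 : ℝ) ≤ ((k * (n * m)).factorial : ℝ) := Nat.cast_nonneg _
  -- first application
  have h1 : ∀ w : κ → ℂ, (((k * (n * m)).factorial : ℝ) * (gm L).permanent.re ^ (k * m)) *
      (∏ j, ‖lf L' w j‖ ^ 2) ^ (k * n) ≤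
      (((n : ℝ) ^ n) ^ (k * m) * P) * (ns w ^ m) ^ (k * n) := by
    intro w
    have h := half k 1 hk L L' hm w
    rw [kron1_one, perm_norm _ (gm_psd L)] at h
    simp only [pow_one, Nat.factorial_one, Nat.cast_one, one_pow, one_mul] at h
    calc _ = ((k * (n * m)).factorial : ℝ) * (∏ j, ‖lf L' w j‖ ^ 2) ^ (k * n) *
          (gm L).permanent.re ^ (k * m) := by ring
      _ ≤ _ := h
      _ = _ := by ring
  -- second application
  have h2 := root_form L' (((k * (n * m)).factorial : ℝ) * (gm L).permanent.re ^ (k * m))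
    (((n : ℝ) ^ n) ^ (k * m) * P) (by
      have := (gm_perm_nonneg L).1
      positivity) (by positivity) (k * n) 1 (Nat.mul_pos hk hn) h1
  rw [kron1_one, perm_norm _ (gm_psd L')] at h2
  simp only [pow_one, Nat.factorial_one, Nat.cast_one, one_pow, one_mul] at h2
  calc _ = ((k * (n * m)).factorial : ℝ) * (gm L).permanent.re ^ (k * m) *
        (gm L').permanent.re ^ (k * n) := by ring
    _ ≤ _ := h2
    _ = _ := by
        rw [← hm', mul_pow, ← pow_mul, ← pow_mul]
        ring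

end Pool.Agent.helper97.PER
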