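import Pool.Agent.helper97.PER.S8

set_option linter.all false
set_option autoImplicit false

/-!
# The inequality in the order of `ℂ` (MP_2dd521_co)
-/

namespace Pool.Agent.helper97.PER

open Finset Function
open scoped Real Topology Matrix ComplexConjugate ContDiff ComplexOrder
open Pool.Agent.helper80.LSZ (kron1 kron1_one)

theorem kron_psd {ι κ : Type*} [Fintype ι] [DecidableEq ι] [Fintype κ] [DecidableEq κ]
    (A : Matrix ι ι ℂ) (hA : A.PosSemidef) (B : Matrix κ κ ℂ) (hB : B.PosSemidef) :
    (Matrix.kronecker A B).PosSemidef := by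
  obtain ⟨L, rfl⟩ := exists_gm A hA
  obtain ⟨L', rfl⟩ := exists_gm B hB
  have h : Matrix.kronecker (gm L) (gm L') =
      gm (fun (s : ι × κ) (p : ι × κ) => L s.1 p.1 * L' s.2 p.2) := by
    ext ⟨i, j⟩ ⟨i', j'⟩
    simp only [gm, Matrix.kronecker, Matrix.kroneckerMap_apply, Matrix.of_apply, map_mul]
    rw [Finset.sum_mul_sum, Fintype.sum_prod_type]
    refine Finset.sum_congr rfl (fun p _ => Finset.sum_congr rfl (fun q _ => ?_))
    ring
  rw [h]
  exact gm_psd _

theorem perm_zero (n : ℕ) (hn : n = 0) (A : Matrix (Fin n) (Fin n) ℂ) : A.permanent = 1 := by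
  haveI : IsEmpty (Fin n) := by
    rw [hn]
    infer_instance
  exact Matrix.permanent_isEmpty

/-- the main inequality -/
theorem main (n m k : ℕ) (A : Matrix (Fin n) (Fin n) ℂ) (hA : A.PosSemidef)
    (B : Matrix (Fin m) (Fin m) ℂ) (hB : B.PosSemidef) :
    (((n * m * k).factorial : ℕ) : ℂ) * (A.permanent ^ (m * k) * B.permanent ^ (n * k)) ≤
      ((n * m : ℕ) : ℂ) ^ (n * m * k) * (kron1 k (Matrix.kronecker A B)).permanent := by
  obtain ⟨ha, ha0⟩ := Pool.Agent.helper16.LSZ.perm_real A hA
  obtain ⟨hb, hb0⟩ := Pool.Agent.helper16.LSZ.perm_real B hB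
  obtain ⟨hp, hp0⟩ := Pool.Agent.helper16.LSZ.perm_real (kron1 k (Matrix.kronecker A B))
    (kron1_psd k _ (kron_psd A hA B hB))
  rcases Nat.eq_zero_or_pos (n * m * k) with h0 | h0
  · have hempty : IsEmpty (Fin k × (Fin n × Fin m)) := by
      rw [← Fintype.card_eq_zero_iff]
      simp only [Fintype.card_prod, Fintype.card_fin]
      rw [← h0]; ring
    have e0 : (kron1 k (Matrix.kronecker A B)).permanent = 1 := Matrix.permanent_isEmpty
    rw [h0, e0]
    have e1 : A.permanent ^ (m * k) = 1 := by
      rcases Nat.eq_zero_or_pos n with hn | hn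
      · rw [perm_zero n hn, one_pow]
      · have : m * k = 0 := by
          rw [mul_assoc] at h0
          exact (Nat.mul_eq_zero.1 h0).resolve_left hn.ne'
        rw [this, pow_zero]
    have e2 : B.permanent ^ (n * k) = 1 := by
      rcases Nat.eq_zero_or_pos m with hn | hn
      · rw [perm_zero m hn, one_pow]
      · have : n * k = 0 := by
          have h1 : m * (n * k) = 0 := by rw [← h0]; ring
          exact (Nat.mul_eq_zero.1 h1).resolve_left hn.ne'
        rw [this, pow_zero]
    rw [e1, e2]
    simp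
  · have hk : 0 < k := Nat.pos_of_ne_zero (fun h => by rw [h] at h0; simp at h0)
    have hn : 0 < n := Nat.pos_of_ne_zero (fun h => by rw [h] at h0; simp at h0)
    have hm : 0 < m := Nat.pos_of_ne_zero (fun h => by rw [h] at h0; simp at h0)
    have h := main_real k hk A hA B hB (by rwa [Fintype.card_fin]) (by rwa [Fintype.card_fin])
    rw [Fintype.card_fin, Fintype.card_fin] at h
    have e1 : k * (n * m) = n * m * k := by ring
    have e2 : k * m = m * k := by ring
    have e3 : k * n = n * k := by ring
    rw [e1, e2, e3] at h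
    rw [ha, hb, hp]
    push_cast
    exact_mod_cast h

end Pool.Agent.helper97.PER
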