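import Mathlib

set_option linter.all false
set_option autoImplicit false

/-!
# Moving the torus of integration (MP_2dd521_co)
-/

namespace Pool.Agent.helper97.PER

open MeasureTheory Finset Function
open scoped Real Topology

variable {ι : Type*} [Fintype ι] [DecidableEq ι]

/-- the unit box -/
def box (ι : Type*) : Set (ι → ℝ) := Set.univ.pi (fun _ => Set.Ico (0 : ℝ) 1)

/-- integer vectors -/
def tr (n : ι → ℤ) : ι → ℝ := fun i => (n i : ℝ)

/-- integer vectors as a homomorphism -/
def trHom (ι : Type*) : (ι → ℤ) →+ (ι → ℝ) where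
  toFun n := fun i => (n i : ℝ)
  map_zero' := by ext; simp
  map_add' a b := by ext; simp

/-- the lattice of integer vectors -/
def Lat (ι : Type*) : AddSubgroup (ι → ℝ) := (trHom ι).range

instance : Countable (Lat ι) := by
  have : Function.Surjective (fun n : ι → ℤ => (⟨trHom ι n, ⟨n, rfl⟩⟩ : Lat ι)) := by
    rintro ⟨x, n, hn⟩
    exact ⟨n, Subtype.ext hn⟩
  exact this.countable

theorem box_meas : MeasurableSet (box ι) :=
  MeasurableSet.univ_pi (fun _ => measurableSet_Ico)

theorem exists_unique_box (y : ι → ℝ) (n : ι → ℤ) :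
    (fun i => (n i : ℝ) + y i) ∈ box ι ↔ n = fun i => - ⌊y i⌋ := by
  unfold box
  simp only [Set.mem_pi, Set.mem_univ, true_imp_iff, Set.mem_Ico]
  constructor
  · intro h
    funext i
    have h1 := h i
    have h2 : ⌊y i⌋ = - n i := by
      rw [Int.floor_eq_iff]
      push_cast
      constructor <;> linarith [h1.1, h1.2]
    omega
  · intro h i
    have h1 := congrFun h i
    have h2 := Int.floor_le (y i)
    have h3 := Int.lt_floor_add_one (y i)
    rw [h1]
    push_cast
    constructor <;> linarith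

theorem fd_image (Φ : (ι → ℝ) ≃ₜ (ι → ℝ)) (hΦ : ∀ y (n : ι → ℤ), Φ (tr n + y) = tr n + Φ y) :
    IsAddFundamentalDomain (Lat ι) (Φ '' box ι) (volume : Measure (ι → ℝ)) := by
  refine IsAddFundamentalDomain.mk' ?_ ?_
  · exact (Φ.measurableEmbedding.measurableSet_image.2 box_meas).nullMeasurableSet
  · intro x
    obtain ⟨y, rfl⟩ := Φ.surjective x
    refine ⟨⟨tr (fun i => - ⌊y i⌋), ⟨fun i => - ⌊y i⌋, rfl⟩⟩, ?_, ?_⟩
    · show tr (fun i => - ⌊y i⌋) + Φ y ∈ Φ '' box ι
      rw [← hΦ]
      exact ⟨_, (exists_unique_box y _).2 rfl, rfl⟩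
    · rintro ⟨g, n, hn⟩ hg
      have hg' : g + Φ y ∈ Φ '' box ι := hg
      have e : g = tr n := hn.symm
      rw [e, ← hΦ] at hg'
      obtain ⟨z, hz, hz2⟩ := hg'
      have hz3 := Φ.injective hz2
      rw [hz3] at hz
      have := (exists_unique_box y n).1 hz
      apply Subtype.ext
      show g = tr _
      rw [e, this]

/-- the characters -/
noncomputable def ch (n : ι → ℤ) (y : ι → ℝ) : ℂ :=
  Complex.exp (2 * π * Complex.I * ∑ i, (n i : ℂ) * (y i : ℂ))

theorem ch_add (n : ι → ℤ) (y : ι → ℝ) (k : ι → ℤ) : ch n (tr k + y) = ch n y := by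
  unfold ch
  have : (2 * π * Complex.I * ∑ i, (n i : ℂ) * (((tr k + y) i : ℝ) : ℂ)) =
      (2 * π * Complex.I * ∑ i, (n i : ℂ) * (y i : ℂ)) +
        ((∑ i, n i * k i : ℤ) : ℂ) * (2 * π * Complex.I) := by
    simp only [Pi.add_apply, tr]
    push_cast
    simp only [mul_add, Finset.sum_add_distrib]
    ring
  rw [this, Complex.exp_add, Complex.exp_int_mul_two_pi_mul_I, mul_one]

theorem int_one (k : ℤ) : ∫ y in Set.Ico (0 : ℝ) 1, Complex.exp (2 * π * Complex.I * (k * y)) =
    if k = 0 then 1 else 0 := by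
  rw [integral_Ico_eq_integral_Ioc, ← intervalIntegral.integral_of_le zero_le_one]
  split_ifs with h
  · subst h
    simp
  · have hc : (2 * π * Complex.I * k : ℂ) ≠ 0 := by
      have := Real.pi_ne_zero
      have hk : (k : ℂ) ≠ 0 := by exact_mod_cast h
      simp [hk]
    have e : ∀ y : ℝ, Complex.exp (2 * π * Complex.I * (k * y)) =
        Complex.exp ((2 * π * Complex.I * k) * y) := by
      intro y; congr 1; ring
    simp_rw [e]
    rw [integral_exp_mul_complex hc]
    have h2 : Complex.exp (2 * π * Complex.I * k * (1 : ℝ)) = 1 := by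
      have := Complex.exp_int_mul_two_pi_mul_I k
      rw [← this]
      congr 1
      push_cast
      ring
    rw [h2]
    simp

theorem int_ch (n : ι → ℤ) : ∫ y in box ι, ch n y = if n = 0 then 1 else 0 := by
  unfold box
  rw [volume_pi, Measure.restrict_pi_pi]
  have e : ∀ y : ι → ℝ, ch n y = ∏ i, Complex.exp (2 * π * Complex.I * ((n i : ℂ) * (y i : ℂ))) := by
    intro y
    unfold ch
    rw [Finset.mul_sum, Complex.exp_sum]
  simp_rw [e]
  rw [integral_fintype_prod_eq_prod (f := fun i (x : ℝ) =>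
    Complex.exp (2 * π * Complex.I * ((n i : ℂ) * (x : ℂ))))]
  simp_rw [int_one]
  split_ifs with h
  · subst h
    simp
  · have : ∃ i, n i ≠ 0 := by
      by_contra hcon
      push Not at hcon
      exact h (funext hcon)
    obtain ⟨i, hi⟩ := this
    exact Finset.prod_eq_zero (Finset.mem_univ i) (by rw [if_neg hi])

/-- change of variables on the torus -/
theorem int_shift_real (Φ : (ι → ℝ) ≃ₜ (ι → ℝ)) (hΦ : ∀ y (n : ι → ℤ), Φ (tr n + y) = tr n + Φ y)
    (Φ' : (ι → ℝ) → (ι → ℝ) →L[ℝ] (ι → ℝ)) (hd : ∀ y, HasFDerivAt Φ (Φ' y) y)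
    (hpos : ∀ y, 0 < (Φ' y).det) (n : ι → ℤ) :
    ∫ y in box ι, ch n (Φ y) * ((Φ' y).det : ℂ) = if n = 0 then 1 else 0 := by
  have h1 := integral_image_eq_integral_abs_det_fderiv_smul (volume : Measure (ι → ℝ))
    (box_meas (ι := ι)) (fun x _ => (hd x).hasFDerivWithinAt) (Φ.injective.injOn) (ch n)
  have h2 := (fd_image Φ hΦ).setIntegral_eq (fd_image (Homeomorph.refl (ι → ℝ)) (fun y n => rfl))
    (f := ch n) (by
      rintro ⟨g, k, hk⟩ x
      show ch n (g + x) = ch n x
      have e : g = tr k := hk.symm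
      rw [e, ch_add])
  rw [h1] at h2
  have h3 : (Homeomorph.refl (ι → ℝ)) '' box ι = box ι := by simp
  rw [h3, int_ch] at h2
  rw [← h2]
  refine setIntegral_congr_fun box_meas (fun y _ => ?_)
  show _ = |(Φ' y).det| • ch n (Φ y)
  rw [abs_of_pos (hpos y), Complex.real_smul, mul_comm]

end Pool.Agent.helper97.PER
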