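import Pool.Agent.helper97.PER.T1

set_option linter.all false
set_option autoImplicit false

/-!
# The complex shift of the torus (MP_2dd521_co)
-/

namespace Pool.Agent.helper97.PER

open MeasureTheory Finset Function
open scoped Real Topology

/-- integrals depending holomorphically on a parameter -/
theorem diff_int {X : Type*} [TopologicalSpace X] [MeasurableSpace X] [BorelSpace X]
    [SecondCountableTopology X] (μ : Measure X) [IsFiniteMeasure μ] (F : X → ℂ → ℂ)
    (hF : Continuous (uncurry F)) (hd : ∀ x, Differentiable ℂ (F x))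
    (hb : ∀ R : ℝ, ∃ C : ℝ, ∀ x s, ‖s‖ ≤ R → ‖F x s‖ ≤ C) :
    Differentiable ℂ (fun s => ∫ x, F x s ∂μ) := by
  intro s0
  obtain ⟨C, hC⟩ := hb (‖s0‖ + 2)
  have hcont : ∀ s, Continuous (fun x => F x s) := fun s =>
    hF.comp (continuous_id.prodMk continuous_const)
  have hn1 : ∀ s ∈ Metric.ball s0 1, ‖s‖ ≤ ‖s0‖ + 1 := by
    intro s hs
    rw [Metric.mem_ball, dist_eq_norm] at hs
    have := norm_sub_norm_le s s0
    linarith
  have key := hasDerivAt_integral_of_dominated_loc_of_deriv_le (μ := μ)
    (F := fun s x => F x s) (F' := fun s x => deriv (F x) s) (x₀ := s0)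
    (s := Metric.ball s0 1) (bound := fun _ => C / 1) (Metric.ball_mem_nhds s0 one_pos)
    (Filter.Eventually.of_forall (fun s => (hcont s).aestronglyMeasurable))
    ?_ ?_ ?_ (integrable_const _) ?_
  · exact key.2.differentiableAt
  · refine (integrable_const C).mono' (hcont s0).aestronglyMeasurable ?_
    exact Filter.Eventually.of_forall (fun x => hC x s0 (by linarith))
  · have hm := (stronglyMeasurable_deriv_with_param hF).comp_measurable
      (measurable_id.prodMk (measurable_const (a := s0)))
    exact hm.aestronglyMeasurable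
  · refine Filter.Eventually.of_forall (fun x s hs => ?_)
    refine Complex.norm_deriv_le_of_forall_mem_sphere_norm_le one_pos
      (hd x).diffContOnCl ?_
    intro z hz
    refine hC x z ?_
    rw [mem_sphere_iff_norm] at hz
    have h1 := hn1 s hs
    have h2 := norm_sub_norm_le z s
    linarith
  · exact Filter.Eventually.of_forall (fun x s _ => (hd x s).hasDerivAt)

variable {ι : Type*} [Fintype ι] [DecidableEq ι]

/-- continuous periodic functions are bounded -/
theorem per_bdd (f : (ι → ℝ) → ℝ) (hf : Continuous f)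
    (hp : ∀ y (n : ι → ℤ), f (tr n + y) = f y) : ∃ C, ∀ y, f y ≤ C := by
  have hK : IsCompact (Set.univ.pi (fun _ : ι => Set.Icc (0 : ℝ) 1)) :=
    isCompact_univ_pi (fun _ => isCompact_Icc)
  obtain ⟨C, hC⟩ := (hK.image hf).bddAbove
  refine ⟨C, fun y => ?_⟩
  have h1 := (exists_unique_box y (fun i => -⌊y i⌋)).2 rfl
  rw [← hp y (fun i => -⌊y i⌋)]
  refine hC ⟨_, ?_, rfl⟩
  intro i hi
  have := h1 i hi
  exact ⟨this.1, this.2.le⟩

end Pool.Agent.helper97.PER
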