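import Pool.Agent.helper97.PER.T2

set_option linter.all false
set_option autoImplicit false

/-!
# The complex shift of the torus, continued (MP_2dd521_co)
-/

namespace Pool.Agent.helper97.PER

open MeasureTheory Finset Function
open scoped Real Topology NNReal

variable {ι : Type*} [Fintype ι] [DecidableEq ι]

/-- the Jacobian matrix -/
noncomputable def Jac (r : (ι → ℝ) → (ι → ℝ)) (y : ι → ℝ) : Matrix ι ι ℝ :=
  LinearMap.toMatrix' ((fderiv ℝ r y : (ι → ℝ) →L[ℝ] (ι → ℝ)) : (ι → ℝ) →ₗ[ℝ] (ι → ℝ))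

theorem fderiv_per (r : (ι → ℝ) → (ι → ℝ)) (hper : ∀ y (n : ι → ℤ), r (tr n + y) = r y)
    (y : ι → ℝ) (n : ι → ℤ) : fderiv ℝ r (tr n + y) = fderiv ℝ r y := by
  rw [← fderiv_comp_add_left]
  congr 1
  ext x
  rw [hper]

theorem fderiv_bdd (r : (ι → ℝ) → (ι → ℝ)) (hr : ContDiff ℝ 1 r)
    (hper : ∀ y (n : ι → ℤ), r (tr n + y) = r y) : ∃ C : ℝ≥0, ∀ y, ‖fderiv ℝ r y‖₊ ≤ C := by
  obtain ⟨C, hC⟩ := per_bdd (fun y => ‖fderiv ℝ r y‖) (hr.continuous_fderiv (by norm_num)).norm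
    (fun y n => by rw [fderiv_per r hper])
  refine ⟨C.toNNReal, fun y => ?_⟩
  rw [← NNReal.coe_le_coe]
  exact (hC y).trans (Real.le_coe_toNNReal C)

theorem shift_real (r : (ι → ℝ) → (ι → ℝ)) (hr : ContDiff ℝ 1 r)
    (hper : ∀ y (n : ι → ℤ), r (tr n + y) = r y) :
    ∃ ε : ℝ, 0 < ε ∧ ∀ s : ℝ, 0 < s → s < ε → ∀ n : ι → ℤ,
      ∫ y in box ι, ch n (y + s • r y) * (((1 + s • Jac r y).det : ℝ) : ℂ) =
        if n = 0 then 1 else 0 := by
  obtain ⟨C, hC⟩ := fderiv_bdd r hr hper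
  have hlip : LipschitzWith C r := lipschitzWith_of_nnnorm_fderiv_le
    (hr.differentiable (by norm_num)) hC
  -- positivity of the determinant near the identity
  have hdet : ∀ᶠ A : (ι → ℝ) →L[ℝ] (ι → ℝ) in 𝓝 (ContinuousLinearMap.id ℝ (ι → ℝ)),
      0 < A.det := by
    have h1 : ContinuousAt (fun A : (ι → ℝ) →L[ℝ] (ι → ℝ) => A.det)
        (ContinuousLinearMap.id ℝ (ι → ℝ)) := ContinuousLinearMap.continuous_det.continuousAt
    refine h1.eventually (lt_mem_nhds ?_)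
    simp [ContinuousLinearMap.det]
  obtain ⟨δ, hδ, hδ2⟩ := Metric.eventually_nhds_iff.1 hdet
  refine ⟨min (δ / (C + 1)) (1 / (C + 1)), by positivity, ?_⟩
  intro s hs hs2 n
  have hC0 : (0 : ℝ) < C + 1 := by positivity
  have hs3 : s * (C + 1) < δ := by
    have := lt_of_lt_of_le hs2 (min_le_left _ _)
    rwa [lt_div_iff₀ hC0] at this
  have hs4 : s * (C + 1) < 1 := by
    have := lt_of_lt_of_le hs2 (min_le_right _ _)
    rwa [lt_div_iff₀ hC0] at this
  have happ : ApproximatesLinearOn (fun y => y + s • r y)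
      ((ContinuousLinearEquiv.refl ℝ (ι → ℝ) : (ι → ℝ) ≃L[ℝ] (ι → ℝ)) :
        (ι → ℝ) →L[ℝ] (ι → ℝ)) Set.univ (s.toNNReal * C) := by
    intro x _ y _
    have e : (x + s • r x) - (y + s • r y) - (x - y) = s • (r x - r y) := by
      rw [smul_sub]; abel
    show ‖(x + s • r x) - (y + s • r y) - (x - y)‖ ≤ _
    rw [e, norm_smul, Real.norm_of_nonneg hs.le]
    have h2 := hlip.dist_le_mul x y
    rw [dist_eq_norm, dist_eq_norm] at h2
    have h3 : (((s.toNNReal * C : ℝ≥0)) : ℝ) = s * C := by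
      push_cast
      rw [Real.coe_toNNReal s hs.le]
    rw [h3, mul_assoc]
    exact mul_le_mul_of_nonneg_left h2 hs.le
  have hc : Subsingleton (ι → ℝ) ∨ (s.toNNReal * C) <
      ‖(((ContinuousLinearEquiv.refl ℝ (ι → ℝ)).symm : (ι → ℝ) ≃L[ℝ] (ι → ℝ)) :
        (ι → ℝ) →L[ℝ] (ι → ℝ))‖₊⁻¹ := by
    rcases subsingleton_or_nontrivial (ι → ℝ) with h | h
    · exact Or.inl h
    · right
      have e : ‖(((ContinuousLinearEquiv.refl ℝ (ι → ℝ)).symm : (ι → ℝ) ≃L[ℝ] (ι → ℝ)) :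
        (ι → ℝ) →L[ℝ] (ι → ℝ))‖₊ = 1 := by
        have : ((((ContinuousLinearEquiv.refl ℝ (ι → ℝ)).symm : (ι → ℝ) ≃L[ℝ] (ι → ℝ)) :
          (ι → ℝ) →L[ℝ] (ι → ℝ))) = ContinuousLinearMap.id ℝ (ι → ℝ) := rfl
        rw [this]
        exact ContinuousLinearMap.nnnorm_id
      rw [e, inv_one, ← NNReal.coe_lt_coe]
      push_cast
      rw [Real.coe_toNNReal s hs.le]
      nlinarith
  set Φ := happ.toHomeomorph _ hc with hΦ
  have hΦa : ∀ y, Φ y = y + s • r y := fun y => rfl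
  have key := int_shift_real Φ (by
    intro y k
    rw [hΦa, hΦa, hper]
    abel) (fun y => ContinuousLinearMap.id ℝ (ι → ℝ) + s • fderiv ℝ r y) (by
    intro y
    have h1 := (hasFDerivAt_id (𝕜 := ℝ) y).add
      (((hr.differentiable (by norm_num) y).hasFDerivAt).const_smul s)
    exact h1) (by
    intro y
    apply hδ2
    rw [dist_eq_norm, add_sub_cancel_left, norm_smul, Real.norm_of_nonneg hs.le]
    have h3 : ‖fderiv ℝ r y‖ ≤ C := by exact_mod_cast hC y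
    have h4 : (0 : ℝ) ≤ C := NNReal.coe_nonneg C
    nlinarith) n
  rw [← key]
  refine setIntegral_congr_fun box_meas (fun y _ => ?_)
  show _ = ch n (Φ y) * _
  rw [hΦa]
  congr 2
  unfold ContinuousLinearMap.det
  rw [← LinearMap.det_toMatrix']
  congr 1
  unfold Jac
  simp [LinearMap.toMatrix'_id, map_add]

end Pool.Agent.helper97.PER
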