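import Pool.Agent.helper97.PER.R1

set_option linter.all false
set_option autoImplicit false

/-!
# Averages over the unit torus (MP_2dd521_co)
-/

namespace Pool.Agent.helper97.PER

open MeasureTheory Finset Function
open scoped Real Topology Matrix ComplexConjugate ContDiff ComplexOrder
open Pool.Agent.helper80.LSZ (kron1 cnt card_perm prod_cnt)

variable {ι : Type*} [Fintype ι] [DecidableEq ι]

/-- the point of the unit torus -/
noncomputable def ux (y : ι → ℝ) (i : ι) : ℂ := Complex.exp (2 * π * Complex.I * (y i : ℂ))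

theorem ux_ne (y : ι → ℝ) (i : ι) : ux y i ≠ 0 := Complex.exp_ne_zero _

theorem ux_norm (y : ι → ℝ) (i : ι) : ‖ux y i‖ = 1 := by
  unfold ux
  have : (2 * π * Complex.I * (y i : ℂ)) = ((2 * π * y i : ℝ) : ℂ) * Complex.I := by
    push_cast; ring
  rw [this, Complex.norm_exp_ofReal_mul_I]

theorem ux_inv (y : ι → ℝ) (i : ι) : (ux y i)⁻¹ = conj (ux y i) := by
  have h := Complex.mul_conj (ux y i)
  rw [Complex.normSq_eq_norm_sq, ux_norm] at h
  field_simp [ux_ne]
  rw [h]; simp

theorem ux_cont (i : ι) : Continuous (fun y : ι → ℝ => ux y i) := by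
  unfold ux
  fun_prop

/-- the function on the torus -/
noncomputable def GF (M : Matrix ι ι ℂ) (y : ι → ℝ) : ℂ := ∏ i, ((M *ᵥ ux y) i / ux y i)

theorem GF_cont (M : Matrix ι ι ℂ) : Continuous (GF M) := by
  unfold GF Matrix.mulVec dotProduct
  refine continuous_finset_prod _ (fun i _ => ?_)
  refine Continuous.div ?_ (ux_cont i) (fun y => ux_ne y i)
  exact continuous_finset_sum _ (fun j _ => continuous_const.mul (ux_cont j))

theorem ch_cont (n : ι → ℤ) : Continuous (ch n) := by
  unfold ch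
  refine Complex.continuous_exp.comp (continuous_const.mul ?_)
  exact continuous_finset_sum _ (fun i _ => continuous_const.mul
    (Complex.continuous_ofReal.comp (continuous_apply i)))

theorem cont_int {E : Type*} [NormedAddCommGroup E] (f : (ι → ℝ) → E) (hf : Continuous f) :
    IntegrableOn f (box ι) := by
  have hK : IsCompact (Set.univ.pi (fun _ : ι => Set.Icc (0 : ℝ) 1)) :=
    isCompact_univ_pi (fun _ => isCompact_Icc)
  refine (hf.continuousOn.integrableOn_compact hK).mono_set ?_
  intro y hy i hi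
  exact ⟨(hy i hi).1, (hy i hi).2.le⟩

theorem prod_ux (y : ι → ℝ) {S : Type*} [Fintype S] [DecidableEq S] (φ : S → ι) :
    ∏ s, ux y (φ s) = Complex.exp (2 * π * Complex.I * ∑ i, (cnt φ i : ℂ) * (y i : ℂ)) := by
  rw [prod_cnt φ (ux y), Finset.mul_sum, Complex.exp_sum]
  refine Finset.prod_congr rfl (fun i _ => ?_)
  unfold ux
  rw [← Complex.exp_nat_mul]
  congr 1
  ring

theorem GF_pow (M : Matrix ι ι ℂ) (y : ι → ℝ) (k : ℕ) :
    GF M y ^ k = ∑ φ : Fin k × ι → ι, (∏ s, M s.2 (φ s)) *
      ch (fun i => (cnt φ i : ℤ) - (cnt (Prod.snd : Fin k × ι → ι) i : ℤ)) y := by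
  classical
  have h1 : GF M y ^ k = ∏ s : Fin k × ι, ((M *ᵥ ux y) s.2 / ux y s.2) := by
    rw [Fintype.prod_prod_type]
    simp [GF, div_pow]
  have h2 : ∏ s : Fin k × ι, ((M *ᵥ ux y) s.2 / ux y s.2) =
      (∑ φ : Fin k × ι → ι, ∏ s, (M s.2 (φ s) * ux y (φ s))) *
        (∏ s : Fin k × ι, ux y s.2)⁻¹ := by
    rw [Finset.prod_div_distrib, div_eq_mul_inv]
    congr 1
    unfold Matrix.mulVec dotProduct
    rw [Finset.prod_univ_sum, Fintype.piFinset_univ]
  rw [h1, h2, Finset.sum_mul]
  refine Finset.sum_congr rfl (fun φ _ => ?_)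
  rw [Finset.prod_mul_distrib, prod_ux y φ, prod_ux y (Prod.snd : Fin k × ι → ι),
    ← Complex.exp_neg, mul_assoc, ← Complex.exp_add]
  congr 1
  unfold ch
  congr 1
  rw [← sub_eq_add_neg, ← mul_sub, ← Finset.sum_sub_distrib]
  congr 1
  refine Finset.sum_congr rfl (fun i _ => ?_)
  push_cast
  ring

theorem avg_eq (M : Matrix ι ι ℂ) (k : ℕ) :
    (kron1 k M).permanent = ((k.factorial : ℕ) : ℂ) ^ Fintype.card ι *
      ∫ y in box ι, GF M y ^ k := by
  classical
  rw [perm_maps]
  congr 1
  simp_rw [GF_pow]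
  rw [integral_finset_sum]
  · refine Finset.sum_congr rfl (fun φ _ => ?_)
    rw [integral_const_mul, int_ch]
    have : ((fun i => (cnt φ i : ℤ) - (cnt (Prod.snd : Fin k × ι → ι) i : ℤ)) = 0) ↔
        cnt φ = cnt (Prod.snd : Fin k × ι → ι) := by
      constructor
      · intro h
        funext i
        have := congrFun h i
        simp only [Pi.zero_apply] at this
        omega
      · intro h
        funext i
        simp only [Pi.zero_apply]
        rw [h]
        omega
    simp only [this]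
    split_ifs <;> simp
  · intro φ _
    exact (cont_int _ (ch_cont _)).const_mul _

/-- the sum of the off-diagonal terms -/
noncomputable def Zc (M : Matrix ι ι ℂ) (y : ι → ℝ) : ℂ :=
  ∑ p ∈ (Finset.univ.filter (fun p : ι × ι => p.1 ≠ p.2)), M p.1 p.2 * ux y p.2 * conj (ux y p.1)

/-- the exponent of `x_j / x_i` -/
def ee (p : ι × ι) : ι → ℤ := fun l => (if l = p.2 then 1 else 0) - (if l = p.1 then 1 else 0)

theorem ux_ch (p : ι × ι) (y : ι → ℝ) : ux y p.2 * conj (ux y p.1) = ch (ee p) y := by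
  rw [← ux_inv]
  unfold ux ch ee
  rw [← Complex.exp_neg, ← Complex.exp_add]
  congr 1
  have : ∑ l, (((if l = p.2 then 1 else 0) - (if l = p.1 then 1 else 0) : ℤ) : ℂ) * (y l : ℂ) =
      (y p.2 : ℂ) - (y p.1 : ℂ) := by
    push_cast
    simp only [sub_mul, ite_mul, one_mul, zero_mul, Finset.sum_sub_distrib]
    simp
  rw [this]
  ring

theorem ee_ne (p : ι × ι) (hp : p.1 ≠ p.2) : ee p ≠ 0 := by
  intro h
  have h1 := congrFun h p.2
  unfold ee at h1
  simp [hp.symm] at h1

theorem ch_mul (n n' : ι → ℤ) (y : ι → ℝ) : ch n y * ch n' y = ch (n + n') y := by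
  unfold ch
  rw [← Complex.exp_add]
  congr 1
  rw [← mul_add, ← Finset.sum_add_distrib]
  congr 1
  refine Finset.sum_congr rfl (fun i _ => ?_)
  simp only [Pi.add_apply]
  push_cast
  ring

theorem ee_add (p q : ι × ι) (hp : p.1 ≠ p.2) (hq : q.1 ≠ q.2) :
    ee p + ee q = 0 ↔ q = (p.2, p.1) := by
  constructor
  · intro h
    have h1 := congrFun h p.2
    have h2 := congrFun h p.1
    simp only [ee, Pi.add_apply, Pi.zero_apply, if_true, hp, hp.symm, if_false] at h1 h2
    rcases eq_or_ne p.2 q.1 with e1 | e1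
    · rcases eq_or_ne p.1 q.2 with e2 | e2
      · exact Prod.ext e1.symm e2.symm
      · exfalso
        rw [if_neg e2] at h2
        split_ifs at h2 <;> omega
    · exfalso
      rw [if_neg e1] at h1
      split_ifs at h1 <;> omega
  · rintro rfl
    funext l
    simp only [ee, Pi.add_apply, Pi.zero_apply]
    ring

theorem Zc_int (M : Matrix ι ι ℂ) : ∫ y in box ι, Zc M y = 0 := by
  unfold Zc
  rw [integral_finset_sum]
  · refine Finset.sum_eq_zero (fun p hp => ?_)
    have hp' : p.1 ≠ p.2 := (Finset.mem_filter.1 hp).2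
    have : ∀ y : ι → ℝ, M p.1 p.2 * ux y p.2 * conj (ux y p.1) = M p.1 p.2 * ch (ee p) y := by
      intro y
      rw [mul_assoc, ux_ch]
    simp_rw [this]
    rw [integral_const_mul, int_ch, if_neg (ee_ne p hp'), mul_zero]
  · intro p _
    refine cont_int _ ?_
    exact (continuous_const.mul (ux_cont _)).mul (Complex.continuous_conj.comp (ux_cont _))

theorem Zc_cont (M : Matrix ι ι ℂ) : Continuous (Zc M) := by
  unfold Zc
  refine continuous_finset_sum _ (fun p _ => ?_)
  exact (continuous_const.mul (ux_cont _)).mul (Complex.continuous_conj.comp (ux_cont _))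

theorem Zc_sq_int (M : Matrix ι ι ℂ) : ∫ y in box ι, Zc M y ^ 2 =
    ∑ p ∈ (Finset.univ.filter (fun p : ι × ι => p.1 ≠ p.2)), M p.1 p.2 * M p.2 p.1 := by
  classical
  have h0 : ∀ y : ι → ℝ, Zc M y ^ 2 = ∑ p ∈ (Finset.univ.filter (fun p : ι × ι => p.1 ≠ p.2)),
      ∑ q ∈ (Finset.univ.filter (fun p : ι × ι => p.1 ≠ p.2)),
        (M p.1 p.2 * M q.1 q.2) * ch (ee p + ee q) y := by
    intro y
    unfold Zc
    rw [sq, Finset.sum_mul_sum]
    refine Finset.sum_congr rfl (fun p _ => Finset.sum_congr rfl (fun q _ => ?_))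
    rw [← ch_mul, ← ux_ch, ← ux_ch]
    ring
  simp_rw [h0]
  rw [integral_finset_sum]
  · refine Finset.sum_congr rfl (fun p hp => ?_)
    have hp' : p.1 ≠ p.2 := (Finset.mem_filter.1 hp).2
    rw [integral_finset_sum]
    · rw [Finset.sum_eq_single (p.2, p.1)]
      · rw [integral_const_mul, int_ch, if_pos ((ee_add p (p.2, p.1) hp' hp'.symm).2 rfl), mul_one]
      · intro q hq hqp
        have hq' : q.1 ≠ q.2 := (Finset.mem_filter.1 hq).2
        rw [integral_const_mul, int_ch, if_neg (fun h => hqp ((ee_add p q hp' hq').1 h)), mul_zero]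
      · intro h
        refine absurd ?_ h
        rw [Finset.mem_filter]
        exact ⟨Finset.mem_univ _, hp'.symm⟩
    · intro q _
      exact (cont_int _ (ch_cont _)).const_mul _
  · intro p _
    exact integrable_finset_sum _ (fun q _ => (cont_int _ (ch_cont _)).const_mul _)

end Pool.Agent.helper97.PER
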