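import Pool.Agent.helper97.PER.Y9

set_option linter.all false
set_option autoImplicit false

/-!
# The inequality of Pate for many copies: the theorem (MP_2dd521_co)
-/

namespace Pool.Agent.helper97.PER

open Finset Function
open scoped Real Topology Matrix ComplexConjugate ComplexOrder
open Pool.Agent.helper80.LSZ (kron1)

theorem lieb_fin (m : ℕ) (M : Matrix (Fin m) (Fin m) ℂ) (hM : M.PosSemidef) (i : Fin m) :
    (M i i).re * (Pool.Agent.helper16.LSZ.VV M {i} {i}).re ≤ M.permanent.re := by
  cases m with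
  | zero => exact i.elim0
  | succ n => exact lieb_VV M hM i

/-- matrices with unit diagonal -/
theorem pate_unit (m k : ℕ) (hk : (2 ^ (m + 17) * m ^ 21) ^ 2 ≤ k)
    (M : Matrix (Fin m) (Fin m) ℂ) (hM : M.PosSemidef) (h1 : ∀ i, M i i = 1) (hm : 0 < m) :
    (k.factorial : ℝ) ^ m * M.permanent.re ^ k ≤ (kron1 k M).permanent.re := by
  have hm1 : (1 : ℝ) ≤ m := by exact_mod_cast hm
  have hm0 : (0 : ℝ) < m := by linarith
  have hk0 : 0 < k := lt_of_lt_of_le (by positivity) hk
  have hcard : Fintype.card (Fin m) = m := Fintype.card_fin m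
  -- the largest entry off the diagonal
  obtain ⟨x, hx, hx0, hx1⟩ : ∃ x : ℝ, (∀ i j, i ≠ j → ‖M i j‖ ≤ x) ∧ 0 ≤ x ∧
      (x = 0 ∨ ∃ i j, i ≠ j ∧ ‖M i j‖ = x) := by
    by_cases hne : (Finset.univ.filter (fun p : Fin m × Fin m => p.1 ≠ p.2)).Nonempty
    · obtain ⟨p, hp, hp2⟩ := Finset.exists_max_image _ (fun p : Fin m × Fin m => ‖M p.1 p.2‖) hne
      refine ⟨‖M p.1 p.2‖, ?_, norm_nonneg _, Or.inr ⟨p.1, p.2, (Finset.mem_filter.1 hp).2, rfl⟩⟩
      intro i j hij
      exact hp2 (i, j) (Finset.mem_filter.2 ⟨Finset.mem_univ _, hij⟩)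
    · refine ⟨0, ?_, le_rfl, Or.inl rfl⟩
      intro i j hij
      exact absurd ⟨(i, j), Finset.mem_filter.2 ⟨Finset.mem_univ _, hij⟩⟩ hne
  have hS : 2 * x ^ 2 ≤ So M := by
    rcases hx1 with h | ⟨i, j, hij, h⟩
    · rw [h]
      have := So_nonneg M
      simpa using this
    · rw [← h]
      exact So_ge M hM.isHermitian i j hij
  have hkR : ((2 : ℝ) ^ (m + 17) * m ^ 21) ^ 2 ≤ k := by exact_mod_cast hk
  by_cases hx5 : 12 * (m : ℝ) ^ 5 * x ≤ 1
  · by_cases hk2 : k * ((m : ℝ) ^ 3 * x ^ 2) ≤ 1 / 8
    · -- regime 3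
      have h := regime3 M hM h1 x hx hx0 hS (by rw [hcard]; exact hx5) k (by
        rw [hcard]
        refine le_trans ?_ hkR
        have e1 : (24 : ℝ) * m ^ 3 ≤ (2 : ℝ) ^ (m + 17) * m ^ 21 := by
          have e2 : (24 : ℝ) ≤ 2 ^ (m + 17) := by
            calc (24 : ℝ) ≤ 2 ^ 17 := by norm_num
              _ ≤ 2 ^ (m + 17) := pow_le_pow_right₀ (by norm_num) (by omega)
          have e3 : (m : ℝ) ^ 3 ≤ (m : ℝ) ^ 21 := pow_le_pow_right₀ hm1 (by norm_num)
          exact mul_le_mul e2 e3 (by positivity) (by positivity)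
        have e4 : (1 : ℝ) ≤ (2 : ℝ) ^ (m + 17) * m ^ 21 := by
          have e5 : (1 : ℝ) ≤ (m : ℝ) ^ 3 := one_le_pow₀ hm1
          linarith
        nlinarith) (by rw [hcard]; exact hk2)
      rw [hcard] at h
      exact h
    · -- regime 2
      have hx0' : 0 < x := by
        rcases eq_or_lt_of_le hx0 with h | h
        · exfalso
          apply hk2
          rw [← h]
          norm_num
        · exact h
      have h := regime2 M hM h1 x hx hx0' hS (by rw [hcard]; exact hx5) (by rw [hcard]; exact hm)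
        k hk0 (by
          rw [hcard]
          exact num2 m k hm hk x hx0 (not_le.1 hk2))
      rw [hcard] at h
      exact h
  · -- regime 1
    obtain ⟨i, j, hij, hxij⟩ : ∃ i j, i ≠ j ∧ ‖M i j‖ = x := by
      rcases hx1 with h | h
      · exfalso
        apply hx5
        rw [h]
        norm_num
      · exact h
    have hX : 1 / (12 * (m : ℝ) ^ 5) ≤ x := by
      rw [div_le_iff₀ (by positivity)]
      have := not_le.1 hx5
      linarith
    have hlieb : (Pool.Agent.helper16.LSZ.VV M {i} {i}).re ≤ M.permanent.re := by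
      have h := lieb_fin m M hM i
      rw [h1 i] at h
      simpa using h
    have hgap := two_gap M hM i j hij (h1 i) (h1 j) hlieb
    rw [hcard, hxij] at hgap
    set δ : ℝ := x ^ 4 / 2 ^ m with hδ
    have hδ0 : 0 ≤ δ := by positivity
    have h := regime1 M hM δ hδ0 (by
      rw [hcard]
      refine le_trans (le_of_eq ?_) hgap
      rw [hδ]
      field_simp) (by rw [hcard]; exact hm) k hk0 (by
        rw [hcard]
        refine num1 m k hm hk δ ?_
        have e1 := pow_le_pow_left₀ (by positivity) hX 4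
        rw [hδ, le_div_iff₀ (by positivity)]
        refine le_trans (le_of_eq ?_) e1
        field_simp
        )
    rw [hcard] at h
    exact h

/-- scaling -/
theorem perm_scale {S : Type*} [Fintype S] [DecidableEq S] (v : S → ℂ) (M : Matrix S S ℂ) :
    (Matrix.of fun s t => v s * v t * M s t).permanent = (∏ s, v s) ^ 2 * M.permanent := by
  unfold Matrix.permanent
  rw [Finset.mul_sum]
  refine Finset.sum_congr rfl (fun σ _ => ?_)
  simp only [Matrix.of_apply]
  rw [Finset.prod_mul_distrib, Finset.prod_mul_distrib, Equiv.prod_comp σ v, sq]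

theorem kron1_scale (k : ℕ) {ι : Type*} [Fintype ι] [DecidableEq ι] (v : ι → ℂ)
    (M : Matrix ι ι ℂ) :
    (kron1 k (Matrix.of fun i j => v i * v j * M i j)).permanent =
      ((∏ i, v i) ^ 2) ^ k * (kron1 k M).permanent := by
  have h := perm_scale (fun s : Fin k × ι => v s.2) (kron1 k M)
  have e1 : (Matrix.of fun s t : Fin k × ι => v s.2 * v t.2 * kron1 k M s t) =
      kron1 k (Matrix.of fun i j => v i * v j * M i j) := by
    ext s t
    simp [kron1, Matrix.kronecker, Matrix.kroneckerMap_apply]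
  rw [e1] at h
  rw [h]
  congr 1
  rw [Fintype.prod_prod_type]
  simp only [Finset.prod_const, Finset.card_univ, Fintype.card_fin]
  rw [← pow_mul, ← pow_mul, mul_comm]

/-- **the inequality of Pate for all large `k`** -/
theorem pate_large (m k : ℕ) (hk : (2 ^ (m + 17) * m ^ 21) ^ 2 ≤ k)
    (B : Matrix (Fin m) (Fin m) ℂ) (hB : B.PosSemidef) :
    ((k.factorial : ℕ) : ℂ) ^ m * B.permanent ^ k ≤ (kron1 k B).permanent := by
  obtain ⟨hb, hb0⟩ := Pool.Agent.helper16.LSZ.perm_real B hB
  obtain ⟨hp, hp0⟩ := Pool.Agent.helper16.LSZ.perm_real (kron1 k B) (kron1_psd k B hB)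
  suffices h : (k.factorial : ℝ) ^ m * B.permanent.re ^ k ≤ (kron1 k B).permanent.re by
    rw [hb, hp]
    exact_mod_cast h
  rcases Nat.eq_zero_or_pos m with hm | hm
  · subst hm
    haveI : IsEmpty (Fin k × Fin 0) := ⟨fun p => p.2.elim0⟩
    have e1 : B.permanent = 1 := Matrix.permanent_isEmpty
    have e2 : (kron1 k B).permanent = 1 := Matrix.permanent_isEmpty
    rw [e1, e2]
    simp
  have hk0 : 0 < k := lt_of_lt_of_le (by positivity) hk
  by_cases hz : ∃ i, B i i = 0
  · obtain ⟨i, hi⟩ := hz
    have hrow : ∀ j, B j i = 0 := by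
      intro j
      obtain ⟨L, rfl⟩ := exists_gm B hB
      have h1 : ∑ a, ‖L i a‖ ^ 2 = 0 := by
        have h2 : gm L i i = ((∑ a, ‖L i a‖ ^ 2 : ℝ) : ℂ) := by
          unfold gm
          simp only [Matrix.of_apply]
          push_cast
          refine Finset.sum_congr rfl (fun a _ => ?_)
          rw [Complex.mul_conj, Complex.normSq_eq_norm_sq]
          push_cast
          rfl
        rw [h2] at hi
        exact_mod_cast hi
      have h3 : ∀ a, L i a = 0 := by
        intro a
        have h4 := (Finset.sum_eq_zero_iff_of_nonneg (fun a _ => by positivity)).1 h1 a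
          (Finset.mem_univ a)
        have h5 : ‖L i a‖ = 0 := by simpa using h4
        simpa using h5
      simp [gm, h3]
    have hper : B.permanent = 0 := by
      unfold Matrix.permanent
      refine Finset.sum_eq_zero (fun σ _ => ?_)
      exact Finset.prod_eq_zero (Finset.mem_univ i) (hrow _)
    rw [hper, Complex.zero_re, zero_pow hk0.ne', mul_zero]
    exact hp0
  · push Not at hz
    have hdiag : ∀ i, B i i = (((B i i).re : ℝ) : ℂ) ∧ 0 < (B i i).re := by
      intro i
      have h := Complex.le_def.1 (hB.diag_nonneg (i := i))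
      have h2 : B i i = (((B i i).re : ℝ) : ℂ) := Complex.ext (by simp) (by simpa using h.2.symm)
      refine ⟨h2, lt_of_le_of_ne h.1 (fun h3 => hz i ?_)⟩
      rw [h2]
      have : (B i i).re = 0 := h3.symm
      rw [this]
      simp
    set c : Fin m → ℝ := fun i => √(B i i).re with hc
    have hc0 : ∀ i, 0 < c i := fun i => Real.sqrt_pos.2 (hdiag i).2
    have hc2 : ∀ i, c i ^ 2 = (B i i).re := fun i => Real.sq_sqrt (hdiag i).2.le
    set B' : Matrix (Fin m) (Fin m) ℂ := Matrix.of fun i j =>
      ((c i : ℂ))⁻¹ * ((c j : ℂ))⁻¹ * B i j with hB'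
    have hcne : ∀ i, (c i : ℂ) ≠ 0 := fun i => by exact_mod_cast (hc0 i).ne'
    have hBB' : B = Matrix.of fun i j => (c i : ℂ) * (c j : ℂ) * B' i j := by
      ext i j
      simp only [hB', Matrix.of_apply]
      have h1 := hcne i
      have h2 := hcne j
      field_simp
    have hB'psd : B'.PosSemidef := by
      obtain ⟨L, hL⟩ := exists_gm B hB
      have h1 : B' = gm (fun i a => ((c i : ℂ))⁻¹ * L i a) := by
        ext i j
        rw [hB', ← hL]
        simp only [gm, Matrix.of_apply, map_mul, map_inv₀, Complex.conj_ofReal]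
        rw [Finset.mul_sum]
        refine Finset.sum_congr rfl (fun a _ => ?_)
        ring
      rw [h1]
      exact gm_psd _
    have hB'1 : ∀ i, B' i i = 1 := by
      intro i
      simp only [hB', Matrix.of_apply]
      rw [(hdiag i).1, ← hc2 i]
      have h1 := hcne i
      push_cast
      field_simp
    have h := pate_unit m k hk B' hB'psd hB'1 hm
    set q : ℝ := (∏ i, c i) ^ 2 with hq
    have hq0 : 0 ≤ q := by positivity
    have e1 : B.permanent.re = q * B'.permanent.re := by
      rw [hBB', perm_scale (fun i => (c i : ℂ)) B']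
      have : (∏ i, (c i : ℂ)) ^ 2 = ((q : ℝ) : ℂ) := by
        rw [hq]; push_cast; rfl
      rw [this, Complex.re_ofReal_mul]
    have e2 : (kron1 k B).permanent.re = q ^ k * (kron1 k B').permanent.re := by
      have e3 : (kron1 k B).permanent = ((∏ i, (c i : ℂ)) ^ 2) ^ k * (kron1 k B').permanent := by
        conv_lhs => rw [hBB']
        exact kron1_scale k (fun i => (c i : ℂ)) B'
      rw [e3]
      have : ((∏ i, (c i : ℂ)) ^ 2) ^ k = ((q ^ k : ℝ) : ℂ) := by
        rw [hq]; push_cast; rfl
      rw [this, Complex.re_ofReal_mul]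
    rw [e1, e2, mul_pow]
    calc _ = q ^ k * ((k.factorial : ℝ) ^ m * B'.permanent.re ^ k) := by ring
      _ ≤ _ := mul_le_mul_of_nonneg_left h (by positivity)

end Pool.Agent.helper97.PER
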