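import Pool.Agent.helper97.PER.Y10
import Pool.Agent.helper97.PER.R2

set_option linter.all false
set_option autoImplicit false

/-!
# Blow-ups of one factor (MP_2dd521_co)
-/

namespace Pool.Agent.helper97.PER

open Finset Function
open scoped Real Topology Matrix ComplexConjugate ComplexOrder
open Pool.Agent.helper80.LSZ (kron1)

section

variable {ι κ κ₁ κ₂ : Type*} [Fintype ι] [DecidableEq ι] [Fintype κ] [DecidableEq κ]
  [Fintype κ₁] [DecidableEq κ₁] [Fintype κ₂] [DecidableEq κ₂]

/-- the comparison inequality with blow-ups on both sides, for Gram matrices -/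
theorem comp_gram2 (n k : ℕ) (hk : 0 < k) (L : Fin n → κ₁ → ℂ) (L' : κ → κ₂ → ℂ)
    (hm : 0 < Fintype.card κ) :
    (kron1 (k * n) (gm L')).permanent.re * (kron1 k (gm L)).permanent.re ^ Fintype.card κ ≤
      (((k.factorial : ℝ) ^ n) ^ Fintype.card κ * ((n : ℝ) ^ n) ^ (k * Fintype.card κ)) *
        (kron1 k (Matrix.kronecker (gm L) (gm L'))).permanent.re := by
  set m := Fintype.card κ with hm'
  have hP : 0 ≤ (kron1 k (Matrix.kronecker (gm L) (gm L'))).permanent.re := by
    rw [← gm_LC]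
    exact (gm_perm_nonneg _).1
  have hQ : 0 ≤ (kron1 (k * n) (gm L')).permanent.re :=
    (Pool.Agent.helper16.LSZ.perm_real _ (kron1_psd _ _ (gm_psd L'))).2
  have hR : 0 ≤ (kron1 k (gm L)).permanent.re :=
    (Pool.Agent.helper16.LSZ.perm_real _ (kron1_psd _ _ (gm_psd L))).2
  have h := root_form L ((kron1 (k * n) (gm L')).permanent.re)
    (kron1 k (Matrix.kronecker (gm L) (gm L'))).permanent.re hQ hP (k * m) k (Nat.mul_pos hk hm) (by
      intro z
      have h1 := lower2 (fun s : Fin k × (Fin n × κ) => L s.2.1)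
        (fun s : Fin k × (Fin n × κ) => L' s.2.2) z
      have e1 : gm (LT (fun s : Fin k × (Fin n × κ) => L s.2.1)
        (fun s : Fin k × (Fin n × κ) => L' s.2.2)) =
          kron1 k (Matrix.kronecker (gm L) (gm L')) := gm_LC k L L'
      have e2 : (gm (fun s : Fin k × (Fin n × κ) => L' s.2.2)).permanent =
          (kron1 (k * n) (gm L')).permanent := by
        have h2 := Pool.Agent.helper16.LSZ.permanent_submatrix_equiv (kron1 (k * n) (gm L'))
          (((Equiv.prodAssoc (Fin k) (Fin n) κ).symm).trans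
            (Equiv.prodCongr finProdFinEquiv (Equiv.refl κ)))
        rw [← h2]
        congr 1
        ext s t
        simp [kron1, gm, Matrix.kronecker, Matrix.kroneckerMap_apply]
      have e3 : ∏ s : Fin k × (Fin n × κ), ‖lf (fun s : Fin k × (Fin n × κ) => L s.2.1) z s‖ ^ 2 =
          (∏ i, ‖lf L z i‖ ^ 2) ^ (k * m) := by
        have : ∀ s : Fin k × (Fin n × κ), lf (fun s : Fin k × (Fin n × κ) => L s.2.1) z s =
            lf L z s.2.1 := fun s => rfl
        simp_rw [this]
        rw [Fintype.prod_prod_type]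
        simp only [Finset.prod_const, Finset.card_univ, Fintype.card_fin]
        rw [Fintype.prod_prod_type]
        simp_rw [Finset.prod_const, Finset.card_univ]
        rw [Finset.prod_pow, ← pow_mul, mul_comm k]
      have e4 : Fintype.card (Fin k × (Fin n × κ)) = n * (k * m) := by
        simp [Fintype.card_prod]; ring
      rw [e1, e2, e3, e4, pow_mul (ns z) n (k * m)] at h1
      rw [Fintype.card_fin]
      calc _ = (∏ i, ‖lf L z i‖ ^ 2) ^ (k * m) * (kron1 (k * n) (gm L')).permanent.re := by ring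
        _ ≤ _ := h1)
  rw [Fintype.card_fin, perm_norm _ (kron1_psd k _ (gm_psd L))] at h
  refine le_of_pow_le_pow_left₀ hk.ne' (by positivity) ?_
  calc _ = (kron1 (k * n) (gm L')).permanent.re ^ k *
        (kron1 k (gm L)).permanent.re ^ (k * m) := by
        rw [mul_pow, ← pow_mul, mul_comm m k]
    _ ≤ _ := h
    _ = _ := by
        rw [mul_pow, mul_pow, mul_pow, ← pow_mul, ← pow_mul, ← pow_mul, ← pow_mul]
        ring_nf

end

/-- the factorials -/
theorem fac_bound2 (m n k : ℕ) (hk : 0 < k) :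
    (((k.factorial : ℝ) ^ n) ^ m * ((n : ℝ) ^ n) ^ (k * m)) * ((m : ℝ) ^ m) ^ (k * n) ≤
      ((k * n * m).factorial : ℝ) * ((Real.exp 1 * √k) ^ m) ^ n := by
  have h1 := pow_le_pow_left₀ (Nat.cast_nonneg _) (fac_up k hk) (n * m)
  have h2 := fac_low (k * n * m)
  have h3 : (Real.exp 1 * √k * (k / Real.exp 1) ^ k) ^ (n * m) * (((n : ℝ) ^ n) ^ (k * m) *
      ((m : ℝ) ^ m) ^ (k * n)) =
      (((k * n * m : ℕ) : ℝ) / Real.exp 1) ^ (k * n * m) * ((Real.exp 1 * √k) ^ m) ^ n := by
    have e1 : (((k * n * m : ℕ) : ℝ) / Real.exp 1) ^ (k * n * m) =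
        ((k / Real.exp 1 : ℝ) ^ k) ^ (n * m) * (((n : ℝ) ^ n) ^ (k * m) *
      ((m : ℝ) ^ m) ^ (k * n)) := by
      rw [← pow_mul, ← pow_mul, ← pow_mul]
      have e2 : n * (k * m) = k * n * m := by ring
      have e3 : m * (k * n) = k * n * m := by ring
      have e4 : k * (n * m) = k * n * m := by ring
      rw [e2, e3, e4, ← mul_pow, ← mul_pow]
      congr 1
      push_cast
      ring
    rw [e1, mul_pow _ _ (n * m), ← pow_mul (Real.exp 1 * √k) m n, mul_comm m n]
    ring
  calc _ = ((k.factorial : ℝ)) ^ (n * m) * (((n : ℝ) ^ n) ^ (k * m) *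
        ((m : ℝ) ^ m) ^ (k * n)) := by rw [← pow_mul]; ring
    _ ≤ (Real.exp 1 * √k * (k / Real.exp 1) ^ k) ^ (n * m) * (((n : ℝ) ^ n) ^ (k * m) *
        ((m : ℝ) ^ m) ^ (k * n)) := mul_le_mul_of_nonneg_right h1 (by positivity)
    _ = _ := h3
    _ ≤ _ := mul_le_mul_of_nonneg_right h2 (by positivity)

end Pool.Agent.helper97.PER
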