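import Pool.Agent.helper97.PER.Y11

set_option linter.all false
set_option autoImplicit false

/-!
# Blow-ups of one factor: the second factor fixed (MP_2dd521_co)
-/

namespace Pool.Agent.helper97.PER

open MeasureTheory Finset Function
open scoped Real Topology Matrix ComplexConjugate ComplexOrder
open Pool.Agent.helper80.LSZ (kron1)

section

variable {ι : Type*} [Fintype ι] [DecidableEq ι]

/-- far from the identity -/
theorem stable1 (M : Matrix ι ι ℂ) (hM : M.PosSemidef) (δ : ℝ) (hδ : 0 ≤ δ)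
    (hgap : (2 : ℝ) ^ Fintype.card ι * (1 + δ) * M.permanent.re ^ 2 ≤ (kron1 2 M).permanent.re)
    (hm : 0 < Fintype.card ι) (k : ℕ) (hk : 0 < k)
    (hL : ((Real.exp 1 * √k) ^ Fintype.card ι) ^ 2 ≤ (1 + δ) ^ k) (n : ℕ) (hn : 0 < n) :
    (((k.factorial : ℝ) ^ n) ^ Fintype.card ι * ((n : ℝ) ^ n) ^ (k * Fintype.card ι)) *
      M.permanent.re ^ (k * n) ≤ (kron1 (k * n) M).permanent.re := by
  set m := Fintype.card ι with hmdef
  set p := M.permanent.re with hp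
  have hp0 : 0 ≤ p := perm_re_nonneg M hM
  set K := k * n with hK
  have hK0 : 0 < K := Nat.mul_pos hk hn
  set P := (kron1 K M).permanent.re with hP
  have hP0 : 0 ≤ P := perm_re_nonneg _ (kron1_psd K M hM)
  have h := growth_two M hM K hK0
  rw [← hmdef, ← hP] at h
  have hm0 : (0 : ℝ) < m := by exact_mod_cast hm
  have h1 : ((2 : ℝ) ^ m) ^ K * (((K * m).factorial : ℝ) ^ 2 * ((1 + δ) ^ K * (p ^ K) ^ 2)) ≤
      ((2 : ℝ) ^ m) ^ K * ((((m : ℝ) ^ m) ^ K) * P) ^ 2 := by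
    have h2 := pow_le_pow_left₀ (by positivity) hgap K
    calc _ = ((K * m).factorial : ℝ) ^ 2 * ((2 : ℝ) ^ m * (1 + δ) * p ^ 2) ^ K := by
          rw [mul_pow, mul_pow, ← pow_mul p 2 K, ← pow_mul p K 2, mul_comm 2 K]; ring
      _ ≤ ((K * m).factorial : ℝ) ^ 2 * (kron1 2 M).permanent.re ^ K :=
          mul_le_mul_of_nonneg_left h2 (by positivity)
      _ ≤ _ := h
  have h2 : ((K * m).factorial : ℝ) ^ 2 * ((1 + δ) ^ K * (p ^ K) ^ 2) ≤
      ((((m : ℝ) ^ m) ^ K) * P) ^ 2 := le_of_mul_le_mul_left h1 (by positivity)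
  set Λ := ((Real.exp 1 * √k) ^ m) ^ n with hΛ
  have h3 := fac_bound2 m n k hk
  rw [← hK, ← hΛ] at h3
  set Ω := ((k.factorial : ℝ) ^ n) ^ m * ((n : ℝ) ^ n) ^ (k * m) with hΩ
  have hΛ2 : Λ ^ 2 ≤ (1 + δ) ^ K := by
    have h5 := pow_le_pow_left₀ (by positivity) hL n
    rw [hΛ, hK, pow_mul (1 + δ) k n]
    refine le_trans (le_of_eq ?_) h5
    exact pow_right_comm _ _ _
  have h4 : ((((m : ℝ) ^ m) ^ K) * (Ω * p ^ K)) ^ 2 ≤ ((((m : ℝ) ^ m) ^ K) * P) ^ 2 := by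
    calc _ = (Ω * ((m : ℝ) ^ m) ^ K) ^ 2 * (p ^ K) ^ 2 := by ring
      _ ≤ (((K * m).factorial : ℝ) * Λ) ^ 2 * (p ^ K) ^ 2 :=
          mul_le_mul_of_nonneg_right (pow_le_pow_left₀ (by positivity) h3 2) (by positivity)
      _ = ((K * m).factorial : ℝ) ^ 2 * (Λ ^ 2 * (p ^ K) ^ 2) := by ring
      _ ≤ ((K * m).factorial : ℝ) ^ 2 * ((1 + δ) ^ K * (p ^ K) ^ 2) := by
          refine mul_le_mul_of_nonneg_left ?_ (by positivity)
          exact mul_le_mul_of_nonneg_right hΛ2 (by positivity)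
      _ ≤ _ := h2
  have h5 : (((m : ℝ) ^ m) ^ K) * (Ω * p ^ K) ≤ (((m : ℝ) ^ m) ^ K) * P :=
    le_of_pow_le_pow_left₀ (by norm_num) (by positivity) h4
  exact le_of_mul_le_mul_left h5 (by positivity)

/-- close to the identity -/
theorem stable2 (M : Matrix ι ι ℂ) (hM : M.PosSemidef) (h1 : ∀ i, M i i = 1) (x : ℝ)
    (hx : ∀ i j, i ≠ j → ‖M i j‖ ≤ x) (hx0 : 0 < x) (hS : 2 * x ^ 2 ≤ So M)
    (hx5 : 12 * (Fintype.card ι : ℝ) ^ 5 * x ≤ 1) (hm : 0 < Fintype.card ι)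
    (k : ℕ) (hk : 0 < k)
    (hk2 : (Real.exp 1 * √k) ^ Fintype.card ι ≤
      Real.exp (k * (2 / 3 * (x / (Fintype.card ι : ℝ) ^ 2)))) (n : ℕ) (hn : 0 < n) :
    (((k.factorial : ℝ) ^ n) ^ Fintype.card ι * ((n : ℝ) ^ n) ^ (k * Fintype.card ι)) *
      M.permanent.re ^ (k * n) ≤ (kron1 (k * n) M).permanent.re := by
  set m := Fintype.card ι with hmdef
  set η := (m : ℝ) ^ 3 * x ^ 2 with hη
  have hm1 : (1 : ℝ) ≤ m := by exact_mod_cast hm
  have hm0 : (0 : ℝ) < m := by linarith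
  have hη0 : 0 ≤ η := by positivity
  set K := k * n with hK
  have hK0 : 0 < K := Nat.mul_pos hk hn
  have hKr : (K : ℝ) = k * n := by rw [hK]; push_cast; rfl
  have hk0 : (0 : ℝ) ≤ K := Nat.cast_nonneg K
  have hm2 : (m : ℝ) * x ≤ 1 / 2 ∧ (m : ℝ) ^ 2 * x ≤ 1 := by
    have h3 : (m : ℝ) ≤ (m : ℝ) ^ 5 := by
      calc (m : ℝ) = m ^ 1 := (pow_one _).symm
        _ ≤ m ^ 5 := pow_le_pow_right₀ hm1 (by norm_num)
    have h4 : (m : ℝ) ^ 2 ≤ (m : ℝ) ^ 5 := pow_le_pow_right₀ hm1 (by norm_num)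
    have h5 := mul_le_mul_of_nonneg_right h3 hx0.le
    have h6 := mul_le_mul_of_nonneg_right h4 hx0.le
    constructor <;> nlinarith
  have hS2 : So M ≤ η := by
    refine (So_le M x hx hx0.le).trans ?_
    exact mul_le_mul_of_nonneg_right (nat_sq_le_cube m) (by positivity)
  have hup := perm_up M hM.isHermitian h1 x hx hx0.le hm2.1 hm2.2
  obtain ⟨y, hy⟩ := exists_pt M hM.isHermitian x hx hx0 hS hm
  obtain ⟨u, hu, hu2⟩ := GF_exp M hM.isHermitian h1 x hx hx0.le hm2.1 y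
  set Z := (Zc M y).re with hZ
  have hlow := lower_torus M hM h1 K y
  rw [← hmdef, ← hZ] at hlow
  set P := (kron1 K M).permanent.re with hP
  have hP0 : 0 ≤ P := perm_re_nonneg _ (kron1_psd K M hM)
  have h2 : Real.exp (Z - η) ≤ ‖GF M y‖ := by
    rw [hu2, Complex.norm_exp]
    simp only [Complex.add_re, Complex.ofReal_re]
    refine Real.exp_le_exp.2 ?_
    have := (abs_le.1 ((Complex.abs_re_le_norm u).trans hu)).1
    linarith
  have h3 : Real.exp (K * (2 * (Z - η))) ≤ (‖GF M y‖ ^ 2) ^ K := by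
    have h4 := pow_le_pow_left₀ (Real.exp_pos _).le h2 2
    have h5 := pow_le_pow_left₀ (by positivity) h4 K
    refine le_trans (le_of_eq ?_) h5
    rw [← Real.exp_nat_mul, ← Real.exp_nat_mul]
    push_cast
    rfl
  have hZ0 : 0 ≤ Z := by
    have : 0 < x / (m : ℝ) ^ 2 := by positivity
    linarith
  have h4 : ((m : ℝ) + Z) ^ (K * m) ≤ ((m : ℝ) ^ m) ^ K * Real.exp (K * Z) := by
    have h5 : (m : ℝ) + Z ≤ m * Real.exp (Z / m) := by
      have h6 := Real.add_one_le_exp (Z / m)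
      have h7 := mul_le_mul_of_nonneg_left h6 hm0.le
      have h8 : (m : ℝ) * (Z / m + 1) = m + Z := by field_simp; ring
      linarith
    refine (pow_le_pow_left₀ (by positivity) h5 (K * m)).trans (le_of_eq ?_)
    rw [mul_pow, ← pow_mul, mul_comm m K, ← Real.exp_nat_mul]
    congr 2
    push_cast
    field_simp
  have h5 : ((K * m).factorial : ℝ) * Real.exp (K * (Z - 2 * η)) ≤ P * ((m : ℝ) ^ m) ^ K := by
    have h6 : ((K * m).factorial : ℝ) * Real.exp (K * (2 * (Z - η))) ≤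
        P * (((m : ℝ) ^ m) ^ K * Real.exp (K * Z)) :=
      (mul_le_mul_of_nonneg_left h3 (Nat.cast_nonneg _)).trans
        (hlow.trans (mul_le_mul_of_nonneg_left h4 hP0))
    have h7 : Real.exp (K * (2 * (Z - η))) = Real.exp (K * (Z - 2 * η)) * Real.exp (K * Z) := by
      rw [← Real.exp_add]
      congr 1
      ring
    rw [h7] at h6
    have h8 : (((K * m).factorial : ℝ) * Real.exp (K * (Z - 2 * η))) * Real.exp (K * Z) ≤
        (P * ((m : ℝ) ^ m) ^ K) * Real.exp (K * Z) := by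
      calc _ = ((K * m).factorial : ℝ) * (Real.exp (K * (Z - 2 * η)) * Real.exp (K * Z)) := by ring
        _ ≤ _ := h6
        _ = _ := by ring
    exact le_of_mul_le_mul_right h8 (Real.exp_pos _)
  have h6 := fac_bound2 m n k hk
  rw [← hK] at h6
  set Λ := ((Real.exp 1 * √k) ^ m) ^ n with hΛ
  set Ω := ((k.factorial : ℝ) ^ n) ^ m * ((n : ℝ) ^ n) ^ (k * m) with hΩ
  have hΩ0 : 0 ≤ Ω := by positivity
  have hΛ0 : 0 < Λ := by
    have : (0 : ℝ) < k := by exact_mod_cast hk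
    positivity
  have h7 : Ω * Real.exp (K * (Z - 2 * η)) ≤ Λ * P := by
    have h8 : (0 : ℝ) < ((m : ℝ) ^ m) ^ K := by positivity
    have h9 : (Ω * Real.exp (K * (Z - 2 * η))) * ((m : ℝ) ^ m) ^ K ≤
        (Λ * P) * ((m : ℝ) ^ m) ^ K := by
      calc _ = (Ω * ((m : ℝ) ^ m) ^ K) * Real.exp (K * (Z - 2 * η)) := by ring
        _ ≤ (((K * m).factorial : ℝ) * Λ) * Real.exp (K * (Z - 2 * η)) :=
          mul_le_mul_of_nonneg_right h6 (Real.exp_pos _).le
        _ = Λ * (((K * m).factorial : ℝ) * Real.exp (K * (Z - 2 * η))) := by ring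
        _ ≤ Λ * (P * ((m : ℝ) ^ m) ^ K) := mul_le_mul_of_nonneg_left h5 hΛ0.le
        _ = _ := by ring
    exact le_of_mul_le_mul_right h9 h8
  have hΛ1 : Λ ≤ Real.exp (K * (2 / 3 * (x / (m : ℝ) ^ 2))) := by
    have h8 := pow_le_pow_left₀ (by positivity) hk2 n
    refine h8.trans (le_of_eq ?_)
    rw [← Real.exp_nat_mul, hKr]
    congr 1
    ring
  have h8 : Λ * Real.exp (K * (η + So M)) ≤ Real.exp (K * (Z - 2 * η)) := by
    refine (mul_le_mul_of_nonneg_right hΛ1 (Real.exp_pos _).le).trans ?_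
    rw [← Real.exp_add]
    refine Real.exp_le_exp.2 ?_
    rw [← mul_add]
    refine mul_le_mul_of_nonneg_left ?_ hk0
    have e1 : (m : ℝ) ^ 3 * x ^ 2 ≤ 1 / 12 * (x / (m : ℝ) ^ 2) := by
      rw [mul_div_assoc', le_div_iff₀ (by positivity)]
      nlinarith
    have e2 : 4 * η ≤ 1 / 3 * (x / (m : ℝ) ^ 2) := by
      rw [hη]; linarith
    linarith
  have h9 : M.permanent.re ^ K ≤ Real.exp (K * (η + So M)) := by
    refine (pow_le_pow_left₀ (perm_re_nonneg M hM) hup K).trans (le_of_eq ?_)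
    rw [← Real.exp_nat_mul]
  have h10 : Λ * (Ω * M.permanent.re ^ K) ≤ Λ * P := by
    calc _ ≤ Λ * (Ω * Real.exp (K * (η + So M))) :=
          mul_le_mul_of_nonneg_left (mul_le_mul_of_nonneg_left h9 hΩ0) hΛ0.le
      _ = Ω * (Λ * Real.exp (K * (η + So M))) := by ring
      _ ≤ Ω * Real.exp (K * (Z - 2 * η)) := mul_le_mul_of_nonneg_left h8 hΩ0
      _ ≤ _ := h7
  exact le_of_mul_le_mul_left h10 hΛ0

end

/-- matrices with unit diagonal which are not very close to the identity -/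
theorem stable_unit (m k : ℕ) (hk : (2 ^ (m + 17) * m ^ 21) ^ 2 ≤ k)
    (M : Matrix (Fin m) (Fin m) ℂ) (hM : M.PosSemidef) (h1 : ∀ i, M i i = 1) (hm : 0 < m)
    (hfar : ∃ i j, i ≠ j ∧ 1 < 8 * k * (m : ℝ) ^ 3 * ‖M i j‖ ^ 2) (n : ℕ) (hn : 0 < n) :
    (((k.factorial : ℝ) ^ n) ^ m * ((n : ℝ) ^ n) ^ (k * m)) *
      M.permanent.re ^ (k * n) ≤ (kron1 (k * n) M).permanent.re := by
  have hm1 : (1 : ℝ) ≤ m := by exact_mod_cast hm
  have hm0 : (0 : ℝ) < m := by linarith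
  have hk0 : 0 < k := lt_of_lt_of_le (by positivity) hk
  have hcard : Fintype.card (Fin m) = m := Fintype.card_fin m
  obtain ⟨i0, j0, hij0, hfar⟩ := hfar
  -- the largest entry off the diagonal
  obtain ⟨x, hx, i, j, hij, hxij⟩ : ∃ x : ℝ, (∀ i j, i ≠ j → ‖M i j‖ ≤ x) ∧
      ∃ i j, i ≠ j ∧ ‖M i j‖ = x := by
    have hne : (Finset.univ.filter (fun p : Fin m × Fin m => p.1 ≠ p.2)).Nonempty :=
      ⟨(i0, j0), Finset.mem_filter.2 ⟨Finset.mem_univ _, hij0⟩⟩
    obtain ⟨p, hp, hp2⟩ := Finset.exists_max_image _ (fun p : Fin m × Fin m => ‖M p.1 p.2‖) hne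
    refine ⟨‖M p.1 p.2‖, ?_, p.1, p.2, (Finset.mem_filter.1 hp).2, rfl⟩
    intro i j hij
    exact hp2 (i, j) (Finset.mem_filter.2 ⟨Finset.mem_univ _, hij⟩)
  have hx0 : 0 ≤ x := by rw [← hxij]; exact norm_nonneg _
  have hS : 2 * x ^ 2 ≤ So M := by
    rw [← hxij]
    exact So_ge M hM.isHermitian i j hij
  have hfar2 : 1 / 8 < k * ((m : ℝ) ^ 3 * x ^ 2) := by
    have e1 : ‖M i0 j0‖ ^ 2 ≤ x ^ 2 := pow_le_pow_left₀ (norm_nonneg _) (hx i0 j0 hij0) 2
    have e2 : (8 * k * (m : ℝ) ^ 3) * ‖M i0 j0‖ ^ 2 ≤ (8 * k * (m : ℝ) ^ 3) * x ^ 2 :=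
      mul_le_mul_of_nonneg_left e1 (by positivity)
    linarith
  have hx0' : 0 < x := by
    rcases eq_or_lt_of_le hx0 with h | h
    · exfalso
      rw [← h] at hfar2
      norm_num at hfar2
    · exact h
  by_cases hx5 : 12 * (m : ℝ) ^ 5 * x ≤ 1
  · have h := stable2 M hM h1 x hx hx0' hS (by rw [hcard]; exact hx5) (by rw [hcard]; exact hm)
      k hk0 (by
        rw [hcard]
        exact num2 m k hm hk x hx0 hfar2) n hn
    rw [hcard] at h
    exact h
  · have hX : 1 / (12 * (m : ℝ) ^ 5) ≤ x := by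
      rw [div_le_iff₀ (by positivity)]
      have := not_le.1 hx5
      linarith
    have hlieb : (Pool.Agent.helper16.LSZ.VV M {i} {i}).re ≤ M.permanent.re := by
      have h := lieb_fin m M hM i
      rw [h1 i] at h
      simpa using h
    have hgap := two_gap M hM i j hij (h1 i) (h1 j) hlieb
    rw [hcard, hxij] at hgap
    set δ : ℝ := x ^ 4 / 2 ^ m with hδ
    have hδ0 : 0 ≤ δ := by positivity
    have h := stable1 M hM δ hδ0 (by
      rw [hcard]
      refine le_trans (le_of_eq ?_) hgap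
      rw [hδ]
      field_simp) (by rw [hcard]; exact hm) k hk0 (by
        rw [hcard]
        refine num1 m k hm hk δ ?_
        have e1 := pow_le_pow_left₀ (by positivity) hX 4
        rw [hδ, le_div_iff₀ (by positivity)]
        refine le_trans (le_of_eq ?_) e1
        field_simp
        ) n hn
    rw [hcard] at h
    exact h

end Pool.Agent.helper97.PER
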