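import Pool.Agent.helper97.PER.Y12
import Pool.Agent.helper16.LSZ.Forest

set_option linter.all false
set_option autoImplicit false

/-!
# Blow-ups of one factor: the theorem (MP_2dd521_co)
-/

namespace Pool.Agent.helper97.PER

open Finset Function
open scoped Real Topology Matrix ComplexConjugate ComplexOrder
open Pool.Agent.helper80.LSZ (kron1)

/-- normalization of the diagonal -/
theorem normal_form (m : ℕ) (B : Matrix (Fin m) (Fin m) ℂ) (hB : B.PosSemidef)
    (hz : ∀ i, B i i ≠ 0) : ∃ (c : Fin m → ℝ) (M : Matrix (Fin m) (Fin m) ℂ), (∀ i, 0 < c i) ∧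
      M.PosSemidef ∧ (∀ i, M i i = 1) ∧ B = Matrix.of fun i j => (c i : ℂ) * (c j : ℂ) * M i j := by
  have hdiag : ∀ i, B i i = (((B i i).re : ℝ) : ℂ) ∧ 0 < (B i i).re := by
    intro i
    have h := Complex.le_def.1 (hB.diag_nonneg (i := i))
    have h2 : B i i = (((B i i).re : ℝ) : ℂ) := Complex.ext (by simp) (by simpa using h.2.symm)
    refine ⟨h2, lt_of_le_of_ne h.1 (fun h3 => hz i ?_)⟩
    rw [h2]
    have : (B i i).re = 0 := h3.symm
    rw [this]
    simp
  set c : Fin m → ℝ := fun i => √(B i i).re with hc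
  have hc0 : ∀ i, 0 < c i := fun i => Real.sqrt_pos.2 (hdiag i).2
  have hc2 : ∀ i, c i ^ 2 = (B i i).re := fun i => Real.sq_sqrt (hdiag i).2.le
  set B' : Matrix (Fin m) (Fin m) ℂ := Matrix.of fun i j =>
    ((c i : ℂ))⁻¹ * ((c j : ℂ))⁻¹ * B i j with hB'
  have hcne : ∀ i, (c i : ℂ) ≠ 0 := fun i => by exact_mod_cast (hc0 i).ne'
  refine ⟨c, B', hc0, ?_, ?_, ?_⟩
  · obtain ⟨L, hL⟩ := exists_gm B hB
    have h1 : B' = gm (fun i a => ((c i : ℂ))⁻¹ * L i a) := by
      ext i j
      rw [hB', ← hL]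
      simp only [gm, Matrix.of_apply, map_mul, map_inv₀, Complex.conj_ofReal]
      rw [Finset.mul_sum]
      refine Finset.sum_congr rfl (fun a _ => ?_)
      ring
    rw [h1]
    exact gm_psd _
  · intro i
    simp only [hB', Matrix.of_apply]
    rw [(hdiag i).1, ← hc2 i]
    have h1 := hcne i
    push_cast
    field_simp
  · ext i j
    simp only [hB', Matrix.of_apply]
    have h1 := hcne i
    have h2 := hcne j
    field_simp

theorem perm_zero_diag (m : ℕ) (B : Matrix (Fin m) (Fin m) ℂ) (hB : B.PosSemidef) (i : Fin m)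
    (hi : B i i = 0) : B.permanent = 0 := by
  have hrow : ∀ j, B j i = 0 := by
    intro j
    obtain ⟨L, rfl⟩ := exists_gm B hB
    have h1 : ∑ a, ‖L i a‖ ^ 2 = 0 := by
      have h2 : gm L i i = ((∑ a, ‖L i a‖ ^ 2 : ℝ) : ℂ) := by
        unfold gm
        simp only [Matrix.of_apply]
        push_cast
        refine Finset.sum_congr rfl (fun a _ => ?_)
        rw [Complex.mul_conj, Complex.normSq_eq_norm_sq]
        push_cast
        rfl
      rw [h2] at hi
      exact_mod_cast hi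
    have h3 : ∀ a, L i a = 0 := by
      intro a
      have h4 := (Finset.sum_eq_zero_iff_of_nonneg (fun a _ => by positivity)).1 h1 a
        (Finset.mem_univ a)
      have h5 : ‖L i a‖ = 0 := by simpa using h4
      simpa using h5
    simp [gm, h3]
  unfold Matrix.permanent
  refine Finset.sum_eq_zero (fun σ _ => ?_)
  exact Finset.prod_eq_zero (Finset.mem_univ i) (hrow _)

/-- the main case -/
theorem stable_main (m k n : ℕ) (hk : (2 ^ (m + 17) * m ^ 21) ^ 2 ≤ k) (hm : 0 < m) (hn : 0 < n)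
    (c : Fin m → ℝ) (M : Matrix (Fin m) (Fin m) ℂ) (hM : M.PosSemidef)
    (h1 : ∀ i, M i i = 1) (hfar : ∃ i j, i ≠ j ∧ 1 < 8 * k * (m : ℝ) ^ 3 * ‖M i j‖ ^ 2)
    (B : Matrix (Fin m) (Fin m) ℂ) (hB : B.PosSemidef)
    (hBM : B = Matrix.of fun i j => (c i : ℂ) * (c j : ℂ) * M i j)
    (A : Matrix (Fin n) (Fin n) ℂ) (hA : A.PosSemidef) :
    (kron1 k A).permanent.re ^ m * B.permanent.re ^ (k * n) ≤
      (kron1 k (Matrix.kronecker A B)).permanent.re := by
  have hk0 : 0 < k := lt_of_lt_of_le (by positivity) hk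
  have h := stable_unit m k hk M hM h1 hm hfar n hn
  set Ω := ((k.factorial : ℝ) ^ n) ^ m * ((n : ℝ) ^ n) ^ (k * m) with hΩ
  have hΩ0 : 0 < Ω := by
    have h2 : (0 : ℝ) < n := by exact_mod_cast hn
    have h3 : (0 : ℝ) < (k.factorial : ℝ) := by exact_mod_cast Nat.factorial_pos k
    positivity
  set q : ℝ := (∏ i, c i) ^ 2 with hq
  have hq0 : 0 ≤ q := by positivity
  have e1 : B.permanent.re = q * M.permanent.re := by
    rw [hBM, perm_scale (fun i => (c i : ℂ)) M]
    have : (∏ i, (c i : ℂ)) ^ 2 = ((q : ℝ) : ℂ) := by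
      rw [hq]; push_cast; rfl
    rw [this, Complex.re_ofReal_mul]
  have e2 : (kron1 (k * n) B).permanent.re = q ^ (k * n) * (kron1 (k * n) M).permanent.re := by
    have e3 : (kron1 (k * n) B).permanent =
        ((∏ i, (c i : ℂ)) ^ 2) ^ (k * n) * (kron1 (k * n) M).permanent := by
      conv_lhs => rw [hBM]
      exact kron1_scale (k * n) (fun i => (c i : ℂ)) M
    rw [e3]
    have : ((∏ i, (c i : ℂ)) ^ 2) ^ (k * n) = ((q ^ (k * n) : ℝ) : ℂ) := by
      rw [hq]; push_cast; rfl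
    rw [this, Complex.re_ofReal_mul]
  have h2 : Ω * B.permanent.re ^ (k * n) ≤ (kron1 (k * n) B).permanent.re := by
    rw [e1, e2, mul_pow]
    calc _ = q ^ (k * n) * (Ω * M.permanent.re ^ (k * n)) := by ring
      _ ≤ _ := mul_le_mul_of_nonneg_left h (by positivity)
  obtain ⟨L, hL⟩ := exists_gm A hA
  obtain ⟨L', hL'⟩ := exists_gm B hB
  have h3 := comp_gram2 n k hk0 L L' (by rwa [Fintype.card_fin])
  rw [hL, hL', Fintype.card_fin, ← hΩ] at h3
  have hP : 0 ≤ (kron1 k A).permanent.re := perm_re_nonneg _ (kron1_psd k A hA)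
  have h4 : Ω * ((kron1 k A).permanent.re ^ m * B.permanent.re ^ (k * n)) ≤
      Ω * (kron1 k (Matrix.kronecker A B)).permanent.re := by
    calc _ = (Ω * B.permanent.re ^ (k * n)) * (kron1 k A).permanent.re ^ m := by ring
      _ ≤ (kron1 (k * n) B).permanent.re * (kron1 k A).permanent.re ^ m :=
          mul_le_mul_of_nonneg_right h2 (by positivity)
      _ ≤ _ := h3
  exact le_of_mul_le_mul_left h4 hΩ0

/-- diagonal matrices -/
theorem stable_diag (m k n : ℕ) (B : Matrix (Fin m) (Fin m) ℂ) (hB : B.PosSemidef)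
    (hd : ∀ i j, i ≠ j → B i j = 0) (A : Matrix (Fin n) (Fin n) ℂ) (hA : A.PosSemidef) :
    (kron1 k A).permanent ^ m * B.permanent ^ (k * n) ≤
      (kron1 k (Matrix.kronecker A B)).permanent := by
  have h := Pool.Agent.helper16.LSZ.lsz_forest B hB (fun i => i) (fun i => rfl)
    (fun i j hij _ _ => hd i j hij) (kron1 k A) (kron1_psd k A hA)
  have e : (Fin k × (Fin n × Fin m)) ≃ (Fin m × (Fin k × Fin n)) :=
    ((Equiv.prodAssoc (Fin k) (Fin n) (Fin m)).symm).trans (Equiv.prodComm _ _)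
  have h2 := Pool.Agent.helper16.LSZ.permanent_submatrix_equiv (Matrix.kronecker B (kron1 k A))
    (((Equiv.prodAssoc (Fin k) (Fin n) (Fin m)).symm).trans (Equiv.prodComm _ _))
  have h3 : (Matrix.kronecker B (kron1 k A)).submatrix
      (((Equiv.prodAssoc (Fin k) (Fin n) (Fin m)).symm).trans (Equiv.prodComm _ _))
      (((Equiv.prodAssoc (Fin k) (Fin n) (Fin m)).symm).trans (Equiv.prodComm _ _)) =
      kron1 k (Matrix.kronecker A B) := by
    ext s t
    simp [kron1, Matrix.kronecker, Matrix.kroneckerMap_apply, mul_comm]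
  rw [h3] at h2
  rw [h2]
  simp only [Fintype.card_prod, Fintype.card_fin] at h
  rw [mul_comm]
  exact h

/-- **the inequality of Liang, So and Zhang for blow-ups of one factor** -/
theorem stable (m : ℕ) (B : Matrix (Fin m) (Fin m) ℂ) (hB : B.PosSemidef) :
    ∃ k₀ : ℕ, ∀ k ≥ k₀, ∀ (n : ℕ) (A : Matrix (Fin n) (Fin n) ℂ), A.PosSemidef →
      (kron1 k A).permanent ^ m * B.permanent ^ (k * n) ≤
        (kron1 k (Matrix.kronecker A B)).permanent := by
  by_cases hd : ∀ i j, i ≠ j → B i j = 0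
  · exact ⟨0, fun k _ n A hA => stable_diag m k n B hB hd A hA⟩
  push Not at hd
  obtain ⟨i, j, hij, hBij⟩ := hd
  have hm : 0 < m := lt_of_le_of_lt (Nat.zero_le _) i.2
  -- the case `n = 0`
  have hn0 : ∀ (k : ℕ) (A : Matrix (Fin 0) (Fin 0) ℂ), (kron1 k A).permanent ^ m *
      B.permanent ^ (k * 0) ≤ (kron1 k (Matrix.kronecker A B)).permanent := by
    intro k A
    haveI : IsEmpty (Fin k × Fin 0) := ⟨fun p => p.2.elim0⟩
    haveI : IsEmpty (Fin k × (Fin 0 × Fin m)) := ⟨fun p => p.2.1.elim0⟩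
    have e1 : (kron1 k A).permanent = 1 := Matrix.permanent_isEmpty
    have e2 : (kron1 k (Matrix.kronecker A B)).permanent = 1 := Matrix.permanent_isEmpty
    rw [e1, e2]
    simp
  by_cases hz : ∃ i, B i i = 0
  · obtain ⟨i, hi⟩ := hz
    refine ⟨1, fun k hk n A hA => ?_⟩
    rcases Nat.eq_zero_or_pos n with hn | hn
    · subst hn
      exact hn0 k A
    · rw [perm_zero_diag m B hB i hi, zero_pow (Nat.mul_pos hk hn).ne', mul_zero]
      exact Pool.Agent.helper16.LSZ.perm_nonneg _ (kron1_psd k _ (kron_psd A hA B hB))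
  · push Not at hz
    obtain ⟨c, M, hc, hM, h1, hBM⟩ := normal_form m B hB hz
    have hMij : M i j ≠ 0 := by
      intro h
      apply hBij
      rw [hBM]
      simp [h]
    set y : ℝ := 8 * (m : ℝ) ^ 3 * ‖M i j‖ ^ 2 with hy
    have hy0 : 0 < y := by
      have h2 : (0 : ℝ) < m := by exact_mod_cast hm
      have h3 : 0 < ‖M i j‖ := norm_pos_iff.2 hMij
      positivity
    obtain ⟨k1, hk1⟩ := exists_nat_gt (1 / y)
    refine ⟨max ((2 ^ (m + 17) * m ^ 21) ^ 2) k1, fun k hk n A hA => ?_⟩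
    rcases Nat.eq_zero_or_pos n with hn | hn
    · subst hn
      exact hn0 k A
    · have hka : (2 ^ (m + 17) * m ^ 21) ^ 2 ≤ k := (le_max_left _ _).trans hk
      have hkb : k1 ≤ k := (le_max_right _ _).trans hk
      have hfar : 1 < 8 * k * (m : ℝ) ^ 3 * ‖M i j‖ ^ 2 := by
        rw [div_lt_iff₀ hy0] at hk1
        have h2 : (k1 : ℝ) ≤ k := by exact_mod_cast hkb
        have h3 := mul_le_mul_of_nonneg_right h2 hy0.le
        calc (1 : ℝ) < k1 * y := hk1
          _ ≤ k * y := h3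
          _ = _ := by rw [hy]; ring
      have h := stable_main m k n hka hm hn c M hM h1 ⟨i, j, hij, hfar⟩ B hB hBM A hA
      obtain ⟨ha, -⟩ := Pool.Agent.helper16.LSZ.perm_real (kron1 k A) (kron1_psd k A hA)
      obtain ⟨hb, -⟩ := Pool.Agent.helper16.LSZ.perm_real B hB
      obtain ⟨hp, -⟩ := Pool.Agent.helper16.LSZ.perm_real (kron1 k (Matrix.kronecker A B))
        (kron1_psd k _ (kron_psd A hA B hB))
      rw [ha, hb, hp]
      exact_mod_cast h

end Pool.Agent.helper97.PER
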