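import Pool.Agent.helper97.PER.Y1

set_option linter.all false
set_option autoImplicit false

/-!
# Matrices near the identity (MP_2dd521_co)
-/

namespace Pool.Agent.helper97.PER

open MeasureTheory Finset Function
open scoped Real Topology Matrix ComplexConjugate ContDiff ComplexOrder
open Pool.Agent.helper80.LSZ (kron1 kron1_one)

theorem exp_aux (t : ℝ) (ht : 0 ≤ t) : (2 - t) * Real.exp t ≤ 2 + t := by
  have hd : ∀ t : ℝ, HasDerivAt (fun t : ℝ => 2 + t - (2 - t) * Real.exp t)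
      (1 - (1 - t) * Real.exp t) t := by
    intro t
    have h1 : HasDerivAt (fun t : ℝ => 2 + t) 1 t := (hasDerivAt_id t).const_add 2
    have h2 : HasDerivAt (fun t : ℝ => 2 - t) (-1) t := (hasDerivAt_id t).const_sub 2
    have h3 := h1.sub (h2.mul (Real.hasDerivAt_exp t))
    exact h3.congr_deriv (by ring)
  have hmono : Monotone (fun t : ℝ => 2 + t - (2 - t) * Real.exp t) := by
    refine monotone_of_deriv_nonneg (fun t => (hd t).differentiableAt) (fun t => ?_)
    rw [(hd t).deriv]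
    have h1 := Real.add_one_le_exp (-t)
    have h2 : (1 - t) * Real.exp t ≤ Real.exp (-t) * Real.exp t :=
      mul_le_mul_of_nonneg_right (by linarith) (Real.exp_pos t).le
    rw [← Real.exp_add, neg_add_cancel, Real.exp_zero] at h2
    linarith
  have h := hmono ht
  simp only [add_zero, sub_zero, Real.exp_zero, mul_one, sub_self] at h
  linarith

theorem exp_low (z s : ℝ) (hs : 0 ≤ s) (hz : -s ≤ z) : 1 + z + z ^ 2 / (2 + s) ≤ Real.exp z := by
  rcases le_or_gt 0 z with h | h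
  · have h1 := Real.quadratic_le_exp_of_nonneg h
    have h2 : z ^ 2 / (2 + s) ≤ z ^ 2 / 2 :=
      div_le_div_of_nonneg_left (by positivity) (by norm_num) (by linarith)
    linarith
  · have h1 := exp_aux (-z) (by linarith)
    have h2 : z ^ 2 / (2 + s) ≤ z ^ 2 / (2 - z) :=
      div_le_div_of_nonneg_left (by positivity) (by linarith) (by linarith)
    have h3 : 1 + z + z ^ 2 / (2 - z) = (2 + z) / (2 - z) := by
      have : (2 - z) ≠ 0 := by linarith
      field_simp
      ring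
    have h4 : (2 + z) / (2 - z) ≤ Real.exp z := by
      rw [div_le_iff₀ (by linarith)]
      have h5 := mul_le_mul_of_nonneg_left h1 (Real.exp_pos z).le
      have h6 : Real.exp z * ((2 - -z) * Real.exp (-z)) = 2 + z := by
        rw [mul_left_comm, ← Real.exp_add, add_neg_cancel, Real.exp_zero]
        ring
      rw [h6] at h5
      calc 2 + z ≤ _ := h5
        _ = _ := by ring
    linarith

/-- products near one -/
theorem prod_exp {ι : Type*} (s : Finset ι) (w : ι → ℂ) (hw : ∀ i ∈ s, ‖w i‖ ≤ 1 / 2) :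
    ∃ u : ℂ, ‖u‖ ≤ ∑ i ∈ s, ‖w i‖ ^ 2 ∧ ∏ i ∈ s, (1 + w i) = Complex.exp (∑ i ∈ s, w i + u) := by
  refine ⟨∑ i ∈ s, (Complex.log (1 + w i) - w i), ?_, ?_⟩
  · refine (norm_sum_le _ _).trans (Finset.sum_le_sum (fun i hi => ?_))
    have h1 := hw i hi
    have h2 := Complex.norm_log_one_add_sub_self_le (z := w i) (by linarith)
    refine h2.trans ?_
    have h3 : (1 - ‖w i‖)⁻¹ ≤ 2 := by
      rw [inv_le_comm₀ (by linarith) (by norm_num)]
      linarith
    have h4 : 0 ≤ ‖w i‖ ^ 2 := by positivity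
    nlinarith
  · rw [← Finset.sum_add_distrib]
    simp only [add_sub_cancel]
    rw [Complex.exp_sum]
    refine Finset.prod_congr rfl (fun i hi => ?_)
    rw [Complex.exp_log]
    intro h
    have h1 := hw i hi
    have h2 : w i = -1 := by linear_combination h
    rw [h2] at h1
    norm_num at h1

variable {ι : Type*} [Fintype ι] [DecidableEq ι]

/-- row sums -/
noncomputable def wr (M : Matrix ι ι ℂ) (y : ι → ℝ) (i : ι) : ℂ :=
  ∑ j ∈ Finset.univ.filter (fun j => i ≠ j), M i j * ux y j * conj (ux y i)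

theorem row_eq (M : Matrix ι ι ℂ) (h1 : ∀ i, M i i = 1) (y : ι → ℝ) (i : ι) :
    (M *ᵥ ux y) i / ux y i = 1 + wr M y i := by
  rw [div_eq_mul_inv, ux_inv]
  unfold Matrix.mulVec dotProduct wr
  rw [Finset.sum_mul, ← Finset.sum_filter_add_sum_filter_not Finset.univ (fun j => i ≠ j), add_comm]
  congr 1
  have : (Finset.univ.filter (fun j => ¬ i ≠ j)) = {i} := by
    ext j; simp [eq_comm]
  rw [this, Finset.sum_singleton]
  show M i i * ux y i * conj (ux y i) = 1
  rw [h1, one_mul, ← ux_inv, mul_inv_cancel₀ (ux_ne y i)]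

theorem sum_wr (M : Matrix ι ι ℂ) (y : ι → ℝ) : ∑ i, wr M y i = Zc M y := by
  unfold wr Zc
  rw [Finset.sum_filter, Fintype.sum_prod_type]
  refine Finset.sum_congr rfl (fun i _ => ?_)
  rw [Finset.sum_filter]

theorem wr_bound (M : Matrix ι ι ℂ) (x : ℝ) (hx : ∀ i j, i ≠ j → ‖M i j‖ ≤ x) (hx0 : 0 ≤ x)
    (y : ι → ℝ) (i : ι) : ‖wr M y i‖ ≤ Fintype.card ι * x := by
  unfold wr
  refine (norm_sum_le _ _).trans ?_
  have h1 : ∀ j ∈ Finset.univ.filter (fun j => i ≠ j), ‖M i j * ux y j * conj (ux y i)‖ ≤ x := by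
    intro j hj
    rw [norm_mul, norm_mul, ux_norm, RCLike.norm_conj, ux_norm, mul_one, mul_one]
    exact hx i j (Finset.mem_filter.1 hj).2
  refine (Finset.sum_le_card_nsmul _ _ _ h1).trans ?_
  rw [nsmul_eq_mul]
  refine mul_le_mul_of_nonneg_right ?_ hx0
  exact_mod_cast Finset.card_le_univ _

theorem Zc_real (M : Matrix ι ι ℂ) (hM : M.IsHermitian) (y : ι → ℝ) :
    Zc M y = (((Zc M y).re : ℝ) : ℂ) := by
  have h : conj (Zc M y) = Zc M y := by
    unfold Zc
    rw [map_sum]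
    refine Finset.sum_nbij' (fun p => (p.2, p.1)) (fun p => (p.2, p.1)) ?_ ?_ ?_ ?_ ?_
    · intro p hp
      rw [Finset.mem_filter] at hp ⊢
      exact ⟨Finset.mem_univ _, hp.2.symm⟩
    · intro p hp
      rw [Finset.mem_filter] at hp ⊢
      exact ⟨Finset.mem_univ _, hp.2.symm⟩
    · intro p _; rfl
    · intro p _; rfl
    · intro p _
      simp only [map_mul, Complex.conj_conj]
      have := hM.apply p.2 p.1
      rw [← this]
      simp only [RCLike.star_def]
      ring
  exact (Complex.conj_eq_iff_real.1 h).elim (fun r hr => by rw [hr, Complex.ofReal_re])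

theorem Zr_bound (M : Matrix ι ι ℂ) (x : ℝ) (hx : ∀ i j, i ≠ j → ‖M i j‖ ≤ x) (hx0 : 0 ≤ x)
    (y : ι → ℝ) : |(Zc M y).re| ≤ (Fintype.card ι : ℝ) ^ 2 * x := by
  refine (Complex.abs_re_le_norm _).trans ?_
  rw [← sum_wr]
  refine (norm_sum_le _ _).trans ?_
  refine (Finset.sum_le_sum (fun i _ => wr_bound M x hx hx0 y i)).trans ?_
  rw [Finset.sum_const, Finset.card_univ, nsmul_eq_mul]
  exact le_of_eq (by ring)

/-- the function on the torus as an exponential -/
theorem GF_exp (M : Matrix ι ι ℂ) (hM : M.IsHermitian) (h1 : ∀ i, M i i = 1) (x : ℝ)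
    (hx : ∀ i j, i ≠ j → ‖M i j‖ ≤ x) (hx0 : 0 ≤ x) (hx2 : (Fintype.card ι : ℝ) * x ≤ 1 / 2)
    (y : ι → ℝ) : ∃ u : ℂ, ‖u‖ ≤ (Fintype.card ι : ℝ) ^ 3 * x ^ 2 ∧
      GF M y = Complex.exp (((Zc M y).re : ℂ) + u) := by
  obtain ⟨u, hu, hu2⟩ := prod_exp Finset.univ (wr M y)
    (fun i _ => (wr_bound M x hx hx0 y i).trans hx2)
  refine ⟨u, hu.trans ?_, ?_⟩
  · refine (Finset.sum_le_sum (fun i _ =>
      pow_le_pow_left₀ (norm_nonneg _) (wr_bound M x hx hx0 y i) 2)).trans ?_
    rw [Finset.sum_const, Finset.card_univ, nsmul_eq_mul]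
    exact le_of_eq (by ring)
  · unfold GF
    simp_rw [row_eq M h1 y]
    rw [hu2, sum_wr, ← Zc_real M hM]

end Pool.Agent.helper97.PER
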