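import Pool.Agent.helper97.PER.Y2

set_option linter.all false
set_option autoImplicit false

/-!
# Matrices near the identity, continued (MP_2dd521_co)
-/

namespace Pool.Agent.helper97.PER

open MeasureTheory Finset Function
open scoped Real Topology Matrix ComplexConjugate ContDiff ComplexOrder
open Pool.Agent.helper80.LSZ (kron1 kron1_one)

variable {ι : Type*} [Fintype ι] [DecidableEq ι]

/-- sum of the squares of the off-diagonal entries -/
noncomputable def So (M : Matrix ι ι ℂ) : ℝ :=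
  ∑ p ∈ (Finset.univ.filter (fun p : ι × ι => p.1 ≠ p.2)), ‖M p.1 p.2‖ ^ 2

theorem So_nonneg (M : Matrix ι ι ℂ) : 0 ≤ So M :=
  Finset.sum_nonneg (fun p _ => by positivity)

theorem So_le (M : Matrix ι ι ℂ) (x : ℝ) (hx : ∀ i j, i ≠ j → ‖M i j‖ ≤ x) (hx0 : 0 ≤ x) :
    So M ≤ (Fintype.card ι : ℝ) ^ 2 * x ^ 2 := by
  unfold So
  refine (Finset.sum_le_card_nsmul _ _ (x ^ 2) (fun p hp => ?_)).trans ?_
  · exact pow_le_pow_left₀ (norm_nonneg _) (hx _ _ (Finset.mem_filter.1 hp).2) 2
  · rw [nsmul_eq_mul]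
    refine mul_le_mul_of_nonneg_right ?_ (by positivity)
    have := Finset.card_le_univ (Finset.univ.filter (fun p : ι × ι => p.1 ≠ p.2))
    rw [Fintype.card_prod] at this
    rw [sq]
    exact_mod_cast this

theorem So_ge (M : Matrix ι ι ℂ) (hM : M.IsHermitian) (i j : ι) (hij : i ≠ j) :
    2 * ‖M i j‖ ^ 2 ≤ So M := by
  unfold So
  have h1 : ({(i, j), (j, i)} : Finset (ι × ι)) ⊆
      Finset.univ.filter (fun p : ι × ι => p.1 ≠ p.2) := by
    intro p hp
    rw [Finset.mem_filter]
    refine ⟨Finset.mem_univ _, ?_⟩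
    rw [Finset.mem_insert, Finset.mem_singleton] at hp
    rcases hp with rfl | rfl
    · exact hij
    · exact hij.symm
  refine le_trans ?_ (Finset.sum_le_sum_of_subset_of_nonneg h1 (fun p _ _ => by positivity))
  rw [Finset.sum_pair (fun h => hij (congrArg Prod.fst h))]
  have : ‖M j i‖ = ‖M i j‖ := by
    rw [← hM.apply i j, norm_star]
  simp only
  rw [this]
  linarith

theorem Zr_int (M : Matrix ι ι ℂ) : ∫ y in box ι, (Zc M y).re = 0 := by
  have h := Zc_int M
  have h2 : ∫ y in box ι, (Zc M y).re = (∫ y in box ι, Zc M y).re := by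
    have := integral_re (𝕜 := ℂ) (μ := (volume : Measure (ι → ℝ)).restrict (box ι))
      (cont_int _ (Zc_cont M))
    exact this
  rw [h2, h, Complex.zero_re]

theorem Zr_sq_int (M : Matrix ι ι ℂ) (hM : M.IsHermitian) :
    ∫ y in box ι, (Zc M y).re ^ 2 = So M := by
  have h := Zc_sq_int M
  have h2 : ∀ y : ι → ℝ, Zc M y ^ 2 = (((Zc M y).re ^ 2 : ℝ) : ℂ) := by
    intro y
    conv_lhs => rw [Zc_real M hM y]
    push_cast
    rfl
  simp_rw [h2] at h
  have h4 : ∫ y in box ι, (((Zc M y).re ^ 2 : ℝ) : ℂ) =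
      ((∫ y in box ι, (Zc M y).re ^ 2 : ℝ) : ℂ) := integral_ofReal
  rw [h4] at h
  have h3 : ∑ p ∈ (Finset.univ.filter (fun p : ι × ι => p.1 ≠ p.2)), M p.1 p.2 * M p.2 p.1 =
      ((So M : ℝ) : ℂ) := by
    unfold So
    push_cast
    refine Finset.sum_congr rfl (fun p _ => ?_)
    rw [← hM.apply p.2 p.1]
    simp only [RCLike.star_def]
    rw [Complex.mul_conj, Complex.normSq_eq_norm_sq]
    push_cast
    rfl
  rw [h3] at h
  exact_mod_cast h

theorem Zr_cont (M : Matrix ι ι ℂ) : Continuous (fun y => (Zc M y).re) :=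
  Complex.continuous_re.comp (Zc_cont M)

/-- upper bound for the permanent -/
theorem perm_up (M : Matrix ι ι ℂ) (hM : M.IsHermitian) (h1 : ∀ i, M i i = 1) (x : ℝ)
    (hx : ∀ i j, i ≠ j → ‖M i j‖ ≤ x) (hx0 : 0 ≤ x) (hx2 : (Fintype.card ι : ℝ) * x ≤ 1 / 2)
    (hx3 : (Fintype.card ι : ℝ) ^ 2 * x ≤ 1) :
    M.permanent.re ≤ Real.exp ((Fintype.card ι : ℝ) ^ 3 * x ^ 2 + So M) := by
  set η := (Fintype.card ι : ℝ) ^ 3 * x ^ 2 with hη
  have e1 := avg_eq M 1
  rw [kron1_one] at e1
  simp only [Nat.factorial_one, Nat.cast_one, one_pow, one_mul, pow_one] at e1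
  have h2 : M.permanent.re ≤ ‖∫ y in box ι, GF M y‖ := by
    rw [e1]
    exact Complex.re_le_norm _
  have h3 : ∀ y, ‖GF M y‖ ≤ Real.exp η * (1 + (Zc M y).re + (Zc M y).re ^ 2) := by
    intro y
    obtain ⟨u, hu, hu2⟩ := GF_exp M hM h1 x hx hx0 hx2 y
    rw [hu2, Complex.norm_exp]
    simp only [Complex.add_re, Complex.ofReal_re]
    have h4 : u.re ≤ η := (Complex.re_le_norm u).trans hu
    have h5 := Real.abs_exp_sub_one_sub_id_le ((Zr_bound M x hx hx0 y).trans hx3)
    have h6 := (abs_le.1 h5).2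
    calc Real.exp ((Zc M y).re + u.re) ≤ Real.exp (η + (Zc M y).re) :=
          Real.exp_le_exp.2 (by linarith)
      _ = Real.exp η * Real.exp (Zc M y).re := Real.exp_add _ _
      _ ≤ _ := mul_le_mul_of_nonneg_left (by linarith) (Real.exp_pos _).le
  have hc := Zr_cont M
  have h4 : ‖∫ y in box ι, GF M y‖ ≤
      ∫ y in box ι, Real.exp η * (1 + (Zc M y).re + (Zc M y).re ^ 2) := by
    refine norm_integral_le_of_norm_le ?_ (Filter.Eventually.of_forall h3)
    exact cont_int _ (continuous_const.mul ((continuous_const.add hc).add (hc.pow 2)))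
  have h5 : ∫ y in box ι, Real.exp η * (1 + (Zc M y).re + (Zc M y).re ^ 2) =
      Real.exp η * (1 + So M) := by
    rw [integral_const_mul, integral_add, integral_add, Zr_int, Zr_sq_int M hM]
    · congr 1
      have : ∫ y in box ι, (1 : ℝ) = 1 := by
        rw [setIntegral_const, vol_box]
        simp
      rw [this]
      ring
    · exact cont_int _ continuous_const
    · exact cont_int _ hc
    · exact cont_int _ (continuous_const.add hc)
    · exact cont_int _ (hc.pow 2)
  rw [Real.exp_add]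
  calc M.permanent.re ≤ Real.exp η * (1 + So M) := h2.trans (h4.trans h5.le)
    _ ≤ _ := by
      refine mul_le_mul_of_nonneg_left ?_ (Real.exp_pos _).le
      have := Real.add_one_le_exp (So M)
      linarith

/-- lower bound for the blow-ups -/
theorem perm_low (M : Matrix ι ι ℂ) (hM : M.IsHermitian) (h1 : ∀ i, M i i = 1) (x : ℝ)
    (hx : ∀ i j, i ≠ j → ‖M i j‖ ≤ x) (hx0 : 0 ≤ x) (hx2 : (Fintype.card ι : ℝ) * x ≤ 1 / 2)
    (k : ℕ) (hk : k * ((Fintype.card ι : ℝ) ^ 3 * x ^ 2) ≤ 1 / 2) :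
    (k.factorial : ℝ) ^ Fintype.card ι * ((1 - 2 * (k * ((Fintype.card ι : ℝ) ^ 3 * x ^ 2))) *
      (1 + k ^ 2 * So M / (2 + k * ((Fintype.card ι : ℝ) ^ 2 * x)))) ≤
      (kron1 k M).permanent.re := by
  set η := (Fintype.card ι : ℝ) ^ 3 * x ^ 2 with hη
  set s := (k : ℝ) * ((Fintype.card ι : ℝ) ^ 2 * x) with hs
  have hs0 : 0 ≤ s := by positivity
  have e1 : (kron1 k M).permanent.re = (k.factorial : ℝ) ^ Fintype.card ι *
      ∫ y in box ι, (GF M y ^ k).re := by
    rw [avg_eq M k]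
    have h2 : ∫ y in box ι, (GF M y ^ k).re = (∫ y in box ι, GF M y ^ k).re := by
      have := integral_re (𝕜 := ℂ) (μ := (volume : Measure (ι → ℝ)).restrict (box ι))
        (cont_int _ ((GF_cont M).pow k))
      exact this
    rw [h2]
    have h3 : ((k.factorial : ℕ) : ℂ) ^ Fintype.card ι =
        (((k.factorial : ℝ) ^ Fintype.card ι : ℝ) : ℂ) := by
      push_cast; rfl
    rw [h3, Complex.re_ofReal_mul]
  rw [e1]
  refine mul_le_mul_of_nonneg_left ?_ (by positivity)
  have hc := Zr_cont M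
  have h3 : ∀ y, (1 - 2 * (k * η)) * (1 + k * (Zc M y).re + (k * (Zc M y).re) ^ 2 / (2 + s)) ≤
      (GF M y ^ k).re := by
    intro y
    obtain ⟨u, hu, hu2⟩ := GF_exp M hM h1 x hx hx0 hx2 y
    have e2 : GF M y ^ k = ((Real.exp (k * (Zc M y).re) : ℝ) : ℂ) * Complex.exp (k * u) := by
      rw [hu2, ← Complex.exp_nat_mul, mul_add, Complex.exp_add]
      congr 1
      push_cast
      rfl
    rw [e2, Complex.re_ofReal_mul]
    have h4 : ‖(k : ℂ) * u‖ ≤ k * η := by
      rw [norm_mul, Complex.norm_natCast]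
      exact mul_le_mul_of_nonneg_left hu (Nat.cast_nonneg k)
    have h5 := Complex.norm_exp_sub_one_le (x := (k : ℂ) * u) (by linarith)
    have h6 : -(2 * (k * η)) ≤ (Complex.exp (k * u) - 1).re := by
      have h7 := (abs_le.1 (Complex.abs_re_le_norm (Complex.exp ((k : ℂ) * u) - 1))).1
      linarith
    rw [Complex.sub_re, Complex.one_re] at h6
    have h7 : -s ≤ k * (Zc M y).re := by
      have h8 := (abs_le.1 (Zr_bound M x hx hx0 y)).1
      have h9 := mul_le_mul_of_nonneg_left h8 (Nat.cast_nonneg (α := ℝ) k)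
      linarith
    have h8 := exp_low (k * (Zc M y).re) s hs0 h7
    have h9 : 0 ≤ 1 - 2 * (k * η) := by linarith
    calc _ ≤ (1 - 2 * (k * η)) * Real.exp (k * (Zc M y).re) := mul_le_mul_of_nonneg_left h8 h9
      _ ≤ (Complex.exp (k * u)).re * Real.exp (k * (Zc M y).re) :=
          mul_le_mul_of_nonneg_right (by linarith) (Real.exp_pos _).le
      _ = _ := mul_comm _ _
  have hc2 : Continuous (fun y => (1 - 2 * (k * η)) *
      (1 + k * (Zc M y).re + (k * (Zc M y).re) ^ 2 / (2 + s))) :=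
    continuous_const.mul ((continuous_const.add (continuous_const.mul hc)).add
      (((continuous_const.mul hc).pow 2).div_const _))
  have h4 : ∫ y in box ι, (1 - 2 * (k * η)) *
      (1 + k * (Zc M y).re + (k * (Zc M y).re) ^ 2 / (2 + s)) ≤ ∫ y in box ι, (GF M y ^ k).re := by
    refine integral_mono (cont_int _ hc2) (cont_int _
      (Complex.continuous_re.comp ((GF_cont M).pow k))) h3
  refine le_trans (le_of_eq ?_) h4
  rw [integral_const_mul]
  congr 1
  have e3 : ∀ y, (k * (Zc M y).re) ^ 2 / (2 + s) = (k ^ 2 / (2 + s)) * (Zc M y).re ^ 2 := by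
    intro y; ring
  simp_rw [e3]
  rw [integral_add, integral_add, integral_const_mul, integral_const_mul, Zr_int,
    Zr_sq_int M hM]
  · have : ∫ y in box ι, (1 : ℝ) = 1 := by
      rw [setIntegral_const, vol_box]
      simp
    rw [this]
    ring
  · exact cont_int _ continuous_const
  · exact cont_int _ (continuous_const.mul hc)
  · exact cont_int _ (continuous_const.add (continuous_const.mul hc))
  · exact cont_int _ (continuous_const.mul (hc.pow 2))

end Pool.Agent.helper97.PER
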