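import Pool.Agent.helper97.PER.Y3

set_option linter.all false
set_option autoImplicit false

/-!
# The two regimes near the identity (MP_2dd521_co)
-/

namespace Pool.Agent.helper97.PER

open MeasureTheory Finset Function
open scoped Real Topology Matrix ComplexConjugate ContDiff ComplexOrder
open Pool.Agent.helper80.LSZ (kron1 kron1_one)

theorem fac_up (n : ℕ) (hn : 0 < n) :
    (n.factorial : ℝ) ≤ Real.exp 1 * √n * (n / Real.exp 1) ^ n := by
  obtain ⟨k, rfl⟩ : ∃ k, n = k + 1 := ⟨n - 1, by omega⟩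
  have h1 : Stirling.stirlingSeq (k + 1) ≤ Real.exp 1 / √2 := by
    rw [← Stirling.stirlingSeq_one]
    exact Stirling.stirlingSeq'_antitone (Nat.zero_le k)
  unfold Stirling.stirlingSeq at h1
  have h2 : (0 : ℝ) < √(2 * ((k + 1 : ℕ) : ℝ)) * (((k + 1 : ℕ) : ℝ) / Real.exp 1) ^ (k + 1) := by
    positivity
  rw [div_le_iff₀ h2] at h1
  refine h1.trans (le_of_eq ?_)
  rw [Real.sqrt_mul (by norm_num)]
  have h3 : (√2 : ℝ) ≠ 0 := by positivity
  field_simp

theorem fac_low (n : ℕ) : (n / Real.exp 1 : ℝ) ^ n ≤ (n.factorial : ℝ) := by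
  have h1 := Real.pow_div_factorial_le_exp (x := (n : ℝ)) (Nat.cast_nonneg n) n
  have h2 : (0 : ℝ) < (n.factorial : ℝ) := by exact_mod_cast Nat.factorial_pos n
  rw [div_le_iff₀ h2] at h1
  rw [div_pow, ← Real.exp_nat_mul, mul_one, div_le_iff₀ (Real.exp_pos _)]
  linarith

theorem fac_bound (m k : ℕ) (hk : 0 < k) :
    (k.factorial : ℝ) ^ m * ((m : ℝ) ^ m) ^ k ≤ ((k * m).factorial : ℝ) *
      (Real.exp 1 * √k) ^ m := by
  have h1 := pow_le_pow_left₀ (Nat.cast_nonneg _) (fac_up k hk) m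
  have h2 := fac_low (k * m)
  have h3 : (Real.exp 1 * √k * (k / Real.exp 1) ^ k) ^ m * ((m : ℝ) ^ m) ^ k =
      (((k * m : ℕ) : ℝ) / Real.exp 1) ^ (k * m) * (Real.exp 1 * √k) ^ m := by
    rw [mul_pow _ _ m, ← pow_mul, ← pow_mul, mul_comm m k, mul_assoc, ← mul_pow, mul_comm]
    congr 2
    push_cast
    ring
  calc _ ≤ (Real.exp 1 * √k * (k / Real.exp 1) ^ k) ^ m * ((m : ℝ) ^ m) ^ k :=
        mul_le_mul_of_nonneg_right h1 (by positivity)
    _ = _ := h3
    _ ≤ _ := mul_le_mul_of_nonneg_right h2 (by positivity)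

theorem nat_sq_le_cube (m : ℕ) : (m : ℝ) ^ 2 ≤ (m : ℝ) ^ 3 := by
  have : m ^ 2 ≤ m ^ 3 := by
    rcases Nat.eq_zero_or_pos m with h | h
    · subst h; simp
    · exact Nat.pow_le_pow_right h (by norm_num)
  exact_mod_cast this

variable {ι : Type*} [Fintype ι] [DecidableEq ι]

theorem perm_re_nonneg (M : Matrix ι ι ℂ) (hM : M.PosSemidef) : 0 ≤ M.permanent.re :=
  (Pool.Agent.helper16.LSZ.perm_real M hM).2

/-- very close to the identity -/
theorem regime3 (M : Matrix ι ι ℂ) (hM : M.PosSemidef) (h1 : ∀ i, M i i = 1) (x : ℝ)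
    (hx : ∀ i j, i ≠ j → ‖M i j‖ ≤ x) (hx0 : 0 ≤ x) (hS : 2 * x ^ 2 ≤ So M)
    (hx5 : 12 * (Fintype.card ι : ℝ) ^ 5 * x ≤ 1)
    (k : ℕ) (hk1 : 24 * (Fintype.card ι : ℝ) ^ 3 ≤ k)
    (hk2 : k * ((Fintype.card ι : ℝ) ^ 3 * x ^ 2) ≤ 1 / 8) :
    (k.factorial : ℝ) ^ Fintype.card ι * M.permanent.re ^ k ≤ (kron1 k M).permanent.re := by
  set m := Fintype.card ι with hm
  set η := (m : ℝ) ^ 3 * x ^ 2 with hη
  have hη0 : 0 ≤ η := by positivity
  have hk0 : (0 : ℝ) ≤ k := Nat.cast_nonneg k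
  have hkη0 : 0 ≤ k * η := by positivity
  have hm1 : (m : ℝ) * x ≤ 1 / 2 ∧ (m : ℝ) ^ 2 * x ≤ 1 := by
    rcases Nat.eq_zero_or_pos m with h | h
    · rw [h]; norm_num
    · have h2 : (1 : ℝ) ≤ m := by exact_mod_cast h
      have h3 : (m : ℝ) ≤ (m : ℝ) ^ 5 := by
        calc (m : ℝ) = m ^ 1 := (pow_one _).symm
          _ ≤ m ^ 5 := pow_le_pow_right₀ h2 (by norm_num)
      have h4 : (m : ℝ) ^ 2 ≤ (m : ℝ) ^ 5 := pow_le_pow_right₀ h2 (by norm_num)
      have h5 := mul_le_mul_of_nonneg_right h3 hx0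
      have h6 := mul_le_mul_of_nonneg_right h4 hx0
      constructor <;> nlinarith
  have hS2 : So M ≤ η := by
    refine (So_le M x hx hx0).trans ?_
    exact mul_le_mul_of_nonneg_right (nat_sq_le_cube m) (by positivity)
  have hS0 := So_nonneg M
  have hup := perm_up M hM.isHermitian h1 x hx hx0 hm1.1 hm1.2
  have hlow := perm_low M hM.isHermitian h1 x hx hx0 hm1.1 k (by linarith)
  refine le_trans (mul_le_mul_of_nonneg_left ?_ (by positivity)) hlow
  -- upper bound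
  have h2 : M.permanent.re ^ k ≤ 1 + 4 * (k * η) := by
    refine (pow_le_pow_left₀ (perm_re_nonneg M hM) hup k).trans ?_
    rw [← Real.exp_nat_mul]
    have h3 : |(k : ℝ) * (η + So M)| ≤ 1 := by
      rw [abs_of_nonneg (by positivity)]
      nlinarith
    have h4 := (abs_le.1 (Real.abs_exp_sub_one_le h3)).2
    rw [abs_of_nonneg (by positivity)] at h4
    have h5 := mul_le_mul_of_nonneg_left hS2 hk0
    nlinarith
  -- the gain
  set g := (k : ℝ) ^ 2 * So M / (2 + k * ((m : ℝ) ^ 2 * x)) with hg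
  have h3 : 12 * (k * η) ≤ g := by
    rw [hg, le_div_iff₀ (by positivity)]
    have e1 : (k : ℝ) * x ^ 2 ≥ 24 * (m : ℝ) ^ 3 * x ^ 2 :=
      mul_le_mul_of_nonneg_right hk1 (by positivity)
    have e2 : 12 * (m : ℝ) ^ 5 * x * (k * x ^ 2) ≤ 1 * (k * x ^ 2) :=
      mul_le_mul_of_nonneg_right hx5 (by positivity)
    have e3 : 12 * ((m : ℝ) ^ 3 * x ^ 2) * (2 + k * ((m : ℝ) ^ 2 * x)) ≤ k * So M := by
      have e4 := mul_le_mul_of_nonneg_left hS hk0
      nlinarith
    have e5 := mul_le_mul_of_nonneg_left e3 hk0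
    calc _ = (k : ℝ) * (12 * ((m : ℝ) ^ 3 * x ^ 2) * (2 + k * ((m : ℝ) ^ 2 * x))) := by
          rw [hη]; ring
      _ ≤ _ := e5
      _ = _ := by ring
  have h4 : (2 * (k * η)) * (1 + g) ≤ (1 / 4) * (1 + g) :=
    mul_le_mul_of_nonneg_right (by linarith) (by linarith)
  have h5 : (2 * (k * η)) * (1 + g) ≤ 2 * (k * η) + (1 / 4) * g := by
    have : (2 * (k * η)) * g ≤ (1 / 4) * g := mul_le_mul_of_nonneg_right (by linarith) (by linarith)
    linarith
  have h6 : (1 - 2 * (k * η)) * (1 + g) = (1 + g) - (2 * (k * η)) * (1 + g) := by ring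
  rw [h6]
  linarith

/-- a point of the torus with a large exponent -/
theorem exists_pt (M : Matrix ι ι ℂ) (hM : M.IsHermitian) (x : ℝ)
    (hx : ∀ i j, i ≠ j → ‖M i j‖ ≤ x) (hx0 : 0 < x) (hS : 2 * x ^ 2 ≤ So M)
    (hm : 0 < Fintype.card ι) :
    ∃ y : ι → ℝ, x / (Fintype.card ι : ℝ) ^ 2 < (Zc M y).re := by
  by_contra hcon
  push Not at hcon
  set m := Fintype.card ι
  set c := x / (m : ℝ) ^ 2 with hc
  set A := (m : ℝ) ^ 2 * x with hA
  have hm' : (0 : ℝ) < m := by exact_mod_cast hm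
  have h1 : ∀ y, 0 ≤ (c - (Zc M y).re) * ((Zc M y).re + A) := by
    intro y
    refine mul_nonneg ?_ ?_
    · have := hcon y
      linarith
    · have := (abs_le.1 (Zr_bound M x hx hx0.le y)).1
      linarith
  have hcZ := Zr_cont M
  have h2 : 0 ≤ ∫ y in box ι, (c - (Zc M y).re) * ((Zc M y).re + A) :=
    integral_nonneg h1
  have h3 : ∀ y, (c - (Zc M y).re) * ((Zc M y).re + A) =
      c * A + (c - A) * (Zc M y).re - (Zc M y).re ^ 2 := by
    intro y; ring
  simp_rw [h3] at h2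
  rw [integral_sub, integral_add, integral_const_mul (c - A), Zr_int, Zr_sq_int M hM] at h2
  · have : ∫ y in box ι, c * A = c * A := by
      rw [setIntegral_const, vol_box]
      simp
    rw [this] at h2
    have e : c * A = x ^ 2 := by
      rw [hc, hA]
      field_simp
    rw [e] at h2
    have : 0 < x ^ 2 := by positivity
    linarith
  · exact cont_int _ continuous_const
  · exact cont_int _ (continuous_const.mul hcZ)
  · exact cont_int _ (continuous_const.add (continuous_const.mul hcZ))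
  · exact cont_int _ (hcZ.pow 2)

/-- the coherent lower bound at a point of the torus -/
theorem lower_torus (M : Matrix ι ι ℂ) (hM : M.PosSemidef) (h1 : ∀ i, M i i = 1) (k : ℕ)
    (y : ι → ℝ) : ((k * Fintype.card ι).factorial : ℝ) * (‖GF M y‖ ^ 2) ^ k ≤
      (kron1 k M).permanent.re * ((Fintype.card ι : ℝ) + (Zc M y).re) ^ (k * Fintype.card ι) := by
  obtain ⟨L, rfl⟩ := exists_gm M hM
  have e0 : kron1 k (gm L) = gm (fun s : Fin k × ι => L s.2) := by
    ext s t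
    simp [kron1, gm, Matrix.kronecker, Matrix.kroneckerMap_apply]
  have h := lower (fun s : Fin k × ι => L s.2) (fun i => ∑ t, conj (L t i) * ux y t)
  rw [← e0] at h
  have hcard : Fintype.card (Fin k × ι) = k * Fintype.card ι := by simp
  rw [hcard] at h
  have h2 : ∀ s : Fin k × ι, lf (fun s : Fin k × ι => L s.2)
      (fun i => ∑ t, conj (L t i) * ux y t) s = (gm L *ᵥ ux y) s.2 := by
    intro s
    rw [gm_mulVec]
    rfl
  simp_rw [h2] at h
  have h3 : ∏ s : Fin k × ι, ‖(gm L *ᵥ ux y) s.2‖ ^ 2 = (‖GF (gm L) y‖ ^ 2) ^ k := by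
    rw [Fintype.prod_prod_type]
    simp only [Finset.prod_const, Finset.card_univ, Fintype.card_fin]
    congr 1
    unfold GF
    rw [norm_prod, ← Finset.prod_pow]
    refine Finset.prod_congr rfl (fun i _ => ?_)
    rw [norm_div, ux_norm, div_one]
  rw [h3] at h
  have h4 : ns (fun i => ∑ t, conj (L t i) * ux y t) = (Fintype.card ι : ℝ) + (Zc (gm L) y).re := by
    rw [← gm_quad, ← sum_wr]
    have h5 : star (ux y) ⬝ᵥ (gm L *ᵥ ux y) = ∑ i, (1 + wr (gm L) y i) := by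
      unfold dotProduct
      refine Finset.sum_congr rfl (fun i _ => ?_)
      rw [← row_eq (gm L) h1 y i, div_eq_mul_inv, ux_inv, mul_comm]
      rfl
    rw [h5, Finset.sum_add_distrib]
    simp
  rw [h4] at h
  exact h

/-- close to the identity -/
theorem regime2 (M : Matrix ι ι ℂ) (hM : M.PosSemidef) (h1 : ∀ i, M i i = 1) (x : ℝ)
    (hx : ∀ i j, i ≠ j → ‖M i j‖ ≤ x) (hx0 : 0 < x) (hS : 2 * x ^ 2 ≤ So M)
    (hx5 : 12 * (Fintype.card ι : ℝ) ^ 5 * x ≤ 1) (hm : 0 < Fintype.card ι)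
    (k : ℕ) (hk : 0 < k)
    (hk2 : (Real.exp 1 * √k) ^ Fintype.card ι ≤
      Real.exp (k * (2 / 3 * (x / (Fintype.card ι : ℝ) ^ 2)))) :
    (k.factorial : ℝ) ^ Fintype.card ι * M.permanent.re ^ k ≤ (kron1 k M).permanent.re := by
  set m := Fintype.card ι with hmdef
  set η := (m : ℝ) ^ 3 * x ^ 2 with hη
  have hm1 : (1 : ℝ) ≤ m := by exact_mod_cast hm
  have hm0 : (0 : ℝ) < m := by linarith
  have hη0 : 0 ≤ η := by positivity
  have hk0 : (0 : ℝ) ≤ k := Nat.cast_nonneg k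
  have hm2 : (m : ℝ) * x ≤ 1 / 2 ∧ (m : ℝ) ^ 2 * x ≤ 1 := by
    have h3 : (m : ℝ) ≤ (m : ℝ) ^ 5 := by
      calc (m : ℝ) = m ^ 1 := (pow_one _).symm
        _ ≤ m ^ 5 := pow_le_pow_right₀ hm1 (by norm_num)
    have h4 : (m : ℝ) ^ 2 ≤ (m : ℝ) ^ 5 := pow_le_pow_right₀ hm1 (by norm_num)
    have h5 := mul_le_mul_of_nonneg_right h3 hx0.le
    have h6 := mul_le_mul_of_nonneg_right h4 hx0.le
    constructor <;> nlinarith
  have hS2 : So M ≤ η := by
    refine (So_le M x hx hx0.le).trans ?_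
    exact mul_le_mul_of_nonneg_right (nat_sq_le_cube m) (by positivity)
  have hup := perm_up M hM.isHermitian h1 x hx hx0.le hm2.1 hm2.2
  obtain ⟨y, hy⟩ := exists_pt M hM.isHermitian x hx hx0 hS hm
  obtain ⟨u, hu, hu2⟩ := GF_exp M hM.isHermitian h1 x hx hx0.le hm2.1 y
  set Z := (Zc M y).re with hZ
  have hlow := lower_torus M hM h1 k y
  rw [← hmdef, ← hZ] at hlow
  set P := (kron1 k M).permanent.re with hP
  have hP0 : 0 ≤ P := perm_re_nonneg _ (kron1_psd k M hM)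
  have h2 : Real.exp (Z - η) ≤ ‖GF M y‖ := by
    rw [hu2, Complex.norm_exp]
    simp only [Complex.add_re, Complex.ofReal_re]
    refine Real.exp_le_exp.2 ?_
    have := (abs_le.1 ((Complex.abs_re_le_norm u).trans hu)).1
    linarith
  have h3 : Real.exp (k * (2 * (Z - η))) ≤ (‖GF M y‖ ^ 2) ^ k := by
    have h4 := pow_le_pow_left₀ (Real.exp_pos _).le h2 2
    have h5 := pow_le_pow_left₀ (by positivity) h4 k
    refine le_trans (le_of_eq ?_) h5
    rw [← Real.exp_nat_mul, ← Real.exp_nat_mul]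
    push_cast
    rfl
  have hZ0 : 0 ≤ Z := by
    have : 0 < x / (m : ℝ) ^ 2 := by positivity
    linarith
  have h4 : ((m : ℝ) + Z) ^ (k * m) ≤ ((m : ℝ) ^ m) ^ k * Real.exp (k * Z) := by
    have h5 : (m : ℝ) + Z ≤ m * Real.exp (Z / m) := by
      have h6 := Real.add_one_le_exp (Z / m)
      have h7 := mul_le_mul_of_nonneg_left h6 hm0.le
      have h8 : (m : ℝ) * (Z / m + 1) = m + Z := by field_simp; ring
      linarith
    refine (pow_le_pow_left₀ (by positivity) h5 (k * m)).trans (le_of_eq ?_)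
    rw [mul_pow, ← pow_mul, mul_comm m k, ← Real.exp_nat_mul]
    congr 2
    push_cast
    field_simp
  have h5 : ((k * m).factorial : ℝ) * Real.exp (k * (Z - 2 * η)) ≤ P * ((m : ℝ) ^ m) ^ k := by
    have h6 : ((k * m).factorial : ℝ) * Real.exp (k * (2 * (Z - η))) ≤
        P * (((m : ℝ) ^ m) ^ k * Real.exp (k * Z)) :=
      (mul_le_mul_of_nonneg_left h3 (Nat.cast_nonneg _)).trans
        (hlow.trans (mul_le_mul_of_nonneg_left h4 hP0))
    have h7 : Real.exp (k * (2 * (Z - η))) = Real.exp (k * (Z - 2 * η)) * Real.exp (k * Z) := by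
      rw [← Real.exp_add]
      congr 1
      ring
    rw [h7] at h6
    have h8 : (((k * m).factorial : ℝ) * Real.exp (k * (Z - 2 * η))) * Real.exp (k * Z) ≤
        (P * ((m : ℝ) ^ m) ^ k) * Real.exp (k * Z) := by
      calc _ = ((k * m).factorial : ℝ) * (Real.exp (k * (Z - 2 * η)) * Real.exp (k * Z)) := by ring
        _ ≤ _ := h6
        _ = _ := by ring
    exact le_of_mul_le_mul_right h8 (Real.exp_pos _)
  have h6 := fac_bound m k hk
  set Λ := (Real.exp 1 * √k) ^ m with hΛ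
  have hΛ0 : 0 < Λ := by
    have : (0 : ℝ) < k := by exact_mod_cast hk
    positivity
  have h7 : (k.factorial : ℝ) ^ m * Real.exp (k * (Z - 2 * η)) ≤ Λ * P := by
    have h8 : (0 : ℝ) < ((m : ℝ) ^ m) ^ k := by positivity
    have h9 : ((k.factorial : ℝ) ^ m * Real.exp (k * (Z - 2 * η))) * ((m : ℝ) ^ m) ^ k ≤
        (Λ * P) * ((m : ℝ) ^ m) ^ k := by
      calc _ = ((k.factorial : ℝ) ^ m * ((m : ℝ) ^ m) ^ k) * Real.exp (k * (Z - 2 * η)) := by ring
        _ ≤ (((k * m).factorial : ℝ) * Λ) * Real.exp (k * (Z - 2 * η)) :=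
          mul_le_mul_of_nonneg_right h6 (Real.exp_pos _).le
        _ = Λ * (((k * m).factorial : ℝ) * Real.exp (k * (Z - 2 * η))) := by ring
        _ ≤ Λ * (P * ((m : ℝ) ^ m) ^ k) := mul_le_mul_of_nonneg_left h5 hΛ0.le
        _ = _ := by ring
    exact le_of_mul_le_mul_right h9 h8
  have h8 : Λ * Real.exp (k * (η + So M)) ≤ Real.exp (k * (Z - 2 * η)) := by
    refine (mul_le_mul_of_nonneg_right hk2 (Real.exp_pos _).le).trans ?_
    rw [← Real.exp_add]
    refine Real.exp_le_exp.2 ?_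
    rw [← mul_add]
    refine mul_le_mul_of_nonneg_left ?_ hk0
    have e1 : (m : ℝ) ^ 3 * x ^ 2 ≤ 1 / 12 * (x / (m : ℝ) ^ 2) := by
      rw [mul_div_assoc', le_div_iff₀ (by positivity)]
      nlinarith
    have e2 : 4 * η ≤ 1 / 3 * (x / (m : ℝ) ^ 2) := by
      rw [hη]; linarith
    linarith
  have h9 : M.permanent.re ^ k ≤ Real.exp (k * (η + So M)) := by
    refine (pow_le_pow_left₀ (perm_re_nonneg M hM) hup k).trans (le_of_eq ?_)
    rw [← Real.exp_nat_mul]
  have h10 : Λ * ((k.factorial : ℝ) ^ m * M.permanent.re ^ k) ≤ Λ * P := by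
    calc _ ≤ Λ * ((k.factorial : ℝ) ^ m * Real.exp (k * (η + So M))) :=
          mul_le_mul_of_nonneg_left (mul_le_mul_of_nonneg_left h9 (by positivity)) hΛ0.le
      _ = (k.factorial : ℝ) ^ m * (Λ * Real.exp (k * (η + So M))) := by ring
      _ ≤ (k.factorial : ℝ) ^ m * Real.exp (k * (Z - 2 * η)) :=
          mul_le_mul_of_nonneg_left h8 (by positivity)
      _ ≤ _ := h7
  exact le_of_mul_le_mul_left h10 hΛ0

end Pool.Agent.helper97.PER
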