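import Pool.Agent.helper97.PER.Y4
import Pool.Agent.helper16.LSZ.StarMain
import Pool.Agent.helper16.LSZ.F4

set_option linter.all false
set_option autoImplicit false

/-!
# The inequality of Lieb for one row (MP_2dd521_co)
-/

namespace Pool.Agent.helper97.PER

open MeasureTheory Finset Function MvPolynomial
open scoped Real Topology Matrix ComplexConjugate ContDiff ComplexOrder
open Pool.Agent.helper80.LSZ (kron1 kron1_one W)
open Pool.Agent.helper16.Fock (nr pol nr_pol T T_C nr_mul n_one n_zero N_real ip_smul_left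
  ip_smul_right nr_cast nr_nonneg)
open Pool.Agent.helper16.LSZ (VV GG pp permanent_eq univ_inst)

variable {κ : Type*} [Fintype κ] [DecidableEq κ]

theorem nr_C_mul (c : ℂ) (Q : MvPolynomial κ ℂ) : nr (C c * Q) = ‖c‖ ^ 2 * nr Q := by
  have h : ((nr (C c * Q) : ℝ) : ℂ) = ((‖c‖ ^ 2 * nr Q : ℝ) : ℂ) := by
    rw [nr_cast, ip_smul_left, ip_smul_right, ← nr_cast]
    push_cast
    rw [← mul_assoc, ← Complex.normSq_eq_conj_mul_self, Complex.normSq_eq_norm_sq]
    push_cast
    rfl
  exact_mod_cast h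

theorem lieb_pol (l : κ → ℂ) (Q : MvPolynomial κ ℂ) :
    (∑ a, ‖l a‖ ^ 2) * nr Q ≤ nr ((∑ a, C (l a) * X a) * Q) := by
  have hl : (∑ a, C (l a) * X a : MvPolynomial κ ℂ).IsHomogeneous 1 := by
    apply IsHomogeneous.sum
    intro i _
    have := (isHomogeneous_C κ (l i)).mul (isHomogeneous_X ℂ i)
    simpa using this
  rw [nr_mul hl Q, Finset.sum_range_succ, Finset.sum_range_one, n_one]
  simp only [Nat.factorial_zero, Nat.factorial_one, Nat.cast_one, div_one]
  have h0 := (N_real 0 (∑ a, C (l a) * X a) Q).2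
  have h1 : ∀ a, pderiv a (∑ b, C (l b) * X b : MvPolynomial κ ℂ) = C (l a) := by
    intro a
    rw [map_sum, Finset.sum_eq_single a]
    · simp
    · intro b _ hb
      rw [Derivation.leibniz, pderiv_C, pderiv_X_of_ne hb]
      simp
    · intro h
      exact absurd (Finset.mem_univ a) h
  have h2 : ∀ a, nr (T (pderiv a (∑ b, C (l b) * X b)) Q) = ‖l a‖ ^ 2 * nr Q := by
    intro a
    rw [h1, T_C, nr_C_mul, RCLike.norm_conj]
  simp_rw [h2]
  rw [← Finset.sum_mul]
  linarith

theorem lieb {n : ℕ} (L : Fin (n + 1) → κ → ℂ) (i : Fin (n + 1)) :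
    (∑ a, ‖L i a‖ ^ 2) * (gm (fun s => L (i.succAbove s))).permanent.re ≤
      (gm L).permanent.re := by
  have h := lieb_pol (L i) (pol (fun s => L (i.succAbove s)))
  have h1 : pol L = (∑ a, C (L i a) * X a) * pol (fun s => L (i.succAbove s)) := by
    unfold pol
    rw [Fin.prod_univ_succAbove _ i]
  rw [← h1] at h
  have h2 := nr_pol L 1
  have h3 := nr_pol (fun s => L (i.succAbove s)) 1
  rw [pow_one, W_one_eq] at h2 h3
  rw [h2, h3] at h
  exact h

theorem VV_diag {n : ℕ} (B : Matrix (Fin (n + 1)) (Fin (n + 1)) ℂ) (i : Fin (n + 1)) :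
    VV B {i} {i} = (B.submatrix i.succAbove i.succAbove).permanent := by
  classical
  rw [permanent_eq]
  unfold VV pp
  let u : {a // a ∉ ({i} : Finset (Fin (n + 1)))} ≃ Fin n :=
    (Equiv.subtypeEquivRight (fun a => by simp)).trans (finSuccAboveEquiv i).symm
  have hu : ∀ a, i.succAbove (u a) = a.1 := by
    intro a
    have h1 : (finSuccAboveEquiv i) (u a) = ⟨a.1, by simpa using a.2⟩ := by
      simp [u]
      rfl
    exact congrArg Subtype.val h1
  have key : ∑ e : {a // a ∉ ({i} : Finset (Fin (n + 1)))} ≃ {a // a ∉ ({i} : Finset (Fin (n + 1)))},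
      ∏ a : {a // a ∉ ({i} : Finset (Fin (n + 1)))}, B a.1 (e a).1 =
      ∑ σ : Fin n ≃ Fin n, ∏ a, B.submatrix i.succAbove i.succAbove a (σ a) := by
    refine Fintype.sum_equiv (Equiv.equivCongr u u) _ _ fun e => ?_
    refine Fintype.prod_equiv u _ _ fun a => ?_
    have : Equiv.equivCongr u u e (u a) = u (e a) := by simp [Equiv.equivCongr]
    rw [Matrix.submatrix_apply, this, hu, hu]
  refine Eq.trans ?_ key
  refine Finset.sum_congr (univ_inst _ _) (fun e _ => ?_)
  exact Finset.prod_congr (univ_inst _ _) (fun _ _ => rfl)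

/-- the inequality of Lieb for one row -/
theorem lieb_VV {n : ℕ} (B : Matrix (Fin (n + 1)) (Fin (n + 1)) ℂ) (hB : B.PosSemidef)
    (i : Fin (n + 1)) : (B i i).re * (VV B {i} {i}).re ≤ B.permanent.re := by
  obtain ⟨L, rfl⟩ := exists_gm B hB
  rw [VV_diag]
  have h := lieb L i
  have h1 : (gm L i i).re = ∑ a, ‖L i a‖ ^ 2 := by
    unfold gm
    simp only [Matrix.of_apply]
    rw [Complex.re_sum]
    refine Finset.sum_congr rfl (fun a _ => ?_)
    rw [Complex.mul_conj, Complex.normSq_eq_norm_sq, Complex.ofReal_re]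
  rw [h1]
  exact h

end Pool.Agent.helper97.PER
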