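import Pool.Agent.helper97.PER.Y5

set_option linter.all false
set_option autoImplicit false

/-!
# The term of one exchange (MP_2dd521_co)
-/

namespace Pool.Agent.helper97.PER

open Finset Function
open scoped Real Topology Matrix ComplexConjugate ComplexOrder
open Pool.Agent.helper16.LSZ (VV GG HH pp permanent_eq univ_inst fib mem_fib sum_FF
  GG_eq' GG_eq_zero VV_eq_zero VV_eq laplace_total GG_posSemidef VV_posSemidef perm_real star_T)

variable {J : Type*} [Fintype J] [DecidableEq J]

/-- the labelling with one marked element -/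
def eL (i : J) : J → Option Unit := fun a => if a = i then some () else none

theorem fib_some (i : J) : fib (eL i) (some ()) = {i} := by
  ext a
  rw [mem_fib, Finset.mem_singleton]
  unfold eL
  split_ifs with h <;> simp [h]

theorem fib_none (i : J) : fib (eL i) none = {i}ᶜ := by
  ext a
  rw [mem_fib, Finset.mem_compl, Finset.mem_singleton]
  unfold eL
  split_ifs with h <;> simp [h]

/-- the pattern with one exchange -/
def c1 (J : Type*) [Fintype J] : Option Unit → ℕ
  | none => Fintype.card J - 1
  | some _ => 1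

/-- the labellings of this pattern -/
abbrev F1 (J : Type*) [Fintype J] := Pool.Agent.helper16.LSZ.FF Unit J (c1 J)

theorem eL_mem (i : J) : ∀ o, (fib (eL i) o).card = c1 J o := by
  intro o
  rcases o with _ | u
  · rw [fib_none, Finset.card_compl, Finset.card_singleton]
    rfl
  · have : (some u : Option Unit) = some () := rfl
    rw [this, fib_some, Finset.card_singleton]
    rfl

theorem eL_bij : Bijective (fun i : J => (⟨eL i, eL_mem i⟩ : F1 J)) := by
  constructor
  · intro i j h
    have h1 : eL i = eL j := congrArg Subtype.val h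
    have h2 := fib_some i
    rw [h1, fib_some] at h2
    exact (Finset.singleton_injective h2).symm
  · rintro ⟨s, hs⟩
    have h1 := hs (some ())
    have h1' : (fib s (some ())).card = 1 := h1
    obtain ⟨i, hi⟩ := Finset.card_eq_one.1 h1'
    refine ⟨i, Subtype.ext ?_⟩
    funext a
    show eL i a = s a
    have h2 : a ∈ fib s (some ()) ↔ a = i := by rw [hi, Finset.mem_singleton]
    rw [mem_fib] at h2
    unfold eL
    split_ifs with h
    · exact (h2.2 h).symm
    · rcases hsa : s a with _ | u
      · rfl
      · exact absurd (h2.1 hsa) h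

theorem sum_eL (f : (J → Option Unit) → ℂ) :
    ∑ s : F1 J, f s.1 = ∑ i, f (eL i) :=
  (Fintype.sum_bijective _ eL_bij (fun i => f (eL i)) (fun s : F1 J => f s.1)
    (fun i => rfl)).symm

theorem VV_compl (B : J → J → ℂ) (S R : Finset J) : GG B Sᶜ Rᶜ = VV B S R := by
  rw [VV_eq]; rfl

theorem GG_single (B : J → J → ℂ) (i j : J) : GG B {i} {j} = B i j := by
  rw [GG_eq']
  have h1 : ∀ a : {a // a ∈ ({i} : Finset J)}, a.1 = i := fun a => Finset.mem_singleton.1 a.2
  have h2 : ∀ a : {a // a ∈ ({j} : Finset J)}, a.1 = j := fun a => Finset.mem_singleton.1 a.2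
  have s1 : Subsingleton {a // a ∈ ({i} : Finset J)} :=
    ⟨fun a b => Subtype.ext ((h1 a).trans (h1 b).symm)⟩
  have s2 : Subsingleton {a // a ∈ ({j} : Finset J)} :=
    ⟨fun a b => Subtype.ext ((h2 a).trans (h2 b).symm)⟩
  have s3 : Subsingleton ({a // a ∈ ({i} : Finset J)} ≃ {a // a ∈ ({j} : Finset J)}) :=
    ⟨fun e f => by ext a; exact congrArg Subtype.val (s2.elim _ _)⟩
  let e0 : {a // a ∈ ({i} : Finset J)} ≃ {a // a ∈ ({j} : Finset J)} :=
    { toFun := fun _ => ⟨j, Finset.mem_singleton_self j⟩
      invFun := fun _ => ⟨i, Finset.mem_singleton_self i⟩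
      left_inv := fun a => s1.elim _ _
      right_inv := fun a => s2.elim _ _ }
  refine (Finset.sum_eq_single e0 (fun e _ he => absurd (s3.elim e e0) he)
    (fun h => absurd (Finset.mem_univ _) h)).trans ?_
  refine (Finset.prod_eq_single (⟨i, Finset.mem_singleton_self i⟩ : {a // a ∈ ({i} : Finset J)})
    (fun a _ ha => absurd (s1.elim a _) ha) (fun h => absurd (Finset.mem_univ _) h)).trans ?_
  rfl

theorem row_sum1 (B : Matrix J J ℂ) (i : J) :
    ∑ j, VV B {i} {j} * B i j = B.permanent := by
  rw [← laplace_total B (eL i)]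
  have h1 := sum_FF (c1 J) (fun r : J → Option Unit => ∏ o, GG B (fib (eL i) o) (fib r o))
  have h2 : ∑ r : J → Option Unit, (if (∀ o, (fib r o).card = c1 J o) then
      ∏ o, GG B (fib (eL i) o) (fib r o) else 0) =
      ∑ r : J → Option Unit, ∏ o, GG B (fib (eL i) o) (fib r o) := by
    refine Finset.sum_congr rfl fun r _ => ?_
    split_ifs with h4
    · rfl
    · push Not at h4
      obtain ⟨o, ho⟩ := h4
      symm
      apply Finset.prod_eq_zero (Finset.mem_univ o)
      apply GG_eq_zero
      rw [eL_mem i o]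
      exact Ne.symm ho
  rw [← h2, ← h1, sum_eL (fun r => ∏ o, GG B (fib (eL i) o) (fib r o))]
  refine Finset.sum_congr rfl fun j _ => ?_
  rw [Fintype.prod_option]
  simp only [Finset.univ_unique, Finset.prod_singleton]
  have : (some (default : Unit)) = some () := rfl
  rw [this, fib_none, fib_none, fib_some, fib_some, VV_compl, GG_single]

theorem sum_single (f : Finset J → ℂ) (hf : ∀ R : Finset J, R.card ≠ 1 → f R = 0) :
    ∑ R, f R = ∑ a, f {a} := by
  symm
  refine Fintype.sum_of_injective (fun a : J => ({a} : Finset J)) Finset.singleton_injective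
    (fun a => f {a}) f ?_ (fun a => rfl)
  intro R hR
  refine hf R (fun h => hR ?_)
  obtain ⟨a, ha⟩ := Finset.card_eq_one.1 h
  exact ⟨a, ha.symm⟩

/-- the matrix of the permanents of the minors -/
noncomputable def Vm (B : Matrix J J ℂ) : Matrix J J ℂ := Matrix.of fun i j => VV B {i} {j}

theorem Vm_psd (B : Matrix J J ℂ) (hB : B.PosSemidef) : (Vm B).PosSemidef := by
  have h := (VV_posSemidef B hB).submatrix (fun i : J => ({i} : Finset J))
  exact h

theorem HH_single (B : Matrix J J ℂ) (i j : J) :
    HH B {i} {j} = (B * (Vm B)ᵀ * B) i j := by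
  unfold HH
  rw [Matrix.mul_apply, Matrix.mul_apply, sum_single]
  · refine Finset.sum_congr rfl fun a _ => ?_
    rw [GG_single, Matrix.mul_apply, Matrix.mul_apply, sum_single]
    · congr 1
      refine Finset.sum_congr rfl fun b _ => ?_
      rw [GG_single]
      rfl
    · intro R hR
      rw [GG_eq_zero _ _ _ (by rw [Finset.card_singleton]; exact hR.symm), zero_mul]
  · intro R hR
    rw [GG_eq_zero _ _ _ (by rw [Finset.card_singleton]; exact hR), mul_zero]

/-- the term of one exchange -/
theorem T_one (B : Matrix J J ℂ) :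
    ∑ s : F1 J, ∑ r : F1 J, (GG B (fib s.1 none) (fib r.1 none) *
      ∏ k, HH B (fib s.1 (some k)) (fib r.1 (some k))) =
      ((Vm B)ᵀ * (B * (Vm B)ᵀ * B)).trace := by
  have h1 : ∀ s : F1 J, ∑ r : F1 J,
      (GG B (fib s.1 none) (fib r.1 none) * ∏ k, HH B (fib s.1 (some k)) (fib r.1 (some k))) =
      ∑ j, (GG B (fib s.1 none) (fib (eL j) none) *
        ∏ k, HH B (fib s.1 (some k)) (fib (eL j) (some k))) := by
    intro s
    exact sum_eL (fun r => GG B (fib s.1 none) (fib r none) *
      ∏ k, HH B (fib s.1 (some k)) (fib r (some k)))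
  simp_rw [h1]
  rw [sum_eL (fun s => ∑ j, (GG B (fib s none) (fib (eL j) none) *
        ∏ k, HH B (fib s (some k)) (fib (eL j) (some k))))]
  unfold Matrix.trace
  simp only [Matrix.diag_apply]
  have h2 : ∀ j, ((Vm B)ᵀ * (B * (Vm B)ᵀ * B)) j j =
      ∑ i, VV B {i} {j} * HH B {i} {j} := by
    intro j
    rw [Matrix.mul_apply]
    refine Finset.sum_congr rfl fun i _ => ?_
    rw [HH_single]
    rfl
  simp_rw [h2]
  rw [Finset.sum_comm]
  refine Finset.sum_congr rfl fun i _ => Finset.sum_congr rfl fun j _ => ?_
  simp only [Finset.univ_unique, Finset.prod_singleton]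
  have : (some (default : Unit)) = some () := rfl
  rw [this, fib_none, fib_none, fib_some, fib_some, VV_compl]

end Pool.Agent.helper97.PER
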