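import Pool.Agent.helper97.PER.Y6

set_option linter.all false
set_option autoImplicit false

/-!
# The gap in the term of one exchange (MP_2dd521_co)
-/

namespace Pool.Agent.helper97.PER

open Finset Function
open scoped Real Topology Matrix ComplexConjugate ComplexOrder
open Pool.Agent.helper16.LSZ (VV GG HH perm_real)

variable {J : Type*} [Fintype J] [DecidableEq J]

theorem trace_herm (H : Matrix J J ℂ) (hH : H.IsHermitian) :
    (H * H).trace = ((∑ a, ∑ b, ‖H a b‖ ^ 2 : ℝ) : ℂ) := by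
  unfold Matrix.trace
  push_cast
  refine Finset.sum_congr rfl (fun a _ => ?_)
  rw [Matrix.diag_apply, Matrix.mul_apply]
  refine Finset.sum_congr rfl (fun b _ => ?_)
  rw [← hH.apply b a]
  simp only [RCLike.star_def]
  rw [Complex.mul_conj, Complex.normSq_eq_norm_sq]
  push_cast
  rfl

theorem quad_cs (H : Matrix J J ℂ) (u : J → ℂ) :
    ‖star u ⬝ᵥ (H *ᵥ u)‖ ^ 2 ≤ (∑ a, ∑ b, ‖H a b‖ ^ 2) * ns u ^ 2 := by
  have h1 : ‖star u ⬝ᵥ (H *ᵥ u)‖ ≤ ∑ p : J × J, ‖H p.1 p.2‖ * (‖u p.1‖ * ‖u p.2‖) := by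
    unfold dotProduct Matrix.mulVec dotProduct
    rw [Fintype.sum_prod_type]
    refine (norm_sum_le _ _).trans (Finset.sum_le_sum (fun a _ => ?_))
    rw [norm_mul, Pi.star_apply, norm_star]
    refine (mul_le_mul_of_nonneg_left (norm_sum_le _ _) (norm_nonneg _)).trans ?_
    rw [Finset.mul_sum]
    refine Finset.sum_le_sum (fun b _ => ?_)
    rw [norm_mul]
    exact le_of_eq (by ring)
  have h2 := (pow_le_pow_left₀ (norm_nonneg _) h1 2).trans (Finset.sum_mul_sq_le_sq_mul_sq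
    (Finset.univ : Finset (J × J)) (fun p => ‖H p.1 p.2‖) (fun p => ‖u p.1‖ * ‖u p.2‖))
  refine h2.trans (le_of_eq ?_)
  congr 1
  · rw [Fintype.sum_prod_type]
  · unfold ns
    rw [sq, Finset.sum_mul_sum, Fintype.sum_prod_type]
    refine Finset.sum_congr rfl (fun a _ => Finset.sum_congr rfl (fun b _ => ?_))
    ring

theorem exists_dual (L : J → J → ℂ) (i : J) :
    ∃ u : J → ℂ, 0 < ns u ∧ ∀ j, j ≠ i → lf L u j = 0 := by
  have h1 : ((Matrix.of L).updateRow i 0).det = 0 :=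
    Matrix.det_eq_zero_of_row_eq_zero i (fun j => by simp)
  obtain ⟨u, hu, hu2⟩ := Matrix.exists_mulVec_eq_zero_iff.2 h1
  refine ⟨u, ?_, ?_⟩
  · rcases (ns_nonneg u).lt_or_eq with h | h
    · exact h
    · exfalso
      apply hu
      funext a
      have h2 := (Finset.sum_eq_zero_iff_of_nonneg (fun a _ => by positivity)).1 h.symm a
        (Finset.mem_univ a)
      have h3 : ‖u a‖ = 0 := by simpa using h2
      simpa using h3
  · intro j hj
    have h2 : ∑ a, ((Matrix.of L).updateRow i 0) j a * u a = 0 := congrFun hu2 j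
    simp only [Matrix.updateRow_ne hj] at h2
    exact h2

theorem dual_norm (L : J → J → ℂ) (i j : J) (hi : gm L i i = 1) (hj : gm L j j = 1)
    (u : J → ℂ) (hu : lf L u j = 0) : ‖lf L u i‖ ^ 2 ≤ (1 - ‖gm L i j‖ ^ 2) * ns u := by
  set c := gm L i j with hc
  have h1 : lf L u i = ∑ a, (L i a - c * L j a) * u a := by
    have h2 : ∑ a, (L i a - c * L j a) * u a = lf L u i - c * lf L u j := by
      unfold lf
      rw [Finset.mul_sum, ← Finset.sum_sub_distrib]
      refine Finset.sum_congr rfl (fun a _ => ?_)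
      ring
    rw [h2, hu, mul_zero, sub_zero]
  have h2 : ‖lf L u i‖ ≤ ∑ a, ‖L i a - c * L j a‖ * ‖u a‖ := by
    rw [h1]
    refine (norm_sum_le _ _).trans (Finset.sum_le_sum (fun a _ => ?_))
    rw [norm_mul]
  have h3 := (pow_le_pow_left₀ (norm_nonneg _) h2 2).trans
    (Finset.sum_mul_sq_le_sq_mul_sq Finset.univ (fun a => ‖L i a - c * L j a‖) (fun a => ‖u a‖))
  refine h3.trans (le_of_eq ?_)
  unfold ns
  congr 1
  have h4 : ((∑ a, ‖L i a - c * L j a‖ ^ 2 : ℝ) : ℂ) = ((1 - ‖c‖ ^ 2 : ℝ) : ℂ) := by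
    have h5 : ∀ a, ((‖L i a - c * L j a‖ ^ 2 : ℝ) : ℂ) =
        L i a * conj (L i a) - conj c * (L i a * conj (L j a)) - c * (L j a * conj (L i a)) +
          (c * conj c) * (L j a * conj (L j a)) := by
      intro a
      rw [← Complex.normSq_eq_norm_sq, ← Complex.mul_conj, map_sub, map_mul]
      ring
    have h5' : ((∑ a, ‖L i a - c * L j a‖ ^ 2 : ℝ) : ℂ) =
        ∑ a, ((‖L i a - c * L j a‖ ^ 2 : ℝ) : ℂ) := by push_cast; rfl
    rw [h5']
    simp_rw [h5]
    rw [Finset.sum_add_distrib, Finset.sum_sub_distrib, Finset.sum_sub_distrib, ← Finset.mul_sum,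
      ← Finset.mul_sum, ← Finset.mul_sum]
    have e1 : ∑ a, L i a * conj (L i a) = 1 := hi
    have e2 : ∑ a, L j a * conj (L j a) = 1 := hj
    have e3 : ∑ a, L i a * conj (L j a) = c := rfl
    have e4 : ∑ a, L j a * conj (L i a) = conj c := by
      rw [hc]
      show _ = conj (∑ a, L i a * conj (L j a))
      rw [map_sum]
      refine Finset.sum_congr rfl (fun a _ => ?_)
      simp [mul_comm]
    rw [e1, e2, e3, e4]
    have e5 : ((1 - ‖c‖ ^ 2 : ℝ) : ℂ) = 1 - c * conj c := by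
      rw [Complex.mul_conj, Complex.normSq_eq_norm_sq]
      push_cast
      rfl
    rw [e5]
    ring
  exact_mod_cast h4

/-- the gap -/
theorem gap_one (B : Matrix J J ℂ) (hB : B.PosSemidef) (i j : J) (hij : i ≠ j)
    (hi : B i i = 1) (hj : B j j = 1) (hlieb : (VV B {i} {i}).re ≤ B.permanent.re) :
    ∃ T : ℝ, ((Vm B)ᵀ * (B * (Vm B)ᵀ * B)).trace = (T : ℂ) ∧
      ((Fintype.card J : ℝ) + ‖B i j‖ ^ 4) * B.permanent.re ^ 2 ≤ T := by
  obtain ⟨hpr, hp⟩ := perm_real B hB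
  set p := B.permanent.re with hpdef
  obtain ⟨L, hL⟩ := exists_gm B hB
  set Lm : Matrix J J ℂ := Matrix.of L with hLm
  have hBL : B = Lm * Lmᴴ := by
    rw [← hL]
    ext s t
    simp [gm, Lm, Matrix.mul_apply]
  set V := Vm B with hV
  have hVpsd := Vm_psd B hB
  rw [← hV] at hVpsd
  set K := Lmᴴ * Vᵀ * Lm with hK
  have hVT : Vᵀ.IsHermitian := hVpsd.isHermitian.transpose
  have hKh : K.IsHermitian := by
    unfold Matrix.IsHermitian
    rw [hK, Matrix.conjTranspose_mul, Matrix.conjTranspose_mul, Matrix.conjTranspose_conjTranspose,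
      hVT.eq, Matrix.mul_assoc]
  have hTr : (Vᵀ * (B * Vᵀ * B)).trace = (K * K).trace := by
    have e1 : Vᵀ * (B * Vᵀ * B) = (Vᵀ * Lm * Lmᴴ * Vᵀ * Lm) * Lmᴴ := by
      rw [hBL]
      simp only [Matrix.mul_assoc]
    rw [e1, Matrix.trace_mul_comm]
    congr 1
    rw [hK]
    simp only [Matrix.mul_assoc]
  have htrK : K.trace = ((Fintype.card J : ℝ) * p : ℝ) := by
    rw [hK, Matrix.trace_mul_comm, ← Matrix.mul_assoc, ← hBL, Matrix.trace_mul_comm]
    unfold Matrix.trace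
    simp only [Matrix.diag_apply, Matrix.mul_apply, Matrix.transpose_apply]
    rw [Finset.sum_comm]
    have h1 : ∀ a, ∑ b, V a b * B a b = (p : ℂ) := by
      intro a
      rw [← hpr]
      exact row_sum1 B a
    simp_rw [h1]
    rw [Finset.sum_const, Finset.card_univ, nsmul_eq_mul]
    push_cast
    rfl
  set H := K - (p : ℂ) • (1 : Matrix J J ℂ) with hH
  have hHh : H.IsHermitian := by
    refine hKh.sub ?_
    unfold Matrix.IsHermitian
    rw [Matrix.conjTranspose_smul, Matrix.conjTranspose_one]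
    simp
  have hHH : (H * H).trace = (K * K).trace - ((Fintype.card J : ℝ) * p ^ 2 : ℝ) := by
    have e1 : H * H = K * K - (2 * (p : ℂ)) • K + ((p : ℂ) ^ 2) • (1 : Matrix J J ℂ) := by
      rw [hH, Matrix.sub_mul, Matrix.mul_sub, Matrix.mul_sub]
      simp only [Matrix.smul_mul, Matrix.mul_smul, Matrix.one_mul, Matrix.mul_one, smul_sub,
        smul_smul]
      rw [two_mul, add_smul, sq]
      abel
    rw [e1, Matrix.trace_add, Matrix.trace_sub, Matrix.trace_smul, Matrix.trace_smul,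
      Matrix.trace_one, htrK]
    simp only [smul_eq_mul]
    push_cast
    ring
  obtain ⟨u, hu0, hu⟩ := exists_dual L i
  have hq : star u ⬝ᵥ (K *ᵥ u) = ((‖lf L u i‖ ^ 2 : ℝ) : ℂ) * V i i := by
    have e1 : star u ⬝ᵥ (K *ᵥ u) = star (Lm *ᵥ u) ⬝ᵥ (Vᵀ *ᵥ (Lm *ᵥ u)) := by
      rw [hK, ← Matrix.mulVec_mulVec, ← Matrix.mulVec_mulVec, Matrix.star_mulVec,
        ← Matrix.dotProduct_mulVec]
    rw [e1]
    have e2 : Lm *ᵥ u = fun a => if a = i then lf L u i else 0 := by
      funext a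
      have e3 : (Lm *ᵥ u) a = lf L u a := rfl
      rw [e3]
      split_ifs with h
      · rw [h]
      · exact hu a h
    rw [e2]
    have e4 : ∀ a, (Vᵀ *ᵥ (fun a => if a = i then lf L u i else 0)) a = V i a * lf L u i := by
      intro a
      simp [Matrix.mulVec, dotProduct]
    have e5 : star (fun a => if a = i then lf L u i else 0) ⬝ᵥ
        (Vᵀ *ᵥ (fun a => if a = i then lf L u i else 0)) =
        ∑ a, star (if a = i then lf L u i else 0) * (V i a * lf L u i) := by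
      refine Finset.sum_congr rfl (fun a _ => ?_)
      rw [e4]
      rfl
    rw [e5, Finset.sum_eq_single i]
    · simp only [if_true, RCLike.star_def]
      rw [← Complex.normSq_eq_norm_sq, Complex.normSq_eq_conj_mul_self]
      ring
    · intro b _ hb
      simp [hb]
    · intro h
      exact absurd (Finset.mem_univ i) h
  have hVii : V i i = (((V i i).re : ℝ) : ℂ) ∧ 0 ≤ (V i i).re := by
    have h := Complex.le_def.1 (hVpsd.diag_nonneg (i := i))
    refine ⟨Complex.ext (by simp) (by simpa using h.2.symm), h.1⟩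
  have hlieb' : (V i i).re ≤ p := hlieb
  have hself : star u ⬝ᵥ u = ((ns u : ℝ) : ℂ) := by
    unfold dotProduct ns
    push_cast
    refine Finset.sum_congr rfl (fun a _ => ?_)
    rw [Pi.star_apply, RCLike.star_def, ← Complex.normSq_eq_conj_mul_self,
      Complex.normSq_eq_norm_sq]
    push_cast
    rfl
  have hqH : star u ⬝ᵥ (H *ᵥ u) = ((‖lf L u i‖ ^ 2 * (V i i).re - p * ns u : ℝ) : ℂ) := by
    rw [hH, Matrix.sub_mulVec, dotProduct_sub, hq, Matrix.smul_mulVec, Matrix.one_mulVec,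
      dotProduct_smul, hself]
    conv_lhs => rw [hVii.1]
    push_cast
    simp only [smul_eq_mul]
  have hdual := dual_norm L i j (by rw [hL]; exact hi) (by rw [hL]; exact hj) u (hu j hij.symm)
  rw [hL] at hdual
  set x := ‖B i j‖ with hx
  have h1 : x ^ 2 * p * ns u ≤ p * ns u - ‖lf L u i‖ ^ 2 * (V i i).re := by
    have h2 : ‖lf L u i‖ ^ 2 * (V i i).re ≤ ((1 - x ^ 2) * ns u) * p :=
      mul_le_mul hdual hlieb' hVii.2 (le_trans (by positivity) hdual)
    linarith
  have h2 := quad_cs H u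
  rw [hqH, Complex.norm_real, Real.norm_eq_abs, sq_abs] at h2
  have h3 : (x ^ 2 * p * ns u) ^ 2 ≤ (p * ns u - ‖lf L u i‖ ^ 2 * (V i i).re) ^ 2 :=
    pow_le_pow_left₀ (by positivity) h1 2
  have h4 : (x ^ 4 * p ^ 2) * ns u ^ 2 ≤ (∑ a, ∑ b, ‖H a b‖ ^ 2) * ns u ^ 2 := by
    calc _ = (x ^ 2 * p * ns u) ^ 2 := by ring
      _ ≤ _ := h3
      _ = (‖lf L u i‖ ^ 2 * (V i i).re - p * ns u) ^ 2 := by ring
      _ ≤ _ := h2
  have h5 : x ^ 4 * p ^ 2 ≤ ∑ a, ∑ b, ‖H a b‖ ^ 2 :=
    le_of_mul_le_mul_right h4 (by positivity)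
  refine ⟨∑ a, ∑ b, ‖K a b‖ ^ 2, ?_, ?_⟩
  · rw [hTr, trace_herm K hKh]
  · rw [trace_herm H hHh, trace_herm K hKh] at hHH
    have h6 : ∑ a, ∑ b, ‖H a b‖ ^ 2 = ∑ a, ∑ b, ‖K a b‖ ^ 2 - (Fintype.card J : ℝ) * p ^ 2 := by
      exact_mod_cast hHH
    rw [h6] at h5
    linarith

end Pool.Agent.helper97.PER
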