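import Pool.Agent.helper97.PER.Y7

set_option linter.all false
set_option autoImplicit false

/-!
# The inequality of Pate for two copies, with a gap (MP_2dd521_co)
-/

namespace Pool.Agent.helper97.PER

open Finset Function
open scoped Real Topology Matrix ComplexConjugate ComplexOrder
open Pool.Agent.helper80.LSZ (kron1)
open Pool.Agent.helper16.LSZ (VV GG HH perm_real permanent_eq fib sum_FF GG_eq_zero HH_eq_zero
  star_expand star_T permanent_submatrix_equiv)

variable {J : Type*} [Fintype J] [DecidableEq J]

/-- the labellings of a pattern -/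
abbrev F2 (J : Type*) [Fintype J] (c : Option Unit → ℕ) := Pool.Agent.helper16.LSZ.FF Unit J c

/-- the two by two matrix of ones -/
def A2 : Matrix (Option Unit) (Option Unit) ℂ := fun _ _ => 1

theorem two_expand (B : Matrix J J ℂ) : (Matrix.kronecker A2 B).permanent =
    ∑ s : J → Option Unit, ∑ r : J → Option Unit, (GG B (fib s none) (fib r none) *
      ∏ k, HH B (fib s (some k)) (fib r (some k))) := by
  classical
  rw [permanent_eq]
  have h1 := star_expand A2 (fun k l h => absurd (Subsingleton.elim k l) h) B
  refine Eq.trans rfl (h1.trans ?_)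
  refine Finset.sum_congr rfl fun s _ => Finset.sum_congr rfl fun r _ => ?_
  simp [A2]

theorem kron1_two (B : Matrix J J ℂ) :
    (Matrix.kronecker A2 B).permanent = (kron1 2 B).permanent := by
  have e : Fin 2 ≃ Option Unit := (Fintype.equivFinOfCardEq (by simp)).symm
  rw [← permanent_submatrix_equiv (Matrix.kronecker A2 B) (Equiv.prodCongr e (Equiv.refl J))]
  congr 1

theorem two_gap (B : Matrix J J ℂ) (hB : B.PosSemidef) (i j : J) (hij : i ≠ j)
    (hi : B i i = 1) (hj : B j j = 1) (hlieb : (VV B {i} {i}).re ≤ B.permanent.re) :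
    ((2 : ℝ) ^ Fintype.card J + ‖B i j‖ ^ 4) * B.permanent.re ^ 2 ≤
      (kron1 2 B).permanent.re := by
  classical
  set p := B.permanent.re with hp
  let cs : (J → Option Unit) → (Option Unit → ℕ) := fun s o => (fib s o).card
  let τ : (J → Option Unit) → (J → Option Unit) → ℂ := fun s r =>
    GG B (fib s none) (fib r none) * ∏ k, HH B (fib s (some k)) (fib r (some k))
  have hτ : ∀ c : Option Unit → ℕ, ∀ s : J → Option Unit, cs s = c →
      ∑ r : J → Option Unit, τ s r = ∑ r : F2 J c, τ s r.1 := by
    intro c s hs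
    rw [sum_FF c (fun r => τ s r)]
    refine Finset.sum_congr rfl fun r _ => ?_
    split_ifs with h
    · rfl
    · push Not at h
      obtain ⟨o, ho⟩ := h
      have ho' : (fib s o).card ≠ (fib r o).card := by
        have : (fib s o).card = c o := congrFun hs o
        rw [this]; exact Ne.symm ho
      simp only [τ]
      rcases o with _ | k
      · rw [GG_eq_zero _ _ _ ho', zero_mul]
      · rw [Finset.prod_eq_zero (mem_univ k) (HH_eq_zero _ _ _ ho'), mul_zero]
  have hT := fun c : Option Unit → ℕ => star_T (K := Unit) B hB c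
  choose T hT1 hT2 using hT
  have hgroup : (kron1 2 B).permanent = ((∑ c ∈ univ.image cs, T c : ℝ) : ℂ) := by
    rw [← kron1_two, two_expand]
    have h0 : ∑ s : J → Option Unit, ∑ r : J → Option Unit, (GG B (fib s none) (fib r none) *
        ∏ k, HH B (fib s (some k)) (fib r (some k))) =
        ∑ s : J → Option Unit, ∑ r : J → Option Unit, τ s r := rfl
    rw [h0, ← Finset.sum_fiberwise_of_maps_to (s := univ) (t := univ.image cs) (g := cs)
      (fun s _ => Finset.mem_image_of_mem _ (mem_univ s))]
    push_cast
    refine Finset.sum_congr rfl fun c _ => ?_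
    rw [← hT1 c]
    have h1 : ∀ s ∈ univ.filter (fun s => cs s = c),
        ∑ r : J → Option Unit, τ s r = ∑ r : F2 J c, τ s r.1 := by
      intro s hs
      have hs' : cs s = c := by simpa using hs
      rw [hτ c s hs']
    rw [Finset.sum_congr rfl h1]
    have h2 : (univ.filter (fun s => cs s = c)) = univ.filter (fun s => ∀ o, (fib s o).card = c o) := by
      ext s
      simp only [mem_filter, mem_univ, true_and, cs]
      exact funext_iff
    rw [h2, Finset.sum_subtype (p := fun s : J → Option Unit => ∀ o, (fib s o).card = c o)]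
    intro x; simp
  have hcard : ∑ c ∈ univ.image cs, (Fintype.card (F2 J c) : ℝ) =
      (2 : ℝ) ^ Fintype.card J := by
    have h1 : ∀ c, Fintype.card (F2 J c) = (univ.filter (fun s => cs s = c)).card := by
      intro c
      rw [Fintype.card_subtype]
      congr 1
      ext s
      simp only [mem_filter, mem_univ, true_and, cs]
      exact funext_iff.symm
    have h2 : Fintype.card (J → Option Unit) = ∑ c ∈ univ.image cs,
        (univ.filter (fun s => cs s = c)).card := by
      rw [← Finset.card_univ]
      exact Finset.card_eq_sum_card_fiberwise (fun s _ => Finset.mem_coe.mpr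
        (Finset.mem_image_of_mem _ (mem_univ s)))
    simp_rw [h1]
    have h3 : Fintype.card (J → Option Unit) = 2 ^ Fintype.card J := by
      simp
    rw [h3] at h2
    exact_mod_cast h2.symm
  have hmem : c1 J ∈ univ.image cs := by
    rw [Finset.mem_image]
    refine ⟨eL i, mem_univ _, ?_⟩
    funext o
    exact eL_mem i o
  have hc1 : (Fintype.card (F2 J (c1 J)) : ℝ) = Fintype.card J := by
    have := Fintype.card_of_bijective (eL_bij (J := J))
    exact_mod_cast this.symm
  have hT3 : ∀ c, (Fintype.card (F2 J c) : ℝ) * p ^ 2 ≤ T c := by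
    intro c
    have := hT2 c
    simpa using this
  obtain ⟨T', hT', hT''⟩ := gap_one B hB i j hij hi hj hlieb
  have hTc1 : T (c1 J) = T' := by
    have h1 := hT1 (c1 J)
    have h2 := T_one B
    have h3 : ((T (c1 J) : ℝ) : ℂ) = (T' : ℂ) := by
      rw [← h1, ← hT', ← h2]
    exact_mod_cast h3
  have hsum : (2 : ℝ) ^ Fintype.card J * p ^ 2 + ‖B i j‖ ^ 4 * p ^ 2 ≤
      ∑ c ∈ univ.image cs, T c := by
    have h1 : T (c1 J) - (Fintype.card (F2 J (c1 J)) : ℝ) * p ^ 2 ≤
        ∑ c ∈ univ.image cs, (T c - (Fintype.card (F2 J c) : ℝ) * p ^ 2) :=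
      Finset.single_le_sum (f := fun c => T c - (Fintype.card (F2 J c) : ℝ) * p ^ 2)
        (fun c _ => by have := hT3 c; linarith) hmem
    rw [Finset.sum_sub_distrib, ← Finset.sum_mul, hcard, hc1, hTc1] at h1
    linarith
  rw [hgroup, Complex.ofReal_re]
  calc _ = (2 : ℝ) ^ Fintype.card J * p ^ 2 + ‖B i j‖ ^ 4 * p ^ 2 := by ring
    _ ≤ _ := hsum

end Pool.Agent.helper97.PER
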