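import Pool.Agent.helper97.PER.Y8

set_option linter.all false
set_option autoImplicit false

/-!
# The inequality of Pate for many copies (MP_2dd521_co)
-/

namespace Pool.Agent.helper97.PER

open Finset Function
open scoped Real Topology Matrix ComplexConjugate ComplexOrder
open Pool.Agent.helper80.LSZ (kron1)

section

variable {ι κ : Type*} [Fintype ι] [DecidableEq ι] [Fintype κ] [DecidableEq κ]

theorem lower_copies (L : ι → κ → ℂ) (k : ℕ) (z : κ → ℂ) :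
    ((k * Fintype.card ι).factorial : ℝ) * (∏ i, ‖lf L z i‖ ^ 2) ^ k ≤
      (kron1 k (gm L)).permanent.re * (ns z ^ Fintype.card ι) ^ k := by
  have e0 : kron1 k (gm L) = gm (fun s : Fin k × ι => L s.2) := by
    ext s t
    simp [kron1, gm, Matrix.kronecker, Matrix.kroneckerMap_apply]
  have h := lower (fun s : Fin k × ι => L s.2) z
  rw [← e0] at h
  have hcard : Fintype.card (Fin k × ι) = k * Fintype.card ι := by simp
  rw [hcard] at h
  have h3 : ∏ s : Fin k × ι, ‖lf (fun s : Fin k × ι => L s.2) z s‖ ^ 2 =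
      (∏ i, ‖lf L z i‖ ^ 2) ^ k := by
    rw [Fintype.prod_prod_type]
    have : ∀ a : Fin k, ∏ i, ‖lf (fun s : Fin k × ι => L s.2) z (a, i)‖ ^ 2 =
        ∏ i, ‖lf L z i‖ ^ 2 := fun a => rfl
    simp_rw [this]
    simp
  rw [h3] at h
  refine h.trans (le_of_eq ?_)
  rw [← pow_mul, mul_comm k]

/-- the growth of the blow-ups against two copies -/
theorem growth_two (M : Matrix ι ι ℂ) (hM : M.PosSemidef) (k : ℕ) (hk : 0 < k) :
    ((k * Fintype.card ι).factorial : ℝ) ^ 2 * (kron1 2 M).permanent.re ^ k ≤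
      ((2 : ℝ) ^ Fintype.card ι) ^ k *
        ((((Fintype.card ι : ℝ) ^ Fintype.card ι) ^ k) * (kron1 k M).permanent.re) ^ 2 := by
  obtain ⟨L, rfl⟩ := exists_gm M hM
  have h := root_form L ((k * Fintype.card ι).factorial : ℝ) (kron1 k (gm L)).permanent.re
    (Nat.cast_nonneg _) (perm_re_nonneg _ (kron1_psd k _ (gm_psd L))) k 2 hk
    (fun z => lower_copies L k z)
  rw [perm_norm _ (kron1_psd 2 _ (gm_psd L))] at h
  simpa using h

/-- far from the identity -/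
theorem regime1 (M : Matrix ι ι ℂ) (hM : M.PosSemidef) (δ : ℝ) (hδ : 0 ≤ δ)
    (hgap : (2 : ℝ) ^ Fintype.card ι * (1 + δ) * M.permanent.re ^ 2 ≤ (kron1 2 M).permanent.re)
    (hm : 0 < Fintype.card ι) (k : ℕ) (hk : 0 < k)
    (hL : ((Real.exp 1 * √k) ^ Fintype.card ι) ^ 2 ≤ (1 + δ) ^ k) :
    (k.factorial : ℝ) ^ Fintype.card ι * M.permanent.re ^ k ≤ (kron1 k M).permanent.re := by
  set m := Fintype.card ι with hmdef
  set p := M.permanent.re with hp
  have hp0 : 0 ≤ p := perm_re_nonneg M hM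
  set P := (kron1 k M).permanent.re with hP
  have hP0 : 0 ≤ P := perm_re_nonneg _ (kron1_psd k M hM)
  have h := growth_two M hM k hk
  rw [← hmdef, ← hP] at h
  have hm0 : (0 : ℝ) < m := by exact_mod_cast hm
  have h1 : ((2 : ℝ) ^ m) ^ k * (((k * m).factorial : ℝ) ^ 2 * ((1 + δ) ^ k * (p ^ k) ^ 2)) ≤
      ((2 : ℝ) ^ m) ^ k * ((((m : ℝ) ^ m) ^ k) * P) ^ 2 := by
    have h2 := pow_le_pow_left₀ (by positivity) hgap k
    calc _ = ((k * m).factorial : ℝ) ^ 2 * ((2 : ℝ) ^ m * (1 + δ) * p ^ 2) ^ k := by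
          rw [mul_pow, mul_pow, ← pow_mul p 2 k, ← pow_mul p k 2, mul_comm 2 k]; ring
      _ ≤ ((k * m).factorial : ℝ) ^ 2 * (kron1 2 M).permanent.re ^ k :=
          mul_le_mul_of_nonneg_left h2 (by positivity)
      _ ≤ _ := h
  have h2 : ((k * m).factorial : ℝ) ^ 2 * ((1 + δ) ^ k * (p ^ k) ^ 2) ≤
      ((((m : ℝ) ^ m) ^ k) * P) ^ 2 := le_of_mul_le_mul_left h1 (by positivity)
  set Λ := (Real.exp 1 * √k) ^ m with hΛ
  have h3 := fac_bound m k hk
  have h4 : ((((m : ℝ) ^ m) ^ k) * ((k.factorial : ℝ) ^ m * p ^ k)) ^ 2 ≤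
      ((((m : ℝ) ^ m) ^ k) * P) ^ 2 := by
    calc _ = ((k.factorial : ℝ) ^ m * ((m : ℝ) ^ m) ^ k) ^ 2 * (p ^ k) ^ 2 := by ring
      _ ≤ (((k * m).factorial : ℝ) * Λ) ^ 2 * (p ^ k) ^ 2 :=
          mul_le_mul_of_nonneg_right (pow_le_pow_left₀ (by positivity) h3 2) (by positivity)
      _ = ((k * m).factorial : ℝ) ^ 2 * (Λ ^ 2 * (p ^ k) ^ 2) := by ring
      _ ≤ ((k * m).factorial : ℝ) ^ 2 * ((1 + δ) ^ k * (p ^ k) ^ 2) := by
          refine mul_le_mul_of_nonneg_left ?_ (by positivity)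
          exact mul_le_mul_of_nonneg_right hL (by positivity)
      _ ≤ _ := h2
  have h5 : (((m : ℝ) ^ m) ^ k) * ((k.factorial : ℝ) ^ m * p ^ k) ≤ (((m : ℝ) ^ m) ^ k) * P :=
    le_of_pow_le_pow_left₀ (by norm_num) (by positivity) h4
  exact le_of_mul_le_mul_left h5 (by positivity)

end

/-- numerics for the first regime -/
theorem num1 (m k : ℕ) (hm : 0 < m) (hk : (2 ^ (m + 17) * m ^ 21) ^ 2 ≤ k) (δ : ℝ)
    (hδ : 1 / ((2 : ℝ) ^ m * (12 ^ 4 * m ^ 20)) ≤ δ) :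
    ((Real.exp 1 * √k) ^ m) ^ 2 ≤ (1 + δ) ^ k := by
  have hm1 : (1 : ℝ) ≤ m := by exact_mod_cast hm
  have hm0 : (0 : ℝ) < m := by linarith
  set R := √(k : ℝ) with hR
  have hRk : R ^ 2 = k := Real.sq_sqrt (Nat.cast_nonneg k)
  have hR1 : (2 : ℝ) ^ (m + 17) * m ^ 21 ≤ R := by
    refine Real.le_sqrt_of_sq_le ?_
    exact_mod_cast hk
  have hR0 : 0 < R := lt_of_lt_of_le (by positivity) hR1
  have hδ0 : 0 ≤ δ := le_trans (by positivity) hδ
  have h1 : 2 * m * Real.exp 1 ≤ R * δ := by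
    have h2 : (2 : ℝ) ^ (m + 17) * m ^ 21 * (1 / ((2 : ℝ) ^ m * (12 ^ 4 * m ^ 20))) ≤ R * δ :=
      mul_le_mul hR1 hδ (by positivity) hR0.le
    refine le_trans ?_ h2
    have h3 : (2 : ℝ) ^ (m + 17) * m ^ 21 * (1 / ((2 : ℝ) ^ m * (12 ^ 4 * m ^ 20))) =
        (2 ^ 17 / 12 ^ 4) * m := by
      rw [pow_add]
      field_simp
    rw [h3]
    have h4 := Real.exp_one_lt_d9
    have h5 : 2 * Real.exp 1 ≤ 2 ^ 17 / 12 ^ 4 := by
      norm_num
      linarith
    calc 2 * m * Real.exp 1 = (2 * Real.exp 1) * m := by ring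
      _ ≤ _ := mul_le_mul_of_nonneg_right h5 hm0.le
  have hk0 : (0 : ℝ) < k := by rw [← hRk]; positivity
  have h2 : Real.exp 1 * R ≤ (1 + δ) ^ ((k : ℝ) / (2 * m)) := by
    have h3 : 1 ≤ (k : ℝ) / (2 * m) := by
      rw [le_div_iff₀ (by positivity), ← hRk]
      have h4 : (2 : ℝ) * m ≤ R := by
        refine le_trans ?_ hR1
        have h5 : (m : ℝ) ≤ (m : ℝ) ^ 21 := by
          calc (m : ℝ) = m ^ 1 := (pow_one _).symm
            _ ≤ m ^ 21 := pow_le_pow_right₀ hm1 (by norm_num)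
        have h6 : (2 : ℝ) ≤ 2 ^ (m + 17) := by
          calc (2 : ℝ) = 2 ^ 1 := (pow_one _).symm
            _ ≤ 2 ^ (m + 17) := pow_le_pow_right₀ (by norm_num) (by omega)
        exact mul_le_mul h6 h5 hm0.le (by positivity)
      have h5 : (1 : ℝ) ≤ R := by linarith
      nlinarith
    refine le_trans ?_ (one_add_mul_self_le_rpow_one_add (by linarith) h3)
    have h4 : Real.exp 1 * R ≤ (k : ℝ) / (2 * m) * δ := by
      rw [div_mul_eq_mul_div, le_div_iff₀ (by positivity), ← hRk]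
      calc Real.exp 1 * R * (2 * m) = (2 * m * Real.exp 1) * R := by ring
        _ ≤ (R * δ) * R := mul_le_mul_of_nonneg_right h1 hR0.le
        _ = _ := by ring
    linarith
  have h3 := pow_le_pow_left₀ (by positivity) h2 (2 * m)
  have h4 : ((1 + δ) ^ ((k : ℝ) / (2 * m))) ^ (2 * m) = (1 + δ) ^ k := by
    rw [← Real.rpow_natCast, ← Real.rpow_mul (by positivity), ← Real.rpow_natCast]
    congr 1
    push_cast
    field_simp
  rw [h4] at h3
  refine le_trans (le_of_eq ?_) h3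
  rw [← pow_mul]
  congr 1
  ring

/-- numerics for the second regime -/
theorem num2 (m k : ℕ) (hm : 0 < m) (hk : (2 ^ (m + 17) * m ^ 21) ^ 2 ≤ k) (x : ℝ) (hx : 0 ≤ x)
    (hx2 : 1 / 8 < k * ((m : ℝ) ^ 3 * x ^ 2)) :
    (Real.exp 1 * √k) ^ m ≤ Real.exp (k * (2 / 3 * (x / (m : ℝ) ^ 2))) := by
  have hm1 : (1 : ℝ) ≤ m := by exact_mod_cast hm
  have hm0 : (0 : ℝ) < m := by linarith
  set R := √(k : ℝ) with hR
  have hRk : R ^ 2 = k := Real.sq_sqrt (Nat.cast_nonneg k)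
  have hR1 : (2 : ℝ) ^ (m + 17) * m ^ 21 ≤ R := by
    refine Real.le_sqrt_of_sq_le ?_
    exact_mod_cast hk
  have hR0 : 0 < R := lt_of_lt_of_le (by positivity) hR1
  have hR2 : 72 * (m : ℝ) ^ 9 ≤ R := by
    refine le_trans ?_ hR1
    have h5 : (m : ℝ) ^ 9 ≤ (m : ℝ) ^ 21 := pow_le_pow_right₀ hm1 (by norm_num)
    have h6 : (72 : ℝ) ≤ 2 ^ (m + 17) := by
      calc (72 : ℝ) ≤ 2 ^ 17 := by norm_num
        _ ≤ 2 ^ (m + 17) := pow_le_pow_right₀ (by norm_num) (by omega)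
    exact mul_le_mul h6 h5 (by positivity) (by positivity)
  set r := √R with hr
  have hr2 : r ^ 2 = R := Real.sq_sqrt hR0.le
  have hr0 : 0 ≤ r := Real.sqrt_nonneg _
  have h1 : Real.exp 1 * R ≤ Real.exp (2 * r) := by
    have h2 : r ≤ Real.exp (r - 1) := by
      have := Real.add_one_le_exp (r - 1)
      linarith
    have h3 : R ≤ Real.exp (2 * (r - 1)) := by
      rw [← hr2]
      refine (pow_le_pow_left₀ hr0 h2 2).trans (le_of_eq ?_)
      rw [← Real.exp_nat_mul]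
      push_cast
      rfl
    calc Real.exp 1 * R ≤ Real.exp 1 * Real.exp (2 * (r - 1)) :=
          mul_le_mul_of_nonneg_left h3 (Real.exp_pos _).le
      _ = Real.exp (2 * r - 1) := by rw [← Real.exp_add]; congr 1; ring
      _ ≤ _ := Real.exp_le_exp.2 (by linarith)
  refine (pow_le_pow_left₀ (by positivity) h1 m).trans ?_
  rw [← Real.exp_nat_mul]
  refine Real.exp_le_exp.2 ?_
  have h2 : 3 * r * (m : ℝ) ^ 3 ≤ k * x := by
    refine le_of_pow_le_pow_left₀ (n := 2) (by norm_num) (by positivity) ?_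
    have h3 : (3 * r * (m : ℝ) ^ 3) ^ 2 = 9 * R * (m : ℝ) ^ 6 := by
      rw [mul_pow, mul_pow, hr2]; ring
    rw [h3, ← hRk]
    -- `k x² m³ > 1/8`
    have h4 : R ^ 2 / 8 ≤ (R ^ 2 * x) ^ 2 * (m : ℝ) ^ 3 := by
      have h5 : 1 / 8 ≤ R ^ 2 * ((m : ℝ) ^ 3 * x ^ 2) := by
        rw [hRk]; exact hx2.le
      have h6 := mul_le_mul_of_nonneg_left h5 (by positivity : (0 : ℝ) ≤ R ^ 2)
      calc R ^ 2 / 8 = R ^ 2 * (1 / 8) := by ring
        _ ≤ _ := h6
        _ = _ := by ring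
    have h7 : 9 * R * (m : ℝ) ^ 6 * (m : ℝ) ^ 3 ≤ R ^ 2 / 8 := by
      have h8 := mul_le_mul_of_nonneg_left hR2 hR0.le
      nlinarith
    have h9 : 9 * R * (m : ℝ) ^ 6 * (m : ℝ) ^ 3 ≤ (R ^ 2 * x) ^ 2 * (m : ℝ) ^ 3 := h7.trans h4
    exact le_of_mul_le_mul_right h9 (by positivity)
  have h3 : (k : ℝ) * (2 / 3 * (x / (m : ℝ) ^ 2)) = (2 / 3) * (k * x) / (m : ℝ) ^ 2 := by
    field_simp
  rw [h3, le_div_iff₀ (by positivity)]
  nlinarith

end Pool.Agent.helper97.PER
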