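import Pool.Agent.helper97.PER.D2

set_option linter.all false
set_option autoImplicit false

/-!
# The determinant of a positive matrix and of its real part: a gap (MP_2dd521_co)
-/

namespace Pool.Agent.helper97.PER

open Finset Function
open scoped Real Topology Matrix ComplexConjugate ComplexOrder

variable {ι : Type*} [Fintype ι] [DecidableEq ι]

/-- a positive contraction is at least its determinant -/
theorem sub_det_psd (P : Matrix ι ι ℂ) (hP : P.PosSemidef) (hQ : (1 - P).PosSemidef) :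
    (P - P.det • (1 : Matrix ι ι ℂ)).PosSemidef := by
  have h := hP.1.spectral_theorem
  rw [Unitary.conjStarAlgAut_apply] at h
  set U : Matrix ι ι ℂ := (hP.1.eigenvectorUnitary : Matrix ι ι ℂ) with hU
  have hUU : U * star U = 1 := Unitary.mul_star_self_of_mem hP.1.eigenvectorUnitary.2
  have hUU' : star U * U = 1 := Unitary.star_mul_self_of_mem hP.1.eigenvectorUnitary.2
  set p := hP.1.eigenvalues with hp
  set D : Matrix ι ι ℂ := Matrix.diagonal (RCLike.ofReal ∘ p) with hD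
  have hp0 : ∀ a, 0 ≤ p a := fun a => hP.eigenvalues_nonneg a
  have h1 : Uᴴ * (1 - P) * U = 1 - D := by
    have e1 : Uᴴ = star U := rfl
    rw [e1, Matrix.mul_sub, Matrix.sub_mul, Matrix.mul_one, hUU', h]
    congr 1
    calc star U * (U * D * star U) * U = (star U * U) * D * (star U * U) := by noncomm_ring
      _ = D := by rw [hUU', Matrix.one_mul, Matrix.mul_one]
  have h2 : (1 - D).PosSemidef := by
    rw [← h1]
    exact hQ.conjTranspose_mul_mul_same U
  have hp1 : ∀ a, p a ≤ 1 := by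
    intro a
    have h3 := h2.diag_nonneg (i := a)
    rw [hD, Matrix.sub_apply, Matrix.one_apply_eq, Matrix.diagonal_apply_eq] at h3
    have h4 := (Complex.le_def.1 h3).1
    simp at h4
    exact h4
  have hdet : P.det = ((∏ a, p a : ℝ) : ℂ) := by
    rw [hP.1.det_eq_prod_eigenvalues]
    push_cast
    rfl
  set d : ℝ := ∏ a, p a with hd
  have hdp : ∀ a, d ≤ p a := by
    intro a
    rw [hd, ← Finset.mul_prod_erase _ _ (Finset.mem_univ a)]
    exact mul_le_of_le_one_right (hp0 a) (Finset.prod_le_one (fun b _ => hp0 b) (fun b _ => hp1 b))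
  have h3 : P - P.det • (1 : Matrix ι ι ℂ) =
      U * Matrix.diagonal (fun a => (((p a - d : ℝ)) : ℂ)) * Uᴴ := by
    have e1 : Matrix.diagonal (fun a => (((p a - d : ℝ)) : ℂ)) = D - (d : ℂ) • (1 : Matrix ι ι ℂ) := by
      rw [hD]
      ext a b
      by_cases hab : a = b
      · subst hab
        simp
      · simp [hab]
    rw [e1, hdet, Matrix.mul_sub, Matrix.sub_mul, Matrix.mul_smul, Matrix.smul_mul, Matrix.mul_one]
    have e2 : Uᴴ = star U := rfl
    rw [e2, hUU]
    conv_lhs => rw [h]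
  rw [h3]
  refine Matrix.PosSemidef.mul_mul_conjTranspose_same (Matrix.PosSemidef.diagonal ?_) U
  intro a
  have := hdp a
  show (0 : ℂ) ≤ ((p a - d : ℝ) : ℂ)
  exact_mod_cast sub_nonneg.2 this

theorem one_sub_sq_psd (Y : Matrix ι ι ℂ) (h1 : (1 + Y).PosSemidef) (h2 : (1 - Y).PosSemidef) :
    (1 - Y * Y).PosSemidef := by
  have e1 := h2.conjTranspose_mul_mul_same (1 + Y)
  have e2 := h1.conjTranspose_mul_mul_same (1 - Y)
  rw [h1.1.eq] at e1
  rw [h2.1.eq] at e2
  have e3 := (e1.add e2).smul (show (0 : ℝ) ≤ 1 / 2 by norm_num)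
  have e4 : (1 / 2 : ℝ) • ((1 + Y) * (1 - Y) * (1 + Y) + (1 - Y) * (1 + Y) * (1 - Y)) = 1 - Y * Y := by
    have e5 : (1 + Y) * (1 - Y) * (1 + Y) + (1 - Y) * (1 + Y) * (1 - Y) = (2 : ℝ) • (1 - Y * Y) := by
      rw [two_smul]
      noncomm_ring
    rw [e5, smul_smul]
    norm_num
  rwa [e4] at e3

/-- the gap between the determinant and the determinant of the real part -/
theorem det_gap (V : Matrix ι ι ℂ) (hV : V.PosDef) (i j : ι) :
    V.det.re ^ 2 ≤ (V.map (fun z => ((z.re : ℝ) : ℂ))).det.re ^ 2 *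
      (1 - (V i j).im ^ 2 / ((V i i).re * (V j j).re)) := by
  set S : Matrix ι ι ℂ := V.map (fun z => ((z.re : ℝ) : ℂ)) with hS
  set K : Matrix ι ι ℂ := V - S with hK
  have hVt : (Vᵀ).PosDef := hV.transpose
  have hherm : ∀ a b, V b a = conj (V a b) := fun a b => (hV.1.apply b a).symm
  have hVtS : Vᵀ = S - K := by
    rw [hK, hS]
    ext a b
    simp only [Matrix.transpose_apply, Matrix.sub_apply, Matrix.map_apply]
    rw [hherm a b]
    apply Complex.ext <;> simp <;> ring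
  have hVS : V = S + K := by rw [hK]; abel
  have hSpd : S.PosDef := by
    have h1 : ((1 / 2 : ℝ) • (V + Vᵀ)).PosDef := (hV.add hVt).smul (by norm_num)
    have h2 : (1 / 2 : ℝ) • (V + Vᵀ) = S := by
      rw [hVtS]
      nth_rewrite 1 [hVS]
      have : S + K + (S - K) = (2 : ℝ) • S := by rw [two_smul]; abel
      rw [this, smul_smul]
      norm_num
    rwa [h2] at h1
  obtain ⟨C, Ci, hC, hCi1, hCi2⟩ := exists_fac_inv hSpd
  have hCC : Cᴴ * Ciᴴ = 1 := by rw [← Matrix.conjTranspose_mul, hCi1, Matrix.conjTranspose_one]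
  have hCC' : Ciᴴ * Cᴴ = 1 := by rw [← Matrix.conjTranspose_mul, hCi2, Matrix.conjTranspose_one]
  set Y : Matrix ι ι ℂ := Ciᴴ * K * Ci with hY
  have hSC : Ciᴴ * S * Ci = 1 := by
    rw [hC]
    calc Ciᴴ * (Cᴴ * C) * Ci = (Ciᴴ * Cᴴ) * (C * Ci) := by noncomm_ring
      _ = 1 := by rw [hCC', hCi2, Matrix.one_mul]
  have hKY : K = Cᴴ * Y * C := by
    calc K = (Cᴴ * Ciᴴ) * K * (Ci * C) := by rw [hCC, hCi1, Matrix.one_mul, Matrix.mul_one]
      _ = _ := by rw [hY]; noncomm_ring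
  have h1 : (1 + Y) = Ciᴴ * V * Ci := by
    have e : Ciᴴ * V * Ci = Ciᴴ * S * Ci + Ciᴴ * K * Ci := by
      rw [← Matrix.add_mul, ← Matrix.mul_add, ← hVS]
    rw [e, hSC]
  have h2 : (1 - Y) = Ciᴴ * Vᵀ * Ci := by
    rw [hY, ← hSC, hVtS]
    noncomm_ring
  have h1p : (1 + Y).PosSemidef := by
    rw [h1]
    exact hV.posSemidef.conjTranspose_mul_mul_same Ci
  have h2p : (1 - Y).PosSemidef := by
    rw [h2]
    exact hVt.posSemidef.conjTranspose_mul_mul_same Ci
  have hYh : Y.IsHermitian := by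
    have h3 := h1p.1.sub (Matrix.isHermitian_one (n := ι) (α := ℂ))
    have e : (1 + Y) - 1 = Y := by abel
    rwa [e] at h3
  set P : Matrix ι ι ℂ := 1 - Y * Y with hP
  have hPp : P.PosSemidef := one_sub_sq_psd Y h1p h2p
  have hQp : (1 - P).PosSemidef := by
    have e : 1 - P = Yᴴ * Y := by rw [hP, hYh.eq]; abel
    rw [e]
    exact Matrix.posSemidef_conjTranspose_mul_self Y
  have hmain := sub_det_psd P hPp hQp
  -- the determinants
  have hdV : V.det = S.det * (1 + Y).det := by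
    have e : V = Cᴴ * (1 + Y) * C := by
      rw [hVS, hKY]
      nth_rewrite 1 [hC]
      noncomm_ring
    rw [e, Matrix.det_mul, Matrix.det_mul, mul_right_comm, ← Matrix.det_mul, ← hC]
  have hdV' : V.det = S.det * (1 - Y).det := by
    have e : Vᵀ = Cᴴ * (1 - Y) * C := by
      rw [hVtS, hKY]
      nth_rewrite 1 [hC]
      noncomm_ring
    rw [← Matrix.det_transpose, e, Matrix.det_mul, Matrix.det_mul, mul_right_comm,
      ← Matrix.det_mul, ← hC]
  have hdP : V.det ^ 2 = S.det ^ 2 * P.det := by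
    have e : P = (1 + Y) * (1 - Y) := by rw [hP]; noncomm_ring
    rw [e, Matrix.det_mul]
    calc V.det ^ 2 = V.det * V.det := sq _
      _ = (S.det * (1 + Y).det) * (S.det * (1 - Y).det) := by rw [← hdV, ← hdV']
      _ = _ := by ring
  -- reality
  have rl : ∀ z : ℂ, 0 ≤ z → z = ((z.re : ℝ) : ℂ) ∧ 0 ≤ z.re := by
    intro z hz
    have h := Complex.le_def.1 hz
    exact ⟨Complex.ext (by simp) (by simpa using h.2.symm), h.1⟩
  obtain ⟨rV, rV0⟩ := rl _ hV.det_pos.le
  obtain ⟨rS, rS0⟩ := rl _ hSpd.det_pos.le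
  obtain ⟨rP, rP0⟩ := rl _ hPp.det_nonneg
  have hreal : V.det.re ^ 2 = S.det.re ^ 2 * P.det.re := by
    rw [rV, rS, rP] at hdP
    exact_mod_cast hdP
  -- the vector
  set e : ι → ℂ := C *ᵥ (Pi.single j 1) with he
  set f : ι → ℂ := C *ᵥ (Pi.single i 1) with hf
  have quad : ∀ (A : Matrix ι ι ℂ) (a b : ι), star (C *ᵥ (Pi.single a (1 : ℂ))) ⬝ᵥ
      (A *ᵥ (C *ᵥ (Pi.single b (1 : ℂ)))) = (Cᴴ * A * C) a b := by
    intro A a b
    rw [Matrix.star_mulVec, ← Matrix.dotProduct_mulVec, Matrix.mulVec_mulVec, Matrix.mulVec_mulVec]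
    have e1 : star (Pi.single a (1 : ℂ) : ι → ℂ) = Pi.single a 1 := by
      ext b
      by_cases h : b = a
      · subst h; simp
      · simp [Pi.single_apply, h]
    rw [e1, Matrix.mulVec_single_one, single_one_dotProduct]
    simp only [Matrix.col_apply, Matrix.mul_assoc]
  have hnn : ∀ a : ι, star (C *ᵥ (Pi.single a (1 : ℂ))) ⬝ᵥ (C *ᵥ (Pi.single a (1 : ℂ))) =
      (((V a a).re : ℝ) : ℂ) := by
    intro a
    have h3 := quad 1 a a
    rw [Matrix.one_mulVec, Matrix.mul_one, ← hC] at h3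
    rw [h3]
    rfl
  have hq := hmain.dotProduct_mulVec_nonneg e
  have hYe : star e ⬝ᵥ (P *ᵥ e) = star e ⬝ᵥ e - star (Y *ᵥ e) ⬝ᵥ (Y *ᵥ e) := by
    have e2 : star (Y *ᵥ e) ⬝ᵥ (Y *ᵥ e) = star e ⬝ᵥ ((Y * Y) *ᵥ e) := by
      rw [Matrix.star_mulVec, hYh.eq, ← Matrix.dotProduct_mulVec, Matrix.mulVec_mulVec]
    rw [e2, hP, Matrix.sub_mulVec, dotProduct_sub, Matrix.one_mulVec]
  have hself : ∀ u : ι → ℂ, star u ⬝ᵥ u = (((∑ a, ‖u a‖ ^ 2) : ℝ) : ℂ) := by
    intro u
    unfold dotProduct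
    push_cast
    refine Finset.sum_congr rfl (fun a _ => ?_)
    rw [Pi.star_apply, RCLike.star_def, ← Complex.normSq_eq_conj_mul_self,
      Complex.normSq_eq_norm_sq]
    push_cast
    rfl
  set g : ι → ℂ := Y *ᵥ e with hg
  have hej : (∑ a, ‖e a‖ ^ 2) = (V j j).re := by
    have h3 := hself e
    rw [he, hnn j] at h3
    exact_mod_cast h3.symm
  have hfi : (∑ a, ‖f a‖ ^ 2) = (V i i).re := by
    have h3 := hself f
    rw [hf, hnn i] at h3
    exact_mod_cast h3.symm
  have hpos : ∀ a, 0 < (V a a).re := fun a => (Complex.lt_def.1 (hV.diag_pos (i := a))).1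
  have hineq : P.det.re * (V j j).re ≤ (V j j).re - ∑ a, ‖g a‖ ^ 2 := by
    rw [Matrix.sub_mulVec, dotProduct_sub, hYe, Matrix.smul_mulVec, Matrix.one_mulVec,
      dotProduct_smul, hself, hself, hej, smul_eq_mul, rP] at hq
    have h3 : (0 : ℂ) ≤ (((V j j).re - ∑ a, ‖g a‖ ^ 2 - P.det.re * (V j j).re : ℝ) : ℂ) := by
      refine hq.trans (le_of_eq ?_)
      push_cast
      simp
    have h4 : (0 : ℝ) ≤ (V j j).re - ∑ a, ‖g a‖ ^ 2 - P.det.re * (V j j).re := by exact_mod_cast h3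
    linarith
  have hfg : star f ⬝ᵥ g = K i j := by
    rw [hf, hg, he, quad Y i j, ← hKY]
  have hKij : K i j = Complex.I * ((V i j).im : ℂ) := by
    rw [hK, hS]
    simp only [Matrix.sub_apply, Matrix.map_apply]
    apply Complex.ext <;> simp
  have hcs : (V i j).im ^ 2 ≤ (V i i).re * ∑ a, ‖g a‖ ^ 2 := by
    have h3 : ‖star f ⬝ᵥ g‖ ≤ ∑ a, ‖f a‖ * ‖g a‖ := by
      unfold dotProduct
      refine (norm_sum_le _ _).trans (Finset.sum_le_sum (fun a _ => ?_))
      rw [norm_mul, Pi.star_apply, norm_star]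
    have h4 := (pow_le_pow_left₀ (norm_nonneg _) h3 2).trans
      (Finset.sum_mul_sq_le_sq_mul_sq Finset.univ (fun a => ‖f a‖) (fun a => ‖g a‖))
    rw [hfg, hKij, norm_mul, Complex.norm_I, one_mul, Complex.norm_real, Real.norm_eq_abs, sq_abs,
      hfi] at h4
    exact h4
  have hfin : P.det.re ≤ 1 - (V i j).im ^ 2 / ((V i i).re * (V j j).re) := by
    have hi := hpos i
    have hj := hpos j
    have h3 : (V i j).im ^ 2 / (V i i).re ≤ ∑ a, ‖g a‖ ^ 2 := by
      rw [div_le_iff₀ hi]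
      linarith
    have h4 : P.det.re * (V j j).re ≤ (V j j).re - (V i j).im ^ 2 / (V i i).re := by linarith
    have h5 : P.det.re ≤ ((V j j).re - (V i j).im ^ 2 / (V i i).re) / (V j j).re := by
      rw [le_div_iff₀ hj]
      exact h4
    refine h5.trans (le_of_eq ?_)
    field_simp
  rw [hreal]
  exact mul_le_mul_of_nonneg_left hfin (by positivity)

end Pool.Agent.helper97.PER
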