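import Pool.Agent.helper97.PER.Z9

set_option linter.all false
set_option autoImplicit false

/-!
# Small rank: the numbers (MP_2dd521_co)
-/

namespace Pool.Agent.helper97.PER

open Finset Function
open scoped Real Topology Matrix ComplexConjugate ComplexOrder
open Pool.Agent.helper80.LSZ (kron1 kron1_one)

/-- the choice of the number of exchanges -/
theorem num_near2 (m N r : ℕ) (hm : 0 < m) (hr : 0 < r) (hk : 60 * m ^ 2 * r ≤ N) (x : ℝ)
    (hx0 : 0 ≤ x) (hx : 16 * (m : ℝ) ^ 2 * x ≤ 1) : ∃ (l : ℕ) (c : ℝ), 1 ≤ l ∧ l ≤ N ∧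
      c * (r.multichoose l : ℝ) ≤ x ^ (2 * l) * (N.choose l : ℝ) ^ 2 ∧
      Real.exp (2 * (m : ℝ) ^ 2 * x ^ 2 * N) ≤ 1 + c := by
  have hm1 : (1 : ℝ) ≤ m := by exact_mod_cast hm
  have hm0 : (0 : ℝ) < m := by linarith
  have hn1 : (1 : ℝ) ≤ r := by exact_mod_cast hr
  have hkr : 60 * (m : ℝ) ^ 2 * r ≤ N := by exact_mod_cast hk
  have hNpos : (0 : ℝ) < N := lt_of_lt_of_le (by positivity) hkr
  have hN1 : 1 ≤ N := by exact_mod_cast hNpos
  set y := 2 * (m : ℝ) ^ 2 * x ^ 2 * (N : ℕ) with hy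
  have hy0 : 0 ≤ y := by positivity
  rcases le_or_gt y 1 with hy1 | hy1
  · refine ⟨1, 2 * y, le_rfl, hN1, ?_, ?_⟩
    · rw [Nat.multichoose_one_right, Nat.choose_one_right]
      have h1 : 4 * (m : ℝ) ^ 2 * r ≤ N := by
        have : 0 ≤ (m : ℝ) ^ 2 * r := by positivity
        linarith
      calc 2 * y * (r : ℝ) = (4 * (m : ℝ) ^ 2 * r) * (x ^ 2 * N) := by rw [hy]; ring
        _ ≤ N * (x ^ 2 * N) := mul_le_mul_of_nonneg_right h1 (by positivity)
        _ = x ^ (2 * 1) * (N : ℝ) ^ 2 := by ring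
    · have h1 := Real.abs_exp_sub_one_sub_id_le (x := y) (by rw [abs_of_nonneg hy0]; exact hy1)
      have h2 := (abs_le.1 h1).2
      nlinarith
  · set l := ⌈y⌉₊ with hl
    have hl1 : y ≤ l := Nat.le_ceil y
    have hl2 : (l : ℝ) < y + 1 := Nat.ceil_lt_add_one hy0
    have hl3 : (l : ℝ) ≤ 2 * y := by linarith
    have hl0 : 1 ≤ l := Nat.one_le_iff_ne_zero.2 (fun h => by rw [h] at hl1; norm_num at hl1; linarith)
    have hlr : (1 : ℝ) ≤ l := by exact_mod_cast hl0
    have hx2 : 256 * (m : ℝ) ^ 4 * x ^ 2 ≤ 1 := by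
      have h1 := pow_le_pow_left₀ (by positivity) hx 2
      nlinarith
    have hmx : 4 * (m : ℝ) ^ 2 * x ^ 2 ≤ 1 / 64 := by
      have h1 : (m : ℝ) ^ 2 ≤ (m : ℝ) ^ 4 := pow_le_pow_right₀ hm1 (by norm_num)
      have h2 := mul_le_mul_of_nonneg_right h1 (sq_nonneg x)
      linarith
    have hlN : (l : ℝ) ≤ N / 64 := by
      have h1 := mul_le_mul_of_nonneg_right hmx hNpos.le
      rw [hy] at hl3
      linarith
    have hlN' : l ≤ N := by
      have : (l : ℝ) ≤ N := by linarith
      exact_mod_cast this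
    refine ⟨l, Real.exp l, hl0, hlN', ?_, ?_⟩
    · -- the main inequality
      have hfac : (0 : ℝ) < (l.factorial : ℝ) := by exact_mod_cast Nat.factorial_pos l
      have h1 : ((r.multichoose l : ℕ) : ℝ) * (l.factorial : ℝ) ≤ ((r : ℝ) + l) ^ l := by
        rw [Nat.multichoose_eq]
        have h2 : (l.factorial) * (r + l - 1).choose l ≤ (r + l - 1) ^ l := by
          rw [← Nat.descFactorial_eq_factorial_mul_choose]
          exact Nat.descFactorial_le_pow _ _
        have h3 : (r + l - 1) ^ l ≤ (r + l) ^ l := Nat.pow_le_pow_left (by omega) l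
        have h4 : (l.factorial) * (r + l - 1).choose l ≤ (r + l) ^ l := h2.trans h3
        have h5 : ((l.factorial : ℝ)) * ((r + l - 1).choose l : ℝ) ≤ ((r : ℝ) + l) ^ l := by
          exact_mod_cast h4
        linarith
      have h2 : ((N : ℝ) * (63 / 64)) ^ l ≤ (l.factorial : ℝ) * (N.choose l : ℝ) := by
        have h3 := Nat.pow_sub_le_descFactorial N l
        rw [Nat.descFactorial_eq_factorial_mul_choose] at h3
        have h4 : ((N + 1 - l : ℕ) : ℝ) ^ l ≤ (l.factorial : ℝ) * (N.choose l : ℝ) := by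
          exact_mod_cast h3
        refine le_trans (pow_le_pow_left₀ (by positivity) ?_ l) h4
        rw [Nat.cast_sub (by omega)]
        push_cast
        linarith
      have h3 : (l.factorial : ℝ) ≤ (l : ℝ) ^ l := by exact_mod_cast Nat.factorial_le_pow l
      have hx0' : 0 < x := by
        rcases eq_or_lt_of_le hx0 with h | h
        · exfalso
          rw [hy, ← h] at hy1
          norm_num at hy1
        · exact h
      have key : Real.exp 1 * (((r : ℝ) + l) * l) ≤ x ^ 2 * ((N : ℝ) * (63 / 64)) ^ 2 := by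
        have he : Real.exp 1 < 2.7182818286 := Real.exp_one_lt_d9
        have h4 : (l : ℝ) ≤ 4 * (m : ℝ) ^ 2 * x ^ 2 * N := by rw [hy] at hl3; linarith
        have h5 : (r : ℝ) ≤ N / (60 * (m : ℝ) ^ 2) := by
          rw [le_div_iff₀ (by positivity)]
          linarith
        have h6 : ((r : ℝ) + l) * l ≤ (N / (60 * (m : ℝ) ^ 2) + 4 * (m : ℝ) ^ 2 * x ^ 2 * N) *
            (4 * (m : ℝ) ^ 2 * x ^ 2 * N) :=
          mul_le_mul (add_le_add h5 h4) h4 (by positivity) (by positivity)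
        have h7 : (N / (60 * (m : ℝ) ^ 2) + 4 * (m : ℝ) ^ 2 * x ^ 2 * N) *
            (4 * (m : ℝ) ^ 2 * x ^ 2 * N) = (1 / 15 + 16 * (m : ℝ) ^ 4 * x ^ 2) * (x ^ 2 * (N : ℝ) ^ 2) := by
          field_simp
          ring
        have h8 : (1 / 15 + 16 * (m : ℝ) ^ 4 * x ^ 2) ≤ 1 / 15 + 1 / 16 := by linarith
        have h9 : 0 < x ^ 2 * (N : ℝ) ^ 2 := by positivity
        have h10 : ((r : ℝ) + l) * l ≤ (1 / 15 + 1 / 16) * (x ^ 2 * (N : ℝ) ^ 2) := by
          rw [h7] at h6
          exact h6.trans (mul_le_mul_of_nonneg_right h8 h9.le)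
        have h11 : 0 ≤ ((r : ℝ) + l) * l := by positivity
        nlinarith [Real.exp_pos 1]
      have h4 := pow_le_pow_left₀ (by positivity) key l
      -- multiply by the square of the factorial
      have h5 : (Real.exp l * (r.multichoose l : ℝ)) * (l.factorial : ℝ) ^ 2 ≤
          (x ^ (2 * l) * (N.choose l : ℝ) ^ 2) * (l.factorial : ℝ) ^ 2 := by
        calc (Real.exp l * (r.multichoose l : ℝ)) * (l.factorial : ℝ) ^ 2 =
            Real.exp l * ((((r.multichoose l : ℕ) : ℝ) * (l.factorial : ℝ)) * (l.factorial : ℝ)) := by ring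
          _ ≤ Real.exp l * (((r : ℝ) + l) ^ l * (l : ℝ) ^ l) := by
              refine mul_le_mul_of_nonneg_left ?_ (Real.exp_pos _).le
              exact mul_le_mul h1 h3 hfac.le (by positivity)
          _ = (Real.exp 1 * (((r : ℝ) + l) * l)) ^ l := by
              rw [mul_pow, mul_pow, ← Real.exp_nat_mul, mul_one]
          _ ≤ (x ^ 2 * ((N : ℝ) * (63 / 64)) ^ 2) ^ l := h4
          _ = x ^ (2 * l) * (((N : ℝ) * (63 / 64)) ^ l) ^ 2 := by
              rw [mul_pow, ← pow_mul, ← pow_mul, ← pow_mul, mul_comm l 2]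
          _ ≤ x ^ (2 * l) * ((l.factorial : ℝ) * (N.choose l : ℝ)) ^ 2 := by
              refine mul_le_mul_of_nonneg_left ?_ (by positivity)
              exact pow_le_pow_left₀ (by positivity) h2 2
          _ = _ := by ring
      exact le_of_mul_le_mul_right h5 (by positivity)
    · have h1 : Real.exp y ≤ Real.exp l := Real.exp_le_exp.2 hl1
      linarith

/-- an upper bound for a binomial coefficient -/
theorem choose_up (r N : ℕ) (hr : 0 < r) (hN : 0 < N) :
    ((r + N - 1).choose N : ℝ) ≤ (Real.exp 1 * (1 + N / r)) ^ r := by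
  have hr0 : (0 : ℝ) < r := by exact_mod_cast hr
  have hN0 : (0 : ℝ) < N := by exact_mod_cast hN
  have h1 : (r + N - 1).choose N ≤ (r + N).choose N := Nat.choose_le_choose N (by omega)
  have h1' : ((r + N - 1).choose N : ℝ) ≤ ((r + N).choose N : ℝ) := by exact_mod_cast h1
  refine h1'.trans ?_
  set t : ℝ := N / (N + r) with ht
  have ht0 : 0 < t := by positivity
  have ht1 : 1 - t = r / (N + r) := by
    rw [ht]; field_simp; ring
  have ht2 : 0 < 1 - t := by rw [ht1]; positivity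
  have h2 : t ^ N * (1 - t) ^ r * ((r + N).choose N : ℝ) ≤ 1 := by
    have h3 := add_pow t (1 - t) (r + N)
    have h4 : t + (1 - t) = 1 := by ring
    rw [h4, one_pow] at h3
    have h5 := Finset.single_le_sum (s := Finset.range (r + N + 1))
      (f := fun j => t ^ j * (1 - t) ^ (r + N - j) * ((r + N).choose j : ℝ))
      (fun j _ => by positivity) (Finset.mem_range.2 (by omega : N < r + N + 1))
    simp only [Nat.add_sub_cancel] at h5
    exact h5.trans (le_of_eq h3.symm)
  have h6 : ((r + N).choose N : ℝ) ≤ (1 + r / N) ^ N * (1 + N / r) ^ r := by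
    have h7 : t ^ N * (1 - t) ^ r * ((1 + r / N) ^ N * (1 + N / r) ^ r) = 1 := by
      have e1 : t * (1 + r / N) = 1 := by rw [ht]; field_simp
      have e2 : (1 - t) * (1 + N / r) = 1 := by rw [ht1]; field_simp; ring
      calc _ = (t * (1 + r / N)) ^ N * ((1 - t) * (1 + N / r)) ^ r := by
            rw [mul_pow, mul_pow]; ring
        _ = 1 := by rw [e1, e2, one_pow, one_pow, one_mul]
    have h8 : 0 < t ^ N * (1 - t) ^ r := by positivity
    refine le_of_mul_le_mul_left ?_ h8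
    rw [h7]
    exact h2
  refine h6.trans ?_
  have h9 : (1 + (r : ℝ) / N) ^ N ≤ Real.exp 1 ^ r := by
    have h10 : 1 + (r : ℝ) / N ≤ Real.exp (r / N) := by
      have := Real.add_one_le_exp ((r : ℝ) / N)
      linarith
    refine (pow_le_pow_left₀ (by positivity) h10 N).trans (le_of_eq ?_)
    rw [← Real.exp_nat_mul, ← Real.exp_nat_mul]
    congr 1
    field_simp
  rw [mul_pow]
  exact mul_le_mul_of_nonneg_right h9 (by positivity)

/-- far from the identity: the numbers -/
theorem num_far2 (m N r : ℕ) (hm : 2 ≤ m) (hr : 0 < r) (hk : (4 * m) ^ 8 * r ≤ N) (x : ℝ)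
    (hx0 : 0 ≤ x) (hx : 1 ≤ 16 * (m : ℝ) ^ 2 * x) (hθ : x ^ 2 / (4 * ((m : ℝ) + 1) ^ 2) ≤ 1) :
    ((Real.exp 1 * √N) * ((r + N - 1).choose N : ℝ)) ^ m *
      (1 - x ^ 2 / (4 * ((m : ℝ) + 1) ^ 2)) ^ N ≤ 1 := by
  have hm2 : (2 : ℝ) ≤ m := by exact_mod_cast hm
  have hm0 : (0 : ℝ) < m := by linarith
  have hr1 : (1 : ℝ) ≤ r := by exact_mod_cast hr
  have hr0 : (0 : ℝ) < r := by linarith
  have hkr' : (4 * (m : ℝ)) ^ 8 * r ≤ N := by exact_mod_cast hk
  have hN0 : (0 : ℝ) < N := lt_of_lt_of_le (by positivity) hkr'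
  have hNpos : 0 < N := by exact_mod_cast hN0
  set θ := x ^ 2 / (4 * ((m : ℝ) + 1) ^ 2) with hθd
  set q : ℝ := N / r with hq
  have hq0 : 0 < q := by positivity
  have hNq : (N : ℝ) = q * r := by rw [hq]; field_simp
  -- the eighth root
  set u : ℝ := q ^ ((8 : ℕ) : ℝ)⁻¹ with hu
  have hu8 : u ^ 8 = q := Real.rpow_inv_natCast_pow hq0.le (by norm_num)
  have hu0 : 0 < u := Real.rpow_pos_of_pos hq0 _
  have hum : 4 * (m : ℝ) ≤ u := by
    refine le_of_pow_le_pow_left₀ (n := 8) (by norm_num) hu0.le ?_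
    rw [hu8, hq, le_div_iff₀ hr0]
    exact hkr'
  have hu8' : (8 : ℝ) ≤ u := by linarith
  have hθ1 : 1 / (4096 * (m : ℝ) ^ 6) ≤ θ := by
    have h1 : 1 / (16 * (m : ℝ) ^ 2) ≤ x := by
      rw [div_le_iff₀ (by positivity)]
      linarith
    have h2 := pow_le_pow_left₀ (by positivity) h1 2
    have h3 : 4 * ((m : ℝ) + 1) ^ 2 ≤ 16 * (m : ℝ) ^ 2 := by nlinarith
    have h4 : x ^ 2 / (16 * (m : ℝ) ^ 2) ≤ θ := by
      rw [hθd]
      exact div_le_div_of_nonneg_left (by positivity) (by positivity) h3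
    refine le_trans ?_ h4
    rw [le_div_iff₀ (by positivity)]
    refine le_trans (le_of_eq ?_) h2
    field_simp
    norm_num
  -- `N θ ≥ 4 m u r`
  have hkθ : 4 * (m : ℝ) * u * r ≤ N * θ := by
    have h1 : N * (1 / (4096 * (m : ℝ) ^ 6)) ≤ N * θ := mul_le_mul_of_nonneg_left hθ1 hN0.le
    refine le_trans ?_ h1
    rw [mul_one_div, le_div_iff₀ (by positivity), hNq, ← hu8]
    have h2 := pow_le_pow_left₀ (by positivity) hum 7
    have h3 := mul_le_mul_of_nonneg_right h2 (mul_pos hu0 hr0).le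
    calc 4 * (m : ℝ) * u * r * (4096 * (m : ℝ) ^ 6) = (4 * (m : ℝ)) ^ 7 * (u * r) := by ring
      _ ≤ u ^ 7 * (u * r) := h3
      _ = u ^ 8 * r := by ring
  -- the square root
  have hsq : Real.exp 1 * √N ≤ Real.exp (1 + r / 2) * u ^ 4 := by
    have h1 : √(N : ℝ) = u ^ 4 * √r := by
      rw [hNq, Real.sqrt_mul hq0.le, ← hu8, show u ^ 8 = (u ^ 4) ^ 2 by ring,
        Real.sqrt_sq (by positivity)]
    have h2 : √(r : ℝ) ≤ Real.exp (r / 2) := by
      rw [Real.sqrt_le_left (Real.exp_pos _).le, ← Real.exp_nat_mul]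
      have := Real.add_one_le_exp (r : ℝ)
      have e : ((2 : ℕ) : ℝ) * ((r : ℝ) / 2) = r := by push_cast; ring
      rw [e]
      linarith
    rw [h1, Real.exp_add]
    calc Real.exp 1 * (u ^ 4 * √r) = (Real.exp 1 * u ^ 4) * √r := by ring
      _ ≤ (Real.exp 1 * u ^ 4) * Real.exp (r / 2) := mul_le_mul_of_nonneg_left h2 (by positivity)
      _ = _ := by ring
  -- the binomial coefficient
  have hch : ((r + N - 1).choose N : ℝ) ≤ (Real.exp 2 * u ^ 8) ^ r := by
    refine (choose_up r N hr hNpos).trans (pow_le_pow_left₀ (by positivity) ?_ r)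
    rw [hu8, ← hq]
    have h1 : 1 + q ≤ Real.exp 1 * q := by
      have h2 : (2 : ℝ) ≤ Real.exp 1 := by
        have := Real.add_one_le_exp (1 : ℝ)
        linarith
      have h3 : 1 ≤ q := by
        rw [← hu8]
        exact one_le_pow₀ (by linarith)
      nlinarith
    calc Real.exp 1 * (1 + q) ≤ Real.exp 1 * (Real.exp 1 * q) :=
          mul_le_mul_of_nonneg_left h1 (Real.exp_pos 1).le
      _ = Real.exp 2 * q := by
          rw [← mul_assoc, ← Real.exp_add]; norm_num
  -- the logarithm of `u`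
  have hlu : u ≤ Real.exp (u / 8 + 1.08) := by
    have h1 : u / 8 ≤ Real.exp (u / 8 - 1) := by
      have := Real.add_one_le_exp (u / 8 - 1)
      linarith
    have h2 : (8 : ℝ) ≤ Real.exp 2.08 := by
      have h3 : Real.log 8 ≤ 2.08 := by
        have h4 : Real.log 8 = 3 * Real.log 2 := by
          rw [show (8 : ℝ) = 2 ^ 3 by norm_num, Real.log_pow]
          norm_num
        rw [h4]
        have := Real.log_two_lt_d9
        linarith
      rwa [Real.log_le_iff_le_exp (by norm_num)] at h3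
    have h5 : 8 * (u / 8) ≤ Real.exp 2.08 * Real.exp (u / 8 - 1) :=
      mul_le_mul h2 h1 (by positivity) (Real.exp_pos _).le
    rw [← Real.exp_add] at h5
    calc u = 8 * (u / 8) := by ring
      _ ≤ _ := h5
      _ = _ := by congr 1; ring
  have hu12 : u ^ 12 ≤ Real.exp (1.5 * u + 12.96) := by
    refine (pow_le_pow_left₀ hu0.le hlu 12).trans (le_of_eq ?_)
    rw [← Real.exp_nat_mul]
    congr 1
    push_cast
    ring
  have htot : (Real.exp 1 * √N) * ((r + N - 1).choose N : ℝ) ≤ Real.exp (4 * u * r) := by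
    have h1 : (Real.exp 1 * √N) * ((r + N - 1).choose N : ℝ) ≤
        (Real.exp (1 + r / 2) * u ^ 4) * (Real.exp 2 * u ^ 8) ^ r :=
      mul_le_mul hsq hch (Nat.cast_nonneg _) (by positivity)
    have hu1 : (1 : ℝ) ≤ u ^ 4 := one_le_pow₀ (by linarith)
    have h2 : u ^ 4 ≤ (u ^ 4) ^ r := by
      calc u ^ 4 = (u ^ 4) ^ 1 := (pow_one _).symm
        _ ≤ (u ^ 4) ^ r := pow_le_pow_right₀ hu1 hr
    have h3 : Real.exp (1 + r / 2) ≤ (Real.exp 1.5) ^ r := by
      rw [← Real.exp_nat_mul]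
      refine Real.exp_le_exp.2 ?_
      linarith
    have h4 : (Real.exp (1 + r / 2) * u ^ 4) * (Real.exp 2 * u ^ 8) ^ r ≤
        ((Real.exp 1.5) ^ r * (u ^ 4) ^ r) * (Real.exp 2 * u ^ 8) ^ r := by
      refine mul_le_mul_of_nonneg_right ?_ (by positivity)
      exact mul_le_mul h3 h2 (by positivity) (by positivity)
    have h5 : ((Real.exp 1.5) ^ r * (u ^ 4) ^ r) * (Real.exp 2 * u ^ 8) ^ r =
        (Real.exp 3.5 * u ^ 12) ^ r := by
      rw [← mul_pow, ← mul_pow]
      congr 1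
      have : Real.exp 3.5 = Real.exp 1.5 * Real.exp 2 := by rw [← Real.exp_add]; norm_num
      rw [this]
      ring
    have h6 : Real.exp 3.5 * u ^ 12 ≤ Real.exp (4 * u) := by
      calc Real.exp 3.5 * u ^ 12 ≤ Real.exp 3.5 * Real.exp (1.5 * u + 12.96) :=
            mul_le_mul_of_nonneg_left hu12 (Real.exp_pos _).le
        _ = Real.exp (3.5 + (1.5 * u + 12.96)) := by rw [← Real.exp_add]
        _ ≤ _ := Real.exp_le_exp.2 (by linarith)
    have h7 := pow_le_pow_left₀ (by positivity) h6 r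
    refine (h1.trans h4).trans ((le_of_eq h5).trans (h7.trans (le_of_eq ?_)))
    rw [← Real.exp_nat_mul]
    congr 1
    ring
  have h1 : ((Real.exp 1 * √N) * ((r + N - 1).choose N : ℝ)) ^ m ≤ Real.exp (4 * m * u * r) := by
    refine (pow_le_pow_left₀ (by positivity) htot m).trans (le_of_eq ?_)
    rw [← Real.exp_nat_mul]
    congr 1
    ring
  have h2 : (1 - θ) ^ N ≤ Real.exp (-(N * θ)) := by
    have h3 : 1 - θ ≤ Real.exp (-θ) := by
      have := Real.add_one_le_exp (-θ)
      linarith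
    refine (pow_le_pow_left₀ (by linarith) h3 N).trans (le_of_eq ?_)
    rw [← Real.exp_nat_mul]
    congr 1
    ring
  calc ((Real.exp 1 * √N) * ((r + N - 1).choose N : ℝ)) ^ m * (1 - θ) ^ N ≤
        Real.exp (4 * m * u * r) * Real.exp (-(N * θ)) :=
        mul_le_mul h1 h2 (pow_nonneg (by linarith) N) (Real.exp_pos _).le
    _ = Real.exp (4 * m * u * r - N * θ) := by rw [← Real.exp_add]; ring_nf
    _ ≤ Real.exp 0 := Real.exp_le_exp.2 (by linarith)
    _ = 1 := Real.exp_zero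

end Pool.Agent.helper97.PER
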