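import Pool.Agent.helper97.PER.Z10

set_option linter.all false
set_option autoImplicit false

/-!
# The inequality of Liang, So and Zhang when one factor has small rank (MP_2dd521_co)
-/

namespace Pool.Agent.helper97.PER

open Finset Function
open scoped Real Topology Matrix ComplexConjugate ComplexOrder
open Pool.Agent.helper80.LSZ (kron1 kron1_one)

/-- far from the identity -/
theorem far_rank (m n r : ℕ) (hr : 0 < r) (hn : 0 < n) (L : Fin n → Fin r → ℂ)
    (M : Matrix (Fin m) (Fin m) ℂ) (hM : M.PosSemidef) (h1 : ∀ i, M i i = 1) (i j : Fin m)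
    (hij : i ≠ j)
    (hL : ((Real.exp 1 * √n) * ((r + n - 1).choose n : ℝ)) ^ m *
      (1 - ‖M i j‖ ^ 2 / (4 * ((m : ℝ) + 1) ^ 2)) ^ n ≤ 1)
    (hθ : ‖M i j‖ ^ 2 / (4 * ((m : ℝ) + 1) ^ 2) ≤ 1) :
    (gm L).permanent.re ^ m * M.permanent.re ^ n ≤
      (Matrix.kronecker (gm L) M).permanent.re := by
  have hm : 0 < m := lt_of_le_of_lt (Nat.zero_le _) i.2
  obtain ⟨L', hL'⟩ := exists_gm M hM
  have hcomp := comp_gram n 1 one_pos L L' (by rwa [Fintype.card_fin])
  rw [hL', kron1_one, one_mul n] at hcomp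
  simp only [Fintype.card_fin, one_mul] at hcomp
  have hgrow := growth_gap M hM h1 i j hij n hn
  rw [Fintype.card_fin] at hgrow
  set a := (gm L).permanent.re with ha
  set p := M.permanent.re with hp
  set P := (kron1 n M).permanent.re with hP
  set Q := (Matrix.kronecker (gm L) M).permanent.re with hQ
  set θ := ‖M i j‖ ^ 2 / (4 * ((m : ℝ) + 1) ^ 2) with hθd
  set c : ℝ := ((r + n - 1).choose n : ℝ) with hc
  have ha0 : 0 ≤ a := perm_re_nonneg _ (gm_psd L)
  have hp0 : 0 ≤ p := perm_re_nonneg _ hM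
  have hP0 : 0 ≤ P := perm_re_nonneg _ (kron1_psd n M hM)
  have hQ0 : 0 ≤ Q := perm_re_nonneg _ (kron_psd _ (gm_psd L) M hM)
  have hW : ((min (n ^ n) (r.ascFactorial n) : ℕ) : ℝ) ≤ (n.factorial : ℝ) * c := by
    have h2 : min (n ^ n) (r.ascFactorial n) ≤ r.ascFactorial n := min_le_right _ _
    rw [Nat.ascFactorial_eq_factorial_mul_choose'] at h2
    rw [Nat.ascFactorial_eq_factorial_mul_choose', hc]
    exact_mod_cast h2
  have hcomp2 : P * a ^ m ≤ ((n.factorial : ℝ) * c) ^ m * Q :=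
    hcomp.trans (mul_le_mul_of_nonneg_right (pow_le_pow_left₀ (Nat.cast_nonneg _) hW m) hQ0)
  have hfb := fac_bound m n hn
  have hfac : (0 : ℝ) < ((n * m).factorial : ℝ) := by exact_mod_cast Nat.factorial_pos _
  have hθ0 : 0 ≤ 1 - θ := by linarith
  have hc0 : 0 ≤ c := Nat.cast_nonneg _
  have h5 : ((n * m).factorial : ℝ) * (a ^ m * p ^ n) ≤ ((n * m).factorial : ℝ) * Q := by
    calc ((n * m).factorial : ℝ) * (a ^ m * p ^ n) =
          a ^ m * (((n * m).factorial : ℝ) * p ^ n) := by ring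
      _ ≤ a ^ m * ((1 - θ) ^ n * ((((m : ℝ) ^ m) ^ n) * P)) :=
          mul_le_mul_of_nonneg_left hgrow (by positivity)
      _ = ((1 - θ) ^ n * (((m : ℝ) ^ m) ^ n)) * (P * a ^ m) := by ring
      _ ≤ ((1 - θ) ^ n * (((m : ℝ) ^ m) ^ n)) * (((n.factorial : ℝ) * c) ^ m * Q) :=
          mul_le_mul_of_nonneg_left hcomp2 (by positivity)
      _ = ((n.factorial : ℝ) ^ m * ((m : ℝ) ^ m) ^ n) * (c ^ m * (1 - θ) ^ n * Q) := by
          rw [mul_pow]; ring
      _ ≤ (((n * m).factorial : ℝ) * (Real.exp 1 * √n) ^ m) * (c ^ m * (1 - θ) ^ n * Q) :=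
          mul_le_mul_of_nonneg_right hfb (by positivity)
      _ = ((n * m).factorial : ℝ) * ((((Real.exp 1 * √n) * c) ^ m * (1 - θ) ^ n) * Q) := by
          rw [mul_pow]; ring
      _ ≤ ((n * m).factorial : ℝ) * (1 * Q) := by
          refine mul_le_mul_of_nonneg_left ?_ hfac.le
          exact mul_le_mul_of_nonneg_right hL hQ0
      _ = _ := by rw [one_mul]
  exact le_of_mul_le_mul_left h5 hfac

/-- the entries of a positive matrix with unit diagonal -/
theorem entry_le_one {ι : Type*} [Fintype ι] [DecidableEq ι] (M : Matrix ι ι ℂ)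
    (hM : M.PosSemidef) (h1 : ∀ i, M i i = 1) (i j : ι) : ‖M i j‖ ≤ 1 := by
  obtain ⟨L, rfl⟩ := exists_gm M hM
  have h2 : ‖gm L i j‖ ^ 2 ≤ 1 := by
    have h3 : ‖gm L i j‖ ≤ ∑ a, ‖L i a‖ * ‖L j a‖ := by
      unfold gm
      simp only [Matrix.of_apply]
      refine (norm_sum_le _ _).trans (Finset.sum_le_sum (fun a _ => ?_))
      rw [norm_mul, Complex.norm_conj]
    have h4 := (pow_le_pow_left₀ (norm_nonneg _) h3 2).trans
      (Finset.sum_mul_sq_le_sq_mul_sq Finset.univ (fun a => ‖L i a‖) (fun a => ‖L j a‖))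
    have h5 : ∀ s, ∑ a, ‖L s a‖ ^ 2 = 1 := by
      intro s
      have h6 : gm L s s = ((∑ a, ‖L s a‖ ^ 2 : ℝ) : ℂ) := by
        unfold gm
        simp only [Matrix.of_apply]
        push_cast
        refine Finset.sum_congr rfl (fun a _ => ?_)
        rw [Complex.mul_conj, Complex.normSq_eq_norm_sq]
        push_cast
        rfl
      rw [h1 s] at h6
      exact_mod_cast h6.symm
    rw [h5, h5, one_mul] at h4
    exact h4
  nlinarith [norm_nonneg (gm L i j)]

/-- the case of a unit diagonal -/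
theorem unit_rank (m n r : ℕ) (hr : 0 < r) (hk : (4 * m) ^ 8 * r ≤ n) (L : Fin n → Fin r → ℂ)
    (M : Matrix (Fin m) (Fin m) ℂ) (hM : M.PosSemidef) (h1 : ∀ i, M i i = 1)
    (i0 j0 : Fin m) (hij0 : i0 ≠ j0) :
    (gm L).permanent.re ^ m * M.permanent.re ^ n ≤
      (Matrix.kronecker (gm L) M).permanent.re := by
  have hm : 0 < m := lt_of_le_of_lt (Nat.zero_le _) i0.2
  have hm1 : (1 : ℝ) ≤ m := by exact_mod_cast hm
  have hm0 : (0 : ℝ) < m := by linarith
  have hn : 0 < n := lt_of_lt_of_le (by positivity) hk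
  have hcard : Fintype.card (Fin m) = m := Fintype.card_fin m
  have hm2 : 2 ≤ m := by
    have h3 := i0.2
    have h4 := j0.2
    have h5 : i0.1 ≠ j0.1 := fun h => hij0 (Fin.ext h)
    omega
  have hp0 : 0 ≤ (gm L).permanent.re := perm_re_nonneg _ (gm_psd L)
  have hM0 : 0 ≤ M.permanent.re := perm_re_nonneg _ hM
  -- the largest entry off the diagonal
  obtain ⟨x, hx, i, j, hij, hxij⟩ : ∃ x : ℝ, (∀ i j, i ≠ j → ‖M i j‖ ≤ x) ∧
      ∃ i j, i ≠ j ∧ ‖M i j‖ = x := by
    have hne : (Finset.univ.filter (fun p : Fin m × Fin m => p.1 ≠ p.2)).Nonempty :=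
      ⟨(i0, j0), Finset.mem_filter.2 ⟨Finset.mem_univ _, hij0⟩⟩
    obtain ⟨p, hp, hp2⟩ := Finset.exists_max_image _ (fun p : Fin m × Fin m => ‖M p.1 p.2‖) hne
    refine ⟨‖M p.1 p.2‖, ?_, p.1, p.2, (Finset.mem_filter.1 hp).2, rfl⟩
    intro i j hij
    exact hp2 (i, j) (Finset.mem_filter.2 ⟨Finset.mem_univ _, hij⟩)
  have hx0 : 0 ≤ x := by rw [← hxij]; exact norm_nonneg _
  rcases le_total 1 (16 * (m : ℝ) ^ 2 * x) with hfar | hnear
  · -- far from the identity
    have hx1 : x ≤ 1 := by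
      rw [← hxij]
      exact entry_le_one M hM h1 i j
    have hθ : x ^ 2 / (4 * ((m : ℝ) + 1) ^ 2) ≤ 1 := by
      rw [div_le_one (by positivity)]
      nlinarith
    have h2 := num_far2 m n r hm2 hr hk x hx0 hfar hθ
    exact far_rank m n r hr hn L M hM h1 i j hij (by rw [hxij]; exact h2) (by rw [hxij]; exact hθ)
  · -- near the identity
    have hk60 : 60 * m ^ 2 * r ≤ n := by
      refine le_trans (Nat.mul_le_mul_right r ?_) hk
      calc 60 * m ^ 2 ≤ 4 ^ 8 * m ^ 2 := Nat.mul_le_mul_right _ (by norm_num)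
        _ ≤ 4 ^ 8 * m ^ 8 := Nat.mul_le_mul_left _ (Nat.pow_le_pow_right hm (by norm_num))
        _ = (4 * m) ^ 8 := by rw [mul_pow]
    obtain ⟨l, c, hl1, hl2, hc, hexp⟩ := num_near2 m n r hm hr hk60 x hx0 hnear
    have hmx : (m : ℝ) * x ≤ 1 / 2 := by nlinarith
    have hup := perm_up2 M h1 x hx0 hx (by rw [hcard]; exact hmx)
    rw [hcard] at hup
    have hup2 : M.permanent.re ^ n ≤ 1 + c := by
      have h2 : M.permanent.re ≤ Real.exp (2 * (m : ℝ) ^ 2 * x ^ 2) := by
        refine (Complex.re_le_norm _).trans (hup.trans ?_)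
        have h3 := Real.add_one_le_exp (2 * (m : ℝ) ^ 2 * x ^ 2)
        nlinarith
      refine (pow_le_pow_left₀ hM0 h2 n).trans (le_trans (le_of_eq ?_) hexp)
      rw [← Real.exp_nat_mul]
      congr 1
      ring
    have hpos : 0 < (r.multichoose l : ℝ) := by
      rw [Nat.multichoose_eq]
      exact_mod_cast Nat.choose_pos (by omega)
    set Cm := M.submatrix (ep i j) (ep i j) with hCm
    have hC0 : Cm none none = 1 := h1 i
    have hC1 : Cm (some ()) (some ()) = 1 := h1 j
    have hCx : Cm none (some ()) * Cm (some ()) none = (x : ℂ) ^ 2 := by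
      show M i j * M j i = (x : ℂ) ^ 2
      rw [← hM.1.apply j i, RCLike.star_def, Complex.mul_conj, Complex.normSq_eq_norm_sq, hxij]
      push_cast
      rfl
    have hlow := pair_low_rank Cm hC0 hC1 x hCx L l hl1 (by rw [Fintype.card_fin]; exact hl2) c
      (by rw [Fintype.card_fin, Fintype.card_fin]; exact hc) (by rw [Fintype.card_fin]; exact hpos)
    have hlieb := pair_lieb (gm L) (gm_psd L) M hM h1 i j hij
    rw [← hCm, hcard] at hlieb
    set p := (gm L).permanent.re with hp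
    have h2 := Pool.Agent.helper16.LSZ.permanent_submatrix_equiv (Matrix.kronecker M (gm L))
      (Equiv.prodComm (Fin n) (Fin m))
    have h3 : (Matrix.kronecker M (gm L)).submatrix (Equiv.prodComm (Fin n) (Fin m))
        (Equiv.prodComm (Fin n) (Fin m)) = Matrix.kronecker (gm L) M := by
      ext s t
      simp [Matrix.kronecker, Matrix.kroneckerMap_apply, mul_comm]
    rw [h3] at h2
    rw [h2]
    have e : p ^ m = p ^ 2 * p ^ (m - 2) := by rw [← pow_add]; congr 1; omega
    calc p ^ m * M.permanent.re ^ n ≤ p ^ m * (1 + c) :=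
          mul_le_mul_of_nonneg_left hup2 (by positivity)
      _ = ((1 + c) * p ^ 2) * p ^ (m - 2) := by rw [e]; ring
      _ ≤ (Matrix.kronecker Cm (gm L)).permanent.re * p ^ (m - 2) :=
          mul_le_mul_of_nonneg_right hlow (by positivity)
      _ ≤ _ := hlieb

/-- **the inequality of Liang, So and Zhang when one factor has small rank** -/
theorem small_rank (n m : ℕ) (A : Matrix (Fin n) (Fin n) ℂ) (hA : A.PosSemidef)
    (B : Matrix (Fin m) (Fin m) ℂ) (hB : B.PosSemidef) (hk : (4 * m) ^ 8 * A.rank ≤ n) :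
    A.permanent ^ m * B.permanent ^ n ≤ (Matrix.kronecker A B).permanent := by
  by_cases hd : ∀ i j, i ≠ j → B i j = 0
  · have h := stable_diag m 1 n B hB hd A hA
    rw [kron1_one, kron1_one, one_mul] at h
    exact h
  push Not at hd
  obtain ⟨i, j, hij, hBij⟩ := hd
  have hm : 0 < m := lt_of_le_of_lt (Nat.zero_le _) i.2
  rcases Nat.eq_zero_or_pos n with hn | hn
  · subst hn
    haveI : IsEmpty (Fin 0 × Fin m) := ⟨fun p => p.1.elim0⟩
    have e1 : A.permanent = 1 := Matrix.permanent_isEmpty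
    have e2 : (Matrix.kronecker A B).permanent = 1 := Matrix.permanent_isEmpty
    rw [e1, e2]
    simp
  have hpos : 0 ≤ (Matrix.kronecker A B).permanent :=
    Pool.Agent.helper16.LSZ.perm_nonneg _ (kron_psd A hA B hB)
  by_cases hz : ∃ i, B i i = 0
  · obtain ⟨i, hi⟩ := hz
    rw [perm_zero_diag m B hB i hi, zero_pow hn.ne', mul_zero]
    exact hpos
  push Not at hz
  obtain ⟨L, hL⟩ := Pool.Agent.helper80.LSZ.exists_fac A hA A.rank le_rfl
  have eA : gm L = A := by ext s t; rw [hL]; rfl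
  rcases Nat.eq_zero_or_pos A.rank with hr | hr
  · have h0 : ∀ s t, A s t = 0 := by
      intro s t
      rw [hL]
      refine Finset.sum_eq_zero (fun a _ => ?_)
      exact absurd (lt_of_lt_of_eq a.2 hr) (Nat.not_lt_zero _)
    have h1 : A.permanent = 0 := by
      unfold Matrix.permanent
      refine Finset.sum_eq_zero (fun σ _ => ?_)
      exact Finset.prod_eq_zero (Finset.mem_univ (⟨0, hn⟩ : Fin n)) (h0 _ _)
    rw [h1, zero_pow hm.ne', zero_mul]
    exact hpos
  obtain ⟨c, M, hc, hM, h1, hBM⟩ := normal_form m B hB hz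
  have h := unit_rank m n A.rank hr hk L M hM h1 i j hij
  rw [eA] at h
  set q : ℝ := (∏ i, c i) ^ 2 with hq
  have hq0 : 0 ≤ q := by positivity
  have e1 : B.permanent = (q : ℂ) * M.permanent := by
    rw [hBM, perm_scale (fun i => (c i : ℂ)) M]
    congr 1
    rw [hq]; push_cast; rfl
  have e2 : (Matrix.kronecker A B).permanent = (q : ℂ) ^ n * (Matrix.kronecker A M).permanent := by
    have e3 : Matrix.kronecker A B = Matrix.of fun s t : Fin n × Fin m =>
        (c s.2 : ℂ) * (c t.2 : ℂ) * Matrix.kronecker A M s t := by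
      ext s t
      simp only [Matrix.kronecker, Matrix.kroneckerMap_apply, Matrix.of_apply, hBM]
      ring
    rw [e3, perm_scale (fun s : Fin n × Fin m => (c s.2 : ℂ))]
    congr 1
    have e4 : ∏ s : Fin n × Fin m, (c s.2 : ℂ) = (∏ i, (c i : ℂ)) ^ n := by
      rw [Fintype.prod_prod_type]
      simp only [Finset.prod_const, Finset.card_univ, Fintype.card_fin]
    rw [e4, hq]
    push_cast
    rw [← pow_mul, ← pow_mul, mul_comm]
  obtain ⟨ha, -⟩ := Pool.Agent.helper16.LSZ.perm_real A hA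
  obtain ⟨hb, -⟩ := Pool.Agent.helper16.LSZ.perm_real M hM
  obtain ⟨hp, -⟩ := Pool.Agent.helper16.LSZ.perm_real (Matrix.kronecker A M) (kron_psd A hA M hM)
  rw [e1, e2, ha, hb, hp]
  have h3 : (((A.permanent.re ^ m * (q * M.permanent.re) ^ n : ℝ)) : ℂ) ≤
      ((q ^ n * (Matrix.kronecker A M).permanent.re : ℝ) : ℂ) := by
    have h2 := mul_le_mul_of_nonneg_left h (pow_nonneg hq0 n)
    have h4 : A.permanent.re ^ m * (q * M.permanent.re) ^ n ≤
        q ^ n * (Matrix.kronecker A M).permanent.re := by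
      rw [mul_pow]
      linarith
    exact_mod_cast h4
  push_cast at h3
  exact h3

end Pool.Agent.helper97.PER
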