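import Pool.Agent.helper97.PER.Z1
import Pool.Agent.helper97.PER.Y3

set_option linter.all false
set_option autoImplicit false

/-!
# Theorem A with a gap, positive definite matrices (MP_2dd521_co)
-/

namespace Pool.Agent.helper97.PER

open MeasureTheory Finset Function
open scoped Real Topology Matrix ComplexConjugate ContDiff ComplexOrder
open Pool.Agent.helper80.LSZ (kron1 kron1_one)

variable {ι : Type*} [Fintype ι] [DecidableEq ι]

theorem SM_diag (M : Matrix ι ι ℂ) (y : ι → ℝ) (i : ι) : SM M y i i = (M i i).re := by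
  unfold SM
  simp only [Matrix.of_apply]
  have h : conj (ev y i) * M i i * ev y i = M i i := by
    have h1 : conj (ev y i) * ev y i = 1 := by
      rw [← Complex.normSq_eq_conj_mul_self, Complex.normSq_eq_norm_sq, ev_norm]
      norm_num
    calc conj (ev y i) * M i i * ev y i = (conj (ev y i) * ev y i) * M i i := by ring
      _ = _ := by rw [h1, one_mul]
  rw [h]

/-- the radii of the cycle are not small -/
theorem tt_diag (M : Matrix ι ι ℂ) (hM : M.PosDef) (y : ι → ℝ) (i : ι) :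
    1 ≤ (Fintype.card ι : ℝ) * (tt M hM y i ^ 2 * (M i i).re) := by
  set S := SM M y with hS
  set t := tt M hM y with ht
  have hSp := SM_posDef M hM y
  rw [← hS] at hSp
  have hd : 0 < (M i i).re := (Complex.lt_def.1 (hM.diag_pos (i := i))).1
  have hti : 0 < t i := tt_pos M hM y i
  have h1 : t ⬝ᵥ (S *ᵥ t) = Fintype.card ι := by
    unfold dotProduct
    have : ∀ a, t a * (S *ᵥ t) a = 1 := fun a => tt_eq M hM y a
    simp [this]
  have h2 : (S *ᵥ t) i = (t i)⁻¹ := eq_inv_of_mul_eq_one_right (tt_eq M hM y i)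
  have h3 := dot_S_add S hSp.1 t i (-((t i)⁻¹ / (M i i).re))
  have h4 : 0 ≤ (t + (-((t i)⁻¹ / (M i i).re)) • Pi.single i 1) ⬝ᵥ
      (S *ᵥ (t + (-((t i)⁻¹ / (M i i).re)) • Pi.single i 1)) := by
    have := hSp.posSemidef.dotProduct_mulVec_nonneg
      (t + (-((t i)⁻¹ / (M i i).re)) • (Pi.single i 1 : ι → ℝ))
    simpa using this
  rw [h3, h1, h2, hS, SM_diag] at h4
  have h5 : (Fintype.card ι : ℝ) + 2 * -((t i)⁻¹ / (M i i).re) * (t i)⁻¹ +
      (-((t i)⁻¹ / (M i i).re)) ^ 2 * (M i i).re = Fintype.card ι - 1 / (t i ^ 2 * (M i i).re) := by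
    field_simp
    ring
  rw [h5] at h4
  have h6 : 0 < t i ^ 2 * (M i i).re := by positivity
  have h7 : 1 / (t i ^ 2 * (M i i).re) ≤ Fintype.card ι := by linarith
  rwa [div_le_iff₀ h6] at h7

/-- the gap -/
noncomputable def gp (M : Matrix ι ι ℂ) (i j : ι) (y : ι → ℝ) : ℝ :=
  (conj (ev y i) * M i j * ev y j).im ^ 2 /
    (((Fintype.card ι : ℝ) + 1) ^ 2 * ((M i i).re * (M j j).re))

theorem gp_nonneg (M : Matrix ι ι ℂ) (hM : M.PosDef) (i j : ι) (y : ι → ℝ) : 0 ≤ gp M i j y := by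
  have hi : 0 < (M i i).re := (Complex.lt_def.1 (hM.diag_pos (i := i))).1
  have hj : 0 < (M j j).re := (Complex.lt_def.1 (hM.diag_pos (i := j))).1
  unfold gp
  positivity

theorem WW_im (M : Matrix ι ι ℂ) (hM : M.PosDef) (y : ι → ℝ) (i j : ι) :
    (WW M hM y i j).im = tt M hM y i * tt M hM y j * (conj (ev y i) * M i j * ev y j).im := by
  simp only [WW, Matrix.of_apply, xx_eq, map_mul, Complex.conj_ofReal]
  have : (tt M hM y i : ℂ) * conj (ev y i) * M i j * ((tt M hM y j : ℂ) * ev y j) =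
      ((tt M hM y i * tt M hM y j : ℝ) : ℂ) * (conj (ev y i) * M i j * ev y j) := by
    push_cast; ring
  rw [this, Complex.im_ofReal_mul]

theorem ratio_low (m a d t : ℝ) (hm : 0 < m) (hd : 0 < d) (h : 1 ≤ m * (t ^ 2 * d)) :
    1 / ((m + 1) * d) ≤ t ^ 2 / (1 + t ^ 2 * d) := by
  have h1 : 0 < 1 + t ^ 2 * d := by positivity
  rw [div_le_div_iff₀ (by positivity) h1]
  nlinarith

/-- the gap in the determinant -/
theorem gap_le (M : Matrix ι ι ℂ) (hM : M.PosDef) (y : ι → ℝ) (i j : ι) :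
    gp M i j y ≤ ((1 + (WW M hM y)ᵀ) i j).im ^ 2 /
      (((1 + (WW M hM y)ᵀ) i i).re * ((1 + (WW M hM y)ᵀ) j j).re) ∨ i = j := by
  by_cases hij : i = j
  · exact Or.inr hij
  left
  have hi : 0 < (M i i).re := (Complex.lt_def.1 (hM.diag_pos (i := i))).1
  have hj : 0 < (M j j).re := (Complex.lt_def.1 (hM.diag_pos (i := j))).1
  have hm : (0 : ℝ) < Fintype.card ι := by
    have : 0 < Fintype.card ι := Fintype.card_pos_iff.2 ⟨i⟩
    exact_mod_cast this
  have hherm : WW M hM y j i = conj (WW M hM y i j) := ((WW_psd M hM y).1.apply j i).symm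
  have e1 : ((1 + (WW M hM y)ᵀ) i j).im ^ 2 = (tt M hM y i * tt M hM y j) ^ 2 *
      (conj (ev y i) * M i j * ev y j).im ^ 2 := by
    rw [Matrix.add_apply, Matrix.one_apply_ne hij, zero_add, Matrix.transpose_apply, hherm,
      Complex.conj_im, WW_im]
    ring
  have e2 : ∀ a, ((1 + (WW M hM y)ᵀ) a a).re = 1 + tt M hM y a ^ 2 * (M a a).re := by
    intro a
    rw [Matrix.add_apply, Matrix.one_apply_eq, Matrix.transpose_apply, Complex.add_re,
      Complex.one_re, WW_re, SM_diag]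
    ring
  rw [e1, e2, e2]
  set s := (conj (ev y i) * M i j * ev y j).im ^ 2 with hs
  have hs0 : 0 ≤ s := by positivity
  have h1 := ratio_low (Fintype.card ι) 0 (M i i).re (tt M hM y i) hm hi (tt_diag M hM y i)
  have h2 := ratio_low (Fintype.card ι) 0 (M j j).re (tt M hM y j) hm hj (tt_diag M hM y j)
  have h3 := mul_le_mul h1 h2 (by positivity) (by positivity)
  have h4 := mul_le_mul_of_nonneg_left h3 hs0
  unfold gp
  rw [← hs]
  calc s / (((Fintype.card ι : ℝ) + 1) ^ 2 * ((M i i).re * (M j j).re)) =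
      s * (1 / ((Fintype.card ι + 1) * (M i i).re) * (1 / ((Fintype.card ι + 1) * (M j j).re))) := by
        field_simp
    _ ≤ _ := h4
    _ = _ := by
        field_simp

theorem JC_gap (M : Matrix ι ι ℂ) (hM : M.PosDef) (y : ι → ℝ) (i j : ι) (hij : i ≠ j) :
    ‖(JC M hM y).det‖ ≤ (1 - gp M i j y / 2) * ∏ i, Real.sqrt (1 + bb M hM y i ^ 2) ∧
      gp M i j y ≤ 1 := by
  have hV : ((WW M hM y)ᵀ).PosSemidef := (WW_psd M hM y).transpose
  have h1 := det_bound1 ((WW M hM y)ᵀ) hV (bb M hM y)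
  rw [← mat_rel, Matrix.det_mul, norm_mul, mul_pow] at h1
  have hHp : (1 + (WW M hM y)ᵀ).PosDef := Matrix.PosDef.one.add_posSemidef hV
  have h2 := det_le_re _ hHp
  have h2' := det_gap _ hHp i j
  have h3 : 0 < ((1 + (WW M hM y)ᵀ).map (fun z => ((z.re : ℝ) : ℂ))).det :=
    lt_of_lt_of_le hHp.det_pos h2
  have h4 := Complex.lt_def.1 h3
  simp only [Complex.zero_re, Complex.zero_im] at h4
  set D := ((1 + (WW M hM y)ᵀ).map (fun z => ((z.re : ℝ) : ℂ))).det with hD
  have h5 : ‖D‖ = D.re := by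
    have : D = ((D.re : ℝ) : ℂ) := by
      apply Complex.ext
      · simp
      · simp [← h4.2]
    rw [this, Complex.norm_real, Complex.ofReal_re, Real.norm_of_nonneg h4.1.le]
  rw [h5] at h1
  set g := ((1 + (WW M hM y)ᵀ) i j).im ^ 2 /
      (((1 + (WW M hM y)ᵀ) i i).re * ((1 + (WW M hM y)ᵀ) j j).re) with hg
  have hgp : gp M i j y ≤ g := (gap_le M hM y i j).resolve_right hij
  have hgp0 := gp_nonneg M hM i j y
  set P := ∏ i, (1 + bb M hM y i ^ 2) with hP
  have hP0 : 0 ≤ P := Finset.prod_nonneg (fun i _ => by positivity)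
  have hsq : (∏ i, Real.sqrt (1 + bb M hM y i ^ 2)) ^ 2 = P := by
    rw [← Finset.prod_pow]
    refine Finset.prod_congr rfl (fun i _ => ?_)
    rw [Real.sq_sqrt (by positivity)]
  set Q := ∏ i, Real.sqrt (1 + bb M hM y i ^ 2) with hQ
  have hQ0 : 0 ≤ Q := Finset.prod_nonneg (fun i _ => Real.sqrt_nonneg _)
  have hD2 : 0 < D.re ^ 2 := by have := h4.1; positivity
  have hg1 : g ≤ 1 := by
    have h6 : 0 < (1 + (WW M hM y)ᵀ).det.re := (Complex.lt_def.1 hHp.det_pos).1
    have h7 : 0 ≤ D.re ^ 2 * (1 - g) := le_trans (by positivity) h2'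
    have h8 : 0 ≤ 1 - g := by
      by_contra hcon
      have := mul_neg_of_pos_of_neg hD2 (not_le.1 hcon)
      linarith
    linarith
  have h6 : D.re ^ 2 * ‖(JC M hM y).det‖ ^ 2 ≤ D.re ^ 2 * ((1 - g) * P) := by
    calc _ ≤ (1 + (WW M hM y)ᵀ).det.re ^ 2 * P := h1
      _ ≤ (D.re ^ 2 * (1 - g)) * P := mul_le_mul_of_nonneg_right h2' hP0
      _ = _ := by ring
  have h7 : ‖(JC M hM y).det‖ ^ 2 ≤ (1 - g) * P := le_of_mul_le_mul_left h6 hD2
  refine ⟨?_, hgp.trans hg1⟩
  have h8 : ‖(JC M hM y).det‖ ^ 2 ≤ ((1 - gp M i j y / 2) * Q) ^ 2 := by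
    rw [mul_pow, hsq]
    refine h7.trans (mul_le_mul_of_nonneg_right ?_ hP0)
    nlinarith
  refine le_of_pow_le_pow_left₀ (by norm_num) ?_ h8
  have : 0 ≤ 1 - gp M i j y / 2 := by linarith
  positivity

theorem integrand_gap (M : Matrix ι ι ℂ) (hM : M.PosDef) (R : ℝ)
    (hR : ∀ z : ι → ℂ, (∏ i, ‖(M *ᵥ z) i‖ ^ 2) * (Fintype.card ι : ℝ) ^ Fintype.card ι ≤
      R * (star z ⬝ᵥ (M *ᵥ z)).re ^ Fintype.card ι) (y : ι → ℝ) (i j : ι) (hij : i ≠ j) :
    ‖Fx M hM y * (JC M hM y).det‖ ≤ R * (1 - gp M i j y / 2) := by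
  obtain ⟨h1, h2⟩ := JC_gap M hM y i j hij
  have h3 := Fx_bound M hM R hR y
  have h4 : 0 ≤ 1 - gp M i j y / 2 := by linarith
  rw [norm_mul]
  calc ‖Fx M hM y‖ * ‖(JC M hM y).det‖ ≤ ‖Fx M hM y‖ * ((1 - gp M i j y / 2) *
        ∏ i, Real.sqrt (1 + bb M hM y i ^ 2)) := mul_le_mul_of_nonneg_left h1 (norm_nonneg _)
    _ = (‖Fx M hM y‖ * ∏ i, Real.sqrt (1 + bb M hM y i ^ 2)) * (1 - gp M i j y / 2) := by ring
    _ ≤ _ := mul_le_mul_of_nonneg_right h3 h4

theorem ev_ux (y : ι → ℝ) (i : ι) : ev y i = ux y i := by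
  unfold ev ux
  congr 1
  ring

theorem im_sq (u : ℂ) : u.im ^ 2 = (‖u‖ ^ 2 - (u ^ 2).re) / 2 := by
  rw [← Complex.normSq_eq_norm_sq, Complex.normSq_apply, sq u, Complex.mul_re]
  ring

theorem gp_cont (M : Matrix ι ι ℂ) (i j : ι) : Continuous (gp M i j) := by
  unfold gp
  refine Continuous.div_const (Continuous.pow (Complex.continuous_im.comp ?_) 2) _
  simp_rw [ev_ux]
  exact ((Complex.continuous_conj.comp (ux_cont i)).mul continuous_const).mul (ux_cont j)

theorem gp_int (M : Matrix ι ι ℂ) (i j : ι) (hij : i ≠ j) :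
    ∫ y in box ι, gp M i j y = ‖M i j‖ ^ 2 /
      (2 * (((Fintype.card ι : ℝ) + 1) ^ 2 * ((M i i).re * (M j j).re))) := by
  set c := (((Fintype.card ι : ℝ) + 1) ^ 2 * ((M i i).re * (M j j).re)) with hc
  have h1 : ∀ y : ι → ℝ, gp M i j y = (‖M i j‖ ^ 2 - ((M i j) ^ 2 * ch (ee (i, j) + ee (i, j)) y).re) *
      (2 * c)⁻¹ := by
    intro y
    unfold gp
    rw [← hc, im_sq]
    have e1 : conj (ev y i) * M i j * ev y j = M i j * ch (ee (i, j)) y := by
      rw [← ux_ch, ev_ux, ev_ux]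
      ring
    have e2 : ‖ch (ee (i, j)) y‖ = 1 := by
      rw [← ux_ch, norm_mul, Complex.norm_conj, ux_norm, ux_norm, one_mul]
    rw [e1, norm_mul, e2, mul_one, mul_pow, sq (ch (ee (i, j)) y), ch_mul]
    rw [div_div, div_eq_mul_inv]
  simp_rw [h1]
  rw [integral_mul_const, integral_sub (cont_int _ continuous_const)]
  · have h2 : ∫ y in box ι, ((M i j) ^ 2 * ch (ee (i, j) + ee (i, j)) y).re = 0 := by
      have h3 : ∫ y in box ι, ((M i j) ^ 2 * ch (ee (i, j) + ee (i, j)) y).re =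
          (∫ y in box ι, (M i j) ^ 2 * ch (ee (i, j) + ee (i, j)) y).re := by
        have hI : Integrable (fun y : ι → ℝ => (M i j) ^ 2 * ch (ee (i, j) + ee (i, j)) y)
            ((volume : Measure (ι → ℝ)).restrict (box ι)) :=
          cont_int _ (continuous_const.mul (ch_cont (ee (i, j) + ee (i, j))))
        have := integral_re (𝕜 := ℂ) (μ := (volume : Measure (ι → ℝ)).restrict (box ι)) hI
        exact this
      rw [h3, integral_const_mul, int_ch, if_neg, mul_zero, Complex.zero_re]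
      intro h
      have h4 := (ee_add (i, j) (i, j) hij hij).1 h
      have h5 := congrArg Prod.fst h4
      exact hij h5
    rw [h2, setIntegral_const, vol_box]
    simp only [smul_eq_mul, one_mul, sub_zero]
    rw [div_eq_mul_inv]
  · refine cont_int _ (Complex.continuous_re.comp ?_)
    exact continuous_const.mul (ch_cont _)

/-- Theorem A with a gap for positive definite matrices -/
theorem perm_gap_pd (M : Matrix ι ι ℂ) (hM : M.PosDef) (R : ℝ)
    (hR : ∀ z : ι → ℂ, (∏ i, ‖(M *ᵥ z) i‖ ^ 2) * (Fintype.card ι : ℝ) ^ Fintype.card ι ≤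
      R * (star z ⬝ᵥ (M *ᵥ z)).re ^ Fintype.card ι) (i j : ι) (hij : i ≠ j) :
    ‖M.permanent‖ ≤ R * (1 - ‖M i j‖ ^ 2 /
      (4 * (((Fintype.card ι : ℝ) + 1) ^ 2 * ((M i i).re * (M j j).re)))) := by
  have h := integral_eq M hM 1
  rw [kron1_one] at h
  simp only [pow_one, Nat.factorial_one, Nat.cast_one, one_pow, one_mul] at h
  rw [h]
  have hc : Continuous (fun y : ι → ℝ => R * (1 - gp M i j y / 2)) :=
    continuous_const.mul (continuous_const.sub ((gp_cont M i j).div_const 2))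
  have h1 : ‖∫ y in box ι, Fx M hM y * (JC M hM y).det‖ ≤
      ∫ y in box ι, R * (1 - gp M i j y / 2) := by
    refine norm_integral_le_of_norm_le (cont_int _ hc) ?_
    exact Filter.Eventually.of_forall (fun y => integrand_gap M hM R hR y i j hij)
  refine h1.trans (le_of_eq ?_)
  rw [integral_const_mul, integral_sub (cont_int _ continuous_const)
    (cont_int _ ((gp_cont M i j).div_const 2)), integral_div, gp_int M i j hij, setIntegral_const,
    vol_box]
  congr 1
  simp only [smul_eq_mul, one_mul, mul_one]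
  generalize (((Fintype.card ι : ℝ) + 1) ^ 2 * ((M i i).re * (M j j).re)) = c
  rw [div_div, show 2 * c * 2 = 4 * c by ring]

end Pool.Agent.helper97.PER
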