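import Pool.Agent.helper97.PER.Z2
import Pool.Agent.helper97.PER.Y11

set_option linter.all false
set_option autoImplicit false

/-!
# Theorem A with a gap, and the growth of the permanents of copies (MP_2dd521_co)
-/

namespace Pool.Agent.helper97.PER

open MeasureTheory Finset Function
open scoped Real Topology Matrix ComplexConjugate ContDiff ComplexOrder
open Pool.Agent.helper80.LSZ (kron1 kron1_one)

section

variable {ι κ : Type*} [Fintype ι] [DecidableEq ι] [Fintype κ] [DecidableEq κ]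

/-- Theorem A with a gap for Gram matrices -/
theorem perm_gap (L : ι → κ → ℂ) (R : ℝ) (hR : 0 ≤ R) (hL : PB L R) (i j : ι) (hij : i ≠ j)
    (hi : 0 < (gm L i i).re) (hj : 0 < (gm L j j).re) :
    ‖(gm L).permanent‖ ≤ R * (1 - ‖gm L i j‖ ^ 2 /
      (4 * (((Fintype.card ι : ℝ) + 1) ^ 2 * ((gm L i i).re * (gm L j j).re)))) := by
  set Λ : ℝ := ∑ s, ∑ i, ‖L s i‖ with hΛ
  set m := Fintype.card ι with hm
  set G : ℝ → ℝ := fun ε => 1 - ‖gm L i j‖ ^ 2 /
      (4 * (((m : ℝ) + 1) ^ 2 * (((gm L i i).re + ε ^ 2) * ((gm L j j).re + ε ^ 2)))) with hG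
  -- the inequality for small `ε`
  have h1 : ∀ ε : ℝ, 0 < ε → ‖(gm L + ((ε ^ 2 : ℝ) : ℂ) • (1 : Matrix ι ι ℂ)).permanent‖ ≤
      (R + (((Λ + ε) ^ m) ^ 2 - (Λ ^ m) ^ 2) * (m : ℝ) ^ m) * G ε := by
    intro ε hε
    have h := perm_gap_pd (gm (Lp L ε)) (gm_Lp_pd L ε hε.ne')
      (R + (((Λ + ε) ^ m) ^ 2 - (Λ ^ m) ^ 2) * (m : ℝ) ^ m) (by
        intro z
        have h2 := PB_Lp L R hR hL ε hε.le (fun i => ∑ t, conj (Lp L ε t i) * z t)
        rw [gm_quad]
        simp_rw [gm_mulVec]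
        exact h2) i j hij
    rw [gm_Lp] at h
    have e1 : (gm L + ((ε ^ 2 : ℝ) : ℂ) • (1 : Matrix ι ι ℂ)) i j = gm L i j := by
      rw [Matrix.add_apply, Matrix.smul_apply, Matrix.one_apply_ne hij]
      simp
    have e2 : ∀ a, ((gm L + ((ε ^ 2 : ℝ) : ℂ) • (1 : Matrix ι ι ℂ)) a a).re =
        (gm L a a).re + ε ^ 2 := by
      intro a
      rw [Matrix.add_apply, Matrix.smul_apply, Matrix.one_apply_eq, smul_eq_mul, mul_one,
        Complex.add_re, Complex.ofReal_re]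
    rw [e1, e2, e2] at h
    exact h
  -- the limit
  have h2 : Filter.Tendsto (fun ε : ℝ =>
      ‖(gm L + ((ε ^ 2 : ℝ) : ℂ) • (1 : Matrix ι ι ℂ)).permanent‖) (𝓝[>] 0)
      (𝓝 ‖(gm L).permanent‖) := by
    have h3 : Continuous (fun ε : ℝ =>
        ‖(gm L + ((ε ^ 2 : ℝ) : ℂ) • (1 : Matrix ι ι ℂ)).permanent‖) := by
      refine Continuous.norm ?_
      unfold Matrix.permanent
      refine continuous_finset_sum _ (fun σ _ => continuous_finset_prod _ (fun s _ => ?_))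
      simp only [Matrix.add_apply, Matrix.smul_apply, smul_eq_mul]
      refine continuous_const.add (Continuous.mul ?_ continuous_const)
      exact Complex.continuous_ofReal.comp (continuous_pow 2)
    have h4 := (h3.tendsto 0).mono_left (nhdsWithin_le_nhds (s := Set.Ioi 0))
    simpa using h4
  have h3 : Filter.Tendsto (fun ε : ℝ =>
      (R + (((Λ + ε) ^ m) ^ 2 - (Λ ^ m) ^ 2) * (m : ℝ) ^ m) * G ε) (𝓝[>] 0)
      (𝓝 (R * (1 - ‖gm L i j‖ ^ 2 / (4 * (((m : ℝ) + 1) ^ 2 * ((gm L i i).re * (gm L j j).re)))))) := by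
    have h4 : Continuous G := by
      rw [hG]
      refine continuous_const.sub (Continuous.div continuous_const (by fun_prop) ?_)
      intro ε
      positivity
    have h5 : Continuous (fun ε : ℝ => (R + (((Λ + ε) ^ m) ^ 2 - (Λ ^ m) ^ 2) * (m : ℝ) ^ m) * G ε) :=
      (by fun_prop : Continuous (fun ε : ℝ => (R + (((Λ + ε) ^ m) ^ 2 - (Λ ^ m) ^ 2) * (m : ℝ) ^ m))).mul h4
    have h6 := (h5.tendsto 0).mono_left (nhdsWithin_le_nhds (s := Set.Ioi 0))
    simpa [hG] using h6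
  refine le_of_tendsto_of_tendsto h2 h3 ?_
  filter_upwards [self_mem_nhdsWithin] with ε hε
  exact h1 ε hε

/-- the growth with the gap -/
theorem growth_gap (M : Matrix ι ι ℂ) (hM : M.PosSemidef) (h1 : ∀ i, M i i = 1) (i j : ι)
    (hij : i ≠ j) (k : ℕ) (hk : 0 < k) :
    ((k * Fintype.card ι).factorial : ℝ) * M.permanent.re ^ k ≤
      (1 - ‖M i j‖ ^ 2 / (4 * ((Fintype.card ι : ℝ) + 1) ^ 2)) ^ k *
        ((((Fintype.card ι : ℝ) ^ Fintype.card ι) ^ k) * (kron1 k M).permanent.re) := by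
  obtain ⟨L, rfl⟩ := exists_gm M hM
  set m := Fintype.card ι with hm
  set P := (kron1 k (gm L)).permanent.re with hP
  have hP0 : 0 ≤ P := perm_re_nonneg _ (kron1_psd k _ (gm_psd L))
  set θ := ‖gm L i j‖ ^ 2 / (4 * ((m : ℝ) + 1) ^ 2) with hθ
  have hfac : (0 : ℝ) < ((k * m).factorial : ℝ) := by exact_mod_cast Nat.factorial_pos _
  set q : ℝ := (P / ((k * m).factorial : ℝ)) ^ ((k : ℝ)⁻¹) with hq
  have hDc : 0 ≤ P / ((k * m).factorial : ℝ) := by positivity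
  have hq0 : 0 ≤ q := Real.rpow_nonneg hDc _
  have hqp : q ^ k = P / ((k * m).factorial : ℝ) := Real.rpow_inv_natCast_pow hDc hk.ne'
  have hPB : PB L ((m : ℝ) ^ m * q) := by
    intro z
    have h2 := lower_copies L k z
    rw [← hm, ← hP] at h2
    have h3 : (∏ i, ‖lf L z i‖ ^ 2) ^ k ≤ (q * ns z ^ m) ^ k := by
      rw [mul_pow, hqp, div_mul_eq_mul_div, le_div_iff₀ hfac]
      linarith
    have h4 : ∏ i, ‖lf L z i‖ ^ 2 ≤ q * ns z ^ m :=
      le_of_pow_le_pow_left₀ hk.ne' (mul_nonneg hq0 (pow_nonneg (ns_nonneg z) _)) h3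
    calc _ ≤ (q * ns z ^ m) * (m : ℝ) ^ m := mul_le_mul_of_nonneg_right h4 (by positivity)
      _ = _ := by ring
  have h3 := perm_gap L _ (by positivity) hPB i j hij (by rw [h1]; simp) (by rw [h1]; simp)
  rw [h1, h1, ← hm] at h3
  simp only [Complex.one_re, mul_one] at h3
  rw [← hθ] at h3
  have h4 := (gm_perm_nonneg L).1
  have h5 : (gm L).permanent.re ≤ ‖(gm L).permanent‖ := Complex.re_le_norm _
  have h6 := pow_le_pow_left₀ h4 (h5.trans h3) k
  rw [mul_pow, mul_pow, hqp] at h6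
  calc ((k * m).factorial : ℝ) * (gm L).permanent.re ^ k ≤
      ((k * m).factorial : ℝ) * (((m : ℝ) ^ m) ^ k * (P / ((k * m).factorial : ℝ)) * (1 - θ) ^ k) :=
        mul_le_mul_of_nonneg_left h6 hfac.le
    _ = _ := by field_simp

/-- far from the identity: the growth beats the factorials -/
theorem far1 (M : Matrix ι ι ℂ) (hM : M.PosSemidef) (h1 : ∀ i, M i i = 1) (i j : ι)
    (hij : i ≠ j) (k : ℕ) (hk : 0 < k) (n : ℕ) (hn : 0 < n)
    (hL : (Real.exp 1 * √k) ^ Fintype.card ι *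
      (1 - ‖M i j‖ ^ 2 / (4 * ((Fintype.card ι : ℝ) + 1) ^ 2)) ^ k ≤ 1)
    (hθ : ‖M i j‖ ^ 2 / (4 * ((Fintype.card ι : ℝ) + 1) ^ 2) ≤ 1) :
    (((k.factorial : ℝ) ^ n) ^ Fintype.card ι * ((n : ℝ) ^ n) ^ (k * Fintype.card ι)) *
      M.permanent.re ^ (k * n) ≤ (kron1 (k * n) M).permanent.re := by
  have hm0 : 0 < Fintype.card ι := Fintype.card_pos_iff.2 ⟨i⟩
  set m := Fintype.card ι with hmdef
  set p := M.permanent.re with hp
  have hp0 : 0 ≤ p := perm_re_nonneg M hM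
  set K := k * n with hK
  have hK0 : 0 < K := Nat.mul_pos hk hn
  set P := (kron1 K M).permanent.re with hP
  have hP0 : 0 ≤ P := perm_re_nonneg _ (kron1_psd K M hM)
  have h := growth_gap M hM h1 i j hij K hK0
  rw [← hmdef, ← hP, ← hp] at h
  set θ := ‖M i j‖ ^ 2 / (4 * ((m : ℝ) + 1) ^ 2) with hθd
  have hm1 : (0 : ℝ) < m := by exact_mod_cast hm0
  set Λ := ((Real.exp 1 * √k) ^ m) ^ n with hΛ
  have h3 := fac_bound2 m n k hk
  rw [← hK, ← hΛ] at h3
  set Ω := ((k.factorial : ℝ) ^ n) ^ m * ((n : ℝ) ^ n) ^ (k * m) with hΩ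
  have hΛ2 : Λ * (1 - θ) ^ K ≤ 1 := by
    have h5 := pow_le_one₀ (n := n) (mul_nonneg (by positivity) (pow_nonneg (by linarith) k)) hL
    rw [mul_pow, ← pow_mul (1 - θ) k n] at h5
    exact h5
  have hΛ0 : 0 ≤ Λ := by positivity
  have h4 : (((m : ℝ) ^ m) ^ K) * (Ω * p ^ K) ≤ (((m : ℝ) ^ m) ^ K) * P := by
    calc _ = (Ω * ((m : ℝ) ^ m) ^ K) * p ^ K := by ring
      _ ≤ (((K * m).factorial : ℝ) * Λ) * p ^ K := mul_le_mul_of_nonneg_right h3 (by positivity)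
      _ = Λ * (((K * m).factorial : ℝ) * p ^ K) := by ring
      _ ≤ Λ * ((1 - θ) ^ K * ((((m : ℝ) ^ m) ^ K) * P)) := mul_le_mul_of_nonneg_left h hΛ0
      _ = (Λ * (1 - θ) ^ K) * ((((m : ℝ) ^ m) ^ K) * P) := by ring
      _ ≤ 1 * ((((m : ℝ) ^ m) ^ K) * P) := mul_le_mul_of_nonneg_right hΛ2 (by positivity)
      _ = _ := one_mul _
  exact le_of_mul_le_mul_left h4 (by positivity)

end

/-- the numbers -/
theorem num_far (m k : ℕ) (hm : 0 < m) (hk : (4 * m) ^ 8 ≤ k) (x : ℝ) (hx0 : 0 ≤ x)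
    (hx : 1 ≤ 16 * (m : ℝ) ^ 2 * x) (hθ : x ^ 2 / (4 * ((m : ℝ) + 1) ^ 2) ≤ 1) :
    (Real.exp 1 * √k) ^ m * (1 - x ^ 2 / (4 * ((m : ℝ) + 1) ^ 2)) ^ k ≤ 1 := by
  have hm1 : (1 : ℝ) ≤ m := by exact_mod_cast hm
  have hm0 : (0 : ℝ) < m := by linarith
  have hk0 : 0 < k := lt_of_lt_of_le (by positivity) hk
  have hkr : (0 : ℝ) < k := by exact_mod_cast hk0
  set θ := x ^ 2 / (4 * ((m : ℝ) + 1) ^ 2) with hθd
  -- the eighth root
  set u : ℝ := (k : ℝ) ^ ((8 : ℕ) : ℝ)⁻¹ with hu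
  have hu8 : u ^ 8 = k := Real.rpow_inv_natCast_pow hkr.le (by norm_num)
  have hu0 : 0 < u := Real.rpow_pos_of_pos hkr _
  have hum : 4 * (m : ℝ) ≤ u := by
    refine le_of_pow_le_pow_left₀ (n := 8) (by norm_num) hu0.le ?_
    rw [hu8]
    exact_mod_cast hk
  have hθ1 : 1 / (4096 * (m : ℝ) ^ 6) ≤ θ := by
    have h1 : 1 / (16 * (m : ℝ) ^ 2) ≤ x := by
      rw [div_le_iff₀ (by positivity)]
      linarith
    have h2 := pow_le_pow_left₀ (by positivity) h1 2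
    have h3 : 4 * ((m : ℝ) + 1) ^ 2 ≤ 16 * (m : ℝ) ^ 2 := by nlinarith
    have h4 : x ^ 2 / (16 * (m : ℝ) ^ 2) ≤ θ := by
      rw [hθd]
      exact div_le_div_of_nonneg_left (by positivity) (by positivity) h3
    refine le_trans ?_ h4
    rw [le_div_iff₀ (by positivity)]
    refine le_trans (le_of_eq ?_) h2
    field_simp
    norm_num
  -- `k θ ≥ 4 m u`
  have hkθ : 4 * (m : ℝ) * u ≤ k * θ := by
    have h1 : k * (1 / (4096 * (m : ℝ) ^ 6)) ≤ k * θ := mul_le_mul_of_nonneg_left hθ1 hkr.le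
    refine le_trans ?_ h1
    rw [mul_one_div, le_div_iff₀ (by positivity), ← hu8]
    have h2 := pow_le_pow_left₀ (by positivity) hum 7
    have h3 := mul_le_mul_of_nonneg_right h2 hu0.le
    calc 4 * (m : ℝ) * u * (4096 * (m : ℝ) ^ 6) = (4 * (m : ℝ)) ^ 7 * u := by ring
      _ ≤ u ^ 7 * u := h3
      _ = u ^ 8 := by ring
  -- the logarithm
  have hlog : Real.exp 1 * √k ≤ Real.exp (4 * u) := by
    have h1 : √(k : ℝ) = u ^ 4 := by
      rw [← hu8, show u ^ 8 = (u ^ 4) ^ 2 by ring, Real.sqrt_sq (by positivity)]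
    have h2 : u ≤ Real.exp (u - 1) := by
      have := Real.add_one_le_exp (u - 1)
      linarith
    have h3 := pow_le_pow_left₀ hu0.le h2 4
    rw [h1]
    calc Real.exp 1 * u ^ 4 ≤ Real.exp 1 * Real.exp (u - 1) ^ 4 :=
          mul_le_mul_of_nonneg_left h3 (Real.exp_pos 1).le
      _ = Real.exp (1 + 4 * (u - 1)) := by
          rw [← Real.exp_nat_mul, ← Real.exp_add]
          norm_num
      _ ≤ Real.exp (4 * u) := Real.exp_le_exp.2 (by linarith)
  have h1 : (Real.exp 1 * √k) ^ m ≤ Real.exp (4 * m * u) := by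
    refine (pow_le_pow_left₀ (by positivity) hlog m).trans (le_of_eq ?_)
    rw [← Real.exp_nat_mul]
    congr 1
    ring
  have h2 : (1 - θ) ^ k ≤ Real.exp (-(k * θ)) := by
    have h3 : 1 - θ ≤ Real.exp (-θ) := by
      have := Real.add_one_le_exp (-θ)
      linarith
    refine (pow_le_pow_left₀ (by linarith) h3 k).trans (le_of_eq ?_)
    rw [← Real.exp_nat_mul]
    congr 1
    ring
  calc (Real.exp 1 * √k) ^ m * (1 - θ) ^ k ≤ Real.exp (4 * m * u) * Real.exp (-(k * θ)) :=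
        mul_le_mul h1 h2 (pow_nonneg (by linarith) k) (Real.exp_pos _).le
    _ = Real.exp (4 * m * u - k * θ) := by rw [← Real.exp_add]; ring_nf
    _ ≤ Real.exp 0 := Real.exp_le_exp.2 (by linarith)
    _ = 1 := Real.exp_zero

end Pool.Agent.helper97.PER
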