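import Pool.Agent.helper97.PER.Z3

set_option linter.all false
set_option autoImplicit false

/-!
# The inequality of Lieb for blocks (MP_2dd521_co)
-/

namespace Pool.Agent.helper97.PER

open MeasureTheory Finset Function MvPolynomial
open scoped Real Topology Matrix ComplexConjugate ContDiff ComplexOrder
open Pool.Agent.helper80.LSZ (kron1 kron1_one W RR xr xr_cast pf gr E)
open Pool.Agent.helper16.Fock (nr ip T nr_mul n_top N_real nr_cast nr_nonneg)

variable {κ : Type*} [Fintype κ] [DecidableEq κ]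

/-- the product of the linear forms of a family -/
noncomputable def polG {S : Type*} [Fintype S] (L : S → κ → ℂ) : MvPolynomial κ ℂ :=
  ∏ s, ∑ i, C (L s i) * X i

theorem lin_hom (l : κ → ℂ) : (∑ a, C (l a) * X a : MvPolynomial κ ℂ).IsHomogeneous 1 := by
  apply IsHomogeneous.sum
  intro i _
  have := (isHomogeneous_C κ (l i)).mul (isHomogeneous_X ℂ i)
  simpa using this

theorem polG_hom {S : Type*} [Fintype S] (L : S → κ → ℂ) :
    (polG L).IsHomogeneous (Fintype.card S) := by
  have h := IsHomogeneous.prod (Finset.univ : Finset S) (fun s => ∑ i, C (L s i) * X i)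
    (fun _ => 1) (fun s _ => lin_hom (L s))
  simpa [polG] using h

theorem eval_polG {S : Type*} [Fintype S] [DecidableEq S] (L : S → κ → ℂ) (z : κ → ℂ) :
    eval z (polG L) = pf L z := by
  unfold polG pf
  simp

theorem nr_polG {S : Type*} [Fintype S] [DecidableEq S] (L : S → κ → ℂ) :
    nr (polG L) = (gm L).permanent.re := by
  rw [← W_one_eq]
  have h : ((nr (polG L) : ℝ) : ℂ) = ((W L 1 : ℝ) : ℂ) := by
    rw [nr_cast]
    unfold ip E W RR
    rw [← integral_complex_ofReal]
    congr 1
    ext z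
    show conj (eval z (polG L)) * eval z (polG L) * ((gr z : ℝ) : ℂ) = _
    rw [eval_polG, pow_zero, mul_one, Complex.ofReal_mul, Complex.ofReal_pow, xr_cast, pow_one]
    ring
  exact_mod_cast h

/-- the inequality of Lieb for polynomials -/
theorem lieb_block {m : ℕ} {p : MvPolynomial κ ℂ} (hp : p.IsHomogeneous m) (f : MvPolynomial κ ℂ) :
    nr p * nr f ≤ nr (p * f) := by
  rw [nr_mul hp f, Finset.sum_range_succ, n_top hp f]
  have h1 : 0 ≤ ∑ s ∈ Finset.range m, Pool.Agent.helper16.Fock.n s p f / (s.factorial : ℝ) :=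
    Finset.sum_nonneg (fun s _ => div_nonneg (N_real s p f).2 (Nat.cast_nonneg _))
  have h2 : (m.factorial : ℝ) * nr p * nr f / (m.factorial : ℝ) = nr p * nr f := by
    have : (m.factorial : ℝ) ≠ 0 := by exact_mod_cast Nat.factorial_ne_zero m
    field_simp
  rw [h2]
  linarith

theorem lieb_prod {ι : Type*} [DecidableEq ι] (Q : ι → MvPolynomial κ ℂ) (d : ι → ℕ)
    (hQ : ∀ i, (Q i).IsHomogeneous (d i)) (T : Finset ι) : ∀ {m : ℕ} {p : MvPolynomial κ ℂ},
    p.IsHomogeneous m → nr p * ∏ i ∈ T, nr (Q i) ≤ nr (p * ∏ i ∈ T, Q i) := by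
  induction T using Finset.induction_on with
  | empty =>
    intro m p _
    simp
  | insert i T hi ih =>
    intro m p hp
    rw [Finset.prod_insert hi, Finset.prod_insert hi, ← mul_assoc, ← mul_assoc]
    refine le_trans ?_ (ih (hp.mul (hQ i)))
    exact mul_le_mul_of_nonneg_right (lieb_block hp (Q i))
      (Finset.prod_nonneg (fun j _ => nr_nonneg (Q j)))

variable {ι J : Type*} [Fintype ι] [DecidableEq ι] [Fintype J] [DecidableEq J]

/-- the family of a tensor product -/
def FT {κ₁ κ₂ : Type*} (LM : ι → κ₂ → ℂ) (LA : J → κ₁ → ℂ) : ι × J → κ₁ × κ₂ → ℂ :=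
  fun s p => LM s.1 p.2 * LA s.2 p.1

theorem gm_FT {κ₁ κ₂ : Type*} [Fintype κ₁] [Fintype κ₂] (LM : ι → κ₂ → ℂ) (LA : J → κ₁ → ℂ) :
    gm (FT LM LA) = Matrix.kronecker (gm LM) (gm LA) := by
  ext s t
  simp only [gm, FT, Matrix.of_apply, Matrix.kronecker, Matrix.kroneckerMap_apply, map_mul]
  rw [Finset.sum_mul_sum, Fintype.sum_prod_type, Finset.sum_comm]
  refine Finset.sum_congr rfl (fun a _ => Finset.sum_congr rfl (fun b _ => ?_))
  ring

/-- the two rows of a pair -/
def ep (i j : ι) : Option Unit → ι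
  | none => i
  | some _ => j

/-- a pair against all the other rows -/
theorem pair_lieb (A : Matrix J J ℂ) (hA : A.PosSemidef) (M : Matrix ι ι ℂ) (hM : M.PosSemidef)
    (h1 : ∀ i, M i i = 1) (i j : ι) (hij : i ≠ j) :
    (Matrix.kronecker (M.submatrix (ep i j) (ep i j)) A).permanent.re *
      A.permanent.re ^ (Fintype.card ι - 2) ≤ (Matrix.kronecker M A).permanent.re := by
  obtain ⟨LM, rfl⟩ := exists_gm M hM
  obtain ⟨LA, rfl⟩ := exists_gm A hA
  set Q : ι → MvPolynomial (J × ι) ℂ := fun a => polG (fun s : J => FT LM LA (a, s)) with hQ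
  have hQh : ∀ a, (Q a).IsHomogeneous (Fintype.card J) := fun a => polG_hom _
  have e1 : polG (FT LM LA) = ∏ a, Q a := by
    unfold polG
    rw [Fintype.prod_prod_type]
    rfl
  have e2 : polG (FT (fun o => LM (ep i j o)) LA) = Q i * Q j := by
    unfold polG
    rw [Fintype.prod_prod_type, Fintype.prod_option]
    simp only [Finset.univ_unique, Finset.prod_singleton]
    rfl
  have hnQ : ∀ a, nr (Q a) = (gm LA).permanent.re := by
    intro a
    rw [hQ]
    simp only
    rw [nr_polG]
    congr 2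
    ext s t
    have := congrFun (congrFun (gm_FT LM LA) (a, s)) (a, t)
    rw [Matrix.kronecker, Matrix.kroneckerMap_apply, h1 a, one_mul] at this
    exact this
  have e3 : (Finset.univ : Finset ι) = insert i (insert j (Finset.univ \ {i, j})) := by
    ext a
    simp only [Finset.mem_univ, Finset.mem_insert, Finset.mem_sdiff, Finset.mem_singleton, true_and,
      true_iff]
    tauto
  have hcard : (Finset.univ \ {i, j} : Finset ι).card = Fintype.card ι - 2 := by
    rw [Finset.card_sdiff_of_subset (Finset.subset_univ _), Finset.card_univ,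
      Finset.card_pair hij]
  have h2 := lieb_prod Q (fun _ => Fintype.card J) hQh (Finset.univ \ {i, j})
    ((hQh i).mul (hQh j))
  have e4 : ∏ a, Q a = Q i * Q j * ∏ a ∈ Finset.univ \ {i, j}, Q a := by
    conv_lhs => rw [e3]
    rw [Finset.prod_insert (by simp [hij]), Finset.prod_insert (by simp), mul_assoc]
  rw [← e4, ← e1, ← e2, nr_polG, nr_polG, gm_FT, gm_FT] at h2
  simp_rw [hnQ] at h2
  rw [Finset.prod_const, hcard] at h2
  exact h2

end Pool.Agent.helper97.PER
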