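import Pool.Agent.helper97.PER.Z4
import Pool.Agent.helper97.PER.Y8

set_option linter.all false
set_option autoImplicit false

/-!
# The permanent of a pair of blocks: the terms of the expansion (MP_2dd521_co)
-/

namespace Pool.Agent.helper97.PER

open Finset Function
open scoped Real Topology Matrix ComplexConjugate ComplexOrder
open Pool.Agent.helper80.LSZ (kron1)
open Pool.Agent.helper16.LSZ (VV GG HH pp permanent_eq univ_inst fib mem_fib sum_FF
  GG_eq' GG_eq_zero VV_eq_zero VV_eq laplace_total GG_posSemidef VV_posSemidef perm_real star_T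
  star_expand pp_congr)

section abstract

variable {S T : Type*} [Fintype S] [DecidableEq S] [Fintype T] [DecidableEq T]

/-- the trace of a product of positive matrices of which one has few rows up to equality -/
theorem trace_types (V G : Matrix S S ℂ) (hV : V.PosSemidef) (hG : G.PosSemidef) (τ : S → T)
    (hτ : ∀ s s' r r', τ s = τ s' → τ r = τ r' → G s r = G s' r') :
    ∃ t : ℝ, (Vᵀ * (G * Vᵀ * G)).trace = (t : ℂ) ∧ ‖(Vᵀ * G).trace‖ ^ 2 ≤ Fintype.card T * t ∧
      0 ≤ t := by
  classical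
  let T' := {t : T // ∃ s, τ s = t}
  let ρ : T' → S := fun t => t.2.choose
  have hρ : ∀ t : T', τ (ρ t) = t.1 := fun t => t.2.choose_spec
  let τ' : S → T' := fun s => ⟨τ s, s, rfl⟩
  set G₀ : Matrix T' T' ℂ := G.submatrix ρ ρ with hG₀
  have hG₀p : G₀.PosSemidef := hG.submatrix ρ
  obtain ⟨C, hC⟩ := exists_fac' hG₀p
  set K : Matrix T' S ℂ := Matrix.of fun a s => C a (τ' s) with hK
  have hGK : G = Kᴴ * K := by
    ext s r
    have h1 : G s r = G₀ (τ' s) (τ' r) := hτ _ _ _ _ (hρ (τ' s)).symm (hρ (τ' r)).symm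
    rw [h1, hC, Matrix.mul_apply, Matrix.mul_apply]
    rfl
  set H : Matrix T' T' ℂ := K * Vᵀ * Kᴴ with hH
  have hHh : H.IsHermitian := by
    unfold Matrix.IsHermitian
    rw [hH, Matrix.conjTranspose_mul, Matrix.conjTranspose_mul, Matrix.conjTranspose_conjTranspose,
      (hV.1.transpose).eq, Matrix.mul_assoc]
  have e1 : (Vᵀ * (G * Vᵀ * G)).trace = (H * H).trace := by
    rw [hGK, hH]
    have : Vᵀ * (Kᴴ * K * Vᵀ * (Kᴴ * K)) = (Vᵀ * Kᴴ * K * Vᵀ * Kᴴ) * K := by
      simp only [Matrix.mul_assoc]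
    rw [this, Matrix.trace_mul_comm]
    simp only [Matrix.mul_assoc]
  have e2 : (Vᵀ * G).trace = H.trace := by
    rw [hGK, hH, ← Matrix.mul_assoc, Matrix.trace_mul_comm, Matrix.mul_assoc]
  refine ⟨∑ a, ∑ b, ‖H a b‖ ^ 2, ?_, ?_, ?_⟩
  · rw [e1, trace_herm H hHh]
  · rw [e2]
    have h1 : ‖H.trace‖ ≤ ∑ a, ‖H a a‖ := norm_sum_le _ _
    have h2 := pow_le_pow_left₀ (norm_nonneg _) h1 2
    have h3 : (∑ a, ‖H a a‖) ^ 2 ≤ (Fintype.card T' : ℝ) * ∑ a, ‖H a a‖ ^ 2 := by
      have := sq_sum_le_card_mul_sum_sq (s := (Finset.univ : Finset T')) (f := fun a => ‖H a a‖)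
      simpa using this
    have h4 : ∑ a, ‖H a a‖ ^ 2 ≤ ∑ a, ∑ b, ‖H a b‖ ^ 2 := by
      refine Finset.sum_le_sum (fun a _ => ?_)
      exact Finset.single_le_sum (f := fun b => ‖H a b‖ ^ 2) (fun b _ => by positivity)
        (Finset.mem_univ a)
    have h5 : (Fintype.card T' : ℝ) ≤ Fintype.card T := by
      exact_mod_cast Fintype.card_subtype_le _
    have h6 : 0 ≤ ∑ a, ∑ b, ‖H a b‖ ^ 2 :=
      Finset.sum_nonneg (fun a _ => Finset.sum_nonneg (fun b _ => by positivity))
    calc ‖H.trace‖ ^ 2 ≤ (Fintype.card T' : ℝ) * ∑ a, ‖H a a‖ ^ 2 := h2.trans h3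
      _ ≤ (Fintype.card T' : ℝ) * ∑ a, ∑ b, ‖H a b‖ ^ 2 :=
          mul_le_mul_of_nonneg_left h4 (Nat.cast_nonneg _)
      _ ≤ _ := mul_le_mul_of_nonneg_right h5 h6
  · exact Finset.sum_nonneg (fun a _ => Finset.sum_nonneg (fun b _ => by positivity))

end abstract

variable {J : Type*} [Fintype J] [DecidableEq J]

/-- the labelling of a subset -/
def lab (S : Finset J) : J → Option Unit := fun a => if a ∈ S then some () else none

theorem lab_some (S : Finset J) : fib (lab S) (some ()) = S := by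
  ext a
  rw [mem_fib]
  unfold lab
  split_ifs with h <;> simp [h]

theorem lab_none (S : Finset J) : fib (lab S) none = Sᶜ := by
  ext a
  rw [mem_fib, Finset.mem_compl]
  unfold lab
  split_ifs with h <;> simp [h]

theorem lab_bij : Bijective (lab : Finset J → (J → Option Unit)) := by
  constructor
  · intro S R h
    rw [← lab_some S, h, lab_some]
  · intro s
    refine ⟨fib s (some ()), ?_⟩
    funext a
    unfold lab
    have h2 := mem_fib s (some ()) a
    split_ifs with h
    · exact (h2.1 h).symm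
    · rcases hs : s a with _ | u
      · rfl
      · exact absurd (h2.2 hs) h

/-- the expansion of the permanent of a pair of blocks -/
theorem pair_expand (C : Matrix (Option Unit) (Option Unit) ℂ) (h0 : C none none = 1)
    (h1 : C (some ()) (some ()) = 1) (B : Matrix J J ℂ) :
    (Matrix.kronecker C B).permanent = ∑ S : Finset J,
      (C none (some ()) * C (some ()) none) ^ S.card * ∑ R : Finset J, VV B S R * HH B S R := by
  classical
  rw [permanent_eq]
  have h2 := star_expand C (fun k l h => absurd (Subsingleton.elim k l) h) B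
  refine (Eq.trans rfl (h2.trans ?_))
  rw [← Fintype.sum_bijective _ lab_bij _ _ (fun S => rfl)]
  refine Finset.sum_congr rfl fun S _ => ?_
  rw [← Fintype.sum_bijective _ lab_bij _ _ (fun S => rfl), Finset.mul_sum]
  refine Finset.sum_congr rfl fun R _ => ?_
  simp only [Finset.univ_unique, Finset.prod_singleton]
  have e : (some (default : Unit)) = some () := rfl
  rw [e, lab_none, lab_none, lab_some, lab_some, h0, h1, one_pow, one_pow, one_mul, mul_one,
    VV_compl]
  ring

/-- the Laplace expansion -/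
theorem laplace_set (B : Matrix J J ℂ) (S : Finset J) :
    ∑ R : Finset J, VV B S R * GG B S R = B.permanent := by
  rw [← laplace_total B (lab S), ← Fintype.sum_bijective _ lab_bij _ _ (fun S => rfl)]
  refine Finset.sum_congr rfl fun R _ => ?_
  rw [Fintype.prod_option]
  simp only [Finset.univ_unique, Finset.prod_singleton]
  have e : (some (default : Unit)) = some () := rfl
  rw [e, lab_none, lab_none, lab_some, lab_some, VV_compl]

/-- the term of `l` exchanges -/
noncomputable def Tl (B : Matrix J J ℂ) (l : ℕ) : ℂ :=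
  ∑ S ∈ Finset.powersetCard l (Finset.univ : Finset J), ∑ R : Finset J, VV B S R * HH B S R

theorem pair_expand_card (C : Matrix (Option Unit) (Option Unit) ℂ) (h0 : C none none = 1)
    (h1 : C (some ()) (some ()) = 1) (B : Matrix J J ℂ) :
    (Matrix.kronecker C B).permanent = ∑ l ∈ Finset.range (Fintype.card J + 1),
      (C none (some ()) * C (some ()) none) ^ l * Tl B l := by
  rw [pair_expand C h0 h1 B, ← Finset.powerset_univ, Finset.sum_powerset, Finset.card_univ]
  refine Finset.sum_congr rfl fun l _ => ?_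
  unfold Tl
  rw [Finset.mul_sum]
  refine Finset.sum_congr rfl fun S hS => ?_
  rw [(Finset.mem_powersetCard.1 hS).2, Finset.powerset_univ]

/-- subsets with `l` elements -/
abbrev Sl (J : Type*) [Fintype J] (l : ℕ) := {S : Finset J // S.card = l}

theorem sum_Sl (l : ℕ) (f : Finset J → ℂ) (hf : ∀ S : Finset J, S.card ≠ l → f S = 0) :
    ∑ S, f S = ∑ S : Sl J l, f S.1 := by
  symm
  refine Fintype.sum_of_injective (fun S : Sl J l => S.1) Subtype.val_injective
    (fun S => f S.1) f ?_ (fun S => rfl)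
  intro R hR
  refine hf R (fun h => hR ⟨⟨R, h⟩, rfl⟩)

theorem sum_Sl' (l : ℕ) (f : Finset J → ℂ) :
    ∑ S ∈ Finset.powersetCard l (Finset.univ : Finset J), f S = ∑ S : Sl J l, f S.1 := by
  refine Finset.sum_subtype _ (fun S => ?_) f
  rw [Finset.mem_powersetCard]
  simp

/-- the matrices on the subsets with `l` elements -/
noncomputable def VVl (B : Matrix J J ℂ) (l : ℕ) : Matrix (Sl J l) (Sl J l) ℂ :=
  (VV B).submatrix (fun S => S.1) (fun S => S.1)

noncomputable def GGl (B : Matrix J J ℂ) (l : ℕ) : Matrix (Sl J l) (Sl J l) ℂ :=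
  (GG B).submatrix (fun S => S.1) (fun S => S.1)

theorem HH_l (B : Matrix J J ℂ) (l : ℕ) (S R : Sl J l) :
    HH B S.1 R.1 = (GGl B l * (VVl B l)ᵀ * GGl B l) S R := by
  unfold HH
  rw [Matrix.mul_apply, Matrix.mul_apply, sum_Sl l]
  · refine Finset.sum_congr rfl fun T _ => ?_
    congr 1
    rw [Matrix.mul_apply, Matrix.mul_apply, sum_Sl l]
    · rfl
    · intro U hU
      rw [GG_eq_zero _ _ _ (by rw [S.2]; exact hU.symm), zero_mul]
  · intro T hT
    rw [GG_eq_zero _ _ _ (by rw [R.2]; exact hT), mul_zero]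

theorem Tl_eq (B : Matrix J J ℂ) (l : ℕ) :
    Tl B l = ((VVl B l)ᵀ * (GGl B l * (VVl B l)ᵀ * GGl B l)).trace := by
  unfold Tl
  rw [sum_Sl']
  have h1 : ∀ S : Sl J l, ∑ R : Finset J, VV B S.1 R * HH B S.1 R =
      ∑ R : Sl J l, VVl B l S R * (GGl B l * (VVl B l)ᵀ * GGl B l) S R := by
    intro S
    rw [sum_Sl l]
    · refine Finset.sum_congr rfl fun R _ => ?_
      rw [HH_l]
      rfl
    · intro R hR
      rw [VV_eq_zero _ _ _ (by rw [S.2]; exact hR.symm), zero_mul]
  simp_rw [h1]
  rw [Finset.sum_comm]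
  unfold Matrix.trace
  refine Finset.sum_congr rfl fun R _ => ?_
  rw [Matrix.diag_apply, Matrix.mul_apply]
  rfl

theorem trace_l (B : Matrix J J ℂ) (l : ℕ) :
    ((VVl B l)ᵀ * GGl B l).trace = ((Fintype.card J).choose l : ℂ) * B.permanent := by
  unfold Matrix.trace
  simp only [Matrix.diag_apply, Matrix.mul_apply]
  rw [Finset.sum_comm]
  have h1 : ∀ S : Sl J l, ∑ R : Sl J l, (VVl B l)ᵀ R S * GGl B l S R = B.permanent := by
    intro S
    rw [← laplace_set B S.1, sum_Sl l]
    · rfl
    · intro R hR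
      rw [VV_eq_zero _ _ _ (by rw [S.2]; exact hR.symm), zero_mul]
  simp_rw [h1]
  rw [Finset.sum_const, Finset.card_univ, nsmul_eq_mul]
  congr 1
  rw [Fintype.card_finset_len]

/-- the bound of the term of `l` exchanges by the number of types -/
theorem Tl_low (B : Matrix J J ℂ) (hB : B.PosSemidef) (l : ℕ) {T : Type*} [Fintype T]
    [DecidableEq T] (τ : Sl J l → T)
    (hτ : ∀ s s' r r' : Sl J l, τ s = τ s' → τ r = τ r' → GG B s.1 r.1 = GG B s'.1 r'.1) :
    ∃ t : ℝ, Tl B l = (t : ℂ) ∧ 0 ≤ t ∧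
      (((Fintype.card J).choose l : ℝ) * B.permanent.re) ^ 2 ≤ Fintype.card T * t := by
  obtain ⟨hpr, hp⟩ := perm_real B hB
  obtain ⟨t, h1, h2, h3⟩ := trace_types (VVl B l) (GGl B l) ((VV_posSemidef B hB).submatrix _)
    ((GG_posSemidef B hB).submatrix _) τ hτ
  refine ⟨t, by rw [Tl_eq, h1], h3, ?_⟩
  rw [trace_l, hpr, norm_mul, Complex.norm_natCast, Complex.norm_real,
    Real.norm_of_nonneg hp] at h2
  exact h2

end Pool.Agent.helper97.PER
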