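import Pool.Agent.helper97.PER.Z5

set_option linter.all false
set_option autoImplicit false

/-!
# The permanent of a pair of blown up blocks (MP_2dd521_co)
-/

namespace Pool.Agent.helper97.PER

open Finset Function
open scoped Real Topology Matrix ComplexConjugate ComplexOrder
open Pool.Agent.helper80.LSZ (kron1)
open Pool.Agent.helper16.LSZ (VV GG HH pp perm_real pp_congr)

theorem equiv_of_fib {α β γ : Type*} [Fintype α] [Fintype β] [DecidableEq γ] (f : α → γ)
    (g : β → γ) (h : ∀ c, Fintype.card {a // f a = c} = Fintype.card {b // g b = c}) :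
    ∃ u : α ≃ β, ∀ a, g (u a) = f a := by
  let E : ∀ c, {a // f a = c} ≃ {b // g b = c} := fun c => Fintype.equivOfCardEq (h c)
  refine ⟨(Equiv.sigmaFiberEquiv f).symm.trans ((Equiv.sigmaCongrRight E).trans
    (Equiv.sigmaFiberEquiv g)), ?_⟩
  intro a
  exact (E (f a) ⟨a, rfl⟩).2

/-- the type of a subset of `Fin k × Fin n` -/
def ty (k n l : ℕ) (S : Sl (Fin k × Fin n) l) : Sym (Fin n) l :=
  ⟨S.1.val.map Prod.snd, by rw [Multiset.card_map]; exact S.2⟩

theorem card_fib (k n : ℕ) (S : Finset (Fin k × Fin n)) (c : Fin n) :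
    Fintype.card {a : {x // x ∈ S} // a.1.2 = c} = Multiset.count c (S.val.map Prod.snd) := by
  rw [Fintype.card_congr (Equiv.subtypeSubtypeEquivSubtypeInter (fun x => x ∈ S)
    (fun x : Fin k × Fin n => x.2 = c)), Fintype.card_of_subtype (S.filter (fun x => x.2 = c))
    (fun x => by simp), Multiset.count_map, Finset.card_def, Finset.filter_val]
  congr 1
  refine Multiset.filter_congr (fun x _ => ?_)
  exact eq_comm

theorem ty_equiv (k n l : ℕ) (s s' : Sl (Fin k × Fin n) l) (h : ty k n l s = ty k n l s') :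
    ∃ u : {x // x ∈ s.1} ≃ {x // x ∈ s'.1}, ∀ a, (u a).1.2 = a.1.2 := by
  have h1 : s.1.val.map Prod.snd = s'.1.val.map Prod.snd := congrArg Subtype.val h
  exact equiv_of_fib (fun a : {x // x ∈ s.1} => a.1.2) (fun a : {x // x ∈ s'.1} => a.1.2)
    (fun c => by rw [card_fib, card_fib, h1])

theorem GG_ty (k n l : ℕ) (A : Matrix (Fin n) (Fin n) ℂ) (s s' r r' : Sl (Fin k × Fin n) l)
    (hs : ty k n l s = ty k n l s') (hr : ty k n l r = ty k n l r') :
    GG (kron1 k A) s.1 r.1 = GG (kron1 k A) s'.1 r'.1 := by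
  obtain ⟨u, hu⟩ := ty_equiv k n l s s' hs
  obtain ⟨v, hv⟩ := ty_equiv k n l r r' hr
  unfold GG
  refine pp_congr _ _ _ _ _ _ u v ?_
  intro i j
  simp only [kron1, Matrix.kronecker, Matrix.kroneckerMap_apply]
  rw [hu, hv]
  rfl

/-- the term of `l` exchanges for a blow-up -/
theorem Tl_kron1 (k n l : ℕ) (A : Matrix (Fin n) (Fin n) ℂ) (hA : A.PosSemidef) :
    ∃ t : ℝ, Tl (kron1 k A) l = (t : ℂ) ∧ 0 ≤ t ∧
      (((k * n).choose l : ℝ) * (kron1 k A).permanent.re) ^ 2 ≤ (n.multichoose l : ℝ) * t := by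
  obtain ⟨t, h1, h2, h3⟩ := Tl_low (kron1 k A) (kron1_psd k A hA) l (ty k n l)
    (fun s s' r r' hs hr => GG_ty k n l A s s' r r' hs hr)
  refine ⟨t, h1, h2, ?_⟩
  rw [Sym.card_sym_fin_eq_multichoose] at h3
  simpa using h3

/-- a lower bound for a pair -/
theorem pair_low (C : Matrix (Option Unit) (Option Unit) ℂ) (h0 : C none none = 1)
    (h1 : C (some ()) (some ()) = 1) (x : ℝ) (hx : C none (some ()) * C (some ()) none = (x : ℂ) ^ 2)
    (k n : ℕ) (A : Matrix (Fin n) (Fin n) ℂ) (hA : A.PosSemidef) (l : ℕ) (hl : 1 ≤ l)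
    (hlN : l ≤ k * n) (c : ℝ)
    (hc : c * (n.multichoose l : ℝ) ≤ x ^ (2 * l) * ((k * n).choose l : ℝ) ^ 2)
    (hpos : 0 < (n.multichoose l : ℝ)) :
    (1 + c) * (kron1 k A).permanent.re ^ 2 ≤
      (Matrix.kronecker C (kron1 k A)).permanent.re := by
  choose t ht1 ht2 ht3 using fun l => Tl_kron1 k n l A hA
  have hcard : Fintype.card (Fin k × Fin n) = k * n := by simp
  have e : (Matrix.kronecker C (kron1 k A)).permanent =
      ((∑ j ∈ Finset.range (k * n + 1), x ^ (2 * j) * t j : ℝ) : ℂ) := by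
    rw [pair_expand_card C h0 h1 (kron1 k A), hcard, hx]
    push_cast
    refine Finset.sum_congr rfl (fun j _ => ?_)
    rw [ht1 j, pow_mul]
  rw [e, Complex.ofReal_re]
  set p := (kron1 k A).permanent.re with hp
  have hpe : ∀ j, 0 ≤ x ^ (2 * j) := fun j => by rw [pow_mul]; positivity
  have hsub : ({0, l} : Finset ℕ) ⊆ Finset.range (k * n + 1) := by
    intro j hj
    simp only [Finset.mem_insert, Finset.mem_singleton] at hj
    rw [Finset.mem_range]
    omega
  have h2 := Finset.sum_le_sum_of_subset_of_nonneg (f := fun j => x ^ (2 * j) * t j) hsub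
    (fun j _ _ => mul_nonneg (hpe j) (ht2 j))
  refine le_trans ?_ h2
  rw [Finset.sum_pair (by omega)]
  have e0 : p ^ 2 ≤ t 0 := by
    have := ht3 0
    simpa using this
  have el : c * p ^ 2 ≤ x ^ (2 * l) * t l := by
    have h4 : c * p ^ 2 * (n.multichoose l : ℝ) ≤ (x ^ (2 * l) * t l) * (n.multichoose l : ℝ) := by
      calc c * p ^ 2 * (n.multichoose l : ℝ) = (c * (n.multichoose l : ℝ)) * p ^ 2 := by ring
        _ ≤ (x ^ (2 * l) * ((k * n).choose l : ℝ) ^ 2) * p ^ 2 :=
            mul_le_mul_of_nonneg_right hc (by positivity)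
        _ = x ^ (2 * l) * (((k * n).choose l : ℝ) * p) ^ 2 := by ring
        _ ≤ x ^ (2 * l) * ((n.multichoose l : ℝ) * t l) :=
            mul_le_mul_of_nonneg_left (ht3 l) (hpe l)
        _ = _ := by ring
    exact le_of_mul_le_mul_right h4 hpos
  simp only [Nat.mul_zero, pow_zero, one_mul]
  linarith

/-- the choice of the number of exchanges -/
theorem num_near (m k n : ℕ) (hm : 0 < m) (hn : 0 < n) (hk : 60 * m ^ 2 ≤ k) (x : ℝ) (hx0 : 0 ≤ x)
    (hx : 16 * (m : ℝ) ^ 2 * x ≤ 1) : ∃ (l : ℕ) (c : ℝ), 1 ≤ l ∧ l ≤ k * n ∧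
      c * (n.multichoose l : ℝ) ≤ x ^ (2 * l) * ((k * n).choose l : ℝ) ^ 2 ∧
      Real.exp (2 * (m : ℝ) ^ 2 * x ^ 2 * (k * n : ℕ)) ≤ 1 + c := by
  have hm1 : (1 : ℝ) ≤ m := by exact_mod_cast hm
  have hm0 : (0 : ℝ) < m := by linarith
  have hn1 : (1 : ℝ) ≤ n := by exact_mod_cast hn
  have hkr : 60 * (m : ℝ) ^ 2 ≤ k := by exact_mod_cast hk
  have hk0 : (0 : ℝ) < k := by nlinarith
  set N : ℕ := k * n with hN
  have hNr : (N : ℝ) = k * n := by rw [hN]; push_cast; rfl
  have hNpos : (0 : ℝ) < N := by rw [hNr]; positivity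
  have hN1 : 1 ≤ N := by exact_mod_cast hNpos
  set y := 2 * (m : ℝ) ^ 2 * x ^ 2 * (N : ℕ) with hy
  have hy0 : 0 ≤ y := by positivity
  rcases le_or_gt y 1 with hy1 | hy1
  · refine ⟨1, 2 * y, le_rfl, hN1, ?_, ?_⟩
    · rw [Nat.multichoose_one_right, Nat.choose_one_right]
      have h1 : 4 * (m : ℝ) ^ 2 ≤ k := by nlinarith
      calc 2 * y * (n : ℝ) = (4 * (m : ℝ) ^ 2) * n * (x ^ 2 * N) := by rw [hy]; ring
        _ ≤ k * n * (x ^ 2 * N) := by
            refine mul_le_mul_of_nonneg_right ?_ (by positivity)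
            exact mul_le_mul_of_nonneg_right h1 (by linarith)
        _ = x ^ (2 * 1) * (N : ℝ) ^ 2 := by rw [← hNr]; ring
    · have h1 := Real.abs_exp_sub_one_sub_id_le (x := y) (by rw [abs_of_nonneg hy0]; exact hy1)
      have h2 := (abs_le.1 h1).2
      nlinarith
  · set l := ⌈y⌉₊ with hl
    have hl1 : y ≤ l := Nat.le_ceil y
    have hl2 : (l : ℝ) < y + 1 := Nat.ceil_lt_add_one hy0
    have hl3 : (l : ℝ) ≤ 2 * y := by linarith
    have hl0 : 1 ≤ l := Nat.one_le_iff_ne_zero.2 (fun h => by rw [h] at hl1; norm_num at hl1; linarith)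
    have hlr : (1 : ℝ) ≤ l := by exact_mod_cast hl0
    have hx2 : 256 * (m : ℝ) ^ 4 * x ^ 2 ≤ 1 := by
      have h1 := pow_le_pow_left₀ (by positivity) hx 2
      nlinarith
    have hmx : 4 * (m : ℝ) ^ 2 * x ^ 2 ≤ 1 / 64 := by
      have h1 : (m : ℝ) ^ 2 ≤ (m : ℝ) ^ 4 := pow_le_pow_right₀ hm1 (by norm_num)
      have h2 := mul_le_mul_of_nonneg_right h1 (sq_nonneg x)
      linarith
    have hlN : (l : ℝ) ≤ N / 64 := by
      have h1 := mul_le_mul_of_nonneg_right hmx hNpos.le
      rw [hy] at hl3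
      linarith
    have hlN' : l ≤ N := by
      have : (l : ℝ) ≤ N := by linarith
      exact_mod_cast this
    refine ⟨l, Real.exp l, hl0, hlN', ?_, ?_⟩
    · -- the main inequality
      have hfac : (0 : ℝ) < (l.factorial : ℝ) := by exact_mod_cast Nat.factorial_pos l
      have h1 : ((n.multichoose l : ℕ) : ℝ) * (l.factorial : ℝ) ≤ ((n : ℝ) + l) ^ l := by
        rw [Nat.multichoose_eq]
        have h2 : (l.factorial) * (n + l - 1).choose l ≤ (n + l - 1) ^ l := by
          rw [← Nat.descFactorial_eq_factorial_mul_choose]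
          exact Nat.descFactorial_le_pow _ _
        have h3 : (n + l - 1) ^ l ≤ (n + l) ^ l := Nat.pow_le_pow_left (by omega) l
        have h4 : (l.factorial) * (n + l - 1).choose l ≤ (n + l) ^ l := h2.trans h3
        have h5 : ((l.factorial : ℝ)) * ((n + l - 1).choose l : ℝ) ≤ ((n : ℝ) + l) ^ l := by
          exact_mod_cast h4
        linarith
      have h2 : ((N : ℝ) * (63 / 64)) ^ l ≤ (l.factorial : ℝ) * (N.choose l : ℝ) := by
        have h3 := Nat.pow_sub_le_descFactorial N l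
        rw [Nat.descFactorial_eq_factorial_mul_choose] at h3
        have h4 : ((N + 1 - l : ℕ) : ℝ) ^ l ≤ (l.factorial : ℝ) * (N.choose l : ℝ) := by
          exact_mod_cast h3
        refine le_trans (pow_le_pow_left₀ (by positivity) ?_ l) h4
        rw [Nat.cast_sub (by omega)]
        push_cast
        linarith
      have h3 : (l.factorial : ℝ) ≤ (l : ℝ) ^ l := by exact_mod_cast Nat.factorial_le_pow l
      have hx0' : 0 < x := by
        rcases eq_or_lt_of_le hx0 with h | h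
        · exfalso
          rw [hy, ← h] at hy1
          norm_num at hy1
        · exact h
      have key : Real.exp 1 * (((n : ℝ) + l) * l) ≤ x ^ 2 * ((N : ℝ) * (63 / 64)) ^ 2 := by
        have he : Real.exp 1 < 2.7182818286 := Real.exp_one_lt_d9
        have h4 : (l : ℝ) ≤ 4 * (m : ℝ) ^ 2 * x ^ 2 * N := by rw [hy] at hl3; linarith
        have h5 : (n : ℝ) ≤ N / (60 * (m : ℝ) ^ 2) := by
          rw [le_div_iff₀ (by positivity), hNr]
          nlinarith
        have h6 : ((n : ℝ) + l) * l ≤ (N / (60 * (m : ℝ) ^ 2) + 4 * (m : ℝ) ^ 2 * x ^ 2 * N) *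
            (4 * (m : ℝ) ^ 2 * x ^ 2 * N) :=
          mul_le_mul (add_le_add h5 h4) h4 (by positivity) (by positivity)
        have h7 : (N / (60 * (m : ℝ) ^ 2) + 4 * (m : ℝ) ^ 2 * x ^ 2 * N) *
            (4 * (m : ℝ) ^ 2 * x ^ 2 * N) = (1 / 15 + 16 * (m : ℝ) ^ 4 * x ^ 2) * (x ^ 2 * (N : ℝ) ^ 2) := by
          field_simp
          ring
        have h8 : (1 / 15 + 16 * (m : ℝ) ^ 4 * x ^ 2) ≤ 1 / 15 + 1 / 16 := by linarith
        have h9 : 0 < x ^ 2 * (N : ℝ) ^ 2 := by positivity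
        have h10 : ((n : ℝ) + l) * l ≤ (1 / 15 + 1 / 16) * (x ^ 2 * (N : ℝ) ^ 2) := by
          rw [h7] at h6
          exact h6.trans (mul_le_mul_of_nonneg_right h8 h9.le)
        have h11 : 0 ≤ ((n : ℝ) + l) * l := by positivity
        nlinarith [Real.exp_pos 1]
      have h4 := pow_le_pow_left₀ (by positivity) key l
      -- multiply by the square of the factorial
      have h5 : (Real.exp l * (n.multichoose l : ℝ)) * (l.factorial : ℝ) ^ 2 ≤
          (x ^ (2 * l) * (N.choose l : ℝ) ^ 2) * (l.factorial : ℝ) ^ 2 := by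
        calc (Real.exp l * (n.multichoose l : ℝ)) * (l.factorial : ℝ) ^ 2 =
            Real.exp l * ((((n.multichoose l : ℕ) : ℝ) * (l.factorial : ℝ)) * (l.factorial : ℝ)) := by ring
          _ ≤ Real.exp l * (((n : ℝ) + l) ^ l * (l : ℝ) ^ l) := by
              refine mul_le_mul_of_nonneg_left ?_ (Real.exp_pos _).le
              exact mul_le_mul h1 h3 hfac.le (by positivity)
          _ = (Real.exp 1 * (((n : ℝ) + l) * l)) ^ l := by
              rw [mul_pow, mul_pow, ← Real.exp_nat_mul, mul_one]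
          _ ≤ (x ^ 2 * ((N : ℝ) * (63 / 64)) ^ 2) ^ l := h4
          _ = x ^ (2 * l) * (((N : ℝ) * (63 / 64)) ^ l) ^ 2 := by
              rw [mul_pow, ← pow_mul, ← pow_mul, ← pow_mul, mul_comm l 2]
          _ ≤ x ^ (2 * l) * ((l.factorial : ℝ) * (N.choose l : ℝ)) ^ 2 := by
              refine mul_le_mul_of_nonneg_left ?_ (by positivity)
              exact pow_le_pow_left₀ (by positivity) h2 2
          _ = _ := by ring
      exact le_of_mul_le_mul_right h5 (by positivity)
    · have h1 : Real.exp y ≤ Real.exp l := Real.exp_le_exp.2 hl1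
      linarith

end Pool.Agent.helper97.PER
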