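import Pool.Agent.helper97.PER.Z6

set_option linter.all false
set_option autoImplicit false

/-!
# The permanent near the identity (MP_2dd521_co)
-/

namespace Pool.Agent.helper97.PER

open Finset Function
open scoped Real Topology Matrix ComplexConjugate ComplexOrder

variable {ι : Type*} [Fintype ι] [DecidableEq ι]

theorem card_supp (S : Finset ι) :
    (Finset.univ.filter (fun σ : Equiv.Perm ι => σ.support = S)).card ≤ (S.card).factorial := by
  have h1 : (Finset.univ.filter (fun σ : Equiv.Perm ι => σ.support = S)).card ≤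
      (Finset.univ.filter (fun σ : Equiv.Perm ι => ∀ a, ¬ a ∈ S → σ a = a)).card := by
    refine Finset.card_le_card (fun σ hσ => ?_)
    rw [Finset.mem_filter] at hσ ⊢
    refine ⟨Finset.mem_univ _, fun a ha => ?_⟩
    rw [← hσ.2] at ha
    exact Equiv.Perm.notMem_support.1 ha
  refine h1.trans (le_of_eq ?_)
  rw [← Fintype.card_subtype, ← Fintype.card_congr (Equiv.Perm.subtypeEquivSubtypePerm
    (fun a => a ∈ S)), Fintype.card_perm, Fintype.card_coe]

/-- the permanent of a matrix with unit diagonal and small entries off the diagonal -/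
theorem perm_up2 (M : Matrix ι ι ℂ) (h1 : ∀ i, M i i = 1) (x : ℝ) (hx0 : 0 ≤ x)
    (hx : ∀ i j, i ≠ j → ‖M i j‖ ≤ x) (hmx : (Fintype.card ι : ℝ) * x ≤ 1 / 2) :
    ‖M.permanent‖ ≤ 1 + 2 * ((Fintype.card ι : ℝ) * x) ^ 2 := by
  set m := Fintype.card ι with hm
  have e1 : ‖M.permanent‖ ≤ ∑ σ : Equiv.Perm ι, x ^ σ.support.card := by
    unfold Matrix.permanent
    refine (norm_sum_le _ _).trans (Finset.sum_le_sum (fun σ _ => ?_))
    rw [norm_prod, ← Finset.prod_subset (Finset.subset_univ σ.support)]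
    · rw [← Finset.prod_const]
      refine Finset.prod_le_prod (fun i _ => norm_nonneg _) (fun i hi => ?_)
      exact hx _ _ (Equiv.Perm.mem_support.1 hi)
    · intro i _ hi
      rw [Equiv.Perm.notMem_support.1 hi, h1, norm_one]
  let g : ℕ → ℝ := fun j => match j with
    | 0 => 1
    | 1 => 0
    | j + 2 => ((j + 2).factorial : ℝ) * x ^ (j + 2)
  have e2 : ∑ σ : Equiv.Perm ι, x ^ σ.support.card =
      ∑ S : Finset ι, ∑ σ ∈ Finset.univ.filter (fun σ : Equiv.Perm ι => σ.support = S),
        x ^ σ.support.card :=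
    (Finset.sum_fiberwise_of_maps_to (fun σ _ => Finset.mem_univ _) _).symm
  have e3 : ∀ S : Finset ι, ∑ σ ∈ Finset.univ.filter (fun σ : Equiv.Perm ι => σ.support = S),
        x ^ σ.support.card ≤ g S.card := by
    intro S
    have e4 : ∑ σ ∈ Finset.univ.filter (fun σ : Equiv.Perm ι => σ.support = S),
        x ^ σ.support.card =
        ((Finset.univ.filter (fun σ : Equiv.Perm ι => σ.support = S)).card : ℝ) * x ^ S.card := by
      rw [Finset.sum_congr rfl (g := fun _ => x ^ S.card), Finset.sum_const, nsmul_eq_mul]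
      intro σ hσ
      rw [(Finset.mem_filter.1 hσ).2]
    rw [e4]
    have h2 := card_supp S
    have h3 : ((Finset.univ.filter (fun σ : Equiv.Perm ι => σ.support = S)).card : ℝ) ≤
        ((S.card).factorial : ℝ) := by exact_mod_cast h2
    rcases hc : S.card with _ | _ | j
    · rw [hc] at h3
      simpa [g] using h3
    · have h4 : (Finset.univ.filter (fun σ : Equiv.Perm ι => σ.support = S)) = ∅ := by
        rw [Finset.filter_eq_empty_iff]
        intro σ _ h
        have h5 := Equiv.Perm.card_support_ne_one σ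
        rw [h, hc] at h5
        exact h5 rfl
      rw [h4]
      simp [g]
    · rw [hc] at h3
      exact mul_le_mul_of_nonneg_right h3 (by positivity)
  have e5 : ∑ S : Finset ι, g S.card = ∑ j ∈ Finset.range (m + 1), (m.choose j : ℝ) * g j := by
    have := Finset.sum_powerset_apply_card g (x := (Finset.univ : Finset ι))
    rw [Finset.powerset_univ, Finset.card_univ] at this
    rw [this]
    refine Finset.sum_congr rfl (fun j _ => ?_)
    rw [nsmul_eq_mul]
  have hmx0 : 0 ≤ (m : ℝ) * x := by positivity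
  let h : ℕ → ℝ := fun j => match j with
    | 0 => 1
    | 1 => 0
    | j + 2 => ((m : ℝ) * x) ^ 2 * (1 / 2) ^ j
  have h0 : ∀ j, 0 ≤ h j := by
    intro j
    rcases j with _ | _ | j
    · exact zero_le_one
    · exact le_rfl
    · show 0 ≤ ((m : ℝ) * x) ^ 2 * (1 / 2) ^ j
      positivity
  have e6 : ∀ j, (m.choose j : ℝ) * g j ≤ h j := by
    intro j
    rcases j with _ | _ | j
    · simp [g, h]
    · simp [g, h]
    · show (m.choose (j + 2) : ℝ) * (((j + 2).factorial : ℝ) * x ^ (j + 2)) ≤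
        ((m : ℝ) * x) ^ 2 * (1 / 2) ^ j
      have h2 : (j + 2).factorial * m.choose (j + 2) ≤ m ^ (j + 2) := by
        rw [← Nat.descFactorial_eq_factorial_mul_choose]
        exact Nat.descFactorial_le_pow _ _
      have h3 : ((j + 2).factorial : ℝ) * (m.choose (j + 2) : ℝ) ≤ (m : ℝ) ^ (j + 2) := by
        exact_mod_cast h2
      calc (m.choose (j + 2) : ℝ) * (((j + 2).factorial : ℝ) * x ^ (j + 2)) =
          (((j + 2).factorial : ℝ) * (m.choose (j + 2) : ℝ)) * x ^ (j + 2) := by ring
        _ ≤ (m : ℝ) ^ (j + 2) * x ^ (j + 2) := mul_le_mul_of_nonneg_right h3 (by positivity)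
        _ = ((m : ℝ) * x) ^ 2 * ((m : ℝ) * x) ^ j := by rw [← mul_pow, ← pow_add, add_comm j 2]
        _ ≤ ((m : ℝ) * x) ^ 2 * (1 / 2) ^ j :=
            mul_le_mul_of_nonneg_left (pow_le_pow_left₀ hmx0 hmx j) (by positivity)
  have e7 : ∑ j ∈ Finset.range (m + 1), h j ≤ ∑ j ∈ Finset.range (m + 2), h j := by
    rw [Finset.sum_range_succ _ (m + 1)]
    have := h0 (m + 1)
    linarith
  have e8 : ∑ j ∈ Finset.range (m + 2), h j ≤ 1 + 2 * ((m : ℝ) * x) ^ 2 := by
    rw [Finset.sum_range_succ', Finset.sum_range_succ']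
    show ∑ j ∈ Finset.range m, ((m : ℝ) * x) ^ 2 * (1 / 2) ^ j + 0 + 1 ≤ _
    rw [← Finset.mul_sum]
    have h2 := sum_geometric_two_le m
    have h3 := mul_le_mul_of_nonneg_left h2 (sq_nonneg ((m : ℝ) * x))
    linarith
  calc ‖M.permanent‖ ≤ ∑ S : Finset ι, ∑ σ ∈ Finset.univ.filter
        (fun σ : Equiv.Perm ι => σ.support = S), x ^ σ.support.card := e1.trans (le_of_eq e2)
    _ ≤ ∑ S : Finset ι, g S.card := Finset.sum_le_sum (fun S _ => e3 S)
    _ = ∑ j ∈ Finset.range (m + 1), (m.choose j : ℝ) * g j := e5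
    _ ≤ ∑ j ∈ Finset.range (m + 1), h j := Finset.sum_le_sum (fun j _ => e6 j)
    _ ≤ _ := e7.trans e8

end Pool.Agent.helper97.PER
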