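import Pool.Agent.helper97.PER.Z7
import Pool.Agent.helper97.PER.Y13

set_option linter.all false
set_option autoImplicit false

/-!
# The inequality of Liang, So and Zhang for blow-ups of one factor (MP_2dd521_co)
-/

namespace Pool.Agent.helper97.PER

open Finset Function
open scoped Real Topology Matrix ComplexConjugate ComplexOrder
open Pool.Agent.helper80.LSZ (kron1)

/-- the case of a unit diagonal -/
theorem unit_case (m k n : ℕ) (hk : (4 * m) ^ 8 ≤ k) (hn : 0 < n)
    (M : Matrix (Fin m) (Fin m) ℂ) (hM : M.PosSemidef) (h1 : ∀ i, M i i = 1)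
    (i0 j0 : Fin m) (hij0 : i0 ≠ j0) (A : Matrix (Fin n) (Fin n) ℂ) (hA : A.PosSemidef) :
    (kron1 k A).permanent.re ^ m * M.permanent.re ^ (k * n) ≤
      (kron1 k (Matrix.kronecker A M)).permanent.re := by
  have hm : 0 < m := lt_of_le_of_lt (Nat.zero_le _) i0.2
  have hm1 : (1 : ℝ) ≤ m := by exact_mod_cast hm
  have hm0 : (0 : ℝ) < m := by linarith
  have hk0 : 0 < k := lt_of_lt_of_le (by positivity) hk
  have hcard : Fintype.card (Fin m) = m := Fintype.card_fin m
  have hm2 : 2 ≤ m := by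
    have h3 := i0.2
    have h4 := j0.2
    have h5 : i0.1 ≠ j0.1 := fun h => hij0 (Fin.ext h)
    omega
  have hp0 : 0 ≤ (kron1 k A).permanent.re := perm_re_nonneg _ (kron1_psd k A hA)
  have hM0 : 0 ≤ M.permanent.re := perm_re_nonneg _ hM
  -- the largest entry off the diagonal
  obtain ⟨x, hx, i, j, hij, hxij⟩ : ∃ x : ℝ, (∀ i j, i ≠ j → ‖M i j‖ ≤ x) ∧
      ∃ i j, i ≠ j ∧ ‖M i j‖ = x := by
    have hne : (Finset.univ.filter (fun p : Fin m × Fin m => p.1 ≠ p.2)).Nonempty :=
      ⟨(i0, j0), Finset.mem_filter.2 ⟨Finset.mem_univ _, hij0⟩⟩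
    obtain ⟨p, hp, hp2⟩ := Finset.exists_max_image _ (fun p : Fin m × Fin m => ‖M p.1 p.2‖) hne
    refine ⟨‖M p.1 p.2‖, ?_, p.1, p.2, (Finset.mem_filter.1 hp).2, rfl⟩
    intro i j hij
    exact hp2 (i, j) (Finset.mem_filter.2 ⟨Finset.mem_univ _, hij⟩)
  have hx0 : 0 ≤ x := by rw [← hxij]; exact norm_nonneg _
  rcases le_total 1 (16 * (m : ℝ) ^ 2 * x) with hfar | hnear
  · -- far from the identity
    have hx1 : x ≤ 1 := by
      rw [← hxij]
      obtain ⟨L, rfl⟩ := exists_gm M hM
      have h2 : ‖gm L i j‖ ^ 2 ≤ 1 := by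
        have h3 : ‖gm L i j‖ ≤ ∑ a, ‖L i a‖ * ‖L j a‖ := by
          unfold gm
          simp only [Matrix.of_apply]
          refine (norm_sum_le _ _).trans (Finset.sum_le_sum (fun a _ => ?_))
          rw [norm_mul, Complex.norm_conj]
        have h4 := (pow_le_pow_left₀ (norm_nonneg _) h3 2).trans
          (Finset.sum_mul_sq_le_sq_mul_sq Finset.univ (fun a => ‖L i a‖) (fun a => ‖L j a‖))
        have h5 : ∀ s, ∑ a, ‖L s a‖ ^ 2 = 1 := by
          intro s
          have h6 : gm L s s = ((∑ a, ‖L s a‖ ^ 2 : ℝ) : ℂ) := by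
            unfold gm
            simp only [Matrix.of_apply]
            push_cast
            refine Finset.sum_congr rfl (fun a _ => ?_)
            rw [Complex.mul_conj, Complex.normSq_eq_norm_sq]
            push_cast
            rfl
          rw [h1 s] at h6
          exact_mod_cast h6.symm
        rw [h5, h5, one_mul] at h4
        exact h4
      nlinarith [norm_nonneg (gm L i j)]
    have hθ : x ^ 2 / (4 * ((m : ℝ) + 1) ^ 2) ≤ 1 := by
      rw [div_le_one (by positivity)]
      nlinarith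
    have h2 := num_far m k hm hk x hx0 hfar hθ
    have h := far1 M hM h1 i j hij k hk0 n hn (by rw [hcard, hxij]; exact h2)
      (by rw [hcard, hxij]; exact hθ)
    rw [hcard] at h
    set Ω := ((k.factorial : ℝ) ^ n) ^ m * ((n : ℝ) ^ n) ^ (k * m) with hΩ
    have hΩ0 : 0 < Ω := by
      have h2 : (0 : ℝ) < n := by exact_mod_cast hn
      have h3 : (0 : ℝ) < (k.factorial : ℝ) := by exact_mod_cast Nat.factorial_pos k
      positivity
    obtain ⟨L, hL⟩ := exists_gm A hA
    obtain ⟨L', hL'⟩ := exists_gm M hM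
    have h3 := comp_gram2 n k hk0 L L' (by rwa [Fintype.card_fin])
    rw [hL, hL', Fintype.card_fin, ← hΩ] at h3
    have h4 : Ω * ((kron1 k A).permanent.re ^ m * M.permanent.re ^ (k * n)) ≤
        Ω * (kron1 k (Matrix.kronecker A M)).permanent.re := by
      calc _ = (Ω * M.permanent.re ^ (k * n)) * (kron1 k A).permanent.re ^ m := by ring
        _ ≤ (kron1 (k * n) M).permanent.re * (kron1 k A).permanent.re ^ m :=
            mul_le_mul_of_nonneg_right h (by positivity)
        _ ≤ _ := h3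
    exact le_of_mul_le_mul_left h4 hΩ0
  · -- near the identity
    have hk60 : 60 * m ^ 2 ≤ k := by
      refine le_trans ?_ hk
      calc 60 * m ^ 2 ≤ 4 ^ 8 * m ^ 2 := Nat.mul_le_mul_right _ (by norm_num)
        _ ≤ 4 ^ 8 * m ^ 8 := Nat.mul_le_mul_left _ (Nat.pow_le_pow_right hm (by norm_num))
        _ = (4 * m) ^ 8 := by rw [mul_pow]
    obtain ⟨l, c, hl1, hl2, hc, hexp⟩ := num_near m k n hm hn hk60 x hx0 hnear
    have hmx : (m : ℝ) * x ≤ 1 / 2 := by nlinarith
    have hup := perm_up2 M h1 x hx0 hx (by rw [hcard]; exact hmx)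
    rw [hcard] at hup
    have hup2 : M.permanent.re ^ (k * n) ≤ 1 + c := by
      have h2 : M.permanent.re ≤ Real.exp (2 * (m : ℝ) ^ 2 * x ^ 2) := by
        refine (Complex.re_le_norm _).trans (hup.trans ?_)
        have h3 := Real.add_one_le_exp (2 * (m : ℝ) ^ 2 * x ^ 2)
        nlinarith
      refine (pow_le_pow_left₀ hM0 h2 (k * n)).trans (le_trans (le_of_eq ?_) hexp)
      rw [← Real.exp_nat_mul]
      congr 1
      ring
    have hpos : 0 < (n.multichoose l : ℝ) := by
      rw [Nat.multichoose_eq]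
      exact_mod_cast Nat.choose_pos (by omega)
    set Cm := M.submatrix (ep i j) (ep i j) with hCm
    have hC0 : Cm none none = 1 := h1 i
    have hC1 : Cm (some ()) (some ()) = 1 := h1 j
    have hCx : Cm none (some ()) * Cm (some ()) none = (x : ℂ) ^ 2 := by
      show M i j * M j i = (x : ℂ) ^ 2
      rw [← hM.1.apply j i, RCLike.star_def, Complex.mul_conj, Complex.normSq_eq_norm_sq, hxij]
      push_cast
      rfl
    have hlow := pair_low Cm hC0 hC1 x hCx k n A hA l hl1 hl2 c hc hpos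
    have hlieb := pair_lieb (kron1 k A) (kron1_psd k A hA) M hM h1 i j hij
    rw [← hCm, hcard] at hlieb
    set p := (kron1 k A).permanent.re with hp
    have h2 := Pool.Agent.helper16.LSZ.permanent_submatrix_equiv (Matrix.kronecker M (kron1 k A))
      (((Equiv.prodAssoc (Fin k) (Fin n) (Fin m)).symm).trans (Equiv.prodComm _ _))
    have h3 : (Matrix.kronecker M (kron1 k A)).submatrix
        (((Equiv.prodAssoc (Fin k) (Fin n) (Fin m)).symm).trans (Equiv.prodComm _ _))
        (((Equiv.prodAssoc (Fin k) (Fin n) (Fin m)).symm).trans (Equiv.prodComm _ _)) =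
        kron1 k (Matrix.kronecker A M) := by
      ext s t
      simp [kron1, Matrix.kronecker, Matrix.kroneckerMap_apply, mul_comm]
    rw [h3] at h2
    rw [h2]
    have e : p ^ m = p ^ 2 * p ^ (m - 2) := by rw [← pow_add]; congr 1; omega
    calc p ^ m * M.permanent.re ^ (k * n) ≤ p ^ m * (1 + c) :=
          mul_le_mul_of_nonneg_left hup2 (by positivity)
      _ = ((1 + c) * p ^ 2) * p ^ (m - 2) := by rw [e]; ring
      _ ≤ (Matrix.kronecker Cm (kron1 k A)).permanent.re * p ^ (m - 2) :=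
          mul_le_mul_of_nonneg_right hlow (by positivity)
      _ ≤ _ := hlieb

/-- **the inequality of Liang, So and Zhang for blow-ups of one factor, uniform** -/
theorem uniform (m k : ℕ) (hk : (4 * m) ^ 8 ≤ k) (n : ℕ) (A : Matrix (Fin n) (Fin n) ℂ)
    (hA : A.PosSemidef) (B : Matrix (Fin m) (Fin m) ℂ) (hB : B.PosSemidef) :
    (kron1 k A).permanent ^ m * B.permanent ^ (k * n) ≤
      (kron1 k (Matrix.kronecker A B)).permanent := by
  by_cases hd : ∀ i j, i ≠ j → B i j = 0
  · exact stable_diag m k n B hB hd A hA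
  push Not at hd
  obtain ⟨i, j, hij, hBij⟩ := hd
  have hm : 0 < m := lt_of_le_of_lt (Nat.zero_le _) i.2
  have hk0 : 0 < k := lt_of_lt_of_le (by positivity) hk
  rcases Nat.eq_zero_or_pos n with hn | hn
  · subst hn
    haveI : IsEmpty (Fin k × Fin 0) := ⟨fun p => p.2.elim0⟩
    haveI : IsEmpty (Fin k × (Fin 0 × Fin m)) := ⟨fun p => p.2.1.elim0⟩
    have e1 : (kron1 k A).permanent = 1 := Matrix.permanent_isEmpty
    have e2 : (kron1 k (Matrix.kronecker A B)).permanent = 1 := Matrix.permanent_isEmpty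
    rw [e1, e2]
    simp
  by_cases hz : ∃ i, B i i = 0
  · obtain ⟨i, hi⟩ := hz
    rw [perm_zero_diag m B hB i hi, zero_pow (Nat.mul_pos hk0 hn).ne', mul_zero]
    exact Pool.Agent.helper16.LSZ.perm_nonneg _ (kron1_psd k _ (kron_psd A hA B hB))
  push Not at hz
  obtain ⟨c, M, hc, hM, h1, hBM⟩ := normal_form m B hB hz
  have h := unit_case m k n hk hn M hM h1 i j hij A hA
  set q : ℝ := (∏ i, c i) ^ 2 with hq
  have hq0 : 0 ≤ q := by positivity
  have e1 : B.permanent = (q : ℂ) * M.permanent := by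
    rw [hBM, perm_scale (fun i => (c i : ℂ)) M]
    congr 1
    rw [hq]; push_cast; rfl
  have e2 : (kron1 k (Matrix.kronecker A B)).permanent = (q : ℂ) ^ (k * n) *
      (kron1 k (Matrix.kronecker A M)).permanent := by
    have e3 : kron1 k (Matrix.kronecker A B) = Matrix.of fun s t : Fin k × (Fin n × Fin m) =>
        (c s.2.2 : ℂ) * (c t.2.2 : ℂ) * kron1 k (Matrix.kronecker A M) s t := by
      ext s t
      simp only [kron1, Matrix.kronecker, Matrix.kroneckerMap_apply, Matrix.of_apply, hBM]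
      ring
    rw [e3, perm_scale (fun s : Fin k × (Fin n × Fin m) => (c s.2.2 : ℂ))]
    congr 1
    have e4 : ∏ s : Fin k × (Fin n × Fin m), (c s.2.2 : ℂ) = (∏ i, (c i : ℂ)) ^ (k * n) := by
      rw [Fintype.prod_prod_type]
      simp only [Fintype.prod_prod_type, Finset.prod_const, Finset.card_univ, Fintype.card_fin]
      rw [← pow_mul, mul_comm n k]
    rw [e4, hq]
    push_cast
    rw [← pow_mul, ← pow_mul, mul_comm]
  obtain ⟨ha, -⟩ := Pool.Agent.helper16.LSZ.perm_real (kron1 k A) (kron1_psd k A hA)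
  obtain ⟨hb, -⟩ := Pool.Agent.helper16.LSZ.perm_real M hM
  obtain ⟨hp, -⟩ := Pool.Agent.helper16.LSZ.perm_real (kron1 k (Matrix.kronecker A M))
    (kron1_psd k _ (kron_psd A hA M hM))
  rw [e1, e2, ha, hb, hp]
  have h2 := mul_le_mul_of_nonneg_left h (pow_nonneg hq0 (k * n))
  have h3 : ((((kron1 k A).permanent.re ^ m * (q * M.permanent.re) ^ (k * n) : ℝ)) : ℂ) ≤
      ((q ^ (k * n) * (kron1 k (Matrix.kronecker A M)).permanent.re : ℝ) : ℂ) := by
    have h4 : (kron1 k A).permanent.re ^ m * (q * M.permanent.re) ^ (k * n) ≤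
        q ^ (k * n) * (kron1 k (Matrix.kronecker A M)).permanent.re := by
      rw [mul_pow]
      linarith
    exact_mod_cast h4
  push_cast at h3
  exact h3

end Pool.Agent.helper97.PER
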