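import Pool.Agent.helper97.PER.Z8

set_option linter.all false
set_option autoImplicit false

/-!
# The terms of the expansion of a pair, for a factor of small rank (MP_2dd521_co)
-/

namespace Pool.Agent.helper97.PER

open Finset Function
open scoped Real Topology Matrix ComplexConjugate ComplexOrder
open Pool.Agent.helper16.LSZ (VV GG HH pp GG_eq' GG_posSemidef VV_posSemidef perm_real)

section abstract

variable {S T : Type*} [Fintype S] [DecidableEq S] [Fintype T] [DecidableEq T]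

/-- the trace of a product with a factor of small rank -/
theorem trace_fac (V : Matrix S S ℂ) (hV : V.IsHermitian) (K : Matrix T S ℂ) :
    ∃ t : ℝ, (Vᵀ * ((Kᴴ * K) * Vᵀ * (Kᴴ * K))).trace = (t : ℂ) ∧
      ‖(Vᵀ * (Kᴴ * K)).trace‖ ^ 2 ≤ Fintype.card T * t ∧ 0 ≤ t := by
  classical
  set H : Matrix T T ℂ := K * Vᵀ * Kᴴ with hH
  have hHh : H.IsHermitian := by
    unfold Matrix.IsHermitian
    rw [hH, Matrix.conjTranspose_mul, Matrix.conjTranspose_mul, Matrix.conjTranspose_conjTranspose,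
      (hV.transpose).eq, Matrix.mul_assoc]
  have e1 : (Vᵀ * ((Kᴴ * K) * Vᵀ * (Kᴴ * K))).trace = (H * H).trace := by
    rw [hH]
    have : Vᵀ * (Kᴴ * K * Vᵀ * (Kᴴ * K)) = (Vᵀ * Kᴴ * K * Vᵀ * Kᴴ) * K := by
      simp only [Matrix.mul_assoc]
    rw [this, Matrix.trace_mul_comm]
    simp only [Matrix.mul_assoc]
  have e2 : (Vᵀ * (Kᴴ * K)).trace = H.trace := by
    rw [hH, ← Matrix.mul_assoc, Matrix.trace_mul_comm, Matrix.mul_assoc]
  refine ⟨∑ a, ∑ b, ‖H a b‖ ^ 2, ?_, ?_, ?_⟩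
  · rw [e1, trace_herm H hHh]
  · rw [e2]
    have h1 : ‖H.trace‖ ≤ ∑ a, ‖H a a‖ := norm_sum_le _ _
    have h2 := pow_le_pow_left₀ (norm_nonneg _) h1 2
    have h3 : (∑ a, ‖H a a‖) ^ 2 ≤ (Fintype.card T : ℝ) * ∑ a, ‖H a a‖ ^ 2 := by
      have := sq_sum_le_card_mul_sum_sq (s := (Finset.univ : Finset T)) (f := fun a => ‖H a a‖)
      simpa using this
    have h4 : ∑ a, ‖H a a‖ ^ 2 ≤ ∑ a, ∑ b, ‖H a b‖ ^ 2 := by
      refine Finset.sum_le_sum (fun a _ => ?_)
      exact Finset.single_le_sum (f := fun b => ‖H a b‖ ^ 2) (fun b _ => by positivity)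
        (Finset.mem_univ a)
    exact (h2.trans h3).trans (mul_le_mul_of_nonneg_left h4 (Nat.cast_nonneg _))
  · exact Finset.sum_nonneg (fun a _ => Finset.sum_nonneg (fun b _ => by positivity))

/-- rows which depend only on a type can be put together -/
theorem merge {Φ : Type*} [Fintype Φ] (P : Matrix Φ S ℂ) (τ : Φ → T)
    (hτ : ∀ φ φ', τ φ = τ φ' → ∀ s, P φ s = P φ' s) : ∃ K : Matrix T S ℂ, Kᴴ * K = Pᴴ * P := by
  classical
  let c : T → ℕ := fun t => (Finset.univ.filter (fun φ => τ φ = t)).card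
  let K : Matrix T S ℂ := Matrix.of fun t s =>
    if h : ∃ φ, τ φ = t then ((√(c t : ℝ) : ℝ) : ℂ) * P h.choose s else 0
  refine ⟨K, ?_⟩
  ext s r
  rw [Matrix.mul_apply, Matrix.mul_apply,
    ← Finset.sum_fiberwise_of_maps_to (s := (Finset.univ : Finset Φ)) (t := (Finset.univ : Finset T))
      (g := τ) (fun φ _ => Finset.mem_univ _)]
  refine Finset.sum_congr rfl (fun t _ => ?_)
  rw [Matrix.conjTranspose_apply]
  simp only [K, Matrix.of_apply]
  split_ifs with h
  · have h1 : ∀ φ ∈ Finset.univ.filter (fun φ => τ φ = t), Pᴴ s φ * P φ r =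
        star (P h.choose s) * P h.choose r := by
      intro φ hφ
      have h2 : τ φ = τ h.choose := by rw [(Finset.mem_filter.1 hφ).2, h.choose_spec]
      rw [Matrix.conjTranspose_apply, hτ _ _ h2 s, hτ _ _ h2 r]
    rw [Finset.sum_congr rfl h1, Finset.sum_const, nsmul_eq_mul]
    have h3 : ((√(c t : ℝ) : ℝ) : ℂ) * ((√(c t : ℝ) : ℝ) : ℂ) = (c t : ℂ) := by
      rw [← Complex.ofReal_mul, Real.mul_self_sqrt (Nat.cast_nonneg _)]
      push_cast
      rfl
    rw [star_mul', RCLike.star_def, Complex.conj_ofReal]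
    calc ((√(c t : ℝ) : ℝ) : ℂ) * (starRingEnd ℂ) (P h.choose s) *
        (((√(c t : ℝ) : ℝ) : ℂ) * P h.choose r) =
        (((√(c t : ℝ) : ℝ) : ℂ) * ((√(c t : ℝ) : ℝ) : ℂ)) *
          ((starRingEnd ℂ) (P h.choose s) * P h.choose r) := by ring
      _ = _ := by rw [h3]
  · rw [Finset.sum_eq_zero, mul_zero]
    intro φ hφ
    exact absurd ⟨φ, (Finset.mem_filter.1 hφ).2⟩ h

end abstract

section

variable {J κ : Type*} [Fintype J] [DecidableEq J] [Fintype κ] [DecidableEq κ]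

/-- the coordinates of the products of `l` vectors -/
noncomputable def PL (L : J → κ → ℂ) (l : ℕ) : Matrix (Fin l → κ) (Sl J l) ℂ :=
  Matrix.of fun φ S => ∑ u : Fin l ≃ {a // a ∈ S.1}, ∏ j, conj (L (u j).1 (φ j))

theorem PL_mul (L : J → κ → ℂ) (l : ℕ) :
    (PL L l)ᴴ * PL L l = (l.factorial : ℂ) • GGl (gm L) l := by
  ext S R
  rw [Matrix.mul_apply, Matrix.smul_apply, smul_eq_mul]
  simp_rw [Matrix.conjTranspose_apply, PL, Matrix.of_apply, star_sum, star_prod, RCLike.star_def,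
    Complex.conj_conj, Finset.sum_mul_sum, ← Finset.prod_mul_distrib]
  rw [Finset.sum_comm]
  have h0 : ∀ u : Fin l ≃ {a // a ∈ S.1}, ∑ φ : Fin l → κ, ∑ v : Fin l ≃ {a // a ∈ R.1},
      ∏ j, (L (u j).1 (φ j) * conj (L (v j).1 (φ j))) = GG (gm L) S.1 R.1 := by
    intro u
    rw [Finset.sum_comm]
    have h1 : ∀ v : Fin l ≃ {a // a ∈ R.1}, ∑ φ : Fin l → κ,
        ∏ j, (L (u j).1 (φ j) * conj (L (v j).1 (φ j))) = ∏ j, gm L (u j).1 (v j).1 := by
      intro v
      rw [sum_prod_maps (fun (j : Fin l) (c : κ) => L (u j).1 c * conj (L (v j).1 c))]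
      rfl
    simp_rw [h1]
    rw [GG_eq']
    refine Fintype.sum_equiv (Equiv.equivCongr u (Equiv.refl _)) _ _ fun v => ?_
    refine Fintype.prod_equiv u _ _ fun t => ?_
    simp
  rw [Finset.sum_congr rfl fun u _ => h0 u, Finset.sum_const, nsmul_eq_mul]
  congr 1
  rw [Finset.card_univ, Fintype.card_equiv (Fintype.equivOfCardEq (by simp [S.2]))]
  simp

/-- the type of a map -/
def ty2 (l : ℕ) (φ : Fin l → κ) : Sym κ l :=
  ⟨Finset.univ.val.map φ, by rw [Multiset.card_map]; simp⟩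

theorem card_fib2 (l : ℕ) (φ : Fin l → κ) (c : κ) :
    Fintype.card {a : Fin l // φ a = c} = Multiset.count c (Finset.univ.val.map φ) := by
  rw [Fintype.card_subtype, Multiset.count_map, Finset.card_def, Finset.filter_val]
  congr 1
  refine Multiset.filter_congr (fun x _ => ?_)
  exact eq_comm

theorem PL_ty (L : J → κ → ℂ) (l : ℕ) (φ φ' : Fin l → κ) (h : ty2 l φ = ty2 l φ') (S : Sl J l) :
    PL L l φ S = PL L l φ' S := by
  have h1 : (Finset.univ : Finset (Fin l)).val.map φ = Finset.univ.val.map φ' :=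
    congrArg Subtype.val h
  obtain ⟨u, hu⟩ := equiv_of_fib φ φ' (fun c => by rw [card_fib2, card_fib2, h1])
  unfold PL
  simp only [Matrix.of_apply]
  refine Fintype.sum_equiv (Equiv.equivCongr u (Equiv.refl _)) _ _ fun v => ?_
  refine Fintype.prod_equiv u _ _ fun t => ?_
  simp [hu]

theorem GGl_fac (L : J → κ → ℂ) (l : ℕ) : ∃ K : Matrix (Sym κ l) (Sl J l) ℂ,
    GGl (gm L) l = Kᴴ * K := by
  obtain ⟨K, hK⟩ := merge (PL L l) (ty2 l) (fun φ φ' h s => PL_ty L l φ φ' h s)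
  have hf : (0 : ℝ) < (l.factorial : ℝ) := by exact_mod_cast Nat.factorial_pos l
  refine ⟨(((√(l.factorial : ℝ))⁻¹ : ℝ) : ℂ) • K, ?_⟩
  rw [Matrix.conjTranspose_smul, Matrix.smul_mul, Matrix.mul_smul, hK, PL_mul, smul_smul, smul_smul,
    RCLike.star_def, Complex.conj_ofReal]
  have h1 : (((√(l.factorial : ℝ))⁻¹ : ℝ) : ℂ) * ((((√(l.factorial : ℝ))⁻¹ : ℝ) : ℂ) *
      (l.factorial : ℂ)) = 1 := by
    have h2 : (√(l.factorial : ℝ))⁻¹ * ((√(l.factorial : ℝ))⁻¹ * (l.factorial : ℝ)) = 1 := by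
      have h3 : √(l.factorial : ℝ) ≠ 0 := by positivity
      have h4 := Real.mul_self_sqrt hf.le
      field_simp
      rw [sq, h4]
    exact_mod_cast h2
  rw [mul_assoc, h1, one_smul]

/-- the term of `l` exchanges for a factor of small rank -/
theorem Tl_rank (L : J → κ → ℂ) (l : ℕ) :
    ∃ t : ℝ, Tl (gm L) l = (t : ℂ) ∧ 0 ≤ t ∧
      (((Fintype.card J).choose l : ℝ) * (gm L).permanent.re) ^ 2 ≤
        ((Fintype.card κ).multichoose l : ℝ) * t := by
  obtain ⟨hpr, hp⟩ := perm_real (gm L) (gm_psd L)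
  obtain ⟨K, hK⟩ := GGl_fac L l
  obtain ⟨t, h1, h2, h3⟩ := trace_fac (VVl (gm L) l)
    (((VV_posSemidef (gm L) (gm_psd L)).submatrix _).1) K
  rw [← hK] at h1 h2
  refine ⟨t, by rw [Tl_eq, h1], h3, ?_⟩
  rw [trace_l, hpr, norm_mul, Complex.norm_natCast, Complex.norm_real,
    Real.norm_of_nonneg hp, Sym.card_sym_eq_multichoose] at h2
  exact h2

/-- a lower bound for a pair -/
theorem pair_low_rank (C : Matrix (Option Unit) (Option Unit) ℂ) (h0 : C none none = 1)
    (h1 : C (some ()) (some ()) = 1) (x : ℝ) (hx : C none (some ()) * C (some ()) none = (x : ℂ) ^ 2)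
    (L : J → κ → ℂ) (l : ℕ) (hl : 1 ≤ l) (hlN : l ≤ Fintype.card J) (c : ℝ)
    (hc : c * ((Fintype.card κ).multichoose l : ℝ) ≤ x ^ (2 * l) *
      ((Fintype.card J).choose l : ℝ) ^ 2)
    (hpos : 0 < ((Fintype.card κ).multichoose l : ℝ)) :
    (1 + c) * (gm L).permanent.re ^ 2 ≤ (Matrix.kronecker C (gm L)).permanent.re := by
  choose t ht1 ht2 ht3 using fun l => Tl_rank L l
  have e : (Matrix.kronecker C (gm L)).permanent =
      ((∑ j ∈ Finset.range (Fintype.card J + 1), x ^ (2 * j) * t j : ℝ) : ℂ) := by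
    rw [pair_expand_card C h0 h1 (gm L), hx]
    push_cast
    refine Finset.sum_congr rfl (fun j _ => ?_)
    rw [ht1 j, pow_mul]
  rw [e, Complex.ofReal_re]
  set p := (gm L).permanent.re with hp
  have hpe : ∀ j, 0 ≤ x ^ (2 * j) := fun j => by rw [pow_mul]; positivity
  have hsub : ({0, l} : Finset ℕ) ⊆ Finset.range (Fintype.card J + 1) := by
    intro j hj
    simp only [Finset.mem_insert, Finset.mem_singleton] at hj
    rw [Finset.mem_range]
    omega
  have h2 := Finset.sum_le_sum_of_subset_of_nonneg (f := fun j => x ^ (2 * j) * t j) hsub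
    (fun j _ _ => mul_nonneg (hpe j) (ht2 j))
  refine le_trans ?_ h2
  rw [Finset.sum_pair (by omega)]
  have e0 : p ^ 2 ≤ t 0 := by
    have := ht3 0
    simpa using this
  have el : c * p ^ 2 ≤ x ^ (2 * l) * t l := by
    have h4 : c * p ^ 2 * ((Fintype.card κ).multichoose l : ℝ) ≤
        (x ^ (2 * l) * t l) * ((Fintype.card κ).multichoose l : ℝ) := by
      calc c * p ^ 2 * ((Fintype.card κ).multichoose l : ℝ) =
            (c * ((Fintype.card κ).multichoose l : ℝ)) * p ^ 2 := by ring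
        _ ≤ (x ^ (2 * l) * ((Fintype.card J).choose l : ℝ) ^ 2) * p ^ 2 :=
            mul_le_mul_of_nonneg_right hc (by positivity)
        _ = x ^ (2 * l) * (((Fintype.card J).choose l : ℝ) * p) ^ 2 := by ring
        _ ≤ x ^ (2 * l) * (((Fintype.card κ).multichoose l : ℝ) * t l) :=
            mul_le_mul_of_nonneg_left (ht3 l) (hpe l)
        _ = _ := by ring
    exact le_of_mul_le_mul_right h4 hpos
  simp only [Nat.mul_zero, pow_zero, one_mul]
  linarith

end

end Pool.Agent.helper97.PER
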